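import Pool.Agent.Helper42.Mk2.Defs3

set_option autoImplicit false

namespace Pool.Agent.Helper42.Mk2

open Finset

variable {V : Type} [AddCommGroup V]

/-- corners of the complete base blocks of a patch -/
def Q0 (io : ℤ × ℤ →+ V) (k : ℤ) (P : Set V) (lab : V → Lab) : Set V :=
  {p | p ∈ P ∧ lab p = some none ∧
    ∀ u : ℤ × ℤ, 0 ≤ u.1 → u.1 < k * MM → 0 ≤ u.2 → u.2 < k → p + io u ∈ P}

/-- the letter of a base block -/
def L0 (io : ℤ × ℤ →+ V) (k : ℤ) (lab : V → Lab) (p : V) : W :=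
  match lab (p + io (k, 0)) with
  | some (some w) => w
  | _ => (0, 0, 0)

theorem one_lt_MM : 1 < MM := by
  unfold MM
  have := mm_pos
  omega

theorem enc_letter {k : ℤ} (hk : 0 < k) (t : ℤ → ℤ → W) (i j : ℤ) :
    enc k t (k * MM * i + k) (k * j) = some (some (t i j)) := by
  have e : k * MM * i + k = k * (1 + MM * i) := by ring
  have hM1 := one_lt_MM
  rw [e, enc_mul hk]
  unfold cc
  rw [Int.add_mul_emod_self_left, Int.add_mul_ediv_left _ _ (by omega)]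
  rw [Int.emod_eq_of_lt (by norm_num) hM1, Int.ediv_eq_zero_of_lt (by norm_num) hM1]
  rw [if_neg (by norm_num), sub_self, rot_zero, zero_add]

theorem enc_zero_block' {k : ℤ} (hk : 0 < k) {t t' : ℤ → ℤ → W} (h : t 0 0 = t' 0 0) {a b : ℤ}
    (ha : 0 ≤ a) (ha' : a < k * MM) (hb : 0 ≤ b) (hb' : b < k) :
    enc k t a b = enc k t' a b := by
  unfold enc
  by_cases hd : k ∣ a ∧ k ∣ b
  · rw [if_pos hd, if_pos hd]
    obtain ⟨⟨X, rfl⟩, ⟨Y, rfl⟩⟩ := hd
    rw [Int.mul_ediv_cancel_left _ hk.ne', Int.mul_ediv_cancel_left _ hk.ne']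
    have hY : Y = 0 := by
      have h1 : 0 ≤ Y := nonneg_of_mul_nonneg_right hb hk
      have h2 : Y < 1 := by
        by_contra hcon
        push Not at hcon
        nlinarith
      omega
    have hX : 0 ≤ X := nonneg_of_mul_nonneg_right ha hk
    have hX' : X < MM := lt_of_mul_lt_mul_left ha' hk.le
    subst hY
    unfold cc
    rw [Int.ediv_eq_zero_of_lt hX hX', h]
  · rw [if_neg hd, if_neg hd]

section

variable {io : ℤ × ℤ →+ V} {k : ℤ} (hk : 0 < k)
  {ρ : ℤ} {P : Set V} {lab : V → Lab} (hloc : Loc io k ρ P lab) (hρ : 2 * (k * MM) ≤ ρ)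

include hk hloc in
theorem view_mark {p : V} (hp : p ∈ P) (hm : lab p = some none) : ∃ t, Val t ∧
    ∀ a b : ℤ, |a| ≤ ρ → |b| ≤ ρ → p + io (a, b) ∈ P → lab (p + io (a, b)) = enc k t a b := by
  obtain ⟨c, hc, h0, h1⟩ := hloc p hp
  rw [hm] at h0
  obtain ⟨t, ht, h2⟩ := GG_mark hk hc h0
  exact ⟨t, ht, fun a b ha hb h => by rw [h1 a b ha hb h, h2]⟩

include hk hloc hρ in
theorem view_Q0 {p : V} (hp : p ∈ Q0 io k P lab) : ∃ t, Val t ∧ t 0 0 = L0 io k lab p ∧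
    ∀ a b : ℤ, |a| ≤ ρ → |b| ≤ ρ → p + io (a, b) ∈ P → lab (p + io (a, b)) = enc k t a b := by
  obtain ⟨t, ht, h1⟩ := view_mark hk hloc hp.1 hp.2.1
  refine ⟨t, ht, ?_, h1⟩
  have hM := one_lt_MM
  have hkM : k < k * MM := by nlinarith
  have h2 := h1 k 0 (by rw [abs_of_pos hk]; omega) (by rw [abs_zero]; omega)
    (hp.2.2 (k, 0) hk.le hkM le_rfl hk)
  have h3 := enc_letter hk t 0 0
  rw [mul_zero, zero_add, mul_zero] at h3
  rw [h3] at h2
  unfold L0
  rw [h2]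

include hk hloc hρ in
theorem base_pval : PVal io (k * MM) k (Q0 io k P lab) (L0 io k lab) := by
  have hM := one_lt_MM
  have hkM : k < k * MM := by nlinarith
  have hkM0 : 0 < k * MM := by omega
  refine ⟨?_, ?_, ?_⟩
  · intro p hp
    obtain ⟨t, ht, h0, _⟩ := view_Q0 hk hloc hρ hp
    rw [← h0]
    exact (ht 0 0).1.1
  · intro p hp hp'
    obtain ⟨t, ht, h0, h1⟩ := view_Q0 hk hloc hρ hp
    have h2 : L0 io k lab (p + io (k * MM, 0)) = t 1 0 := by
      have e : p + io (k * MM, 0) + io (k, 0) = p + io (k * MM + k, 0) := by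
        rw [add_assoc, ← map_add]
        simp
      have h3 := h1 (k * MM + k) 0 (by rw [abs_of_pos (by omega)]; omega)
        (by rw [abs_zero]; omega) (by
          rw [← e]
          exact hp'.2.2 (k, 0) hk.le hkM le_rfl hk)
      have h4 := enc_letter hk t 1 0
      rw [mul_one, mul_zero] at h4
      unfold L0
      rw [e, h3, h4]
    rw [← h0, h2]
    have := (ht 0 0).1
    rwa [zero_add] at this
  · intro p hp hp'
    obtain ⟨t, ht, h0, h1⟩ := view_Q0 hk hloc hρ hp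
    have h2 : L0 io k lab (p + io (0, k)) = t 0 1 := by
      have e : p + io (0, k) + io (k, 0) = p + io (k, k) := by
        rw [add_assoc, ← map_add]
        simp
      have h3 := h1 k k (by rw [abs_of_pos hk]; omega)
        (by rw [abs_of_pos hk]; omega) (by
          rw [← e]
          exact hp'.2.2 (k, 0) hk.le hkM le_rfl hk)
      have h4 := enc_letter hk t 0 1
      rw [mul_one, mul_zero, zero_add] at h4
      unfold L0
      rw [e, h3, h4]
    rw [← h0, h2]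
    have := (ht 0 0).2
    rwa [zero_add] at this

include hk hloc hρ in
theorem base_label {p : V} (hp : p ∈ Q0 io k P lab) {u : ℤ × ℤ} (h1 : 0 ≤ u.1)
    (h2 : u.1 < k * MM) (h3 : 0 ≤ u.2) (h4 : u.2 < k) :
    lab (p + io u) = enc k (fun _ _ => L0 io k lab p) u.1 u.2 := by
  obtain ⟨t, ht, h0, h5⟩ := view_Q0 hk hloc hρ hp
  have hkM : k ≤ k * MM := k_le hk
  have h6 := h5 u.1 u.2 (by rw [abs_of_nonneg h1]; omega) (by rw [abs_of_nonneg h3]; omega)
    (hp.2.2 u h1 h2 h3 h4)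
  have h7 : lab (p + io u) = enc k t u.1 u.2 := h6
  rw [h7]
  exact enc_zero_block' hk h0 h1 h2 h3 h4

include hk hloc hρ in
theorem base_disj {p : V} (hp : p ∈ Q0 io k P lab) (u : ℤ × ℤ) (h1 : |u.1| < k * MM)
    (h2 : |u.2| < k) (hu : p + io u ∈ Q0 io k P lab) : u = 0 := by
  obtain ⟨t, ht, h5⟩ := view_mark hk hloc hp.1 hp.2.1
  have hkM : k ≤ k * MM := k_le hk
  have h6 : lab (p + io u) = enc k t u.1 u.2 := h5 u.1 u.2 (by omega) (by omega) hu.1
  rw [hu.2.1] at h6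
  obtain ⟨h7, h8⟩ := (enc_mark hk t u.1 u.2).1 h6.symm
  exact Prod.ext (Int.eq_zero_of_abs_lt_dvd h7 h1) (Int.eq_zero_of_abs_lt_dvd h8 h2)

include hk hloc hρ in
theorem base_adj {p : V} (hp : p ∈ Q0 io k P lab) {e : ℤ × ℤ}
    (he : e = (1, 0) ∨ e = (-1, 0) ∨ e = (0, 1) ∨ e = (0, -1))
    (hfull : ∀ u : ℤ × ℤ, 0 ≤ u.1 → u.1 < k * MM → 0 ≤ u.2 → u.2 < k →
      p + io (k * MM * e.1, k * e.2) + io u ∈ P) :
    p + io (k * MM * e.1, k * e.2) ∈ Q0 io k P lab := by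
  have hkM : k ≤ k * MM := k_le hk
  have hkM0 : 0 < k * MM := by omega
  have h0 : p + io (k * MM * e.1, k * e.2) ∈ P := by
    have := hfull 0 le_rfl hkM0 le_rfl hk
    rwa [map_zero, add_zero] at this
  refine ⟨h0, ?_, hfull⟩
  obtain ⟨t, ht, h5⟩ := view_mark hk hloc hp.1 hp.2.1
  have b1 : |k * MM * e.1| ≤ ρ := by
    rcases he with rfl | rfl | rfl | rfl <;> simp [abs_of_pos, hkM0] <;> omega
  have b2 : |k * e.2| ≤ ρ := by
    rcases he with rfl | rfl | rfl | rfl <;> simp [abs_of_pos, hk] <;> omega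
  rw [h5 _ _ b1 b2 h0, enc_mark hk]
  exact ⟨dvd_mul_right _ _, dvd_mul_right _ _⟩

include hk hloc hρ in
theorem base_cover {x : V} (hx : x ∈ P)
    (hfull : ∀ u : ℤ × ℤ, |u.1| ≤ k * MM → |u.2| ≤ k * MM → x + io u ∈ P) :
    ∃ p ∈ Q0 io k P lab, ∃ u : ℤ × ℤ, (0 ≤ u.1 ∧ u.1 < k * MM) ∧ (0 ≤ u.2 ∧ u.2 < k) ∧
      x = p + io u := by
  have hkM : k ≤ k * MM := k_le hk
  have hkM0 : 0 < k * MM := by omega
  obtain ⟨c, ⟨t, ht, x0, y0, hc⟩, h0, h1⟩ := hloc x hx
  have m1 := Int.emod_nonneg x0 hkM0.ne'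
  have m2 := Int.emod_lt_of_pos x0 hkM0
  have m3 := Int.emod_nonneg y0 hk.ne'
  have m4 := Int.emod_lt_of_pos y0 hk
  have hcell : ∀ u : ℤ × ℤ, 0 ≤ u.1 → u.1 < k * MM → 0 ≤ u.2 → u.2 < k →
      x + io (-(x0 % (k * MM)), -(y0 % k)) + io u ∈ P := by
    intro u a1 a2 a3 a4
    rw [add_assoc, ← map_add]
    apply hfull
    · change |-(x0 % (k * MM)) + u.1| ≤ k * MM
      rw [abs_le]; constructor <;> omega
    · change |-(y0 % k) + u.2| ≤ k * MM
      rw [abs_le]; constructor <;> omega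
  refine ⟨x + io (-(x0 % (k * MM)), -(y0 % k)), ⟨?_, ?_, hcell⟩,
    (x0 % (k * MM), y0 % k), ⟨m1, m2⟩, ⟨m3, m4⟩, ?_⟩
  · have := hcell 0 le_rfl hkM0 le_rfl hk
    rwa [map_zero, add_zero] at this
  · have hP : x + io (-(x0 % (k * MM)), -(y0 % k)) ∈ P := by
      have := hcell 0 le_rfl hkM0 le_rfl hk
      rwa [map_zero, add_zero] at this
    rw [h1 _ _ (by rw [abs_le]; constructor <;> omega) (by rw [abs_le]; constructor <;> omega) hP,
      hc, enc_mark hk]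
    constructor
    · rw [neg_add_eq_sub]
      exact Int.dvd_self_sub_emod
    · rw [neg_add_eq_sub]
      exact Int.dvd_self_sub_emod
  · rw [add_assoc, ← map_add]
    have : ((-(x0 % (k * MM)), -(y0 % k)) : ℤ × ℤ) + (x0 % (k * MM), y0 % k) = 0 := by
      simp
    rw [this, map_zero, add_zero]

end

end Pool.Agent.Helper42.Mk2
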