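import Pool.Agent.Helper42.Mk2.Enc2

set_option autoImplicit false

namespace Pool.Agent.Helper42.Mk2

open Finset

open scoped Classical in
/-- number of occurrences of a pattern of the encoded configuration based in a block -/
noncomputable def cnt (k : ℤ) (D : Finset (ℤ × ℤ)) (f : ℤ × ℤ → Lab) (n : ℕ) (t : ℤ → ℤ → W)
    (X Y : ℤ) : ℝ :=
  (((Finset.Ico 0 (k * MM * 4 ^ n) ×ˢ Finset.Ico 0 (k * 4 ^ n)).filter (fun u =>
    ∀ δ ∈ D, enc k (upn n t) (k * MM * 4 ^ n * X + u.1 + δ.1) (k * 4 ^ n * Y + u.2 + δ.2) =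
      f δ)).card : ℝ)

theorem up_shift69 (t : ℤ → ℤ → W) (a b x y : ℤ) :
    up (fun i j => t (i + a) (j + b)) x y = up t (x + 4 * a) (y + 4 * b) := by
  unfold up
  have h1 : (x + 4 * a) % 4 = x % 4 := by omega
  have h2 : (y + 4 * b) % 4 = y % 4 := by omega
  have h3 : (x + 4 * a) / 4 = x / 4 + a := by omega
  have h4 : (y + 4 * b) / 4 = y / 4 + b := by omega
  rw [h1, h2, h3, h4]

theorem upn_shift69 (n : ℕ) : ∀ (t : ℤ → ℤ → W) (a b x y : ℤ),
    upn n (fun i j => t (i + a) (j + b)) x y = upn n t (x + 4 ^ n * a) (y + 4 ^ n * b) := by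
  induction n with
  | zero => intro t a b x y; simp [upn]
  | succ n ih =>
    intro t a b x y
    have h : up (fun i j => t (i + a) (j + b)) = fun i j => up t (i + 4 * a) (j + 4 * b) := by
      funext i j
      exact up_shift69 t a b i j
    show upn n (up (fun i j => t (i + a) (j + b))) x y = upn n (up t) _ _
    rw [h, ih]
    congr 1 <;> ring

theorem upn_local69 (n : ℕ) : ∀ (t t' : ℤ → ℤ → W) (x y : ℤ),
    t (x / 4 ^ n) (y / 4 ^ n) = t' (x / 4 ^ n) (y / 4 ^ n) → upn n t x y = upn n t' x y := by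
  induction n with
  | zero => intro t t' x y h; simpa [upn] using h
  | succ n ih =>
    intro t t' x y h
    show upn n (up t) x y = upn n (up t') x y
    apply ih
    unfold up
    have e1 : x / 4 ^ n / 4 = x / 4 ^ (n + 1) := by
      rw [pow_succ, Int.ediv_ediv_of_nonneg (by positivity)]
    have e2 : y / 4 ^ n / 4 = y / 4 ^ (n + 1) := by
      rw [pow_succ, Int.ediv_ediv_of_nonneg (by positivity)]
    rw [e1, e2, h]

theorem enc_local69 {k : ℤ} (hk : 0 < k) (s s' : ℤ → ℤ → W) (x y : ℤ)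
    (h : s (x / (k * MM)) (y / k) = s' (x / (k * MM)) (y / k)) : enc k s x y = enc k s' x y := by
  unfold enc cc
  have e : x / k / MM = x / (k * MM) := Int.ediv_ediv_of_nonneg hk.le
  rw [e, h]

theorem cnt_shift69 (k : ℤ) (hk : 0 < k) (D : Finset (ℤ × ℤ)) (f : ℤ × ℤ → Lab) (m : ℕ)
    (t : ℤ → ℤ → W) (X Y : ℤ) :
    cnt k D f m t X Y = cnt k D f m (fun i j => t (i + X) (j + Y)) 0 0 := by
  classical
  unfold cnt
  congr 2
  apply Finset.filter_congr
  intro u _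
  apply forall₂_congr
  intro δ _
  have e : enc k (upn m t) (k * MM * 4 ^ m * X + u.1 + δ.1) (k * 4 ^ m * Y + u.2 + δ.2) =
      enc k (upn m (fun i j => t (i + X) (j + Y))) (k * MM * 4 ^ m * 0 + u.1 + δ.1)
        (k * 4 ^ m * 0 + u.2 + δ.2) := by
    have h1 : k * MM * 4 ^ m * X + u.1 + δ.1 = (u.1 + δ.1) + k * MM * (4 ^ m * X) := by ring
    have h2 : k * 4 ^ m * Y + u.2 + δ.2 = (u.2 + δ.2) + k * (4 ^ m * Y) := by ring
    rw [h1, h2, enc_shift hk]
    have h3 : (fun a b => upn m t (a + 4 ^ m * X) (b + 4 ^ m * Y)) =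
        upn m (fun i j => t (i + X) (j + Y)) := by
      funext a b
      rw [upn_shift69]
    rw [h3]
    congr 1 <;> ring
  rw [e]

/-- the configuration with the letters of `l` on the four quadrants -/
def quad69 (l : W4) (i j : ℤ) : W :=
  if i < 1 then (if j < 1 then l.1 else l.2.2.1) else (if j < 1 then l.2.1 else l.2.2.2)

theorem quad_w469 (t : ℤ → ℤ → W) (X Y i j : ℤ) (hi : 0 ≤ i) (hi2 : i < 2) (hj : 0 ≤ j)
    (hj2 : j < 2) : quad69 (w4 t X Y) i j = t (i + X) (j + Y) := by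
  unfold quad69 w4
  have h1 : i = 0 ∨ i = 1 := by omega
  have h2 : j = 0 ∨ j = 1 := by omega
  rcases h1 with rfl | rfl <;> rcases h2 with rfl | rfl <;> simp [add_comm]

theorem cnt_local69 (k : ℤ) (hk : 0 < k) (D : Finset (ℤ × ℤ)) (f : ℤ × ℤ → Lab) (m : ℕ)
    (hD : ∀ δ ∈ D, 0 ≤ δ.1 ∧ 0 ≤ δ.2) (hm : ∀ δ ∈ D, δ.1 < 4 ^ m ∧ δ.2 < 4 ^ m)
    (t : ℤ → ℤ → W) (X Y : ℤ) :
    cnt k D f m t X Y = cnt k D f m (quad69 (w4 t X Y)) 0 0 := by
  classical
  rw [cnt_shift69 k hk]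
  unfold cnt
  congr 2
  apply Finset.filter_congr
  intro u hu
  rw [Finset.mem_product, Finset.mem_Ico, Finset.mem_Ico] at hu
  obtain ⟨⟨a1, a2⟩, b1, b2⟩ := hu
  apply forall₂_congr
  intro δ hδ
  obtain ⟨d1, d2⟩ := hD δ hδ
  obtain ⟨m1, m2⟩ := hm δ hδ
  have hMM := MM_pos
  have hp : (0 : ℤ) < 4 ^ m := by positivity
  have e : enc k (upn m (fun i j => t (i + X) (j + Y))) (k * MM * 4 ^ m * 0 + u.1 + δ.1)
        (k * 4 ^ m * 0 + u.2 + δ.2) =
      enc k (upn m (quad69 (w4 t X Y))) (k * MM * 4 ^ m * 0 + u.1 + δ.1)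
        (k * 4 ^ m * 0 + u.2 + δ.2) := by
    apply enc_local69 hk
    apply upn_local69
    symm
    have hkM : 0 < k * MM := mul_pos hk hMM
    have q1 : (k * MM * 4 ^ m * 0 + u.1 + δ.1) / (k * MM) / 4 ^ m =
        (u.1 + δ.1) / (k * MM * 4 ^ m) := by
      rw [Int.ediv_ediv_of_nonneg hkM.le]
      congr 1
      ring
    have q2 : (k * 4 ^ m * 0 + u.2 + δ.2) / k / 4 ^ m = (u.2 + δ.2) / (k * 4 ^ m) := by
      rw [Int.ediv_ediv_of_nonneg hk.le]
      congr 1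
      ring
    rw [q1, q2]
    have big1 : (4 : ℤ) ^ m ≤ k * MM * 4 ^ m := by nlinarith
    have big2 : (4 : ℤ) ^ m ≤ k * 4 ^ m := by nlinarith
    have p1 : 0 < k * MM * 4 ^ m := by positivity
    have p2 : 0 < k * 4 ^ m := by positivity
    apply quad_w469
    · exact Int.ediv_nonneg (by omega) p1.le
    · rw [Int.ediv_lt_iff_lt_mul p1]
      linarith
    · exact Int.ediv_nonneg (by omega) p2.le
    · rw [Int.ediv_lt_iff_lt_mul p2]
      linarith
  rw [e]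

theorem sum_Ico_four69 (a : ℤ) (ha : 0 < a) (g : ℤ → ℝ) :
    ∑ x ∈ Finset.Ico 0 (a * 4), g x = ∑ i ∈ range 4, ∑ v ∈ Finset.Ico 0 a, g (a * i + v) := by
  rw [← Finset.sum_product']
  symm
  refine Finset.sum_nbij' (fun p => a * (p.1 : ℤ) + p.2) (fun x => ((x / a).toNat, x % a))
    ?_ ?_ ?_ ?_ ?_
  · rintro ⟨i, v⟩ h
    rw [Finset.mem_product, Finset.mem_range, Finset.mem_Ico] at h
    rw [Finset.mem_Ico]
    obtain ⟨h1, h2, h3⟩ := h
    have h4 : (i : ℤ) ≤ 3 := by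
      have : i < 4 := h1
      omega
    have h5 : (0 : ℤ) ≤ i := by positivity
    constructor
    · positivity
    · show a * (i : ℤ) + v < a * 4
      nlinarith
  · intro x hx
    rw [Finset.mem_Ico] at hx
    rw [Finset.mem_product, Finset.mem_range, Finset.mem_Ico]
    refine ⟨?_, Int.emod_nonneg _ ha.ne', Int.emod_lt_of_pos _ ha⟩
    have h1 : x / a < 4 := by
      rw [Int.ediv_lt_iff_lt_mul ha]
      linarith [hx.2]
    have h2 : 0 ≤ x / a := Int.ediv_nonneg hx.1 ha.le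
    show (x / a).toNat < 4
    omega
  · rintro ⟨i, v⟩ h
    rw [Finset.mem_product, Finset.mem_range, Finset.mem_Ico] at h
    obtain ⟨h1, h2, h3⟩ := h
    have e1 : (a * (i : ℤ) + v) / a = i := by
      rw [add_comm, Int.add_mul_ediv_left _ _ ha.ne', Int.ediv_eq_zero_of_lt h2 h3, zero_add]
    have e2 : (a * (i : ℤ) + v) % a = v := by
      rw [add_comm, Int.add_mul_emod_self_left, Int.emod_eq_of_lt h2 h3]
    simp only [e1, e2, Int.toNat_natCast]
  · intro x hx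
    rw [Finset.mem_Ico] at hx
    have h2 : 0 ≤ x / a := Int.ediv_nonneg hx.1 ha.le
    have h3 : (((x / a).toNat : ℕ) : ℤ) = x / a := Int.toNat_of_nonneg h2
    show a * (((x / a).toNat : ℕ) : ℤ) + x % a = x
    rw [h3]
    exact Int.mul_ediv_add_emod x a
  · rintro ⟨i, v⟩ _
    rfl

theorem cnt_sum69 (k : ℤ) (D : Finset (ℤ × ℤ)) (f : ℤ × ℤ → Lab) (n : ℕ) (t : ℤ → ℤ → W)
    (X Y : ℤ) : cnt k D f n t X Y = ∑ x ∈ Finset.Ico 0 (k * MM * 4 ^ n),
      ∑ y ∈ Finset.Ico 0 (k * 4 ^ n), (open scoped Classical in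
        if ∀ δ ∈ D, enc k (upn n t) (k * MM * 4 ^ n * X + x + δ.1) (k * 4 ^ n * Y + y + δ.2) = f δ
        then (1 : ℝ) else 0) := by
  classical
  unfold cnt
  rw [Finset.card_filter, Nat.cast_sum, Finset.sum_product]
  apply Finset.sum_congr rfl
  intro x _
  apply Finset.sum_congr rfl
  intro y _
  push_cast
  rfl

theorem cnt_succ69 (k : ℤ) (hk : 0 < k) (D : Finset (ℤ × ℤ)) (f : ℤ × ℤ → Lab) (N : ℕ)
    (t : ℤ → ℤ → W) (X Y : ℤ) :
    cnt k D f (N + 1) t X Y = ∑ i ∈ range 4, ∑ j ∈ range 4,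
      cnt k D f N (up t) (4 * X + i) (4 * Y + j) := by
  classical
  have hMM := MM_pos
  have e1 : k * MM * 4 ^ (N + 1) = (k * MM * 4 ^ N) * 4 := by ring
  have e2 : k * 4 ^ (N + 1) = (k * 4 ^ N) * 4 := by ring
  rw [cnt_sum69, e1, e2, sum_Ico_four69 _ (by positivity)]
  apply Finset.sum_congr rfl
  intro i _
  have h : ∀ v : ℤ, (∑ y ∈ Finset.Ico 0 (k * 4 ^ N * 4),
      if ∀ δ ∈ D, enc k (upn (N + 1) t)
        (k * MM * 4 ^ N * 4 * X + (k * MM * 4 ^ N * i + v) + δ.1)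
        (k * 4 ^ N * 4 * Y + y + δ.2) = f δ then (1 : ℝ) else 0) =
      ∑ j ∈ range 4, ∑ w ∈ Finset.Ico 0 (k * 4 ^ N),
        if ∀ δ ∈ D, enc k (upn (N + 1) t)
          (k * MM * 4 ^ N * 4 * X + (k * MM * 4 ^ N * i + v) + δ.1)
          (k * 4 ^ N * 4 * Y + (k * 4 ^ N * j + w) + δ.2) = f δ then (1 : ℝ) else 0 := by
    intro v
    exact sum_Ico_four69 _ (by positivity) _
  rw [Finset.sum_congr rfl fun v _ => h v, Finset.sum_comm]
  apply Finset.sum_congr rfl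
  intro j _
  rw [cnt_sum69]
  apply Finset.sum_congr rfl
  intro v _
  apply Finset.sum_congr rfl
  intro w _
  have g1 : ∀ δ : ℤ × ℤ, enc k (upn (N + 1) t)
      (k * MM * 4 ^ N * 4 * X + (k * MM * 4 ^ N * i + v) + δ.1)
      (k * 4 ^ N * 4 * Y + (k * 4 ^ N * j + w) + δ.2) =
      enc k (upn N (up t)) (k * MM * 4 ^ N * (4 * X + i) + v + δ.1)
        (k * 4 ^ N * (4 * Y + j) + w + δ.2) := by
    intro δ
    show enc k (upn N (up t)) _ _ = _
    congr 1 <;> ring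
  simp only [g1]

theorem up_arr69 (t : ℤ → ℤ → W) (X Y : ℤ) (i j : ℕ) (hi : i < 8) (hj : j < 8) :
    up t (4 * X + i) (4 * Y + j) = arr (w4 t X Y) i j := by
  unfold up arr w4
  have a1 : ((4 * X + (i : ℤ)) % 4).toNat = i % 4 := by omega
  have a2 : ((4 * Y + (j : ℤ)) % 4).toNat = j % 4 := by omega
  rw [a1, a2]
  congr 1
  by_cases h1 : i < 4
  · have b1 : (4 * X + (i : ℤ)) / 4 = X := by omega
    by_cases h2 : j < 4
    · have b2 : (4 * Y + (j : ℤ)) / 4 = Y := by omega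
      simp [h1, h2, b1, b2]
    · have b2 : (4 * Y + (j : ℤ)) / 4 = Y + 1 := by omega
      simp [h1, h2, b1, b2]
  · have b1 : (4 * X + (i : ℤ)) / 4 = X + 1 := by omega
    by_cases h2 : j < 4
    · have b2 : (4 * Y + (j : ℤ)) / 4 = Y := by omega
      simp [h1, h2, b1, b2]
    · have b2 : (4 * Y + (j : ℤ)) / 4 = Y + 1 := by omega
      simp [h1, h2, b1, b2]

theorem w4_sub69 (t : ℤ → ℤ → W) (X Y : ℤ) (i j : ℕ) (hi : i < 4) (hj : j < 4) :
    w4 (up t) (4 * X + i) (4 * Y + j) = sub4 (w4 t X Y) i j := by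
  have c1 : (4 * X + (i : ℤ) + 1) = 4 * X + ((i + 1 : ℕ) : ℤ) := by push_cast; ring
  have c2 : (4 * Y + (j : ℤ) + 1) = 4 * Y + ((j + 1 : ℕ) : ℤ) := by push_cast; ring
  show (up t (4 * X + i) (4 * Y + j), up t (4 * X + i + 1) (4 * Y + j),
    up t (4 * X + i) (4 * Y + j + 1), up t (4 * X + i + 1) (4 * Y + j + 1)) = sub4 (w4 t X Y) i j
  rw [c1, c2, up_arr69 t X Y i j (by omega) (by omega),
    up_arr69 t X Y (i + 1) j (by omega) (by omega),
    up_arr69 t X Y i (j + 1) (by omega) (by omega),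
    up_arr69 t X Y (i + 1) (j + 1) (by omega) (by omega)]
  rfl

theorem exists_level69 (D : Finset (ℤ × ℤ)) : ∃ m : ℕ, ∀ δ ∈ D, δ.1 < 4 ^ m ∧ δ.2 < 4 ^ m := by
  classical
  induction D using Finset.induction_on with
  | empty => exact ⟨0, by simp⟩
  | insert δ D _ ih =>
    obtain ⟨m, hm⟩ := ih
    have hbig : ∀ z : ℤ, z < 4 ^ z.toNat := by
      intro z
      have h1 : z ≤ (z.toNat : ℤ) := Int.self_le_toNat z
      have h2 : z.toNat < 4 ^ z.toNat := Nat.lt_pow_self (by norm_num)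
      have h3 : ((z.toNat : ℕ) : ℤ) < ((4 ^ z.toNat : ℕ) : ℤ) := by exact_mod_cast h2
      push_cast at h3
      linarith
    refine ⟨m + δ.1.toNat + δ.2.toNat, ?_⟩
    have mono : ∀ a b : ℕ, a ≤ b → (4 : ℤ) ^ a ≤ 4 ^ b :=
      fun a b h => pow_le_pow_right₀ (by norm_num) h
    intro ε hε
    rw [Finset.mem_insert] at hε
    rcases hε with rfl | hε
    · exact ⟨lt_of_lt_of_le (hbig _) (mono _ _ (by omega)),
        lt_of_lt_of_le (hbig _) (mono _ _ (by omega))⟩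
    · exact ⟨lt_of_lt_of_le (hm ε hε).1 (mono _ _ (by omega)),
        lt_of_lt_of_le (hm ε hε).2 (mono _ _ (by omega))⟩

/-- PIECE E1. -/
theorem cnt_eq (k : ℤ) (hk : 0 < k) (D : Finset (ℤ × ℤ)) (f : ℤ × ℤ → Lab)
    (hD : ∀ δ ∈ D, 0 ≤ δ.1 ∧ 0 ≤ δ.2) : ∃ (m : ℕ) (F : W4 → ℝ), ∀ n t X Y,
      cnt k D f (m + n) t X Y = SS F n (w4 t X Y) := by
  obtain ⟨m, hm⟩ := exists_level69 D
  refine ⟨m, fun l => cnt k D f m (quad69 l) 0 0, ?_⟩
  intro n
  induction n with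
  | zero =>
    intro t X Y
    exact cnt_local69 k hk D f m hD hm t X Y
  | succ n ih =>
    intro t X Y
    show cnt k D f (m + n + 1) t X Y = _
    rw [cnt_succ69 k hk]
    show _ = ∑ i ∈ Finset.range 4, ∑ j ∈ Finset.range 4,
      SS (fun l => cnt k D f m (quad69 l) 0 0) n (sub4 (w4 t X Y) i j)
    apply Finset.sum_congr rfl
    intro i hi
    apply Finset.sum_congr rfl
    intro j hj
    rw [ih, w4_sub69 t X Y i j (Finset.mem_range.1 hi) (Finset.mem_range.1 hj)]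

end Pool.Agent.Helper42.Mk2
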