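import Pool.Agent.Helper42.Mk2.Defs2

set_option autoImplicit false

namespace Pool.Agent.Helper42.Mk2

open Finset

/-! ## Cyclic functions on 64 points -/

/-- residue of a natural number -/
def fz72 (n : ℕ) : Fin 64 := ⟨n % 64, Nat.mod_lt _ (by norm_num)⟩

theorem fz72_succ (n : ℕ) : fz72 (n + 1) = fz72 n + 1 := by
  apply Fin.ext
  simp only [fz72, Fin.val_add]
  show (n + 1) % 64 = (n % 64 + 1) % 64
  omega

theorem fz72_val (x : Fin 64) : fz72 x.val = x := by
  apply Fin.ext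
  show x.val % 64 = x.val
  omega

theorem cyc_tele72 (D : Fin 64 → ℝ) (x : Fin 64) :
    |D x - D 0| ≤ ∑ z : Fin 64, |D (z + 1) - D z| := by
  have h1 : D x - D 0 = ∑ i ∈ range x.val, (D (fz72 (i + 1)) - D (fz72 i)) := by
    rw [Finset.sum_range_sub (fun i => D (fz72 i)), fz72_val]
    rfl
  rw [h1]
  calc |∑ i ∈ range x.val, (D (fz72 (i + 1)) - D (fz72 i))|
      ≤ ∑ i ∈ range x.val, |D (fz72 (i + 1)) - D (fz72 i)| := abs_sum_le_sum_abs _ _
    _ ≤ ∑ i ∈ range 64, |D (fz72 (i + 1)) - D (fz72 i)| := by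
        apply sum_le_sum_of_subset_of_nonneg
        · intro i hi
          rw [mem_range] at hi ⊢
          have := x.2
          omega
        · intro _ _ _
          exact abs_nonneg _
    _ = ∑ z : Fin 64, |D (z + 1) - D z| := by
        rw [Finset.sum_range]
        refine sum_congr rfl fun z _ => ?_
        rw [fz72_succ, fz72_val]

theorem poinc72 (D : Fin 64 → ℝ) (h0 : ∑ z, D z = 0) :
    ∑ z, D z ^ 2 ≤ 16384 * ∑ z, (D (z + 1) - D z) ^ 2 := by
  set T := ∑ z : Fin 64, |D (z + 1) - D z| with hT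
  have hT0 : 0 ≤ T := sum_nonneg fun _ _ => abs_nonneg _
  have hT2 : T ^ 2 ≤ 64 * ∑ z : Fin 64, (D (z + 1) - D z) ^ 2 := by
    have := sq_sum_le_card_mul_sum_sq (s := (univ : Finset (Fin 64)))
      (f := fun z => |D (z + 1) - D z|)
    simp only [sq_abs, card_univ, Fintype.card_fin] at this
    exact_mod_cast this
  have hx : ∀ x, |D x - D 0| ≤ T := fun x => cyc_tele72 D x
  have hz : |D 0| ≤ T := by
    have h2 : ∑ x : Fin 64, (D x - D 0) = -(64 * D 0) := by
      rw [sum_sub_distrib, h0]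
      simp
    have h3 : |∑ x : Fin 64, (D x - D 0)| ≤ 64 * T := by
      refine (abs_sum_le_sum_abs _ _).trans ?_
      refine (sum_le_sum fun x _ => hx x).trans ?_
      simp
    rw [h2, abs_neg, abs_mul] at h3
    have h4 : |(64 : ℝ)| = 64 := by norm_num
    rw [h4] at h3
    linarith
  have hall : ∀ x, D x ^ 2 ≤ 4 * T ^ 2 := by
    intro x
    have h1 := hx x
    have h2 : |D x| ≤ 2 * T := by
      have h3 : |D x| ≤ |D x - D 0| + |D 0| := by
        have := abs_add_le (D x - D 0) (D 0)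
        simpa using this
      linarith
    have h4 : D x ^ 2 = |D x| ^ 2 := (sq_abs _).symm
    rw [h4]
    nlinarith [abs_nonneg (D x)]
  calc ∑ z, D z ^ 2 ≤ ∑ _z : Fin 64, 4 * T ^ 2 := sum_le_sum fun z _ => hall z
    _ = 256 * T ^ 2 := by simp; ring
    _ ≤ 256 * (64 * ∑ z : Fin 64, (D (z + 1) - D z) ^ 2) := by
        exact mul_le_mul_of_nonneg_left hT2 (by norm_num)
    _ = 16384 * ∑ z, (D (z + 1) - D z) ^ 2 := by ring

/-- the rate -/
noncomputable def kap72 : ℝ := 4 - 1 / 1000000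

theorem kap72_gt : 3 < kap72 := by unfold kap72; norm_num
theorem kap72_lt : kap72 < 4 := by unfold kap72; norm_num

theorem shift_sum72 (f : Fin 64 → ℝ) : ∑ z, f (z + 1) = ∑ z, f z :=
  Equiv.sum_comp (Equiv.addRight (1 : Fin 64)) f

theorem energy72 (D D' : Fin 64 → ℝ) (e : ℝ) (h0 : ∑ z, D z = 0)
    (h : ∀ z, |D' z - 3 * D z - D (z + 1)| ≤ e) :
    ∑ z, D' z ^ 2 ≤ kap72 ^ 2 * ∑ z, D z ^ 2 + 7000000 * e ^ 2 := by
  have h1 : ∀ z, D' z ^ 2 ≤ (1 + 1 / 100000) * (3 * D z + D (z + 1)) ^ 2 + 100001 * e ^ 2 := by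
    intro z
    have h2 := h z
    set r := D' z - 3 * D z - D (z + 1) with hr
    have h3 : D' z = (3 * D z + D (z + 1)) + r := by rw [hr]; ring
    have h4 : r ^ 2 ≤ e ^ 2 := by
      rw [← sq_abs r]
      exact pow_le_pow_left₀ (abs_nonneg r) h2 2
    rw [h3]
    nlinarith [sq_nonneg ((3 * D z + D (z + 1)) - 100000 * r)]
  have h2 : ∑ z, D' z ^ 2 ≤ (1 + 1 / 100000) * ∑ z, (3 * D z + D (z + 1)) ^ 2
      + 64 * (100001 * e ^ 2) := by
    calc ∑ z, D' z ^ 2
        ≤ ∑ z : Fin 64, ((1 + 1 / 100000) * (3 * D z + D (z + 1)) ^ 2 + 100001 * e ^ 2) :=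
          sum_le_sum fun z _ => h1 z
      _ = _ := by
          rw [sum_add_distrib, ← mul_sum]
          simp
  have h3 : ∑ z, D (z + 1) ^ 2 = ∑ z, D z ^ 2 := shift_sum72 fun z => D z ^ 2
  have h4 : ∑ z, (3 * D z + D (z + 1)) ^ 2 = 16 * ∑ z, D z ^ 2
      - 3 * ∑ z, (D (z + 1) - D z) ^ 2 := by
    have e1 : ∑ z, (3 * D z + D (z + 1)) ^ 2
        = 9 * ∑ z, D z ^ 2 + 6 * ∑ z, D z * D (z + 1) + ∑ z, D (z + 1) ^ 2 := by
      rw [mul_sum, mul_sum, ← sum_add_distrib, ← sum_add_distrib]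
      exact sum_congr rfl fun z _ => by ring
    have e2 : ∑ z, (D (z + 1) - D z) ^ 2
        = ∑ z, D (z + 1) ^ 2 - 2 * ∑ z, D z * D (z + 1) + ∑ z, D z ^ 2 := by
      rw [mul_sum, ← sum_sub_distrib, ← sum_add_distrib]
      exact sum_congr rfl fun z _ => by ring
    rw [e1, e2, h3]
    ring
  have h5 := poinc72 D h0
  have h6 : 0 ≤ ∑ z, D z ^ 2 := sum_nonneg fun _ _ => sq_nonneg _
  rw [h4] at h2
  have h7 : kap72 ^ 2 = 16 - 8 / 1000000 + 1 / 1000000000000 := by unfold kap72; norm_num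
  rw [h7]
  nlinarith [sq_nonneg e]

theorem iter72 (E B : ℝ) (F : ℕ → Fin 64 → ℝ) (h0 : ∀ x, |F 0 x| ≤ E)
    (h : ∀ n x, |(F (n + 1) (x + 1) - F (n + 1) x) - 3 * (F n (x + 1) - F n x)
      - (F n (x + 1 + 1) - F n (x + 1))| ≤ B * 2 ^ n) :
    ∀ n x y, |F n x - F n y| ≤
      128 * Real.sqrt (256 * E ^ 2 + 7000000 * B ^ 2) * kap72 ^ n := by
  set A := 256 * E ^ 2 + 7000000 * B ^ 2 with hA
  have hA0 : 0 ≤ A := by positivity
  have hk := kap72_gt
  have hS : ∀ n, ∑ z, (F n (z + 1) - F n z) ^ 2 ≤ A * (kap72 ^ 2) ^ n - 7000000 * B ^ 2 * 4 ^ n := by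
    intro n
    induction n with
    | zero =>
      have h1 : ∀ z, (F 0 (z + 1) - F 0 z) ^ 2 ≤ 4 * E ^ 2 := by
        intro z
        have a1 := abs_le.1 (h0 z)
        have a2 := abs_le.1 (h0 (z + 1))
        nlinarith
      have h2 : ∑ z, (F 0 (z + 1) - F 0 z) ^ 2 ≤ ∑ _z : Fin 64, 4 * E ^ 2 :=
        sum_le_sum fun z _ => h1 z
      have h3 : ∑ _z : Fin 64, 4 * E ^ 2 = 256 * E ^ 2 := by simp; ring
      rw [hA]
      simp only [pow_zero, mul_one]
      linarith
    | succ n ih =>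
      have hz : ∑ z, (F n (z + 1) - F n z) = 0 := by
        rw [sum_sub_distrib, shift_sum72 (F n), sub_self]
      have h1 := energy72 (fun z => F n (z + 1) - F n z) (fun z => F (n + 1) (z + 1) - F (n + 1) z)
        (B * 2 ^ n) hz (fun z => h n z)
      have h2 : (B * 2 ^ n) ^ 2 = B ^ 2 * 4 ^ n := by
        rw [mul_pow, ← pow_mul, mul_comm n 2, pow_mul]
        norm_num
      rw [h2] at h1
      have h3 : kap72 ^ 2 * ∑ z, (F n (z + 1) - F n z) ^ 2
          ≤ kap72 ^ 2 * (A * (kap72 ^ 2) ^ n - 7000000 * B ^ 2 * 4 ^ n) :=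
        mul_le_mul_of_nonneg_left ih (sq_nonneg _)
      have h4 : 5 ≤ kap72 ^ 2 := by nlinarith
      have h5 : 0 ≤ B ^ 2 * (4 : ℝ) ^ n := by positivity
      have h6 : A * (kap72 ^ 2) ^ (n + 1) = kap72 ^ 2 * (A * (kap72 ^ 2) ^ n) := by ring
      have h7 : 7000000 * B ^ 2 * (4 : ℝ) ^ (n + 1) = 4 * (7000000 * (B ^ 2 * 4 ^ n)) := by ring
      rw [h6, h7]
      nlinarith
  intro n
  have hD : ∀ z, |F n (z + 1) - F n z| ≤ Real.sqrt A * kap72 ^ n := by
    intro z
    have h1 : (F n (z + 1) - F n z) ^ 2 ≤ A * (kap72 ^ 2) ^ n := by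
      have h2 : (F n (z + 1) - F n z) ^ 2 ≤ ∑ z, (F n (z + 1) - F n z) ^ 2 :=
        single_le_sum (f := fun z => (F n (z + 1) - F n z) ^ 2) (fun _ _ => sq_nonneg _)
          (mem_univ z)
      have h3 := hS n
      have h5 : 0 ≤ 7000000 * B ^ 2 * (4 : ℝ) ^ n := by positivity
      linarith
    apply abs_le_of_sq_le_sq _ (by positivity)
    rw [mul_pow, Real.sq_sqrt hA0, ← pow_mul, mul_comm n 2, pow_mul]
    exact h1
  have hx : ∀ x, |F n x - F n 0| ≤ 64 * (Real.sqrt A * kap72 ^ n) := by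
    intro x
    refine (cyc_tele72 (F n) x).trans ?_
    refine (sum_le_sum fun z _ => hD z).trans ?_
    simp
  intro x y
  have e1 := abs_le.1 (hx x)
  have e2 := abs_le.1 (hx y)
  rw [abs_le]
  constructor <;> linarith

theorem chan72 {P : Type} (E : ℝ) (hE : 0 ≤ E) (f : ℕ → P → Fin 64 → ℝ)
    (c0 c1 c2 c3 : P → P) (w : P → P → ℕ) (hw0 : ∀ p q, w p q = 0 → p = q)
    (hw8 : ∀ p q, w p q ≤ 8)
    (hw : ∀ p q, w (c0 p) (c0 q) + w (c1 p) (c1 q) + w (c2 p) (c2 q) + w (c3 p) (c3 q)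
      ≤ 2 * w p q)
    (h0 : ∀ p x, |f 0 p x| ≤ E)
    (h1 : ∀ n p x y, |(f (n + 1) p x - f (n + 1) p y) - (f n (c0 p) x - f n (c0 p) y)
      - (f n (c1 p) x - f n (c1 p) y) - (f n (c2 p) x - f n (c2 p) y)
      - (f n (c3 p) (x + 1) - f n (c3 p) (y + 1))| ≤ 2 * E) :
    ∀ n p x y, |f n p x - f n p y| ≤
      128 * Real.sqrt (256 * E ^ 2 + 7000000 * (256 * E) ^ 2) * kap72 ^ n := by
  have hM : ∀ n p q x y, |(f n p x - f n p y) - (f n q x - f n q y)|
      ≤ (8 * E * 2 ^ n - 4 * E) * w p q := by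
    intro n
    induction n with
    | zero =>
      intro p q x y
      rcases Nat.eq_zero_or_pos (w p q) with h | h
      · rw [hw0 p q h]
        have : ((w q q : ℕ) : ℝ) ≥ 0 := Nat.cast_nonneg _
        simp only [sub_self, abs_zero, pow_zero, mul_one]
        nlinarith
      · have h2 : (1 : ℝ) ≤ (w p q : ℝ) := by exact_mod_cast h
        have a1 := abs_le.1 (h0 p x)
        have a2 := abs_le.1 (h0 p y)
        have a3 := abs_le.1 (h0 q x)
        have a4 := abs_le.1 (h0 q y)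
        have h3 : |(f 0 p x - f 0 p y) - (f 0 q x - f 0 q y)| ≤ 4 * E := by
          rw [abs_le]
          constructor <;> linarith
        simp only [pow_zero, mul_one]
        nlinarith
    | succ n ih =>
      intro p q x y
      have hp : (1 : ℝ) ≤ 2 ^ n := one_le_pow₀ (by norm_num)
      have hK : 0 ≤ 8 * E * 2 ^ n - 4 * E := by nlinarith
      rcases Nat.eq_zero_or_pos (w p q) with h | h
      · rw [hw0 p q h]
        have h2 : ((w q q : ℕ) : ℝ) ≥ 0 := Nat.cast_nonneg _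
        simp only [sub_self, abs_zero]
        have h3 : 0 ≤ 8 * E * 2 ^ (n + 1) - 4 * E := by
          rw [pow_succ]
          nlinarith
        positivity
      · have h2 : (1 : ℝ) ≤ (w p q : ℝ) := by exact_mod_cast h
        have b0 := abs_le.1 (ih (c0 p) (c0 q) x y)
        have b1 := abs_le.1 (ih (c1 p) (c1 q) x y)
        have b2 := abs_le.1 (ih (c2 p) (c2 q) x y)
        have b3 := abs_le.1 (ih (c3 p) (c3 q) (x + 1) (y + 1))
        have a1 := abs_le.1 (h1 n p x y)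
        have a2 := abs_le.1 (h1 n q x y)
        have h3 : (w (c0 p) (c0 q) : ℝ) + w (c1 p) (c1 q) + w (c2 p) (c2 q) + w (c3 p) (c3 q)
            ≤ 2 * w p q := by exact_mod_cast hw p q
        have h4 : (8 * E * 2 ^ n - 4 * E) * ((w (c0 p) (c0 q) : ℝ) + w (c1 p) (c1 q)
            + w (c2 p) (c2 q) + w (c3 p) (c3 q)) ≤ (8 * E * 2 ^ n - 4 * E) * (2 * w p q) :=
          mul_le_mul_of_nonneg_left h3 hK
        have h5 : 4 * E ≤ 4 * E * w p q := by nlinarith
        have h6 : (8 * E * 2 ^ (n + 1) - 4 * E) * (w p q : ℝ)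
            = (8 * E * 2 ^ n - 4 * E) * (2 * w p q) + 4 * E * w p q := by
          rw [pow_succ]; ring
        rw [h6, abs_le]
        constructor <;> linarith
  intro n p x y
  refine iter72 E (256 * E) (fun n x => f n p x) (h0 p) ?_ n x y
  intro n x
  have hp : (1 : ℝ) ≤ 2 ^ n := one_le_pow₀ (by norm_num)
  have hK : 0 ≤ 8 * E * 2 ^ n - 4 * E := by nlinarith
  have h8 : ∀ q, (8 * E * 2 ^ n - 4 * E) * (w q p : ℝ) ≤ (8 * E * 2 ^ n - 4 * E) * 8 := by
    intro q
    refine mul_le_mul_of_nonneg_left ?_ hK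
    exact_mod_cast hw8 q p
  have b0 := abs_le.1 ((hM n (c0 p) p (x + 1) x).trans (h8 _))
  have b1 := abs_le.1 ((hM n (c1 p) p (x + 1) x).trans (h8 _))
  have b2 := abs_le.1 ((hM n (c2 p) p (x + 1) x).trans (h8 _))
  have b3 := abs_le.1 ((hM n (c3 p) p (x + 1 + 1) (x + 1)).trans (h8 _))
  have a1 := abs_le.1 (h1 n p (x + 1) x)
  show |(f (n + 1) p (x + 1) - f (n + 1) p x) - 3 * (f n p (x + 1) - f n p x)
      - (f n p (x + 1 + 1) - f n p (x + 1))| ≤ 256 * E * 2 ^ n
  rw [abs_le]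
  constructor <;> linarith

/-! ## Weights -/

/-- weight of a pair of own values -/
def u72 (V V' : Q) : ℕ :=
  if V = V' then 0
  else if pi V ≠ pi V' ∨ pj V ≠ pj V' then 7
  else if pi V = 2 ∧ pj V = 2 then 5
  else if (pi V = 3 ∧ pj V = 2) ∨ (pi V = 2 ∧ pj V = 3) then 3 else 2

/-- weight of a pair of pairs -/
def w72 (p q : Q × Q) : ℕ := u72 p.1 q.1 + if p.2 = q.2 then 0 else 1

theorem w72_zero (p q : Q × Q) (h : w72 p q = 0) : p = q := by
  unfold w72 u72 at h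
  have h2 : p.2 = q.2 := by
    by_contra hc
    rw [if_neg hc] at h
    omega
  have h1 : p.1 = q.1 := by
    by_contra hc
    rw [if_neg hc] at h
    split_ifs at h <;> omega
  exact Prod.ext h1 h2

theorem w72_le (p q : Q × Q) : w72 p q ≤ 8 := by
  unfold w72 u72
  split_ifs <;> omega

theorem u72_self (V : Q) : u72 V V = 0 := by simp [u72]

theorem key1_72 : ∀ V V' : Q, u72 (mkQ 3 2 (t1 V)) (mkQ 3 2 (t1 V'))
    + u72 (mkQ 2 2 (cls V)) (mkQ 2 2 (cls V')) + u72 (mkQ 1 2 (cls V)) (mkQ 1 2 (cls V'))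
    + 3 * (if V = V' then 0 else 1) ≤ 2 * u72 V V' := by
  decide +kernel

theorem key2_72 : ∀ V V' : Q, u72 (mkQ 2 3 (t2 V)) (mkQ 2 3 (t2 V'))
    + u72 (mkQ 2 2 (cls V)) (mkQ 2 2 (cls V'))
    + 3 * (if V = V' then 0 else 1) ≤ 2 * u72 V V' := by
  decide +kernel

theorem key3_72 : ∀ V V' : Q, pi V = pi V' → pj V = pj V' →
    ∑ i ∈ range 4, ∑ j ∈ range 4, (if aa i j V = aa i j V' then 0 else 1) ≤ 2 := by
  decide +kernel

/-! ## The contraction -/

theorem expand72 (g : W → ℝ) (V x y : Q) :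
    ∑ i ∈ range 4, ∑ j ∈ range 4, g (child i j (V, x, y)) =
      g (mkQ 0 0 0, V, V) + g (mkQ 0 1 0, V, V) + g (mkQ 0 2 0, x, V) + g (mkQ 0 3 0, V, V)
      + (g (mkQ 1 0 0, V, V) + g (mkQ 1 1 0, V, V) + g (mkQ 1 2 (cls V), x + 1, V)
        + g (mkQ 1 3 0, V, V))
      + (g (mkQ 2 0 0, V, y) + g (mkQ 2 1 0, V, y + 1) + g (mkQ 2 2 (cls V), x, y)
        + g (mkQ 2 3 (t2 V), V, y))
      + (g (mkQ 3 0 0, V, V) + g (mkQ 3 1 0, V, V) + g (mkQ 3 2 (t1 V), x, V)
        + g (mkQ 3 3 0, V, V)) := by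
  simp [sum_range_succ, child, aa]

theorem pi_mkQ72 (i j a : ℕ) : pi (mkQ i j a) = i % 4 := by
  simp only [pi, mkQ]
  omega

theorem pj_mkQ72 (i j a : ℕ) : pj (mkQ i j a) = j % 4 := by
  simp only [pj, mkQ]
  omega

/-- the constant for one channel -/
noncomputable def cc72 (E : ℝ) : ℝ :=
  128 * Real.sqrt (256 * E ^ 2 + 7000000 * (256 * E) ^ 2)

theorem cc72_nonneg (E : ℝ) : 0 ≤ cc72 E := by unfold cc72; positivity

theorem xdiff72 (E : ℝ) (hE : 0 ≤ E) (s : ℕ → W → ℝ) (h0 : ∀ L, |s 0 L| ≤ E)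
    (h1 : ∀ n L, |s (n + 1) L - ∑ i ∈ range 4, ∑ j ∈ range 4, s n (child i j L)| ≤ E)
    (n : ℕ) (V x x' y : Q) : |s n (V, x, y) - s n (V, x', y)| ≤ cc72 E * kap72 ^ n := by
  refine chan72 (P := Q × Q) E hE (fun n p x => s n (p.1, x, p.2))
    (fun p => (mkQ 0 2 0, p.1)) (fun p => (mkQ 3 2 (t1 p.1), p.1))
    (fun p => (mkQ 2 2 (cls p.1), p.2)) (fun p => (mkQ 1 2 (cls p.1), p.1))
    w72 w72_zero w72_le ?_ (fun p x => h0 _) ?_ n (V, y) x x'
  · intro p q
    have := key1_72 p.1 q.1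
    unfold w72
    simp only [u72_self]
    split_ifs at this ⊢ <;> omega
  · intro n p x y
    obtain ⟨V, z⟩ := p
    have a1 := h1 n (V, x, z)
    have a2 := h1 n (V, y, z)
    rw [expand72] at a1 a2
    rw [abs_le] at a1 a2 ⊢
    simp only
    constructor <;> linarith [a1.1, a1.2, a2.1, a2.2]

theorem ydiff72 (E : ℝ) (hE : 0 ≤ E) (s : ℕ → W → ℝ) (h0 : ∀ L, |s 0 L| ≤ E)
    (h1 : ∀ n L, |s (n + 1) L - ∑ i ∈ range 4, ∑ j ∈ range 4, s n (child i j L)| ≤ E)
    (n : ℕ) (V x y y' : Q) : |s n (V, x, y) - s n (V, x, y')| ≤ cc72 E * kap72 ^ n := by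
  refine chan72 (P := Q × Q) E hE (fun n p y => s n (p.1, p.2, y))
    (fun p => (mkQ 2 0 0, p.1)) (fun p => (mkQ 2 3 (t2 p.1), p.1))
    (fun p => (mkQ 2 2 (cls p.1), p.2)) (fun p => (mkQ 2 1 0, p.1))
    w72 w72_zero w72_le ?_ (fun p x => h0 _) ?_ n (V, x) y y'
  · intro p q
    have := key2_72 p.1 q.1
    unfold w72
    simp only [u72_self]
    split_ifs at this ⊢ <;> omega
  · intro n p y z
    obtain ⟨V, x⟩ := p
    have a1 := h1 n (V, x, y)
    have a2 := h1 n (V, x, z)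
    rw [expand72] at a1 a2
    rw [abs_le] at a1 a2 ⊢
    simp only
    constructor <;> linarith [a1.1, a1.2, a2.1, a2.2]

/-- one step for the own value -/
theorem own72 (E : ℝ) (s : ℕ → W → ℝ)
    (h1 : ∀ n L, |s (n + 1) L - ∑ i ∈ range 4, ∑ j ∈ range 4, s n (child i j L)| ≤ E)
    (n : ℕ) (c u : ℝ) (hu : 0 ≤ u)
    (hx : ∀ V x x' y, |s n (V, x, y) - s n (V, x', y)| ≤ c)
    (hy : ∀ V x y y', |s n (V, x, y) - s n (V, x, y')| ≤ c)
    (hU : ∀ V V' x y, pi V = pi V' → pj V = pj V' → |s n (V, x, y) - s n (V', x, y)| ≤ u)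
    (V V' x y : Q) (m : ℕ)
    (hm : ∑ i ∈ range 4, ∑ j ∈ range 4, (if aa i j V = aa i j V' then 0 else 1) ≤ m) :
    |s (n + 1) (V, x, y) - s (n + 1) (V', x, y)| ≤ m * u + 32 * c + 2 * E := by
  have a1 := h1 n (V, x, y)
  have a2 := h1 n (V', x, y)
  have h2 : |∑ i ∈ range 4, ∑ j ∈ range 4, s n (child i j (V, x, y))
      - ∑ i ∈ range 4, ∑ j ∈ range 4, s n (child i j (V', x, y))| ≤ m * u + 32 * c := by
    rw [← sum_sub_distrib]
    refine (abs_sum_le_sum_abs _ _).trans ?_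
    have h3 : ∀ i ∈ range 4, |∑ j ∈ range 4, s n (child i j (V, x, y))
        - ∑ j ∈ range 4, s n (child i j (V', x, y))| ≤
        ∑ j ∈ range 4, (((if aa i j V = aa i j V' then 0 else 1 : ℕ) : ℝ) * u + 2 * c) := by
      intro i _
      rw [← sum_sub_distrib]
      refine (abs_sum_le_sum_abs _ _).trans ?_
      refine sum_le_sum fun j _ => ?_
      have e1 : ∀ (v v' x x' y y' : Q), |s n (v, x, y) - s n (v', x', y')| ≤
          |s n (v, x', y') - s n (v', x', y')| + 2 * c := by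
        intro v v' x x' y y'
        have b1 := abs_le.1 (hx v x x' y)
        have b2 := abs_le.1 (hy v x' y y')
        have b3 := neg_abs_le (s n (v, x', y') - s n (v', x', y'))
        have b4 := le_abs_self (s n (v, x', y') - s n (v', x', y'))
        rw [abs_le]
        constructor <;> linarith
      refine (e1 _ _ _ _ _ _).trans ?_
      have e2 : |s n ((child i j (V, x, y)).1, (child i j (V', x, y)).2.1,
            (child i j (V', x, y)).2.2) - s n (child i j (V', x, y))| ≤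
          ((if aa i j V = aa i j V' then 0 else 1 : ℕ) : ℝ) * u := by
        by_cases h : aa i j V = aa i j V'
        · rw [if_pos h]
          have : (child i j (V, x, y)).1 = (child i j (V', x, y)).1 := by
            simp only [child, h]
          rw [this]
          simp
        · rw [if_neg h]
          simp only [Nat.cast_one, one_mul]
          apply hU
          · simp only [child, pi_mkQ72]
          · simp only [child, pj_mkQ72]
      exact add_le_add e2 (le_refl (2 * c))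
    refine (sum_le_sum h3).trans ?_
    have h4 : ∑ i ∈ range 4, ∑ j ∈ range 4,
        (((if aa i j V = aa i j V' then 0 else 1 : ℕ) : ℝ) * u + 2 * c) =
        ((∑ i ∈ range 4, ∑ j ∈ range 4, (if aa i j V = aa i j V' then 0 else 1) : ℕ) : ℝ) * u
          + 32 * c := by
      push_cast
      simp only [sum_add_distrib, sum_mul]
      simp
      ring
    rw [h4]
    have h5 : ((∑ i ∈ range 4, ∑ j ∈ range 4, (if aa i j V = aa i j V' then 0 else 1) : ℕ) : ℝ)
        ≤ (m : ℝ) := by exact_mod_cast hm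
    nlinarith
  have b1 := abs_le.1 a1
  have b2 := abs_le.1 a2
  have b3 := abs_le.1 h2
  rw [abs_le]
  constructor <;> linarith [b1.1, b1.2, b2.1, b2.2, b3.1, b3.2]

/-- PIECE B. -/
theorem contraction : ∃ κ : ℝ, 3 < κ ∧ κ < 4 ∧ ∀ E : ℝ, 0 ≤ E → ∃ C : ℝ, 0 ≤ C ∧
    ∀ s : ℕ → W → ℝ, (∀ L, |s 0 L| ≤ E) →
      (∀ n L, |s (n + 1) L - ∑ i ∈ range 4, ∑ j ∈ range 4, s n (child i j L)| ≤ E) →
      ∀ n L L', |s n L - s n L'| ≤ C * κ ^ n := by
  have hk := kap72_gt
  refine ⟨kap72, kap72_gt, kap72_lt, fun E hE => ?_⟩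
  have hc := cc72_nonneg E
  set c := cc72 E with hcdef
  refine ⟨2 * c + 17 * (32 * c + 2 * E), by positivity, fun s h0 h1 => ?_⟩
  have hpow : ∀ n : ℕ, 1 ≤ kap72 ^ n := fun n => one_le_pow₀ (by linarith)
  have hx := xdiff72 E hE s h0 h1
  have hy := ydiff72 E hE s h0 h1
  rw [← hcdef] at hx hy
  have hU : ∀ n V V' x y, pi V = pi V' → pj V = pj V' →
      |s n (V, x, y) - s n (V', x, y)| ≤ (32 * c + 2 * E) * kap72 ^ n := by
    intro n
    induction n with
    | zero =>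
      intro V V' x y _ _
      have b1 := abs_le.1 (h0 (V, x, y))
      have b2 := abs_le.1 (h0 (V', x, y))
      rw [abs_le]
      simp only [pow_zero, mul_one]
      constructor <;> linarith
    | succ n ih =>
      intro V V' x y hi hj
      have hp := hpow n
      have h2 := own72 E s h1 n (c * kap72 ^ n) ((32 * c + 2 * E) * kap72 ^ n) (by positivity)
        (hx n) (hy n) ih V V' x y 2 (key3_72 V V' hi hj)
      refine h2.trans ?_
      have h3 : (32 * c + 2 * E) * kap72 ^ (n + 1) = kap72 * ((32 * c + 2 * E) * kap72 ^ n) := by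
        rw [pow_succ]; ring
      rw [h3]
      have h4 : 0 ≤ (32 * c + 2 * E) * kap72 ^ n := by positivity
      have h5 : 32 * (c * kap72 ^ n) + 2 * E ≤ (32 * c + 2 * E) * kap72 ^ n := by nlinarith
      push_cast
      nlinarith
  have hV : ∀ n V V' x y, |s n (V, x, y) - s n (V', x, y)| ≤
      17 * (32 * c + 2 * E) * kap72 ^ n := by
    intro n
    rcases n with _ | n
    · intro V V' x y
      have b1 := abs_le.1 (h0 (V, x, y))
      have b2 := abs_le.1 (h0 (V', x, y))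
      rw [abs_le]
      simp only [pow_zero, mul_one]
      constructor <;> linarith
    · intro V V' x y
      have hp := hpow n
      have hm : ∑ i ∈ range 4, ∑ j ∈ range 4, (if aa i j V = aa i j V' then 0 else 1) ≤ 16 := by
        have : ∀ i ∈ range 4, ∑ j ∈ range 4, (if aa i j V = aa i j V' then 0 else 1) ≤ 4 := by
          intro i _
          refine (sum_le_sum (g := fun _ => 1) fun j _ => ?_).trans ?_
          · split_ifs <;> omega
          · simp
        refine (sum_le_sum this).trans ?_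
        simp
      have h2 := own72 E s h1 n (c * kap72 ^ n) ((32 * c + 2 * E) * kap72 ^ n) (by positivity)
        (hx n) (hy n) (hU n) V V' x y 16 hm
      refine h2.trans ?_
      have h3 : 17 * (32 * c + 2 * E) * kap72 ^ (n + 1)
          = kap72 * (17 * ((32 * c + 2 * E) * kap72 ^ n)) := by
        rw [pow_succ]; ring
      rw [h3]
      have h4 : 0 ≤ (32 * c + 2 * E) * kap72 ^ n := by positivity
      have h5 : 32 * (c * kap72 ^ n) + 2 * E ≤ (32 * c + 2 * E) * kap72 ^ n := by nlinarith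
      push_cast
      nlinarith
  rintro n ⟨V, x, y⟩ ⟨V', x', y'⟩
  have b1 := abs_le.1 (hx n V x x' y)
  have b2 := abs_le.1 (hy n V x' y y')
  have b3 := abs_le.1 (hV n V V' x' y')
  have hp := hpow n
  rw [abs_le]
  constructor <;> nlinarith [b1.1, b1.2, b2.1, b2.2, b3.1, b3.2]

end Pool.Agent.Helper42.Mk2
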