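import Pool.Agent.Helper42.Mk2.Patch2

set_option autoImplicit false

namespace Pool.Agent.Helper42.Mk2

open Finset

theorem filter_card_sum {V : Type} (R : Finset V) (p : V → Prop) [DecidablePred p] (d : ℝ) :
    ∑ x ∈ R, ((if p x then (1 : ℝ) else 0) - d) = ((R.filter p).card : ℝ) - d * R.card := by
  rw [sum_sub_distrib, sum_boole, sum_const, nsmul_eq_mul]
  ring

open scoped Classical in
/-- perimeter bound for all patterns in patches without holes -/
theorem patch_core {V : Type} [AddCommGroup V] (k : ℤ) (hk : 0 < k) (D : Finset (ℤ × ℤ)) (f : ℤ × ℤ → Lab)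
    (hD : ∀ δ ∈ D, 0 ≤ δ.1 ∧ 0 ≤ δ.2) :
    ∃ d C : ℝ, 0 ≤ C ∧ ∀ (io : ℤ × ℤ →+ V)
      (_ : Function.Injective io) (ρ : ℤ) (P : Set V) (lab : V → Lab) (_ : Loc io k ρ P lab)
      (_ : 2 * (k * MM) ≤ ρ) (_ : P.Finite) (_ : NoHole io P) (R : Finset V)
      (_ : ∀ x ∈ R, x ∈ P),
      |((R.filter (fun x => ∀ δ ∈ D, x + io δ ∈ P ∧ lab (x + io δ) = f δ)).card : ℝ) -
        d * R.card| ≤ C * (((Bd R (io (1, 0))).card : ℝ) + (Bd R (io (0, 1))).card) := by
  obtain ⟨m, F, hF⟩ := cnt_eq k hk D f hD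
  obtain ⟨κ, hκ3, hκ4, hdens⟩ := density
  obtain ⟨d0, C0, hC0, hd⟩ := hdens F
  -- a level at which the pattern fits
  obtain ⟨r, hr⟩ : ∃ r : ℕ, ∀ δ ∈ D, δ.1 ≤ 4 ^ r ∧ δ.2 ≤ 4 ^ r := by
    refine ⟨∑ δ ∈ D, (δ.1.toNat + δ.2.toNat), ?_⟩
    intro δ hδ
    have h1 := single_le_sum (f := fun δ : ℤ × ℤ => δ.1.toNat + δ.2.toNat) (s := D)
      (fun δ _ => Nat.zero_le _) hδ
    have h2 : ∀ n : ℕ, n < 4 ^ n := fun n => Nat.lt_pow_self (by norm_num)
    have h3 := h2 (∑ δ ∈ D, (δ.1.toNat + δ.2.toNat))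
    set s := ∑ δ ∈ D, (δ.1.toNat + δ.2.toNat)
    have h4 : (s : ℤ) < 4 ^ s := by exact_mod_cast h3
    have h5 : δ.1.toNat + δ.2.toNat ≤ s := h1
    constructor <;> omega
  set m' := m + r with hm'
  have hM := one_le_MM
  have hMpos := MM_pos
  have hkM : k ≤ k * MM := k_le hk
  have hkM0 : 0 < k * MM := by positivity
  set a : ℤ := k * MM * 4 ^ m' with ha
  set b : ℤ := k * 4 ^ m' with hb
  have ha0 : 0 < a := by positivity
  have hb0 : 0 < b := by positivity
  have hba : b ≤ a := by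
    rw [ha, hb]
    apply mul_le_mul_of_nonneg_right hkM (by positivity)
  set q : ℝ := (k : ℝ) * MM * k * 16 ^ m with hq
  have hkR : (0 : ℝ) < k := by exact_mod_cast hk
  have hMR : (0 : ℝ) < MM := by exact_mod_cast hMpos
  have hq0 : 0 < q := by positivity
  set d : ℝ := d0 / q with hdd
  have haR : (0 : ℝ) < a := by exact_mod_cast ha0
  have hκ0 : 0 < κ := by linarith
  set C : ℝ := 1 + |d| + C0 * κ ^ r + a with hC
  have hCnn : 0 ≤ C := by positivity
  obtain ⟨K, hK, htel⟩ := telescope_gen (V := V) a b ha0 hb0 κ C (by linarith) hκ4 hCnn (9 * a)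
    (by positivity)
  refine ⟨d, K, hK, ?_⟩
  intro io hio ρ P lab hloc hρ hPf hNH R hR
  have hlen1 : ∀ n : ℕ, a * 4 ^ n = k * MM * 4 ^ (m' + n) := by
    intro n; rw [ha, pow_add]; ring
  have hlen2 : ∀ n : ℕ, b * 4 ^ n = k * 4 ^ (m' + n) := by
    intro n; rw [hb, pow_add]; ring
  set G : V → ℝ := fun x =>
    (if ∀ δ ∈ D, x + io δ ∈ P ∧ lab (x + io δ) = f δ then (1 : ℝ) else 0) - d with hG
  set Gd : ℕ → Finset V := fun n => hPf.toFinset.filter (fun p => GP io k P lab (m' + n) p)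
    with hGd
  have hPmem : ∀ n p, GP io k P lab (m' + n) p → p ∈ P := by
    intro n p hp
    exact (LV_base hk hloc hρ _ (GP_self hk hloc hρ _ hp)).1
  have hGdmem : ∀ n p, p ∈ Gd n ↔ GP io k P lab (m' + n) p := by
    intro n p
    rw [hGd]
    simp only [mem_filter, Set.Finite.mem_toFinset]
    exact ⟨fun h => h.2, fun h => ⟨hPmem n p h, h⟩⟩
  have main := htel io hio G Gd R ?_ ?_ ?_ ?_ ?_ ?_ ?_
  · rw [hG] at main
    rw [filter_card_sum] at main
    exact main
  · -- bound of `G`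
    intro x
    rw [hG, hC]
    simp only
    have h1 : 0 ≤ C0 * κ ^ r := by positivity
    split_ifs
    · refine (abs_sub _ _).trans ?_
      rw [abs_one]
      linarith
    · rw [zero_sub, abs_neg]
      linarith
  · -- disjointness
    intro n p hp u h1 h2 hu
    rw [hGdmem] at hp hu
    rw [hlen1] at h1
    rw [hlen2] at h2
    exact lev_disj hkM0 hk (base_pval hk hloc hρ)
      (fun p hp u a1 a2 a3 => base_disj hk hloc hρ hp u a1 a2 a3) (m' + n)
      (GP_self hk hloc hρ _ hp) u h1 h2 (GP_self hk hloc hρ _ hu)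
  · -- children
    intro n p hp i j hi hj
    rw [hGdmem] at hp ⊢
    rw [hlen1, hlen2]
    exact GP_child hk hloc hρ (m' + n) hp hi hj
  · -- sums over blocks
    intro n p hp
    rw [hGdmem] at hp
    rw [hlen1, hlen2]
    have h1 : ∑ u ∈ Finset.Ico 0 (k * MM * 4 ^ (m' + n)) ×ˢ Finset.Ico 0 (k * 4 ^ (m' + n)),
        G (p + io u) = cnt k D f (m' + n) (ext4 (l4 io k P lab (m' + n) p)) 0 0 -
          d * ((k : ℝ) * MM * 4 ^ (m' + n) * (k * 4 ^ (m' + n))) := by
      rw [hG]
      simp only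
      rw [filter_card_sum, ← good_count hk hloc hρ f (m' + n) _ hp]
      · congr 1
        rw [card_product, Int.card_Ico, Int.card_Ico, sub_zero, sub_zero]
        have e1 : ((k * MM * 4 ^ (m' + n) : ℤ).toNat : ℝ) = (k : ℝ) * MM * 4 ^ (m' + n) := by
          have : ((k * MM * 4 ^ (m' + n) : ℤ).toNat : ℤ) = k * MM * 4 ^ (m' + n) :=
            Int.toNat_of_nonneg (by positivity)
          exact_mod_cast this
        have e2 : ((k * 4 ^ (m' + n) : ℤ).toNat : ℝ) = (k : ℝ) * 4 ^ (m' + n) := by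
          have : ((k * 4 ^ (m' + n) : ℤ).toNat : ℤ) = k * 4 ^ (m' + n) :=
            Int.toNat_of_nonneg (by positivity)
          exact_mod_cast this
        rw [Nat.cast_mul, e1, e2]
      · intro δ hδ
        have h4 : (4 : ℤ) ^ r ≤ 4 ^ (m' + n) := by
          apply pow_le_pow_right₀ (by norm_num)
          omega
        obtain ⟨a1, a2⟩ := hD δ hδ
        obtain ⟨a3, a4⟩ := hr δ hδ
        exact ⟨⟨a1, a3.trans h4⟩, ⟨a2, a4.trans h4⟩⟩
    rw [h1]
    have e3 : m' + n = m + (r + n) := by omega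
    rw [e3, hF (r + n), w4_ext4]
    have h2 := hd (r + n) (l4 io k P lab (m + (r + n)) p)
    have e4 : d * ((k : ℝ) * MM * 4 ^ (m + (r + n)) * (k * 4 ^ (m + (r + n)))) =
        d0 * 16 ^ (r + n) := by
      have e5 : (k : ℝ) * MM * 4 ^ (m + (r + n)) * (k * 4 ^ (m + (r + n))) =
          q * 16 ^ (r + n) := by
        rw [hq]
        have e6 : ((4 : ℝ) ^ (m + (r + n))) * 4 ^ (m + (r + n)) = 16 ^ m * 16 ^ (r + n) := by
          rw [← mul_pow, ← pow_add]
          norm_num
        calc _ = (k : ℝ) * MM * k * (4 ^ (m + (r + n)) * 4 ^ (m + (r + n))) := by ring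
          _ = _ := by rw [e6]; ring
      rw [e5, hdd]
      field_simp
    rw [e4]
    refine h2.trans ?_
    rw [pow_add, ← mul_assoc]
    apply mul_le_mul_of_nonneg_right _ (by positivity)
    rw [hC]
    have := abs_nonneg d
    linarith
  · -- blocks without good parent
    intro n p hp hno
    rw [hGdmem] at hp
    have hA : 0 < a * 4 ^ n := by positivity
    have hB : 0 < b * 4 ^ n := by positivity
    have hBA : b * 4 ^ n ≤ a * 4 ^ n := mul_le_mul_of_nonneg_right hba (by positivity)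
    have hex : ∃ u : ℤ × ℤ, (a * 4 ^ n * (-3) ≤ u.1 ∧ u.1 < a * 4 ^ n * 8) ∧
        (b * 4 ^ n * (-3) ≤ u.2 ∧ u.2 < b * 4 ^ n * 8) ∧ p + io u ∉ P := by
      by_contra hcon
      push Not at hcon
      apply hno
      obtain ⟨i, j, hi, hj, p', hp', e⟩ := good_parent hk hloc hρ (m' + n)
        (GP_self hk hloc hρ _ hp) (by
          intro u a1 a2 a3 a4
          rw [← hlen1] at a1 a2
          rw [← hlen2] at a3 a4
          exact hcon u ⟨a1, a2⟩ ⟨a3, a4⟩)
      refine ⟨p', ?_, i, j, hi, hj, ?_⟩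
      · rw [hGdmem]
        exact hp'
      · rw [hlen1, hlen2]
        exact e
    obtain ⟨z, ⟨z1, z2⟩, ⟨z3, z4⟩, hz⟩ := hex
    have h1 := ring_lemma io hio hNH hR p hA hB (M := 8 * (a * 4 ^ n)) (N := 8 * (b * 4 ^ n))
      (by linarith) (by linarith) (z := z) (by rw [abs_le]; constructor <;> linarith)
      (by rw [abs_le]; constructor <;> linarith) hz
    have h2 : fcn io R p (8 * (a * 4 ^ n) + b * 4 ^ n) (8 * (b * 4 ^ n) + b * 4 ^ n) ≤
        fcn io R p (9 * a * 4 ^ n) (9 * a * 4 ^ n) :=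
      fcn_mono io R p (by linarith) (by linarith)
    have h3 : ((Rb io R p (a * 4 ^ n) (b * 4 ^ n)).card : ℤ) ≤
        a * 4 ^ n * fcn io R p (9 * a * 4 ^ n) (9 * a * 4 ^ n) :=
      h1.trans (mul_le_mul_of_nonneg_left (by exact_mod_cast h2) hA.le)
    have h4 : ((Rb io R p (a * 4 ^ n) (b * 4 ^ n)).card : ℝ) ≤
        (a : ℝ) * 4 ^ n * fcn io R p (9 * a * 4 ^ n) (9 * a * 4 ^ n) := by exact_mod_cast h3
    refine h4.trans ?_
    apply mul_le_mul_of_nonneg_right _ (by positivity)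
    apply mul_le_mul_of_nonneg_right _ (by positivity)
    rw [hC]
    have h5 := abs_nonneg d
    have h6 : 0 ≤ C0 * κ ^ r := by positivity
    linarith
  · -- cells outside the good blocks
    intro x hx hno
    by_contra hcon
    rw [mem_Near] at hcon
    push Not at hcon
    apply hno
    obtain ⟨p, hp, u, ⟨u1, u2⟩, ⟨u3, u4⟩, e⟩ := good_cover hk hloc hρ m' (x := x) (by
      intro u h1 h2
      have h3 := hcon hx u.1 u.2 (by rw [← ha] at h1; linarith) (by rw [← ha] at h2; linarith)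
      exact hR _ h3)
    refine ⟨p, ?_, u, ?_, e⟩
    · rw [hGdmem, add_zero]
      exact hp
    · rw [mem_product, mem_Ico, mem_Ico]
      exact ⟨⟨u1, u2⟩, ⟨u3, u4⟩⟩
  · -- finitely many levels
    refine ⟨hPf.toFinset.card, ?_⟩
    intro n hn
    rw [eq_empty_iff_forall_notMem]
    intro p hp
    rw [hGdmem] at hp
    have hp' := GP_self hk hloc hρ _ hp
    have h1 : (4 : ℕ) ^ (m' + n) ≤ hPf.toFinset.card := by
      have h2 : (Finset.range (4 ^ (m' + n))).card ≤ hPf.toFinset.card := by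
        apply card_le_card_of_injOn (fun X : ℕ => p + io (k * MM * X, 0))
        · intro X hX
          rw [mem_coe, mem_range] at hX
          rw [mem_coe, Set.Finite.mem_toFinset]
          have h3 := (lev_letters (base_pval hk hloc hρ) (m' + n) hp' (X := (X : ℤ)) (Y := 0)
            (by positivity) (by exact_mod_cast hX) le_rfl (by positivity)).1
          rw [mul_zero] at h3
          exact h3.1
        · intro X _ Y _ h
          have h3 := hio (add_left_cancel h)
          have h4 := congrArg Prod.fst h3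
          simp only at h4
          have h5 := mul_left_cancel₀ hkM0.ne' h4
          exact_mod_cast h5
      rwa [card_range] at h2
    have h2 : m' + n < 4 ^ (m' + n) := Nat.lt_pow_self (by norm_num)
    omega

end Pool.Agent.Helper42.Mk2
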