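import Pool.Agent.Helper42.Mk2.Desub

set_option autoImplicit false

namespace Pool.Agent.Helper42.Mk2

theorem child_ok {w : W} (hw : ok w) {i j : ℕ} (hi : i < 4) (hj : j < 4) : ok (child i j w) := by
  have ha := aa_lt i j w.1
  have e1 : pi (child i j w).1 = i := pi_mk hi _ _
  have e2 : pj (child i j w).1 = j := pj_mk _ hj _
  have e3 : pa (child i j w).1 = aa i j w.1 := pa_mk _ _ ha
  obtain ⟨h1, h2, h3, h4⟩ := hw
  have c1 : (child i j w).2.1 = if j = 2 then (if i = 1 then w.2.1 + 1 else w.2.1) else w.1 := rfl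
  have c2 : (child i j w).2.2 = if i = 2 then (if j = 1 then w.2.2 + 1 else w.2.2) else w.1 := rfl
  refine ⟨?_, ?_, ?_, ?_⟩
  · unfold okv
    rw [e1, e2, e3]
    interval_cases i <;> interval_cases j <;> simp [aa]
  · unfold G1
    rw [e1, e2, e3, c1]
    rintro ⟨rfl, rfl⟩
    simp [aa]
  · unfold G2
    rw [e1, e2, e3, c2]
    refine ⟨?_, ?_⟩
    · rintro ⟨rfl, rfl⟩
      simp [aa]
    · rintro ⟨rfl, rfl⟩
      simp [aa]
  · have e4 : cls (child i j w).1 = if i = 2 ∧ j = 2 then cls w.1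
        else if i ≠ 2 ∧ j ≠ 2 then 0 else if i = 0 ∧ j = 2 then 1
        else if i = 2 ∧ j = 0 then 2 else 3 := by
      unfold cls
      rw [e1, e2, e3]
      by_cases h : i = 2 ∧ j = 2
      · rw [if_pos h, if_pos h]
        obtain ⟨rfl, rfl⟩ := h
        simp [aa, cls]
      · rw [if_neg h, if_neg h]
    rw [e4, c1, c2]
    interval_cases i <;> interval_cases j <;> simp [relC] <;> first | exact h1 | exact h2 | exact h3 | exact h4

theorem child_HH_in {w : W} (hw : ok w) {i j : ℕ} (hi : i < 3) (hj : j < 4) :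
    HH (child i j w) (child (i + 1) j w) := by
  have ha := aa_lt i j w.1
  have ha' := aa_lt (i + 1) j w.1
  have e1 : pi (child i j w).1 = i := pi_mk (by omega) _ _
  have e2 : pj (child i j w).1 = j := pj_mk _ hj _
  have e3 : pa (child i j w).1 = aa i j w.1 := pa_mk _ _ ha
  have e1' : pi (child (i + 1) j w).1 = i + 1 := pi_mk (by omega) _ _
  have e2' : pj (child (i + 1) j w).1 = j := pj_mk _ hj _
  have e3' : pa (child (i + 1) j w).1 = aa (i + 1) j w.1 := pa_mk _ _ ha'
  have c1 : (child i j w).2.1 = if j = 2 then (if i = 1 then w.2.1 + 1 else w.2.1) else w.1 := rfl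
  have c1' : (child (i + 1) j w).2.1 =
    if j = 2 then (if i + 1 = 1 then w.2.1 + 1 else w.2.1) else w.1 := rfl
  refine ⟨child_ok hw (by omega) hj, ?_, ?_⟩
  · unfold R1
    rw [e1, e2, e3, e1', e2', e3']
    refine ⟨by omega, rfl, ?_⟩
    rintro ⟨rfl, rfl⟩
    simp [aa]
  · unfold t1
    rw [e1, e2, e3, c1, c1']
    interval_cases i <;> interval_cases j <;> simp [relT1]

theorem child_HH_out {w w' : W} (hw : HH w w') {j : ℕ} (hj : j < 4) :
    HH (child 3 j w) (child 0 j w') := by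
  have ha := aa_lt 3 j w.1
  have ha' := aa_lt 0 j w'.1
  have e1 : pi (child 3 j w).1 = 3 := pi_mk (by omega) _ _
  have e2 : pj (child 3 j w).1 = j := pj_mk _ hj _
  have e3 : pa (child 3 j w).1 = aa 3 j w.1 := pa_mk _ _ ha
  have e1' : pi (child 0 j w').1 = 0 := pi_mk (by omega) _ _
  have e2' : pj (child 0 j w').1 = j := pj_mk _ hj _
  have e3' : pa (child 0 j w').1 = aa 0 j w'.1 := pa_mk _ _ ha'
  have c1 : (child 3 j w).2.1 = if j = 2 then (if 3 = 1 then w.2.1 + 1 else w.2.1) else w.1 := rfl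
  have c1' : (child 0 j w').2.1 =
    if j = 2 then (if 0 = 1 then w'.2.1 + 1 else w'.2.1) else w'.1 := rfl
  obtain ⟨h1, h2, h3⟩ := hw
  refine ⟨child_ok h1 (by omega) hj, ?_, ?_⟩
  · unfold R1
    rw [e1, e2, e3, e1', e2', e3']
    exact ⟨by omega, rfl, fun h => absurd h.1 (by norm_num)⟩
  · have e4 : t1 (child 3 j w).1 = if j = 2 then t1 w.1 else 3 := by
      unfold t1
      rw [e1, e2, e3]
      by_cases h : j = 2
      · rw [if_pos h, if_pos h]
        subst h
        simp [aa, t1]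
      · rw [if_neg h, if_neg h]
        simp
    rw [e4, c1, c1']
    by_cases h : j = 2
    · rw [if_pos h, if_pos h, if_pos h, if_neg (by norm_num), if_neg (by norm_num)]
      exact h3
    · rw [if_neg h, if_neg h, if_neg h]
      exact ⟨fun h => absurd h (by norm_num), fun h => absurd h (by norm_num),
        fun h => absurd h (by norm_num), fun _ => h2⟩

theorem child_VV_in (w : W) {i j : ℕ} (hi : i < 4) (hj : j < 3) :
    VV (child i j w) (child i (j + 1) w) := by
  have ha := aa_lt i j w.1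
  have e1 : pi (child i j w).1 = i := pi_mk (by omega) _ _
  have e2 : pj (child i j w).1 = j := pj_mk _ (by omega) _
  have e3 : pa (child i j w).1 = aa i j w.1 := pa_mk _ _ ha
  have e1' : pi (child i (j + 1) w).1 = i := pi_mk (by omega) _ _
  have e2' : pj (child i (j + 1) w).1 = j + 1 := pj_mk _ (by omega) _
  have c1 : (child i j w).2.2 = if i = 2 then (if j = 1 then w.2.2 + 1 else w.2.2) else w.1 := rfl
  have c1' : (child i (j + 1) w).2.2 =
    if i = 2 then (if j + 1 = 1 then w.2.2 + 1 else w.2.2) else w.1 := rfl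
  refine ⟨?_, ?_⟩
  · unfold R2
    rw [e1, e2, e1', e2']
    exact ⟨rfl, by omega⟩
  · unfold t2
    rw [e1, e2, e3, c1, c1']
    interval_cases i <;> interval_cases j <;> simp [relT2]

theorem child_VV_out {w w' : W} (hw : VV w w') {i : ℕ} (hi : i < 4) :
    VV (child i 3 w) (child i 0 w') := by
  have ha := aa_lt i 3 w.1
  have e1 : pi (child i 3 w).1 = i := pi_mk hi _ _
  have e2 : pj (child i 3 w).1 = 3 := pj_mk _ (by omega) _
  have e3 : pa (child i 3 w).1 = aa i 3 w.1 := pa_mk _ _ ha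
  have e1' : pi (child i 0 w').1 = i := pi_mk hi _ _
  have e2' : pj (child i 0 w').1 = 0 := pj_mk _ (by omega) _
  have c1 : (child i 3 w).2.2 = if i = 2 then (if 3 = 1 then w.2.2 + 1 else w.2.2) else w.1 := rfl
  have c1' : (child i 0 w').2.2 =
    if i = 2 then (if 0 = 1 then w'.2.2 + 1 else w'.2.2) else w'.1 := rfl
  obtain ⟨h2, h3⟩ := hw
  refine ⟨?_, ?_⟩
  · unfold R2
    rw [e1, e2, e1', e2']
    exact ⟨rfl, by omega⟩
  · have e4 : t2 (child i 3 w).1 = if i = 2 then t2 w.1 else 3 := by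
      unfold t2
      rw [e1, e2, e3]
      by_cases h : i = 2
      · rw [if_pos h, if_pos h]
        subst h
        simp [aa, t2]
      · rw [if_neg h, if_neg h]
        simp
    rw [e4, c1, c1']
    by_cases h : i = 2
    · rw [if_pos h, if_pos h, if_pos h, if_neg (by norm_num), if_neg (by norm_num)]
      exact h3
    · rw [if_neg h, if_neg h, if_neg h]
      exact ⟨fun h => absurd h (by norm_num), fun h => absurd h (by norm_num),
        fun h => absurd h (by norm_num), fun _ => h2⟩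

theorem up_ok {t : ℤ → ℤ → W} (h : ∀ x y, ok (t x y)) (x y : ℤ) : ok (up t x y) :=
  child_ok (h _ _) (by omega) (by omega)

theorem up_HH {t : ℤ → ℤ → W} (h : ∀ x y, ok (t x y)) (x y : ℤ)
    (h' : x % 4 = 3 → HH (t (x / 4) (y / 4)) (t (x / 4 + 1) (y / 4))) :
    HH (up t x y) (up t (x + 1) y) := by
  unfold up
  by_cases hx : x % 4 = 3
  · rw [show (x + 1) / 4 = x / 4 + 1 by omega, show ((x + 1) % 4).toNat = 0 by omega,
      show (x % 4).toNat = 3 by omega]
    exact child_HH_out (h' hx) (by omega)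
  · rw [show (x + 1) / 4 = x / 4 by omega, show ((x + 1) % 4).toNat = (x % 4).toNat + 1 by omega]
    exact child_HH_in (h _ _) (by omega) (by omega)

theorem up_VV {t : ℤ → ℤ → W} (x y : ℤ)
    (h' : y % 4 = 3 → VV (t (x / 4) (y / 4)) (t (x / 4) (y / 4 + 1))) :
    VV (up t x y) (up t x (y + 1)) := by
  unfold up
  by_cases hy : y % 4 = 3
  · rw [show (y + 1) / 4 = y / 4 + 1 by omega, show ((y + 1) % 4).toNat = 0 by omega,
      show (y % 4).toNat = 3 by omega]
    exact child_VV_out (h' hy) (by omega)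
  · rw [show (y + 1) / 4 = y / 4 by omega, show ((y + 1) % 4).toNat = (y % 4).toNat + 1 by omega]
    exact child_VV_in _ (by omega) (by omega)

theorem up_val {t : ℤ → ℤ → W} (ht : Val t) : Val (up t) := by
  intro x y
  exact ⟨up_HH (fun a b => (ht a b).1.1) x y fun _ => (ht _ _).1, up_VV x y fun _ => (ht _ _).2⟩

theorem upn_succ (n : ℕ) : ∀ t : ℤ → ℤ → W, upn (n + 1) t = up (upn n t) := by
  induction n with
  | zero => intro t; rfl
  | succ n ih =>
    intro t
    rw [show upn (n + 1 + 1) t = upn (n + 1) (up t) from rfl, ih (up t)]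
    rfl

theorem upn_local {t : ℤ → ℤ → W} (h : ∀ x y, ok (t x y)) (n : ℕ) :
    (∀ x y, ok (upn n t x y)) ∧
    (∀ x y : ℤ, ¬ (4 : ℤ) ^ n ∣ x + 1 → HH (upn n t x y) (upn n t (x + 1) y)) ∧
    (∀ x y : ℤ, ¬ (4 : ℤ) ^ n ∣ y + 1 → VV (upn n t x y) (upn n t x (y + 1))) := by
  induction n with
  | zero => exact ⟨h, fun x y hx => absurd (by simp) hx, fun x y hx => absurd (by simp) hx⟩
  | succ n ih =>
    obtain ⟨h1, h2, h3⟩ := ih
    rw [upn_succ]
    refine ⟨up_ok h1, fun x y hx => up_HH h1 x y fun hx' => h2 _ _ ?_,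
      fun x y hy => up_VV x y fun hy' => h3 _ _ ?_⟩
    · rintro ⟨k, hk⟩
      apply hx
      refine ⟨k, ?_⟩
      rw [pow_succ, mul_right_comm, ← hk]
      omega
    · rintro ⟨k, hk⟩
      apply hy
      refine ⟨k, ?_⟩
      rw [pow_succ, mul_right_comm, ← hk]
      omega

/-- a valid letter -/
def seed : W := (0, 0, 0)

theorem seed_ok : ok seed := by
  refine ⟨Or.inl (by decide), fun h => absurd h.1 (by decide),
    ⟨fun h => absurd h.1 (by decide), fun h => absurd h.1 (by decide)⟩,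
    ⟨fun _ => ⟨rfl, Or.inl (by decide)⟩, fun h => absurd h (by decide),
      fun h => absurd h (by decide)⟩⟩

theorem exists_window (n : ℕ) : ∃ t : ℤ → ℤ → W, ∀ x y : ℤ, |x| ≤ n → |y| ≤ n →
    HH (t x y) (t (x + 1) y) ∧ VV (t x y) (t x (y + 1)) := by
  obtain ⟨-, h2, h3⟩ := upn_local (t := fun _ _ => seed) (fun _ _ => seed_ok) (n + 1)
  have hn : (2 * n + 1 : ℤ) < 4 ^ (n + 1) := by
    have h1 : n + 1 < 2 ^ (n + 1) := Nat.lt_two_pow_self
    have h2 : (4 : ℕ) ^ (n + 1) = 2 ^ (n + 1) * 2 ^ (n + 1) := by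
      rw [← mul_pow]
      norm_num
    have h3 : 2 * n + 1 < 4 ^ (n + 1) := by
      rw [h2]
      nlinarith
    exact_mod_cast h3
  have hnd : ∀ x : ℤ, |x| ≤ n → ¬ (4 : ℤ) ^ (n + 1) ∣ x + n + 1 := by
    intro x hx hd
    rw [abs_le] at hx
    have := Int.le_of_dvd (by omega) hd
    omega
  refine ⟨fun x y => upn (n + 1) (fun _ _ => seed) (x + n) (y + n), fun x y hx hy => ⟨?_, ?_⟩⟩
  · have := h2 (x + n) (y + n) (hnd x hx)
    rw [show x + n + 1 = x + 1 + n by ring] at this
    exact this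
  · have := h3 (x + n) (y + n) (hnd y hy)
    rw [show y + n + 1 = y + 1 + n by ring] at this
    exact this

/-- PIECE D2: a configuration exists -/
theorem exists_val : ∃ t : ℤ → ℤ → W, Val t := by
  let C : ℕ → Set (ℤ → ℤ → W) := fun n => {t | ∀ x y : ℤ, |x| ≤ n → |y| ≤ n →
    HH (t x y) (t (x + 1) y) ∧ VV (t x y) (t x (y + 1))}
  have cl : ∀ n, IsClosed (C n) := by
    intro n
    have e : C n = ⋂ x : ℤ, ⋂ y : ℤ, ⋂ (_ : |x| ≤ n), ⋂ (_ : |y| ≤ n),
        {t : ℤ → ℤ → W | HH (t x y) (t (x + 1) y) ∧ VV (t x y) (t x (y + 1))} := by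
      ext t
      simp [C]
    rw [e]
    refine isClosed_iInter fun x => isClosed_iInter fun y => isClosed_iInter fun _ =>
      isClosed_iInter fun _ => ?_
    have hcont : Continuous (fun t : ℤ → ℤ → W => (t x y, t (x + 1) y, t x (y + 1))) := by
      fun_prop
    exact (isClosed_discrete {z : W × W × W | HH z.1 z.2.1 ∧ VV z.1 z.2.2}).preimage hcont
  have hC : (⋂ n, C n).Nonempty := by
    apply IsCompact.nonempty_iInter_of_sequence_nonempty_isCompact_isClosed
    · intro n t ht x y hx hy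
      exact ht x y (by push_cast; omega) (by push_cast; omega)
    · exact exists_window
    · exact (cl 0).isCompact
    · exact cl
  obtain ⟨t, ht⟩ := hC
  rw [Set.mem_iInter] at ht
  have hb : ∀ x y : ℤ, |x| ≤ ((x.natAbs + y.natAbs : ℕ) : ℤ) ∧
      |y| ≤ ((x.natAbs + y.natAbs : ℕ) : ℤ) := by
    intro x y
    have := abs_nonneg x
    have := abs_nonneg y
    push_cast
    exact ⟨by omega, by omega⟩
  exact ⟨t, fun x y => ht (x.natAbs + y.natAbs) x y (hb x y).1 (hb x y).2⟩

end Pool.Agent.Helper42.Mk2
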