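import Pool.Agent.Helper42.Mk2.Defs3
import Pool.Agent.Helper42.Mk2.Exist

set_option autoImplicit false

namespace Pool.Agent.Helper42.Mk2

/-- 16 letters which form a legal block in the right position -/
structure Blk16 (w : ℕ → ℕ → W) : Prop where
  ok : ∀ i j, i < 4 → j < 4 → ok (w i j)
  hh : ∀ i j, i + 1 < 4 → j < 4 → HH (w i j) (w (i + 1) j)
  vv : ∀ i j, i < 4 → j + 1 < 4 → VV (w i j) (w i (j + 1))
  p0 : pi (w 0 0).1 = 0
  q0 : pj (w 0 0).1 = 0

/-- the parent of 16 letters -/
def par16 (w : ℕ → ℕ → W) : W := ((w 0 0).2.1, (w 0 2).2.1, (w 2 0).2.2)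

section blk

variable {w : ℕ → ℕ → W} (h : Blk16 w)

include h

theorem Blk16.pi_at {i j : ℕ} (hi : i < 4) (hj : j < 4) : pi (w i j).1 = i := by
  have h1 : ∀ i, i < 4 → pi (w i 0).1 = i := by
    intro i hi
    induction i with
    | zero => exact h.p0
    | succ n ih =>
      have h1 := (h.hh n 0 hi (by norm_num)).2.1.1
      rw [ih (by omega)] at h1
      omega
  induction j with
  | zero => exact h1 i hi
  | succ n ih =>
    rw [(h.vv i n hi hj).1.1]
    exact ih (by omega)

theorem Blk16.pj_at {i j : ℕ} (hi : i < 4) (hj : j < 4) : pj (w i j).1 = j := by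
  have h1 : ∀ j, j < 4 → pj (w 0 j).1 = j := by
    intro j hj
    induction j with
    | zero => exact h.q0
    | succ n ih =>
      have h1 := (h.vv 0 n (by norm_num) hj).1.2
      rw [ih (by omega)] at h1
      omega
  induction i with
  | zero => exact h1 j hj
  | succ n ih =>
    rw [(h.hh n j hi hj).2.1.2.1]
    exact ih (by omega)

theorem Blk16.row {j : ℕ} (hj : j < 4) (hj2 : j ≠ 2) {i : ℕ} (hi : i < 4) :
    (w i j).2.1 = (w 0 j).2.1 := by
  induction i with
  | zero => rfl
  | succ n ih =>
    rw [← ih (by omega)]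
    have h1 := (h.hh n j hi hj).2.2.1
    have e1 := h.pi_at (show n < 4 by omega) hj
    have e2 := h.pj_at (show n < 4 by omega) hj
    have e : t1 (w n j).1 = 0 := by
      unfold t1
      rw [e1, e2, if_neg hj2, if_neg (by omega)]
    exact h1 e

theorem Blk16.col {i : ℕ} (hi : i < 4) (hi2 : i ≠ 2) {j : ℕ} (hj : j < 4) :
    (w i j).2.2 = (w i 0).2.2 := by
  induction j with
  | zero => rfl
  | succ n ih =>
    rw [← ih (by omega)]
    have h1 := (h.vv i n hi hj).2.1
    have e1 := h.pi_at hi (show n < 4 by omega)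
    have e2 := h.pj_at hi (show n < 4 by omega)
    have e : t2 (w i n).1 = 0 := by
      unfold t2
      rw [e1, e2, if_neg hi2, if_neg (by omega)]
    exact h1 e

theorem Blk16.own {i j : ℕ} (hi : i < 4) (hi2 : i ≠ 2) (hj : j < 4) (hj2 : j ≠ 2) :
    (w i j).2.1 = (w i j).2.2 ∧ okv (w i j).2.1 := by
  have h1 := (h.ok i j hi hj).2.2.2.1
  have e1 := h.pi_at hi hj
  have e2 := h.pj_at hi hj
  apply h1
  unfold cls
  rw [e1, e2, if_neg (fun h => hi2 h.1), if_pos ⟨hi2, hj2⟩]

theorem Blk16.c1_own {i j : ℕ} (hi : i < 4) (hj : j < 4) (hj2 : j ≠ 2) :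
    (w i j).2.1 = (w 0 0).2.1 := by
  rw [h.row hj hj2 hi]
  have h1 := (h.own (show 0 < 4 by norm_num) (by norm_num) hj hj2).1
  have h2 := h.col (show 0 < 4 by norm_num) (by norm_num) hj
  have h3 := (h.own (show 0 < 4 by norm_num) (by norm_num) (show 0 < 4 by norm_num)
    (by norm_num)).1
  rw [h1, h2, h3]

theorem Blk16.c2_own {i j : ℕ} (hi : i < 4) (hj : j < 4) (hi2 : i ≠ 2) :
    (w i j).2.2 = (w 0 0).2.1 := by
  rw [h.col hi hi2 hj]
  have h1 := (h.own hi hi2 (show 0 < 4 by norm_num) (by norm_num)).1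
  have h2 := h.c1_own hi (show 0 < 4 by norm_num) (by norm_num)
  rw [← h1, h2]

theorem Blk16.c1_wire {i : ℕ} (hi : i < 4) :
    (w i 2).2.1 = if i = 1 then (w 0 2).2.1 + 1 else (w 0 2).2.1 := by
  have e2 : ∀ n : ℕ, n < 4 → pj (w n 2).1 = 2 := fun n hn => h.pj_at hn (show 2 < 4 by norm_num)
  have e1 : ∀ n : ℕ, n < 4 → pi (w n 2).1 = n := fun n hn => h.pi_at hn (show 2 < 4 by norm_num)
  have k0 : (w 1 2).2.1 = (w 0 2).2.1 + 1 := by
    refine (h.hh 0 2 (by norm_num) (by norm_num)).2.2.2.1 ?_
    unfold t1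
    rw [e1 0 (by norm_num), e2 0 (by norm_num)]
    norm_num
  have k1 : (w 1 2).2.1 = (w 2 2).2.1 + 1 := by
    refine (h.hh 1 2 (by norm_num) (by norm_num)).2.2.2.2.1 ?_
    unfold t1
    rw [e1 1 (by norm_num), e2 1 (by norm_num)]
    norm_num
  have k2 : (w 3 2).2.1 = (w 2 2).2.1 := by
    refine (h.hh 2 2 (by norm_num) (by norm_num)).2.2.1 ?_
    unfold t1
    rw [e1 2 (by norm_num), e2 2 (by norm_num)]
    norm_num
  have k3 : (w 2 2).2.1 = (w 0 2).2.1 := by
    rw [k0] at k1
    exact (add_right_cancel k1).symm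
  interval_cases i
  · simp
  · simpa using k0
  · simpa using k3
  · rw [← k3]
    simpa using k2

theorem Blk16.c2_wire {j : ℕ} (hj : j < 4) :
    (w 2 j).2.2 = if j = 1 then (w 2 0).2.2 + 1 else (w 2 0).2.2 := by
  have e1 : ∀ n : ℕ, n < 4 → pi (w 2 n).1 = 2 := fun n hn => h.pi_at (show 2 < 4 by norm_num) hn
  have e2 : ∀ n : ℕ, n < 4 → pj (w 2 n).1 = n := fun n hn => h.pj_at (show 2 < 4 by norm_num) hn
  have k0 : (w 2 1).2.2 = (w 2 0).2.2 + 1 := by
    refine (h.vv 2 0 (by norm_num) (by norm_num)).2.2.1 ?_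
    unfold t2
    rw [e1 0 (by norm_num), e2 0 (by norm_num)]
    norm_num
  have k1 : (w 2 1).2.2 = (w 2 2).2.2 + 1 := by
    refine (h.vv 2 1 (by norm_num) (by norm_num)).2.2.2.1 ?_
    unfold t2
    rw [e1 1 (by norm_num), e2 1 (by norm_num)]
    norm_num
  have k2 : (w 2 3).2.2 = (w 2 2).2.2 := by
    refine (h.vv 2 2 (by norm_num) (by norm_num)).2.1 ?_
    unfold t2
    rw [e1 2 (by norm_num), e2 2 (by norm_num)]
    norm_num
  have k3 : (w 2 2).2.2 = (w 2 0).2.2 := by
    rw [k0] at k1
    exact (add_right_cancel k1).symm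
  interval_cases j
  · simp
  · simpa using k0
  · simpa using k3
  · rw [← k3]
    simpa using k2

/-- third components in a block -/
theorem Blk16.pa_at {i j : ℕ} (hi : i < 4) (hj : j < 4) :
    pa (w i j).1 = aa i j (w 0 0).2.1 := by
  have e1 := h.pi_at hi hj
  have e2 := h.pj_at hi hj
  have g12 : pa (w 1 2).1 = cls (w 0 0).2.1 := by
    have h1 := (h.ok 1 2 (by norm_num) (by norm_num)).2.2.1.1
    have a1 := h.pi_at (show 1 < 4 by norm_num) (show 2 < 4 by norm_num)
    have a2 := h.pj_at (show 1 < 4 by norm_num) (show 2 < 4 by norm_num)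
    have a3 := h.c2_own (show 1 < 4 by norm_num) (show 2 < 4 by norm_num) (by norm_num)
    rw [a3] at h1
    exact h1 ⟨a1, a2⟩
  by_cases c12 : i = 1 ∧ j = 2
  · obtain ⟨rfl, rfl⟩ := c12
    simpa [aa] using g12
  by_cases c22 : i = 2 ∧ j = 2
  · obtain ⟨rfl, rfl⟩ := c22
    have h1 := (h.hh 1 2 (by norm_num) (by norm_num)).2.1.2.2
    have a1 := h.pi_at (show 1 < 4 by norm_num) (show 2 < 4 by norm_num)
    have a2 := h.pj_at (show 1 < 4 by norm_num) (show 2 < 4 by norm_num)
    have h2 := h1 ⟨a1, a2⟩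
    rw [g12] at h2
    simpa [aa] using h2
  by_cases c32 : i = 3 ∧ j = 2
  · obtain ⟨rfl, rfl⟩ := c32
    have h1 := (h.ok 3 2 (by norm_num) (by norm_num)).2.2.1.2
    have a3 := h.c2_own (show 3 < 4 by norm_num) (show 2 < 4 by norm_num) (by norm_num)
    rw [a3] at h1
    have h2 := h1 ⟨e1, e2⟩
    simpa [aa] using h2
  by_cases c23 : i = 2 ∧ j = 3
  · obtain ⟨rfl, rfl⟩ := c23
    have h1 := (h.ok 2 3 (by norm_num) (by norm_num)).2.1
    have a3 := h.c1_own (show 2 < 4 by norm_num) (show 3 < 4 by norm_num) (by norm_num)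
    rw [a3] at h1
    have h2 := h1 ⟨e1, e2⟩
    simpa [aa] using h2
  have h1 := (h.ok i j hi hj).1
  unfold okv at h1
  rw [e1, e2] at h1
  have h' : pa (w i j).1 = 0 := by tauto
  rw [h']
  unfold aa
  rw [if_neg (by omega), if_neg c32, if_neg c23]

theorem Blk16.block {i j : ℕ} (hi : i < 4) (hj : j < 4) : w i j = child i j (par16 w) := by
  have e1 := h.pi_at hi hj
  have e2 := h.pj_at hi hj
  refine Prod.ext (eq_mkQ e1 e2 (h.pa_at hi hj)) (Prod.ext ?_ ?_)
  · unfold child par16
    simp only
    split_ifs with h1 h'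
    · subst h1
      rw [h.c1_wire hi, if_pos h']
    · subst h1
      rw [h.c1_wire hi, if_neg h']
    · exact h.c1_own hi hj h1
  · unfold child par16
    simp only
    split_ifs with h1 h'
    · subst h1
      rw [h.c2_wire hj, if_pos h']
    · subst h1
      rw [h.c2_wire hj, if_neg h']
    · exact h.c2_own hi hj h1

theorem Blk16.par_ok : Mk2.ok (par16 w) := by
  refine ⟨?_, ?_, ?_, ?_⟩
  · exact (h.own (show 0 < 4 by norm_num) (by norm_num) (show 0 < 4 by norm_num)
      (by norm_num)).2
  · have h1 := (h.ok 0 2 (by norm_num) (by norm_num)).2.2.2.2.1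
    have e1 := h.pi_at (show 0 < 4 by norm_num) (show 2 < 4 by norm_num)
    have e2 := h.pj_at (show 0 < 4 by norm_num) (show 2 < 4 by norm_num)
    have a3 := h.c2_own (show 0 < 4 by norm_num) (show 2 < 4 by norm_num) (by norm_num)
    rw [a3] at h1
    apply h1
    unfold cls
    rw [e1, e2]
    norm_num
  · have h1 := (h.ok 2 0 (by norm_num) (by norm_num)).2.2.2.2.2
    have e1 := h.pi_at (show 2 < 4 by norm_num) (show 0 < 4 by norm_num)
    have e2 := h.pj_at (show 2 < 4 by norm_num) (show 0 < 4 by norm_num)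
    have a3 := h.c1_own (show 2 < 4 by norm_num) (show 0 < 4 by norm_num) (by norm_num)
    rw [a3] at h1
    apply h1
    unfold cls
    rw [e1, e2]
    norm_num
  · have h1 := (h.ok 2 2 (by norm_num) (by norm_num)).2.2.2
    have e1 := h.pi_at (show 2 < 4 by norm_num) (show 2 < 4 by norm_num)
    have e2 := h.pj_at (show 2 < 4 by norm_num) (show 2 < 4 by norm_num)
    have e3 := h.pa_at (show 2 < 4 by norm_num) (show 2 < 4 by norm_num)
    have a1 := h.c1_wire (show 2 < 4 by norm_num)
    have a2 := h.c2_wire (show 2 < 4 by norm_num)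
    rw [if_neg (by norm_num)] at a1 a2
    have e : cls (w 2 2).1 = cls (par16 w).1 := by
      have : cls (w 2 2).1 = pa (w 2 2).1 := by
        unfold cls
        rw [if_pos ⟨e1, e2⟩]
      rw [this, e3]
      simp [aa, par16]
    rw [e, a1, a2] at h1
    exact h1

theorem Blk16.HH_out {w' : ℕ → ℕ → W} (h0 : HH (w 3 0) (w' 0 0)) (h2 : HH (w 3 2) (w' 0 2)) :
    HH (par16 w) (par16 w') := by
  refine ⟨h.par_ok, ?_, ?_⟩
  · have h1 := h0.2.2.2.2.2
    have e1 := h.pi_at (show 3 < 4 by norm_num) (show 0 < 4 by norm_num)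
    have e2 := h.pj_at (show 3 < 4 by norm_num) (show 0 < 4 by norm_num)
    have a3 := h.c1_own (show 3 < 4 by norm_num) (show 0 < 4 by norm_num) (by norm_num)
    rw [a3] at h1
    exact h1 (by unfold t1; rw [e1, e2]; norm_num)
  · have h1 := h2.2.2
    have e1 := h.pi_at (show 3 < 4 by norm_num) (show 2 < 4 by norm_num)
    have e2 := h.pj_at (show 3 < 4 by norm_num) (show 2 < 4 by norm_num)
    have e3 := h.pa_at (show 3 < 4 by norm_num) (show 2 < 4 by norm_num)
    have a1 := h.c1_wire (show 3 < 4 by norm_num)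
    rw [if_neg (by norm_num)] at a1
    have e : t1 (w 3 2).1 = t1 (par16 w).1 := by
      have : t1 (w 3 2).1 = pa (w 3 2).1 := by
        unfold t1
        rw [e1, e2]
        norm_num
      rw [this, e3]
      simp [aa, par16]
    rw [e, a1] at h1
    exact h1

theorem Blk16.VV_out {w' : ℕ → ℕ → W} (h0 : VV (w 0 3) (w' 0 0)) (h2 : VV (w 2 3) (w' 2 0))
    (h' : (w' 0 0).2.1 = (w' 0 0).2.2) : VV (par16 w) (par16 w') := by
  refine ⟨?_, ?_⟩
  · have h1 := h0.2.2.2.2
    have e1 := h.pi_at (show 0 < 4 by norm_num) (show 3 < 4 by norm_num)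
    have e2 := h.pj_at (show 0 < 4 by norm_num) (show 3 < 4 by norm_num)
    have a3 := h.c2_own (show 0 < 4 by norm_num) (show 3 < 4 by norm_num) (by norm_num)
    rw [a3, ← h'] at h1
    exact h1 (by unfold t2; rw [e1, e2]; norm_num)
  · have h1 := h2.2
    have e1 := h.pi_at (show 2 < 4 by norm_num) (show 3 < 4 by norm_num)
    have e2 := h.pj_at (show 2 < 4 by norm_num) (show 3 < 4 by norm_num)
    have e3 := h.pa_at (show 2 < 4 by norm_num) (show 3 < 4 by norm_num)
    have a1 := h.c2_wire (show 3 < 4 by norm_num)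
    rw [if_neg (by norm_num)] at a1
    have e : t2 (w 2 3).1 = t2 (par16 w).1 := by
      have : t2 (w 2 3).1 = pa (w 2 3).1 := by
        unfold t2
        rw [e1, e2]
        norm_num
      rw [this, e3]
      simp [aa, par16]
    rw [e, a1] at h1
    exact h1

end blk

variable {V : Type} [AddCommGroup V] {io : ℤ × ℤ →+ V} {a b : ℤ} {Q : Set V} {L : V → W}

theorem io_add (x y x' y' : ℤ) (p : V) : p + io (x, y) + io (x', y') = p + io (x + x', y + y') := by
  rw [add_assoc, ← map_add, Prod.mk_add_mk]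

theorem io_zero (p : V) : p + io (0, 0) = p := by
  rw [Prod.mk_zero_zero, map_zero, add_zero]

/-- the 16 letters of a complete parent block -/
theorem upQ_blk (h : PVal io a b Q L) {p : V} (hp : p ∈ upQ io a b Q L) :
    Blk16 (fun i j => L (p + io (a * i, b * j))) := by
  obtain ⟨h1, h2, h3, h4⟩ := hp
  refine ⟨fun i j hi hj => h.ok _ (h4 i j hi hj), ?_, ?_, ?_, ?_⟩
  · intro i j hi hj
    have e : p + io (a * ((i + 1 : ℕ) : ℤ), b * j) = p + io (a * i, b * j) + io (a, 0) := by
      rw [io_add]
      congr 2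
      push_cast
      ring_nf
    have h5 := h4 (i + 1) j hi hj
    rw [e] at h5 ⊢
    exact h.hh _ (h4 i j (by omega) hj) h5
  · intro i j hi hj
    have e : p + io (a * i, b * ((j + 1 : ℕ) : ℤ)) = p + io (a * i, b * j) + io (0, b) := by
      rw [io_add]
      congr 2
      push_cast
      ring_nf
    have h5 := h4 i (j + 1) hi hj
    rw [e] at h5 ⊢
    exact h.vv _ (h4 i j hi (by omega)) h5
  · simpa [io_zero] using h2
  · simpa [io_zero] using h3

theorem upL_eq (p : V) : upL io a b L p = par16 (fun i j => L (p + io (a * i, b * j))) := by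
  unfold upL par16
  simp [io_zero]

theorem up_pval (h : PVal io a b Q L) : PVal io (a * 4) (b * 4) (upQ io a b Q L) (upL io a b L) := by
  refine ⟨?_, ?_, ?_⟩
  · intro p hp
    rw [upL_eq]
    exact (upQ_blk h hp).par_ok
  · intro p hp hp'
    rw [upL_eq, upL_eq]
    have key : ∀ j : ℕ, j < 4 → HH (L (p + io (a * (3 : ℕ), b * j)))
        (L (p + io (a * 4, 0) + io (a * (0 : ℕ), b * j))) := by
      intro j hj
      have e : p + io (a * 4, 0) + io (a * ((0 : ℕ) : ℤ), b * j) =
          p + io (a * ((3 : ℕ) : ℤ), b * j) + io (a, 0) := by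
        rw [io_add, io_add]
        congr 2
        push_cast
        ring_nf
      have h5 := hp'.2.2.2 0 j (by norm_num) hj
      rw [e] at h5 ⊢
      exact h.hh _ (hp.2.2.2 3 j (by norm_num) hj) h5
    exact (upQ_blk h hp).HH_out (key 0 (by norm_num)) (key 2 (by norm_num))
  · intro p hp hp'
    rw [upL_eq, upL_eq]
    have key : ∀ i : ℕ, i < 4 → VV (L (p + io (a * i, b * (3 : ℕ))))
        (L (p + io (0, b * 4) + io (a * i, b * (0 : ℕ)))) := by
      intro i hi
      have e : p + io (0, b * 4) + io (a * i, b * ((0 : ℕ) : ℤ)) =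
          p + io (a * i, b * ((3 : ℕ) : ℤ)) + io (0, b) := by
        rw [io_add, io_add]
        congr 2
        push_cast
        ring_nf
      have h5 := hp'.2.2.2 i 0 hi (by norm_num)
      rw [e] at h5 ⊢
      exact h.vv _ (hp.2.2.2 i 3 hi (by norm_num)) h5
    exact (upQ_blk h hp).VV_out (key 0 (by norm_num)) (key 2 (by norm_num))
      ((upQ_blk h hp').own (show 0 < 4 by norm_num) (by norm_num) (show 0 < 4 by norm_num)
        (by norm_num)).1

/-- PIECE G (levels of a partial configuration). -/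
theorem lev_pval (h : PVal io a b Q L) (n : ℕ) :
    PVal io (a * 4 ^ n) (b * 4 ^ n) (lev io a b Q L n).1 (lev io a b Q L n).2 := by
  induction n with
  | zero =>
    simpa [lev] using h
  | succ n ih =>
    have := up_pval ih
    rw [pow_succ, ← mul_assoc, ← mul_assoc]
    exact this

theorem lev_child (h : PVal io a b Q L) (n : ℕ) {p : V} (hp : p ∈ (lev io a b Q L (n + 1)).1)
    {i j : ℕ} (hi : i < 4) (hj : j < 4) :
    p + io (a * 4 ^ n * i, b * 4 ^ n * j) ∈ (lev io a b Q L n).1 ∧
      (lev io a b Q L n).2 (p + io (a * 4 ^ n * i, b * 4 ^ n * j)) =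
        child i j ((lev io a b Q L (n + 1)).2 p) := by
  have hp' : p ∈ upQ io (a * 4 ^ n) (b * 4 ^ n) (lev io a b Q L n).1 (lev io a b Q L n).2 := hp
  refine ⟨hp'.2.2.2 i j hi hj, ?_⟩
  have h1 := (upQ_blk (lev_pval h n) hp').block hi hj
  rw [← upL_eq] at h1
  exact h1

theorem upn_loc (n : ℕ) : ∀ (t t' : ℤ → ℤ → W) (X Y : ℤ), 0 ≤ X → X < 4 ^ n → 0 ≤ Y → Y < 4 ^ n →
    t 0 0 = t' 0 0 → upn n t X Y = upn n t' X Y := by
  induction n with
  | zero =>
    intro t t' X Y h1 h2 h3 h4 h
    have hX : X = 0 := by rw [pow_zero] at h2; omega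
    have hY : Y = 0 := by rw [pow_zero] at h4; omega
    rw [hX, hY]
    exact h
  | succ n ih =>
    intro t t' X Y h1 h2 h3 h4 h
    rw [upn_succ, upn_succ]
    unfold up
    rw [pow_succ] at h2 h4
    rw [ih t t' (X / 4) (Y / 4) (by omega) (by omega) (by omega) (by omega) h]

/-- the base letters in a complete block of level `n` -/
theorem lev_letters (h : PVal io a b Q L) (n : ℕ) {p : V} (hp : p ∈ (lev io a b Q L n).1)
    {X Y : ℤ} (hX : 0 ≤ X) (hX' : X < 4 ^ n) (hY : 0 ≤ Y) (hY' : Y < 4 ^ n) :
    p + io (a * X, b * Y) ∈ Q ∧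
      L (p + io (a * X, b * Y)) = upn n (fun _ _ => (lev io a b Q L n).2 p) X Y := by
  induction n generalizing p X Y with
  | zero =>
    have hX0 : X = 0 := by rw [pow_zero] at hX'; omega
    have hY0 : Y = 0 := by rw [pow_zero] at hY'; omega
    rw [hX0, hY0, mul_zero, mul_zero, io_zero]
    exact ⟨hp, rfl⟩
  | succ n ih =>
    have hpos : (0 : ℤ) < 4 ^ n := by positivity
    have e1 : 4 ^ n * (X / 4 ^ n) + X % 4 ^ n = X := Int.mul_ediv_add_emod _ _
    have e2 : 4 ^ n * (Y / 4 ^ n) + Y % 4 ^ n = Y := Int.mul_ediv_add_emod _ _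
    have f1 := Int.emod_nonneg X hpos.ne'
    have f2 := Int.emod_lt_of_pos X hpos
    have f3 := Int.emod_nonneg Y hpos.ne'
    have f4 := Int.emod_lt_of_pos Y hpos
    have g1 : 0 ≤ X / 4 ^ n := Int.ediv_nonneg hX hpos.le
    have g2 : X / 4 ^ n < 4 := by
      rw [Int.ediv_lt_iff_lt_mul hpos]
      rw [pow_succ] at hX'
      linarith
    have g3 : 0 ≤ Y / 4 ^ n := Int.ediv_nonneg hY hpos.le
    have g4 : Y / 4 ^ n < 4 := by
      rw [Int.ediv_lt_iff_lt_mul hpos]
      rw [pow_succ] at hY'
      linarith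
    obtain ⟨i, hi⟩ := Int.eq_ofNat_of_zero_le g1
    obtain ⟨j, hj⟩ := Int.eq_ofNat_of_zero_le g3
    have hi4 : i < 4 := by omega
    have hj4 : j < 4 := by omega
    obtain ⟨m1, m2⟩ := lev_child h n hp hi4 hj4
    obtain ⟨k1, k2⟩ := ih m1 f1 f2 f3 f4
    have e : p + io (a * X, b * Y) =
        p + io (a * 4 ^ n * i, b * 4 ^ n * j) + io (a * (X % 4 ^ n), b * (Y % 4 ^ n)) := by
      rw [io_add]
      congr 2
      refine Prod.ext ?_ ?_
      · simp only
        rw [← hi]
        linear_combination (-a) * e1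
      · simp only
        rw [← hj]
        linear_combination (-b) * e2
    rw [e]
    refine ⟨k1, ?_⟩
    rw [k2, m2]
    have s1 := congrFun (congrFun (upn_shift n
      (up (fun _ _ => (lev io a b Q L (n + 1)).2 p)) i j) (X % 4 ^ n)) (Y % 4 ^ n)
    have s2 : upn (n + 1) (fun _ _ => (lev io a b Q L (n + 1)).2 p) X Y =
        upn n (up (fun _ _ => (lev io a b Q L (n + 1)).2 p)) (X % 4 ^ n + 4 ^ n * i)
          (Y % 4 ^ n + 4 ^ n * j) := by
      rw [show X % 4 ^ n + 4 ^ n * (i : ℤ) = X by rw [← hi]; linarith,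
        show Y % 4 ^ n + 4 ^ n * (j : ℤ) = Y by rw [← hj]; linarith]
      rfl
    rw [s2, ← s1]
    apply upn_loc n _ _ _ _ f1 f2 f3 f4
    unfold up
    rw [show ((0 + (i : ℤ)) % 4).toNat = i by omega, show ((0 + (j : ℤ)) % 4).toNat = j by omega]

/-- a full square next to a complete block is a complete block; `e` is one of the four unit
vectors -/
theorem lev_adj (h : PVal io a b Q L) (n : ℕ) {p : V} (hp : p ∈ (lev io a b Q L n).1)
    {e : ℤ × ℤ} (he : e = (1, 0) ∨ e = (-1, 0) ∨ e = (0, 1) ∨ e = (0, -1))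
    (hfull : ∀ X Y : ℤ, 0 ≤ X → X < 4 ^ n → 0 ≤ Y → Y < 4 ^ n →
      p + io (a * 4 ^ n * e.1, b * 4 ^ n * e.2) + io (a * X, b * Y) ∈ Q) :
    p + io (a * 4 ^ n * e.1, b * 4 ^ n * e.2) ∈ (lev io a b Q L n).1 := by
  induction n generalizing p e with
  | zero =>
    have h1 := hfull 0 0 le_rfl (by norm_num) le_rfl (by norm_num)
    rw [mul_zero, mul_zero, io_zero] at h1
    exact h1
  | succ n ih =>
    have hpos : (0 : ℤ) < 4 ^ n := by positivity
    have hv := lev_pval h n
    have hpp : p ∈ upQ io (a * 4 ^ n) (b * 4 ^ n) (lev io a b Q L n).1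
      (lev io a b Q L n).2 := hp
    obtain ⟨hp1, hp2, hp3, hp4⟩ := hpp
    set S := (lev io a b Q L n).1 with hS
    set M := (lev io a b Q L n).2 with hM
    set A := a * 4 ^ n with hA
    set B := b * 4 ^ n with hB
    have eA : a * 4 ^ (n + 1) = A * 4 := by rw [hA]; ring
    have eB : b * 4 ^ (n + 1) = B * 4 := by rw [hB]; ring
    rw [eA, eB] at hfull ⊢
    have step : ∀ (q : V) (e' : ℤ × ℤ), (e' = (1, 0) ∨ e' = (-1, 0) ∨ e' = (0, 1) ∨ e' = (0, -1)) →
        q ∈ S → ∀ I J : ℤ, 0 ≤ I → I < 4 → 0 ≤ J → J < 4 →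
        q + io (A * e'.1, B * e'.2) = p + io (A * 4 * e.1, B * 4 * e.2) + io (A * I, B * J) →
        p + io (A * 4 * e.1, B * 4 * e.2) + io (A * I, B * J) ∈ S := by
      intro q e' he' hq I J hI hI4 hJ hJ4 hqe
      rw [← hqe]
      apply ih hq he'
      intro X Y hX hX' hY hY'
      rw [hqe]
      have k := hfull (4 ^ n * I + X) (4 ^ n * J + Y) (by positivity)
        (by rw [pow_succ]; nlinarith) (by positivity) (by rw [pow_succ]; nlinarith)
      have e1 : p + io (A * 4 * e.1, B * 4 * e.2) + io (A * I, B * J) + io (a * X, b * Y) =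
          p + io (A * 4 * e.1, B * 4 * e.2) + io (a * (4 ^ n * I + X), b * (4 ^ n * J + Y)) := by
        rw [add_assoc _ (io (A * I, B * J)), ← map_add, Prod.mk_add_mk, hA, hB]
        congr 2
        refine Prod.ext ?_ ?_
        · simp only
          ring
        · simp only
          ring
      rw [e1]
      exact k
    have all16 : ∀ i j : ℕ, i < 4 → j < 4 →
        p + io (A * 4 * e.1, B * 4 * e.2) + io (A * i, B * j) ∈ S := by
      rcases he with rfl | rfl | rfl | rfl
      · intro i j hi hj
        induction i with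
        | zero =>
          refine step _ (1, 0) (Or.inl rfl) (hp4 3 j (by norm_num) hj) _ _ (by omega) (by omega)
            (by omega) (by omega) ?_
          simp only [io_add]
          congr 2
          refine Prod.ext ?_ ?_ <;> simp only <;> push_cast <;> ring
        | succ m ihm =>
          refine step _ (1, 0) (Or.inl rfl) (ihm (by omega)) _ _ (by omega) (by omega)
            (by omega) (by omega) ?_
          simp only [io_add]
          congr 2
          refine Prod.ext ?_ ?_ <;> simp only <;> push_cast <;> ring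
      · have aux : ∀ j : ℕ, j < 4 → ∀ k : ℕ, k < 4 →
            p + io (A * 4 * (-1), B * 4 * 0) + io (A * ((3 : ℤ) - k), B * j) ∈ S := by
          intro j hj k hk
          induction k with
          | zero =>
            refine step _ (-1, 0) (Or.inr (Or.inl rfl)) (hp4 0 j (by norm_num) hj) _ _ (by omega)
              (by omega) (by omega) (by omega) ?_
            simp only [io_add]
            congr 2
            refine Prod.ext ?_ ?_ <;> simp only <;> push_cast <;> ring
          | succ m ihm =>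
            refine step _ (-1, 0) (Or.inr (Or.inl rfl)) (ihm (by omega)) _ _ (by omega)
              (by omega) (by omega) (by omega) ?_
            simp only [io_add]
            congr 2
            refine Prod.ext ?_ ?_ <;> simp only <;> push_cast <;> ring
        intro i j hi hj
        have k := aux j hj (3 - i) (by omega)
        rw [show ((3 : ℤ) - ((3 - i : ℕ) : ℤ)) = i by omega] at k
        exact k
      · intro i j hi hj
        induction j with
        | zero =>
          refine step _ (0, 1) (Or.inr (Or.inr (Or.inl rfl))) (hp4 i 3 hi (by norm_num)) _ _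
            (by omega) (by omega) (by omega) (by omega) ?_
          simp only [io_add]
          congr 2
          refine Prod.ext ?_ ?_ <;> simp only <;> push_cast <;> ring
        | succ m ihm =>
          refine step _ (0, 1) (Or.inr (Or.inr (Or.inl rfl))) (ihm (by omega)) _ _ (by omega)
            (by omega) (by omega) (by omega) ?_
          simp only [io_add]
          congr 2
          refine Prod.ext ?_ ?_ <;> simp only <;> push_cast <;> ring
      · have aux : ∀ i : ℕ, i < 4 → ∀ k : ℕ, k < 4 →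
            p + io (A * 4 * 0, B * 4 * (-1)) + io (A * i, B * ((3 : ℤ) - k)) ∈ S := by
          intro i hi k hk
          induction k with
          | zero =>
            refine step _ (0, -1) (Or.inr (Or.inr (Or.inr rfl))) (hp4 i 0 hi (by norm_num)) _ _
              (by omega) (by omega) (by omega) (by omega) ?_
            simp only [io_add]
            congr 2
            refine Prod.ext ?_ ?_ <;> simp only <;> push_cast <;> ring
          | succ m ihm =>
            refine step _ (0, -1) (Or.inr (Or.inr (Or.inr rfl))) (ihm (by omega)) _ _ (by omega)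
              (by omega) (by omega) (by omega) ?_
            simp only [io_add]
            congr 2
            refine Prod.ext ?_ ?_ <;> simp only <;> push_cast <;> ring
        intro i j hi hj
        have k := aux i hi (3 - j) (by omega)
        rw [show ((3 : ℤ) - ((3 - j : ℕ) : ℤ)) = j by omega] at k
        exact k
    have hq : p + io (A * 4 * e.1, B * 4 * e.2) ∈ S := by
      have := all16 0 0 (by norm_num) (by norm_num)
      simpa [io_zero] using this
    have hr : ∀ q, q ∈ S → q + io (A, 0) ∈ S →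
        pi (M (q + io (A, 0))).1 = (pi (M q).1 + 1) % 4 ∧ pj (M (q + io (A, 0))).1 = pj (M q).1 :=
      fun q h1 h2 => ⟨(hv.hh q h1 h2).2.1.1, (hv.hh q h1 h2).2.1.2.1⟩
    have hu : ∀ q, q ∈ S → q + io (0, B) ∈ S →
        pi (M (q + io (0, B))).1 = pi (M q).1 ∧ pj (M (q + io (0, B))).1 = (pj (M q).1 + 1) % 4 :=
      fun q h1 h2 => ⟨(hv.vv q h1 h2).1.1, (hv.vv q h1 h2).1.2⟩
    have hlt : ∀ q, pi (M q).1 < 4 ∧ pj (M q).1 < 4 := fun q => ⟨pi_lt _, pj_lt _⟩
    have hpos2 : pi (M (p + io (A * 4 * e.1, B * 4 * e.2))).1 = 0 ∧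
        pj (M (p + io (A * 4 * e.1, B * 4 * e.2))).1 = 0 := by
      rcases he with rfl | rfl | rfl | rfl
      · obtain ⟨m1, m2⟩ := lev_child h n hp (show 3 < 4 by norm_num) (show 0 < 4 by norm_num)
        rw [← hA, ← hB, ← hM] at m2
        rw [← hA, ← hB, ← hS] at m1
        have e1 : p + io (A * 4 * 1, B * 4 * 0) = p + io (A * ((3 : ℕ) : ℤ), B * ((0 : ℕ) : ℤ)) +
            io (A, 0) := by
          rw [io_add]
          congr 2
          refine Prod.ext ?_ ?_ <;> simp only <;> push_cast <;> ring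
        simp only at hq ⊢
        rw [e1] at hq ⊢
        have k := (hv.hh _ m1 hq).2.1
        rw [m2] at k
        obtain ⟨k1, k2, -⟩ := k
        have c1 : pi (child 3 0 ((lev io a b Q L (n + 1)).2 p)).1 = 3 := pi_mk (by norm_num) _ _
        have c2 : pj (child 3 0 ((lev io a b Q L (n + 1)).2 p)).1 = 0 := pj_mk _ (by norm_num) _
        rw [c1] at k1
        rw [c2] at k2
        exact ⟨k1, k2⟩
      · simp only at hq all16 ⊢
        set P' := p + io (A * 4 * (-1), B * 4 * 0) with hP'
        have E : ∀ m : ℤ, P' + io (A * m, B * 0) + io (A, 0) = P' + io (A * (m + 1), B * 0) := by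
          intro m
          rw [io_add]
          congr 2
          refine Prod.ext ?_ ?_ <;> simp only <;> ring
        have E3 : P' + io (A * 3, B * 0) + io (A, 0) = p := by
          rw [hP', io_add, io_add]
          convert io_zero p using 3
          refine Prod.ext ?_ ?_ <;> simp only <;> ring
        have k1 := all16 1 0 (by norm_num) (by norm_num)
        have k2 := all16 2 0 (by norm_num) (by norm_num)
        have k3 := all16 3 0 (by norm_num) (by norm_num)
        push_cast at k1 k2 k3
        have E0 : P' + io (A, 0) = P' + io (A * 1, B * 0) := by rw [mul_one, mul_zero]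
        have E1 := E 1
        have E2 := E 2
        norm_num at E1 E2
        rw [mul_zero] at k2 k3 E3
        rw [mul_zero, mul_one] at k1
        have r0 := hr P' hq k1
        have r1 := hr _ k1 (by rw [E1]; exact k2)
        have r2 := hr _ k2 (by rw [E2]; exact k3)
        have r3 := hr _ k3 (by rw [E3]; exact hp1)
        rw [E1] at r1
        rw [E2] at r2
        rw [E3] at r3
        have l0 := hlt P'
        have l1 := hlt (P' + io (A, 0))
        have l2 := hlt (P' + io (A * 2, 0))
        have l3 := hlt (P' + io (A * 3, 0))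
        omega
      · simp only at hq all16 ⊢
        have E0 : p + io (A * 4 * 0, B * 4 * 1) = p + io (A * ((0 : ℕ) : ℤ), B * ((3 : ℕ) : ℤ)) +
            io (0, B) := by
          rw [io_add]
          congr 2
          refine Prod.ext ?_ ?_ <;> simp only <;> push_cast <;> ring
        obtain ⟨m1, m2⟩ := lev_child h n hp (show 0 < 4 by norm_num) (show 3 < 4 by norm_num)
        rw [← hA, ← hB, ← hM] at m2
        rw [← hA, ← hB, ← hS] at m1
        rw [E0] at hq ⊢
        have k := hu _ m1 hq
        rw [m2] at k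
        obtain ⟨k1, k2⟩ := k
        have c1 : pi (child 0 3 ((lev io a b Q L (n + 1)).2 p)).1 = 0 := pi_mk (by norm_num) _ _
        have c2 : pj (child 0 3 ((lev io a b Q L (n + 1)).2 p)).1 = 3 := pj_mk _ (by norm_num) _
        rw [c1] at k1
        rw [c2] at k2
        exact ⟨k1, k2⟩
      · simp only at hq all16 ⊢
        set P' := p + io (A * 4 * 0, B * 4 * (-1)) with hP'
        have E : ∀ m : ℤ, P' + io (A * 0, B * m) + io (0, B) = P' + io (A * 0, B * (m + 1)) := by
          intro m
          rw [io_add]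
          congr 2
          refine Prod.ext ?_ ?_ <;> simp only <;> ring
        have E3 : P' + io (A * 0, B * 3) + io (0, B) = p := by
          rw [hP', io_add, io_add]
          convert io_zero p using 3
          refine Prod.ext ?_ ?_ <;> simp only <;> ring
        have k1 := all16 0 1 (by norm_num) (by norm_num)
        have k2 := all16 0 2 (by norm_num) (by norm_num)
        have k3 := all16 0 3 (by norm_num) (by norm_num)
        push_cast at k1 k2 k3
        have E1 := E 1
        have E2 := E 2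
        norm_num at E1 E2
        rw [mul_zero] at k2 k3 E3
        rw [mul_zero, mul_one] at k1
        have r0 := hu P' hq k1
        have r1 := hu _ k1 (by rw [E1]; exact k2)
        have r2 := hu _ k2 (by rw [E2]; exact k3)
        have r3 := hu _ k3 (by rw [E3]; exact hp1)
        rw [E1] at r1
        rw [E2] at r2
        rw [E3] at r3
        have l0 := hlt P'
        have l1 := hlt (P' + io (0, B))
        have l2 := hlt (P' + io (0, B * 2))
        have l3 := hlt (P' + io (0, B * 3))
        omega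
    exact ⟨hq, hpos2.1, hpos2.2, all16⟩

/-- complete blocks of level `n` are disjoint -/
theorem lev_disj (ha : 0 < a) (hb : 0 < b) (h : PVal io a b Q L)
    (h0 : ∀ p ∈ Q, ∀ u : ℤ × ℤ, |u.1| < a → |u.2| < b → p + io u ∈ Q → u = 0) (n : ℕ) {p : V}
    (hp : p ∈ (lev io a b Q L n).1) (u : ℤ × ℤ) (h1 : |u.1| < a * 4 ^ n)
    (h2 : |u.2| < b * 4 ^ n) (hu : p + io u ∈ (lev io a b Q L n).1) : u = 0 := by
  induction n generalizing p u with
  | zero =>
    rw [pow_zero, mul_one] at h1 h2
    exact h0 p hp u h1 h2 hu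
  | succ n ih =>
    have hA : 0 < a * 4 ^ n := by positivity
    have hB : 0 < b * 4 ^ n := by positivity
    set A := a * 4 ^ n with hAdef
    set B := b * 4 ^ n with hBdef
    have key : ∀ (A x : ℤ), 0 < A → |x| < A * 4 → ∃ i i' : ℕ, i < 4 ∧ i' < 4 ∧
        |x + A * i' - A * i| < A := by
      intro A x hA hx
      rw [abs_lt] at hx
      rcases le_or_gt 0 x with hx0 | hx0
      · have g1 : 0 ≤ x / A := Int.ediv_nonneg hx0 hA.le
        have g2 : x / A < 4 := by
          rw [Int.ediv_lt_iff_lt_mul hA]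
          linarith
        obtain ⟨i, hi⟩ := Int.eq_ofNat_of_zero_le g1
        have e1 : A * (x / A) + x % A = x := Int.mul_ediv_add_emod _ _
        have f1 := Int.emod_nonneg x hA.ne'
        have f2 := Int.emod_lt_of_pos x hA
        refine ⟨i, 0, by omega, by norm_num, ?_⟩
        rw [hi] at e1
        rw [abs_lt]
        push_cast
        constructor <;> linarith
      · have g1 : 0 ≤ (-x) / A := Int.ediv_nonneg (by linarith) hA.le
        have g2 : (-x) / A < 4 := by
          rw [Int.ediv_lt_iff_lt_mul hA]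
          linarith
        obtain ⟨i, hi⟩ := Int.eq_ofNat_of_zero_le g1
        have e1 : A * ((-x) / A) + (-x) % A = -x := Int.mul_ediv_add_emod _ _
        have f1 := Int.emod_nonneg (-x) hA.ne'
        have f2 := Int.emod_lt_of_pos (-x) hA
        refine ⟨0, i, by norm_num, by omega, ?_⟩
        rw [hi] at e1
        rw [abs_lt]
        push_cast
        constructor <;> linarith
    rw [pow_succ, ← mul_assoc] at h1 h2
    obtain ⟨i, i', hi, hi', hii⟩ := key A u.1 hA h1
    obtain ⟨j, j', hj, hj', hjj⟩ := key B u.2 hB h2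
    obtain ⟨m1, m2⟩ := lev_child h n hp hi hj
    obtain ⟨k1, k2⟩ := lev_child h n hu hi' hj'
    have e : p + io u + io (A * i', B * j') = p + io (A * i, B * j) +
        io (u.1 + A * i' - A * i, u.2 + B * j' - B * j) := by
      rw [show u = (u.1, u.2) from rfl, io_add, io_add]
      congr 2
      refine Prod.ext ?_ ?_
      · simp only
        ring
      · simp only
        ring
    rw [← hAdef, ← hBdef] at m1 m2 k1 k2
    rw [e] at k1 k2
    have hz := ih m1 _ hii hjj k1
    have hz1 : u.1 + A * i' - A * i = 0 := congrArg Prod.fst hz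
    have hz2 : u.2 + B * j' - B * j = 0 := congrArg Prod.snd hz
    rw [hz1, hz2, io_zero, m2] at k2
    have p1 := congrArg (fun w : W => pi w.1) k2
    have p2 := congrArg (fun w : W => pj w.1) k2
    have c1 : ∀ (i j : ℕ) (w : W), i < 4 → pi (child i j w).1 = i := fun i j w hi => pi_mk hi _ _
    have c2 : ∀ (i j : ℕ) (w : W), j < 4 → pj (child i j w).1 = j := fun i j w hj => pj_mk _ hj _
    simp only [c1 _ _ _ hi, c1 _ _ _ hi'] at p1
    simp only [c2 _ _ _ hj, c2 _ _ _ hj'] at p2
    subst p1
    subst p2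
    refine Prod.ext ?_ ?_
    · simpa using hz1
    · simpa using hz2

end Pool.Agent.Helper42.Mk2
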