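import Pool.Agent.Helper42.Mk2.UpnLem
import Pool.Agent.Helper42.Mk2.Lev

set_option autoImplicit false

namespace Pool.Agent.Helper42.Mk2

variable {V : Type} [AddCommGroup V]

/-- walking along squares -/
theorem chain (io : ℤ × ℤ →+ V) (A B : ℤ) (S : Set V) (full : V → Prop)
    (hstep : ∀ p ∈ S, ∀ e : ℤ × ℤ, (e = (1, 0) ∨ e = (-1, 0) ∨ e = (0, 1) ∨ e = (0, -1)) →
      full (p + io (A * e.1, B * e.2)) → p + io (A * e.1, B * e.2) ∈ S) {p : V} (hp : p ∈ S)
    (M1 M2 N1 N2 : ℤ) (hM1 : M1 ≤ 0) (hM2 : 0 ≤ M2) (hN1 : N1 ≤ 0) (hN2 : 0 ≤ N2)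
    (hfull : ∀ I J : ℤ, M1 ≤ I → I ≤ M2 → N1 ≤ J → J ≤ N2 → full (p + io (A * I, B * J))) :
    ∀ I J : ℤ, M1 ≤ I → I ≤ M2 → N1 ≤ J → J ≤ N2 → p + io (A * I, B * J) ∈ S := by
  have add : ∀ I J i j : ℤ, p + io (A * I, B * J) + io (A * i, B * j) =
      p + io (A * (I + i), B * (J + j)) := by
    intro I J i j
    rw [add_assoc, ← map_add]
    congr 2
    exact Prod.ext (by change A * I + A * i = _; ring) (by change B * J + B * j = _; ring)
  have row : ∀ n : ℕ, ∀ I : ℤ, I.natAbs = n → M1 ≤ I → I ≤ M2 →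
      p + io (A * I, B * 0) ∈ S := by
    intro n
    induction n with
    | zero =>
      intro I hI _ _
      have : I = 0 := by omega
      rw [this]
      have e : ((A * 0, B * 0) : ℤ × ℤ) = 0 := by simp
      rw [e, map_zero, add_zero]
      exact hp
    | succ n ih =>
      intro I hI hIM hIM2
      rcases lt_or_ge 0 I with h | h
      · have h1 := ih (I - 1) (by omega) (by omega) (by omega)
        have h2 := hstep _ h1 (1, 0) (Or.inl rfl)
        simp only [add, sub_add_cancel, zero_add] at h2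
        exact h2 (hfull I 0 hIM hIM2 hN1 hN2)
      · have h1 := ih (I + 1) (by omega) (by omega) (by omega)
        have h2 := hstep _ h1 (-1, 0) (Or.inr (Or.inl rfl))
        simp only [add] at h2
        have e : I + 1 + -1 = I := by ring
        rw [e, add_zero] at h2
        exact h2 (hfull I 0 hIM hIM2 hN1 hN2)
  have col : ∀ n : ℕ, ∀ I J : ℤ, J.natAbs = n → M1 ≤ I → I ≤ M2 → N1 ≤ J → J ≤ N2 →
      p + io (A * I, B * J) ∈ S := by
    intro n
    induction n with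
    | zero =>
      intro I J hJ hI hI2 hJN hJN2
      have : J = 0 := by omega
      rw [this]
      exact row _ I rfl hI hI2
    | succ n ih =>
      intro I J hJ hI hI2 hJN hJN2
      rcases lt_or_ge 0 J with h | h
      · have h1 := ih I (J - 1) (by omega) hI hI2 (by omega) (by omega)
        have h2 := hstep _ h1 (0, 1) (Or.inr (Or.inr (Or.inl rfl)))
        simp only [add, sub_add_cancel] at h2
        rw [add_zero] at h2
        exact h2 (hfull I J hI hI2 hJN hJN2)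
      · have h1 := ih I (J + 1) (by omega) hI hI2 (by omega) (by omega)
        have h2 := hstep _ h1 (0, -1) (Or.inr (Or.inr (Or.inr rfl)))
        simp only [add] at h2
        have e : J + 1 + -1 = J := by ring
        rw [e, add_zero] at h2
        exact h2 (hfull I J hI hI2 hJN hJN2)
  intro I J hI hI2 hJ hJ2
  exact col _ I J rfl hI hI2 hJ hJ2

/-- complete blocks of level `n` of a patch -/
noncomputable def LV (io : ℤ × ℤ →+ V) (k : ℤ) (P : Set V) (lab : V → Lab) (n : ℕ) : Set V :=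
  (lev io (k * MM) k (Q0 io k P lab) (L0 io k lab) n).1

/-- their letters -/
noncomputable def LL (io : ℤ × ℤ →+ V) (k : ℤ) (P : Set V) (lab : V → Lab) (n : ℕ) : V → W :=
  (lev io (k * MM) k (Q0 io k P lab) (L0 io k lab) n).2

section

variable {io : ℤ × ℤ →+ V} {k : ℤ} (hk : 0 < k)
  {ρ : ℤ} {P : Set V} {lab : V → Lab} (hloc : Loc io k ρ P lab) (hρ : 2 * (k * MM) ≤ ρ)

include hk hloc hρ in
/-- base blocks in a region of cells of `P` -/
theorem base_chain {p : V} (hp : p ∈ Q0 io k P lab) (M1 M2 N1 N2 : ℤ) (hM1 : M1 ≤ 0)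
    (hM2 : 0 ≤ M2) (hN1 : N1 ≤ 0) (hN2 : 0 ≤ N2)
    (hfull : ∀ u : ℤ × ℤ, k * MM * M1 ≤ u.1 → u.1 < k * MM * (M2 + 1) → k * N1 ≤ u.2 →
      u.2 < k * (N2 + 1) → p + io u ∈ P) (I J : ℤ) (hI : M1 ≤ I) (hI2 : I ≤ M2) (hJ : N1 ≤ J)
    (hJ2 : J ≤ N2) : p + io (k * MM * I, k * J) ∈ Q0 io k P lab := by
  have hM := MM_pos
  have hkM0 : 0 < k * MM := by positivity
  apply chain io (k * MM) k (Q0 io k P lab) (fun q => ∀ u : ℤ × ℤ, 0 ≤ u.1 → u.1 < k * MM →
    0 ≤ u.2 → u.2 < k → q + io u ∈ P) _ hp M1 M2 N1 N2 hM1 hM2 hN1 hN2 _ I J hI hI2 hJ hJ2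
  · intro q hq e he h
    exact base_adj hk hloc hρ hq he h
  · intro I J hI hI2 hJ hJ2 u h1 h2 h3 h4
    rw [add_assoc, ← map_add]
    apply hfull
    · change _ ≤ k * MM * I + u.1
      nlinarith
    · change k * MM * I + u.1 < _
      nlinarith
    · change _ ≤ k * J + u.2
      nlinarith
    · change k * J + u.2 < _
      nlinarith

include hk hloc hρ in
theorem LV_base (n : ℕ) {p : V} (hp : p ∈ LV io k P lab n) : p ∈ Q0 io k P lab := by
  have h4 : (0 : ℤ) < 4 ^ n := by positivity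
  have := (lev_letters (base_pval hk hloc hρ) n hp (X := 0) (Y := 0) le_rfl h4 le_rfl h4).1
  have e : ((k * MM * 0, k * 0) : ℤ × ℤ) = 0 := by simp
  rwa [e, map_zero, add_zero] at this

include hk hloc hρ in
/-- complete blocks in a region of cells of `P` -/
theorem lev_chain (n : ℕ) {p : V} (hp : p ∈ LV io k P lab n) (M1 M2 N1 N2 : ℤ) (hM1 : M1 ≤ 0)
    (hM2 : 0 ≤ M2) (hN1 : N1 ≤ 0) (hN2 : 0 ≤ N2)
    (hfull : ∀ u : ℤ × ℤ, k * MM * 4 ^ n * M1 ≤ u.1 → u.1 < k * MM * 4 ^ n * (M2 + 1) →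
      k * 4 ^ n * N1 ≤ u.2 → u.2 < k * 4 ^ n * (N2 + 1) → p + io u ∈ P) (I J : ℤ)
    (hI : M1 ≤ I) (hI2 : I ≤ M2) (hJ : N1 ≤ J) (hJ2 : J ≤ N2) :
    p + io (k * MM * 4 ^ n * I, k * 4 ^ n * J) ∈ LV io k P lab n := by
  have hM := MM_pos
  have hkM0 : 0 < k * MM := by positivity
  have h4 : (0 : ℤ) < 4 ^ n := by positivity
  have hpv := base_pval hk hloc hρ
  have hpQ := LV_base hk hloc hρ n hp
  have hbase : ∀ X Y : ℤ, 4 ^ n * M1 ≤ X → X ≤ 4 ^ n * (M2 + 1) - 1 → 4 ^ n * N1 ≤ Y →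
      Y ≤ 4 ^ n * (N2 + 1) - 1 → p + io (k * MM * X, k * Y) ∈ Q0 io k P lab := by
    intro X Y h1 h2 h3 h5
    apply base_chain hk hloc hρ hpQ (4 ^ n * M1) (4 ^ n * (M2 + 1) - 1) (4 ^ n * N1)
      (4 ^ n * (N2 + 1) - 1) (by nlinarith) (by nlinarith) (by nlinarith) (by nlinarith) _ X Y
      h1 h2 h3 h5
    intro u a1 a2 a3 a4
    apply hfull
    · calc _ = k * MM * (4 ^ n * M1) := by ring
        _ ≤ _ := a1
    · calc _ < k * MM * (4 ^ n * (M2 + 1) - 1 + 1) := a2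
        _ = _ := by ring
    · calc _ = k * (4 ^ n * N1) := by ring
        _ ≤ _ := a3
    · calc _ < k * (4 ^ n * (N2 + 1) - 1 + 1) := a4
        _ = _ := by ring
  apply chain io (k * MM * 4 ^ n) (k * 4 ^ n) (LV io k P lab n) (fun q => ∀ X Y : ℤ, 0 ≤ X →
    X < 4 ^ n → 0 ≤ Y → Y < 4 ^ n → q + io (k * MM * X, k * Y) ∈ Q0 io k P lab) _ hp M1 M2 N1 N2
    hM1 hM2 hN1 hN2 _ I J hI hI2 hJ hJ2
  · intro q hq e he h
    exact lev_adj hpv n hq he h
  · intro I J hI hI2 hJ hJ2 X Y h1 h2 h3 h5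
    rw [add_assoc, ← map_add]
    have e : ((k * MM * 4 ^ n * I, k * 4 ^ n * J) : ℤ × ℤ) + (k * MM * X, k * Y) =
        (k * MM * (4 ^ n * I + X), k * (4 ^ n * J + Y)) :=
      Prod.ext (by change k * MM * 4 ^ n * I + k * MM * X = _; ring)
        (by change k * 4 ^ n * J + k * Y = _; ring)
    rw [e]
    apply hbase <;> nlinarith

end

end Pool.Agent.Helper42.Mk2
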