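import Pool.Agent.Helper42.Mk2.Tiling2

set_option autoImplicit false

open MeasureTheory

namespace Pool.Agent.Helper42.Mk2

open Pool.Agent.Helper42.Miek

variable {s : ℤ} (hs : 0 < s)

include hs in
theorem enc_zero_block {t t' : ℤ → ℤ → W} (h : t 0 0 = t' 0 0) {a b : ℤ} (ha : 0 ≤ a)
    (ha' : a < s * MM) (hb : 0 ≤ b) (hb' : b < s) : enc s t a b = enc s t' a b := by
  unfold enc
  by_cases hd : s ∣ a ∧ s ∣ b
  · rw [if_pos hd, if_pos hd]
    obtain ⟨⟨X, rfl⟩, ⟨Y, rfl⟩⟩ := hd
    rw [Int.mul_ediv_cancel_left _ hs.ne', Int.mul_ediv_cancel_left _ hs.ne']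
    have hY : Y = 0 := by
      have h1 : 0 ≤ Y := nonneg_of_mul_nonneg_right hb hs
      have h2 : Y < 1 := by
        by_contra hcon
        push Not at hcon
        nlinarith
      omega
    have hX : 0 ≤ X := nonneg_of_mul_nonneg_right ha hs
    have hX' : X < MM := lt_of_mul_lt_mul_left ha' hs.le
    subst hY
    unfold cc
    rw [Int.ediv_eq_zero_of_lt hX hX', h]
  · rw [if_neg hd, if_neg hd]

/-- a legal tiling is the encoding of a valid configuration -/
theorem decode {T : Set sqs.Tile} (hT : sqs.IsTiling T) (hL : (rule s hs).Legal T) :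
    ∃ (p1 : Pl) (t : ℤ → ℤ → W), Val t ∧ (∀ u, p1 + io u ∈ Pos T) ∧
      (∀ q ∈ Pos T, ∃ u, q = p1 + io u) ∧
      ∀ a b : ℤ, lab T (p1 + io (a, b)) = enc s t a b := by
  have hloc := loc_of_legal hs hL
  have hMM := one_le_MM
  have hsM : s ≤ s * MM := k_le hs
  have hrho : rho s = 2 * (s * MM) := rfl
  -- `T` is nonempty
  obtain ⟨p0, hp0⟩ : (Pos T).Nonempty := by
    have h0 : (0 : Pl) ∈ ⋃ t ∈ T, sqs.body t := by rw [hT.2]; exact Set.mem_univ _
    rw [Set.mem_iUnion₂] at h0
    obtain ⟨t, ht, _⟩ := h0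
    exact ⟨t.2, t.1, ht⟩
  -- a marker
  obtain ⟨p1, hp1, hm1⟩ : ∃ p1 ∈ Pos T, lab T p1 = some none := by
    obtain ⟨c, ⟨t, ht, x0, y0, hc⟩, h0, h1⟩ := hloc p0 hp0
    have hKpos : 0 < s * MM := by positivity
    have m1 := Int.emod_nonneg x0 hKpos.ne'
    have m2 := Int.emod_lt_of_pos x0 hKpos
    have m3 := Int.emod_nonneg y0 hs.ne'
    have m4 := Int.emod_lt_of_pos y0 hs
    refine ⟨p0 + io (-(x0 % (s * MM)), -(y0 % s)), pos_all hT hL hp0 _, ?_⟩
    rw [h1 _ _ (by rw [abs_le]; constructor <;> omega) (by rw [abs_le]; constructor <;> omega)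
      (pos_all hT hL hp0 _), hc, enc_mark hs]
    constructor
    · rw [neg_add_eq_sub]
      exact Int.dvd_self_sub_emod
    · rw [neg_add_eq_sub]
      exact Int.dvd_self_sub_emod
  have hall : ∀ u, p1 + io u ∈ Pos T := pos_all hT hL hp1
  -- view from a marker
  have view : ∀ q ∈ Pos T, lab T q = some none → ∃ t, Val t ∧ ∀ a b : ℤ, |a| ≤ rho s →
      |b| ≤ rho s → lab T (q + io (a, b)) = enc s t a b := by
    intro q hq hq1
    obtain ⟨c, hc, h0, h1⟩ := hloc q hq
    rw [hq1] at h0
    obtain ⟨t, ht, h2⟩ := GG_mark hs hc h0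
    exact ⟨t, ht, fun a b ha hb => by rw [h1 a b ha hb (pos_all hT hL hq _), h2]⟩
  -- the lattice of markers
  have add_io : ∀ (a b c d : ℤ), p1 + io (a, b) + io (c, d) = p1 + io (a + c, b + d) := by
    intro a b c d
    rw [add_assoc, ← map_add]
    rfl
  have mark : ∀ i j : ℤ, lab T (p1 + io (s * MM * i, s * j)) = some none := by
    have hstep : ∀ i j i' j' : ℤ, |i' - i| ≤ 1 → |j' - j| ≤ 1 →
        lab T (p1 + io (s * MM * i, s * j)) = some none →
        lab T (p1 + io (s * MM * i', s * j')) = some none := by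
      intro i j i' j' hi hj h
      obtain ⟨t, ht, h1⟩ := view _ (hall _) h
      have e : p1 + io (s * MM * i', s * j') =
          p1 + io (s * MM * i, s * j) + io (s * MM * (i' - i), s * (j' - j)) := by
        rw [add_io]
        congr 3 <;> ring
      have b1 : |s * MM * (i' - i)| ≤ rho s := by
        rw [abs_mul, abs_of_pos (by positivity : 0 < s * MM), hrho]
        nlinarith [abs_nonneg (i' - i)]
      have b2 : |s * (j' - j)| ≤ rho s := by
        rw [abs_mul, abs_of_pos hs, hrho]
        nlinarith [abs_nonneg (j' - j)]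
      rw [e, h1 _ _ b1 b2, enc_mark hs]
      exact ⟨dvd_mul_right _ _, dvd_mul_right _ _⟩
    have hrow : ∀ i : ℤ, lab T (p1 + io (s * MM * i, s * 0)) = some none := by
      intro i
      induction i using Int.induction_on with
      | zero =>
        have e : io (s * MM * 0, s * 0) = 0 := by
          rw [mul_zero, mul_zero]; exact map_zero io
        rw [e, add_zero]
        exact hm1
      | succ n ih => exact hstep _ _ _ _ (by rw [abs_le]; omega) (by norm_num) ih
      | pred n ih => exact hstep _ _ _ _ (by rw [abs_le]; omega) (by norm_num) ih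
    intro i j
    induction j using Int.induction_on with
    | zero => exact hrow i
    | succ n ih => exact hstep _ _ _ _ (by norm_num) (by rw [abs_le]; omega) ih
    | pred n ih => exact hstep _ _ _ _ (by norm_num) (by rw [abs_le]; omega) ih
  have hview : ∀ i j : ℤ, ∃ t, Val t ∧ ∀ a b : ℤ, |a| ≤ rho s → |b| ≤ rho s →
      lab T (p1 + io (s * MM * i + a, s * j + b)) = enc s t a b := by
    intro i j
    obtain ⟨t, ht, h1⟩ := view _ (hall _) (mark i j)
    refine ⟨t, ht, ?_⟩
    intro a b ha hb
    rw [← h1 a b ha hb, add_io]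
  choose t htV ht using hview
  -- letters
  have enc_letter : ∀ (t' : ℤ → ℤ → W) (i j : ℤ), 0 ≤ i → enc s t' (s * MM * i + s) (s * j) =
      some (some (t' i j)) := by
    intro t' i j _
    have e : s * MM * i + s = s * (1 + MM * i) := by ring
    rw [e, enc_mul hs]
    unfold cc
    rw [Int.add_mul_emod_self_left, Int.add_mul_ediv_left _ _ (by omega)]
    have hM1 : 1 < MM := by
      unfold MM
      have := mm_pos
      omega
    rw [Int.emod_eq_of_lt (by norm_num) hM1, Int.ediv_eq_zero_of_lt (by norm_num) hM1]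
    rw [if_neg (by norm_num), sub_self, rot_zero, zero_add]
  have let0 : ∀ i j : ℤ, lab T (p1 + io (s * MM * i + s, s * j)) = some (some (t i j 0 0)) := by
    intro i j
    have h1 := ht i j s 0 (by rw [abs_of_pos hs, hrho]; omega)
      (by rw [abs_zero, hrho]; omega)
    rw [add_zero] at h1
    rw [h1]
    have h2 := enc_letter (t i j) 0 0 le_rfl
    simpa using h2
  have hVal : Val (fun i j => t i j 0 0) := by
    intro i j
    constructor
    · have h1 := ht i j (s * MM + s) 0 (by rw [abs_of_pos (by positivity), hrho]; omega)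
        (by rw [abs_zero, hrho]; omega)
      have h2 := enc_letter (t i j) 1 0 (by norm_num)
      rw [mul_one, mul_zero] at h2
      rw [h2, add_zero] at h1
      have h3 := let0 (i + 1) j
      have e : s * MM * (i + 1) + s = s * MM * i + (s * MM + s) := by ring
      rw [e, h1] at h3
      have h4 : t i j 1 0 = t (i + 1) j 0 0 := Option.some.inj (Option.some.inj h3)
      simp only
      rw [← h4]
      exact (htV i j 0 0).1
    · have h1 := ht i j s s (by rw [abs_of_pos hs, hrho]; omega)
        (by rw [abs_of_pos hs, hrho]; omega)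
      have h2 := enc_letter (t i j) 0 1 (by norm_num)
      rw [mul_one, mul_zero, zero_add] at h2
      rw [h2] at h1
      have h3 := let0 i (j + 1)
      have e : s * (j + 1) = s * j + s := by ring
      rw [e, h1] at h3
      have h4 : t i j 0 1 = t i (j + 1) 0 0 := Option.some.inj (Option.some.inj h3)
      simp only
      rw [← h4]
      exact (htV i j 0 0).2
  refine ⟨p1, fun i j => t i j 0 0, hVal, hall, fun q hq => pos_only hT hL hp1 hq, ?_⟩
  intro a b
  set i0 := a / (s * MM) with hi0
  set j0 := b / s with hj0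
  have hKpos : 0 < s * MM := by positivity
  have m1 := Int.emod_nonneg a hKpos.ne'
  have m2 := Int.emod_lt_of_pos a hKpos
  have m3 := Int.emod_nonneg b hs.ne'
  have m4 := Int.emod_lt_of_pos b hs
  have d1 := Int.mul_ediv_add_emod a (s * MM)
  have d2 := Int.mul_ediv_add_emod b s
  have h5 := ht i0 j0 (a % (s * MM)) (b % s) (by rw [abs_of_nonneg m1, hrho]; omega)
    (by rw [abs_of_nonneg m3, hrho]; omega)
  rw [d1, d2] at h5
  rw [h5]
  have h6 := enc_shift hs (fun i j => t i j 0 0) (a % (s * MM)) (b % s) i0 j0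
  have e1 : a % (s * MM) + s * MM * i0 = a := by rw [add_comm]; exact d1
  have e2 : b % s + s * j0 = b := by rw [add_comm]; exact d2
  rw [e1, e2] at h6
  rw [h6]
  apply enc_zero_block hs _ m1 m2 m3 m4
  simp only [zero_add]

end Pool.Agent.Helper42.Mk2
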