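import Mathlib

set_option autoImplicit false

namespace Pool.Agent.Helper42.Mk2

/-- the contents of the channels -/
abbrev Q : Type := Fin 64

/-- position in the parent block, first coordinate -/
def pi (c : Q) : ℕ := c.val % 4
/-- position in the parent block, second coordinate -/
def pj (c : Q) : ℕ := c.val / 4 % 4
/-- the extra information -/
def pa (c : Q) : ℕ := c.val / 16

/-- build a value -/
def mkQ (i j a : ℕ) : Q := ⟨i % 4 + 4 * (j % 4) + 16 * (a % 4), by omega⟩

/-- class of the relation between the two channels: 0 equal, 1 first check, 2 second check,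
3 no relation -/
def cls (c : Q) : ℕ :=
  if pi c = 2 ∧ pj c = 2 then pa c
  else if pi c ≠ 2 ∧ pj c ≠ 2 then 0
  else if pi c = 0 ∧ pj c = 2 then 1
  else if pi c = 2 ∧ pj c = 0 then 2 else 3

/-- type of the horizontal relation of the first channel: 0 equal, 1 plus, 2 minus, 3 own -/
def t1 (c : Q) : ℕ :=
  if pj c = 2 then (if pi c = 0 then 1 else if pi c = 1 then 2 else if pi c = 2 then 0 else pa c)
  else (if pi c = 3 then 3 else 0)

/-- type of the vertical relation of the second channel -/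
def t2 (c : Q) : ℕ :=
  if pi c = 2 then (if pj c = 0 then 1 else if pj c = 1 then 2 else if pj c = 2 then 0 else pa c)
  else (if pj c = 3 then 3 else 0)

/-- the extra information is present only at four cells of a block -/
def okv (c : Q) : Prop :=
  pa c = 0 ∨ (pi c = 1 ∧ pj c = 2) ∨ (pi c = 2 ∧ pj c = 2) ∨ (pi c = 3 ∧ pj c = 2) ∨
    (pi c = 2 ∧ pj c = 3)

/-- relation between the own value and the first channel -/
def G1 (v c : Q) : Prop := (pi v = 2 ∧ pj v = 3) → pa v = t2 c

/-- relation between the own value and the second channel -/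
def G2 (v c : Q) : Prop :=
  ((pi v = 1 ∧ pj v = 2) → pa v = cls c) ∧ ((pi v = 3 ∧ pj v = 2) → pa v = t1 c)

/-- relation of class `b` between the two channels -/
def relC (b : ℕ) (x y : Q) : Prop :=
  (b = 0 → x = y ∧ okv x) ∧ (b = 1 → G1 y x) ∧ (b = 2 → G2 x y)

/-- horizontal relation of own values -/
def R1 (v v' : Q) : Prop :=
  pi v' = (pi v + 1) % 4 ∧ pj v' = pj v ∧ ((pi v = 1 ∧ pj v = 2) → pa v' = pa v)

/-- vertical relation of own values -/
def R2 (v v' : Q) : Prop := pi v' = pi v ∧ pj v' = (pj v + 1) % 4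

/-- horizontal relation of type `t` -/
def relT1 (t : ℕ) (x y : Q) : Prop :=
  (t = 0 → y = x) ∧ (t = 1 → y = x + 1) ∧ (t = 2 → x = y + 1) ∧ (t = 3 → R1 x y)

/-- vertical relation of type `t` -/
def relT2 (t : ℕ) (x y : Q) : Prop :=
  (t = 0 → y = x) ∧ (t = 1 → y = x + 1) ∧ (t = 2 → x = y + 1) ∧ (t = 3 → R2 x y)

/-- letters: own value, first channel, second channel -/
abbrev W : Type := Q × Q × Q

/-- valid letter -/
def ok (w : W) : Prop := okv w.1 ∧ G1 w.1 w.2.1 ∧ G2 w.1 w.2.2 ∧ relC (cls w.1) w.2.1 w.2.2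

/-- horizontal neighbours -/
def HH (w w' : W) : Prop := ok w ∧ R1 w.1 w'.1 ∧ relT1 (t1 w.1) w.2.1 w'.2.1

/-- vertical neighbours -/
def VV (w w' : W) : Prop := R2 w.1 w'.1 ∧ relT2 (t2 w.1) w.2.2 w'.2.2

/-- valid configurations -/
def Val (t : ℤ → ℤ → W) : Prop := ∀ i j, HH (t i j) (t (i + 1) j) ∧ VV (t i j) (t i (j + 1))

/-- extra information of the children -/
def aa (i j : ℕ) (v : Q) : ℕ :=
  if j = 2 ∧ (i = 1 ∨ i = 2) then cls v
  else if i = 3 ∧ j = 2 then t1 v
  else if i = 2 ∧ j = 3 then t2 v else 0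

/-- the letter at cell `(i, j)` of the block of `w` -/
def child (i j : ℕ) (w : W) : W :=
  (mkQ i j (aa i j w.1),
    if j = 2 then (if i = 1 then w.2.1 + 1 else w.2.1) else w.1,
    if i = 2 then (if j = 1 then w.2.2 + 1 else w.2.2) else w.1)

/-- upsampling of a configuration -/
def up (t : ℤ → ℤ → W) (x y : ℤ) : W :=
  child (x % 4).toNat (y % 4).toNat (t (x / 4) (y / 4))

/-- iterated upsampling -/
def upn : ℕ → (ℤ → ℤ → W) → ℤ → ℤ → W
  | 0, t => t
  | n + 1, t => upn n (up t)

/-- four letters: at `(0,0)`, `(1,0)`, `(0,1)`, `(1,1)` -/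
abbrev W4 : Type := W × W × W × W

/-- the letters of a configuration at the four cells from `(X, Y)` on -/
def w4 (t : ℤ → ℤ → W) (X Y : ℤ) : W4 := (t X Y, t (X + 1) Y, t X (Y + 1), t (X + 1) (Y + 1))

/-- the `8 × 8` array of children of four letters -/
def arr (l : W4) (i j : ℕ) : W :=
  child (i % 4) (j % 4)
    (if i < 4 then (if j < 4 then l.1 else l.2.2.1) else (if j < 4 then l.2.1 else l.2.2.2))

/-- four neighbouring children -/
def sub4 (l : W4) (i j : ℕ) : W4 :=
  (arr l i j, arr l (i + 1) j, arr l i (j + 1), arr l (i + 1) (j + 1))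

/-- sums of a window function over a supertile -/
noncomputable def SS (F : W4 → ℝ) : ℕ → W4 → ℝ
  | 0, l => F l
  | n + 1, l => ∑ i ∈ Finset.range 4, ∑ j ∈ Finset.range 4, SS F n (sub4 l i j)

end Pool.Agent.Helper42.Mk2
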