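import Pool.Agent.Helper42.Mk2.Count2

set_option autoImplicit false

namespace Pool.Agent.Helper42.Mk2

open Finset

variable {V : Type} [AddCommGroup V]

open scoped Classical in
/-- the faces in direction `e` of a finite set of cells: `x` such that exactly one of `x`, `x + e`
belongs to `R` -/
noncomputable def Fc (R : Finset V) (e : V) : Finset V :=
  Bd R e ∪ (Bd R (-e)).image (fun x => x - e)

theorem mem_Fc {R : Finset V} {e x : V} :
    x ∈ Fc R e ↔ (x ∈ R ∧ x + e ∉ R) ∨ (x ∉ R ∧ x + e ∈ R) := by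
  classical
  unfold Fc
  rw [mem_union, mem_Bd, mem_image]
  constructor
  · rintro (h | ⟨y, hy, rfl⟩)
    · exact Or.inl h
    · rw [mem_Bd] at hy
      right
      rw [sub_add_cancel]
      refine ⟨?_, hy.1⟩
      rw [sub_eq_add_neg]
      exact hy.2
  · rintro (h | ⟨h1, h2⟩)
    · exact Or.inl h
    · right
      refine ⟨x + e, ?_, by abel⟩
      rw [mem_Bd]
      refine ⟨h2, ?_⟩
      rw [add_neg_cancel_right]
      exact h1

theorem card_Fc (R : Finset V) (e : V) : (Fc R e).card ≤ 2 * (Bd R e).card := by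
  classical
  unfold Fc
  refine (card_union_le _ _).trans ?_
  have h := card_image_le (s := Bd R (-e)) (f := fun x => x - e)
  rw [Bd_neg] at h
  omega

open scoped Classical in
/-- number of faces of `R` near `p`: at `p + io u` with `|u.1| ≤ M`, `|u.2| ≤ N` -/
noncomputable def fcn (io : ℤ × ℤ →+ V) (R : Finset V) (p : V) (M N : ℤ) : ℕ :=
  ((Fc R (io (1, 0))).filter (fun x => ∃ u : ℤ × ℤ, |u.1| ≤ M ∧ |u.2| ≤ N ∧ x = p + io u)).card +
  ((Fc R (io (0, 1))).filter (fun x => ∃ u : ℤ × ℤ, |u.1| ≤ M ∧ |u.2| ≤ N ∧ x = p + io u)).card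

open scoped Classical in
/-- the cells of `R` in the block `A × B` with corner `p` -/
noncomputable def Rb (io : ℤ × ℤ →+ V) (R : Finset V) (p : V) (A B : ℤ) : Finset V :=
  R.filter (fun x => ∃ u ∈ Finset.Ico 0 A ×ˢ Finset.Ico 0 B, x = p + io u)

/-- `P` has no holes: if the boundary ring of a rectangle of cells lies in `P`, so does the whole
rectangle -/
def NoHole (io : ℤ × ℤ →+ V) (P : Set V) : Prop :=
  ∀ (p : V) (x0 x1 y0 y1 : ℤ),
    (∀ x y, x0 ≤ x → x ≤ x1 → y0 ≤ y → y ≤ y1 → (x = x0 ∨ x = x1 ∨ y = y0 ∨ y = y1) →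
      p + io (x, y) ∈ P) →
    ∀ x y, x0 ≤ x → x ≤ x1 → y0 ≤ y → y ≤ y1 → p + io (x, y) ∈ P

/-- partial valid configuration on the set `Q` of corners of blocks `a × b` -/
structure PVal (io : ℤ × ℤ →+ V) (a b : ℤ) (Q : Set V) (L : V → W) : Prop where
  ok : ∀ p ∈ Q, ok (L p)
  hh : ∀ p ∈ Q, p + io (a, 0) ∈ Q → HH (L p) (L (p + io (a, 0)))
  vv : ∀ p ∈ Q, p + io (0, b) ∈ Q → VV (L p) (L (p + io (0, b)))

/-- corners of complete parent blocks -/
def upQ (io : ℤ × ℤ →+ V) (a b : ℤ) (Q : Set V) (L : V → W) : Set V :=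
  {p | p ∈ Q ∧ pi (L p).1 = 0 ∧ pj (L p).1 = 0 ∧
    ∀ i j : ℕ, i < 4 → j < 4 → p + io (a * i, b * j) ∈ Q}

/-- letters of complete parent blocks -/
def upL (io : ℤ × ℤ →+ V) (a b : ℤ) (L : V → W) (p : V) : W :=
  ((L p).2.1, (L (p + io (0, b * 2))).2.1, (L (p + io (a * 2, 0))).2.2)

/-- corners and letters of the complete blocks of level `n` -/
def lev (io : ℤ × ℤ →+ V) (a b : ℤ) (Q : Set V) (L : V → W) : ℕ → Set V × (V → W)
  | 0 => (Q, L)
  | n + 1 => (upQ io (a * 4 ^ n) (b * 4 ^ n) (lev io a b Q L n).1 (lev io a b Q L n).2,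
      upL io (a * 4 ^ n) (b * 4 ^ n) (lev io a b Q L n).2)

end Pool.Agent.Helper42.Mk2
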