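import Pool.Agent.Helper42.Mk2.Defs2

/-! # The effect of the neighbours on the window sums of a supertile is bounded -/

set_option autoImplicit false

namespace Pool.Agent.Helper42.Mk2

open Finset

section

variable {F : W4 → ℝ} {M : ℝ}

theorem SS_diff (n : ℕ) (l l' : W4) (b : ℕ → ℕ → ℝ)
    (h : ∀ i < 4, ∀ j < 4, |SS F n (sub4 l i j) - SS F n (sub4 l' i j)| ≤ b i j) :
    |SS F (n + 1) l - SS F (n + 1) l'| ≤ ∑ i ∈ range 4, ∑ j ∈ range 4, b i j := by
  simp only [SS]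
  rw [← sum_sub_distrib]
  refine (abs_sum_le_sum_abs _ _).trans (sum_le_sum fun i hi => ?_)
  rw [← sum_sub_distrib]
  refine (abs_sum_le_sum_abs _ _).trans (sum_le_sum fun j hj => ?_)
  exact h i (mem_range.1 hi) j (mem_range.1 hj)

theorem SS_zero_diff (hF : ∀ l, |F l| ≤ M) (l l' : W4) : |SS F 0 l - SS F 0 l'| ≤ 2 * M := by
  have h1 := hF l
  have h2 := hF l'
  have h3 := abs_sub (F l) (F l')
  change |F l - F l'| ≤ 2 * M
  linarith

/-- Only the channels of the fourth letter differ. -/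
theorem diff4_succ (n : ℕ) (l l' : W4) (h1 : l.1 = l'.1) (h2 : l.2.1 = l'.2.1)
    (h3 : l.2.2.1 = l'.2.2.1) (h4 : l.2.2.2.1 = l'.2.2.2.1) :
    |SS F (n + 1) l - SS F (n + 1) l'| ≤ 0 := by
  obtain ⟨a, b, c, v, x, y⟩ := l
  obtain ⟨a', b', c', v', x', y'⟩ := l'
  simp only at h1 h2 h3 h4
  subst h1 h2 h3 h4
  refine (SS_diff n _ _ (fun _ _ => 0) fun i hi j hj => ?_).trans (by simp)
  have : sub4 (a, b, c, v, x, y) i j = sub4 (a, b, c, v, x', y') i j := by
    interval_cases i <;> interval_cases j <;> rfl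
  rw [this, sub_self, abs_zero]

theorem diff4 (hF : ∀ l, |F l| ≤ M) (hM : 0 ≤ M) (n : ℕ) (l l' : W4) (h1 : l.1 = l'.1)
    (h2 : l.2.1 = l'.2.1) (h3 : l.2.2.1 = l'.2.2.1) (h4 : l.2.2.2.1 = l'.2.2.2.1) :
    |SS F n l - SS F n l'| ≤ 2 * M := by
  cases n with
  | zero => exact SS_zero_diff hF l l'
  | succ n => exact (diff4_succ n l l' h1 h2 h3 h4).trans (by linarith)

/-- Only the first channel of the second letter differs. -/
theorem diff2 (hF : ∀ l, |F l| ≤ M) (hM : 0 ≤ M) (n : ℕ) : ∀ l l' : W4, l.1 = l'.1 →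
    l.2.1.1 = l'.2.1.1 → l.2.1.2.2 = l'.2.1.2.2 → l.2.2.1 = l'.2.2.1 → l.2.2.2 = l'.2.2.2 →
    |SS F n l - SS F n l'| ≤ 4 * M := by
  induction n with
  | zero =>
    intro l l' _ _ _ _ _
    exact (SS_zero_diff hF l l').trans (by linarith)
  | succ n ih =>
    intro l l' h1 h2 h3 h4 h5
    obtain ⟨a, ⟨v, x, y⟩, c, d⟩ := l
    obtain ⟨a', ⟨v', x', y'⟩, c', d'⟩ := l'
    simp only at h1 h2 h3 h4 h5
    subst h1 h2 h3 h4 h5
    have key : ∀ e1 e2 : ℝ,
        |SS F n (sub4 (a, (v, x, y), c, d) 3 2) - SS F n (sub4 (a, (v, x', y), c, d) 3 2)| ≤ e1 →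
        |SS F n (sub4 (a, (v, x, y), c, d) 3 1) - SS F n (sub4 (a, (v, x', y), c, d) 3 1)| ≤ e2 →
        |SS F (n + 1) (a, (v, x, y), c, d) - SS F (n + 1) (a, (v, x', y), c, d)| ≤ e1 + e2 := by
      intro e1 e2 he1 he2
      refine (SS_diff n _ _ (fun i j => if i = 3 ∧ j = 2 then e1 else if i = 3 ∧ j = 1 then e2
        else 0) fun i hi j hj => ?_).trans (le_of_eq ?_)
      · by_cases hA : i = 3 ∧ j = 2
        · obtain ⟨rfl, rfl⟩ := hA
          simpa using he1
        by_cases hB : i = 3 ∧ j = 1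
        · obtain ⟨rfl, rfl⟩ := hB
          simpa using he2
        rw [if_neg hA, if_neg hB]
        have : sub4 (a, (v, x, y), c, d) i j = sub4 (a, (v, x', y), c, d) i j := by
          interval_cases i <;> interval_cases j <;>
            first | rfl | exact absurd ⟨rfl, rfl⟩ hA | exact absurd ⟨rfl, rfl⟩ hB
        rw [this, sub_self, abs_zero]
      · simp [sum_range_succ]
        ring
    cases n with
    | zero =>
      refine (key (2 * M) (2 * M) (SS_zero_diff hF _ _) (SS_zero_diff hF _ _)).trans ?_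
      linarith
    | succ n =>
      refine (key (4 * M) 0 (ih _ _ rfl rfl rfl rfl rfl)
        (diff4_succ n _ _ rfl rfl rfl rfl)).trans ?_
      linarith

/-- Only the second channel of the third letter differs. -/
theorem diff3 (hF : ∀ l, |F l| ≤ M) (hM : 0 ≤ M) (n : ℕ) : ∀ l l' : W4, l.1 = l'.1 →
    l.2.1 = l'.2.1 → l.2.2.1.1 = l'.2.2.1.1 → l.2.2.1.2.1 = l'.2.2.1.2.1 → l.2.2.2 = l'.2.2.2 →
    |SS F n l - SS F n l'| ≤ 4 * M := by
  induction n with
  | zero =>
    intro l l' _ _ _ _ _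
    exact (SS_zero_diff hF l l').trans (by linarith)
  | succ n ih =>
    intro l l' h1 h2 h3 h4 h5
    obtain ⟨a, b, ⟨v, x, y⟩, d⟩ := l
    obtain ⟨a', b', ⟨v', x', y'⟩, d'⟩ := l'
    simp only at h1 h2 h3 h4 h5
    subst h1 h2 h3 h4 h5
    have key : ∀ e1 e2 : ℝ,
        |SS F n (sub4 (a, b, (v, x, y), d) 2 3) - SS F n (sub4 (a, b, (v, x, y'), d) 2 3)| ≤ e1 →
        |SS F n (sub4 (a, b, (v, x, y), d) 1 3) - SS F n (sub4 (a, b, (v, x, y'), d) 1 3)| ≤ e2 →
        |SS F (n + 1) (a, b, (v, x, y), d) - SS F (n + 1) (a, b, (v, x, y'), d)| ≤ e1 + e2 := by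
      intro e1 e2 he1 he2
      refine (SS_diff n _ _ (fun i j => if i = 2 ∧ j = 3 then e1 else if i = 1 ∧ j = 3 then e2
        else 0) fun i hi j hj => ?_).trans (le_of_eq ?_)
      · by_cases hA : i = 2 ∧ j = 3
        · obtain ⟨rfl, rfl⟩ := hA
          simpa using he1
        by_cases hB : i = 1 ∧ j = 3
        · obtain ⟨rfl, rfl⟩ := hB
          simpa using he2
        rw [if_neg hA, if_neg hB]
        have : sub4 (a, b, (v, x, y), d) i j = sub4 (a, b, (v, x, y'), d) i j := by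
          interval_cases i <;> interval_cases j <;>
            first | rfl | exact absurd ⟨rfl, rfl⟩ hA | exact absurd ⟨rfl, rfl⟩ hB
        rw [this, sub_self, abs_zero]
      · simp [sum_range_succ]
        ring
    cases n with
    | zero =>
      refine (key (2 * M) (2 * M) (SS_zero_diff hF _ _) (SS_zero_diff hF _ _)).trans ?_
      linarith
    | succ n =>
      refine (key (4 * M) 0 (ih _ _ rfl rfl rfl rfl rfl)
        (diff4_succ n _ _ rfl rfl rfl rfl)).trans ?_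
      linarith

/-- Only the channels of the neighbours differ. -/
theorem diffA (hF : ∀ l, |F l| ≤ M) (hM : 0 ≤ M) (n : ℕ) (l l' : W4) (h1 : l.1 = l'.1)
    (h2 : l.2.1.1 = l'.2.1.1) (h3 : l.2.2.1.1 = l'.2.2.1.1) (h4 : l.2.2.2.1 = l'.2.2.2.1) :
    |SS F n l - SS F n l'| ≤ 12 * M := by
  cases n with
  | zero => exact (SS_zero_diff hF l l').trans (by linarith)
  | succ n =>
    obtain ⟨a, ⟨v2, x2, y2⟩, ⟨v3, x3, y3⟩, ⟨v4, x4, y4⟩⟩ := l
    obtain ⟨a', ⟨v2', x2', y2'⟩, ⟨v3', x3', y3'⟩, ⟨v4', x4', y4'⟩⟩ := l'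
    simp only at h1 h2 h3 h4
    subst h1 h2 h3 h4
    refine (SS_diff n _ _ (fun i j => if i = 3 ∧ j = 2 then 4 * M else if i = 3 ∧ j = 1 then 2 * M
      else if i = 2 ∧ j = 3 then 4 * M else if i = 1 ∧ j = 3 then 2 * M else 0)
      fun i hi j hj => ?_).trans (le_of_eq ?_)
    · by_cases hA : i = 3 ∧ j = 2
      · obtain ⟨rfl, rfl⟩ := hA
        rw [if_pos ⟨rfl, rfl⟩]
        exact diff2 hF hM n _ _ rfl rfl rfl rfl rfl
      by_cases hB : i = 3 ∧ j = 1
      · obtain ⟨rfl, rfl⟩ := hB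
        rw [if_neg hA, if_pos ⟨rfl, rfl⟩]
        exact diff4 hF hM n _ _ rfl rfl rfl rfl
      by_cases hC : i = 2 ∧ j = 3
      · obtain ⟨rfl, rfl⟩ := hC
        rw [if_neg hA, if_neg hB, if_pos ⟨rfl, rfl⟩]
        exact diff3 hF hM n _ _ rfl rfl rfl rfl rfl
      by_cases hD : i = 1 ∧ j = 3
      · obtain ⟨rfl, rfl⟩ := hD
        rw [if_neg hA, if_neg hB, if_neg hC, if_pos ⟨rfl, rfl⟩]
        exact diff4 hF hM n _ _ rfl rfl rfl rfl
      rw [if_neg hA, if_neg hB, if_neg hC, if_neg hD]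
      have : sub4 (a, (v2, x2, y2), (v3, x3, y3), (v4, x4, y4)) i j =
          sub4 (a, (v2, x2', y2'), (v3, x3', y3'), (v4, x4', y4')) i j := by
        interval_cases i <;> interval_cases j <;>
          first | rfl | exact absurd ⟨rfl, rfl⟩ hA | exact absurd ⟨rfl, rfl⟩ hB |
            exact absurd ⟨rfl, rfl⟩ hC | exact absurd ⟨rfl, rfl⟩ hD
      rw [this, sub_self, abs_zero]
    · simp [sum_range_succ]
      ring

end

/-- The effect of the neighbours is bounded. -/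
theorem neighbour (M : ℝ) (hM : 0 ≤ M) : ∃ E : ℝ, 0 ≤ E ∧ ∀ F : W4 → ℝ, (∀ l, |F l| ≤ M) →
    ∀ n l l', l.1 = l'.1 → |SS F n l - SS F n l'| ≤ E := by
  refine ⟨84 * M, by positivity, fun F hF n l l' h1 => ?_⟩
  cases n with
  | zero => exact (SS_zero_diff hF l l').trans (by linarith)
  | succ n =>
    obtain ⟨a, b, c, d⟩ := l
    obtain ⟨a', b', c', d'⟩ := l'
    simp only at h1
    subst h1
    refine (SS_diff n _ _ (fun i j => if i = 3 ∨ j = 3 then 12 * M else 0)
      fun i hi j hj => ?_).trans (le_of_eq ?_)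
    · by_cases hA : i = 3 ∨ j = 3
      · rw [if_pos hA]
        refine diffA hF hM n _ _ ?_ ?_ ?_ ?_ <;>
          (interval_cases i <;> interval_cases j <;> rfl)
      · rw [if_neg hA]
        have : sub4 (a, b, c, d) i j = sub4 (a, b', c', d') i j := by
          interval_cases i <;> interval_cases j <;>
            first | rfl | exact absurd (by decide) hA
        rw [this, sub_self, abs_zero]
    · simp [sum_range_succ]
      ring

end Pool.Agent.Helper42.Mk2
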