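import Pool.Agent.Helper42.Mk2.Contr
import Pool.Agent.Helper42.Mk2.Nbr

/-! # The densities of the window functions -/

set_option autoImplicit false

namespace Pool.Agent.Helper42.Mk2

open Finset Filter

theorem sub4_fst (L : W) (i j : ℕ) (hi : i < 4) (hj : j < 4) :
    (sub4 (L, L, L, L) i j).1 = child i j L := by
  change child (i % 4) (j % 4) _ = _
  rw [Nat.mod_eq_of_lt hi, Nat.mod_eq_of_lt hj, if_pos hi, if_pos hj]

/-- Sequences with `|u (n+1) - 16 u n| ≤ C κ ^ n` are close to a multiple of `16 ^ n`. -/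
theorem exists_density {κ C : ℝ} (h4 : κ < 16) (u : ℕ → ℝ)
    (hu : ∀ n, |u (n + 1) - 16 * u n| ≤ C * κ ^ n) :
    ∃ d : ℝ, ∀ n, |u n - d * 16 ^ n| ≤ C / (16 - κ) * κ ^ n := by
  have hr : κ / 16 < 1 := by rw [div_lt_one (by norm_num)]; exact h4
  have hstep : ∀ n, dist (u n / 16 ^ n) (u (n + 1) / 16 ^ (n + 1)) ≤ C / 16 * (κ / 16) ^ n := by
    intro n
    have h16 : (0 : ℝ) < 16 ^ (n + 1) := by positivity
    rw [dist_comm, Real.dist_eq]
    have e1 : u (n + 1) / 16 ^ (n + 1) - u n / 16 ^ n = (u (n + 1) - 16 * u n) / 16 ^ (n + 1) := by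
      rw [pow_succ]
      field_simp
    rw [e1, abs_div, abs_of_pos h16, div_le_iff₀ h16]
    refine (hu n).trans (le_of_eq ?_)
    rw [div_pow, pow_succ]
    field_simp
  have hc : CauchySeq fun n => u n / 16 ^ n := cauchySeq_of_le_geometric _ _ hr hstep
  obtain ⟨d, hd⟩ := cauchySeq_tendsto_of_complete hc
  refine ⟨d, fun n => ?_⟩
  have h2 := dist_le_of_le_geometric_of_tendsto _ _ hr hstep hd n
  have h16 : (0 : ℝ) < 16 ^ n := by positivity
  have h3 : 0 < 16 - κ := by linarith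
  rw [Real.dist_eq] at h2
  have e2 : u n - d * 16 ^ n = (u n / 16 ^ n - d) * 16 ^ n := by
    field_simp
  rw [e2, abs_mul, abs_of_pos h16]
  refine (mul_le_mul_of_nonneg_right h2 h16.le).trans (le_of_eq ?_)
  rw [div_pow]
  field_simp

/-- The window sums over supertiles are close to the density times the area. -/
theorem density : ∃ κ : ℝ, 3 < κ ∧ κ < 4 ∧ ∀ F : W4 → ℝ, ∃ d C : ℝ, 0 ≤ C ∧
    ∀ n l, |SS F n l - d * 16 ^ n| ≤ C * κ ^ n := by
  obtain ⟨κ, h3, h4, H⟩ := contraction
  refine ⟨κ, h3, h4, fun F => ?_⟩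
  obtain ⟨M, hM, hF⟩ : ∃ M : ℝ, 0 ≤ M ∧ ∀ l, |F l| ≤ M := by
    obtain ⟨M, hM⟩ := (Set.finite_range fun l => |F l|).bddAbove
    exact ⟨M, (abs_nonneg (F default)).trans (hM ⟨default, rfl⟩), fun l => hM ⟨l, rfl⟩⟩
  obtain ⟨E, hE, hN⟩ := neighbour M hM
  obtain ⟨C, hC, hcon⟩ := H (M + 16 * E) (by positivity)
  have hkey : ∀ n L, |SS F (n + 1) (L, L, L, L) - ∑ i ∈ range 4, ∑ j ∈ range 4,
      SS F n (child i j L, child i j L, child i j L, child i j L)| ≤ 16 * E := by
    intro n L
    have e : SS F (n + 1) (L, L, L, L) =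
        ∑ i ∈ range 4, ∑ j ∈ range 4, SS F n (sub4 (L, L, L, L) i j) := rfl
    rw [e, ← sum_sub_distrib]
    have h5 : ∀ i ∈ range 4, |∑ j ∈ range 4, SS F n (sub4 (L, L, L, L) i j) -
        ∑ j ∈ range 4, SS F n (child i j L, child i j L, child i j L, child i j L)| ≤ 4 * E := by
      intro i hi
      rw [← sum_sub_distrib]
      refine (abs_sum_le_sum_abs _ _).trans ((sum_le_sum (g := fun _ => E) fun j hj => ?_).trans
        (le_of_eq (by rw [sum_const, card_range, nsmul_eq_mul]; norm_num)))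
      exact hN F hF n _ _ (sub4_fst L i j (mem_range.1 hi) (mem_range.1 hj))
    refine (abs_sum_le_sum_abs _ _).trans ((sum_le_sum h5).trans (le_of_eq ?_))
    rw [sum_const, card_range, nsmul_eq_mul]
    norm_num
    ring
  have hosc := hcon (fun n L => SS F n (L, L, L, L))
    (fun L => (hF _).trans (by linarith)) (fun n L => (hkey n L).trans (by linarith))
  -- the density
  have hκ : ∀ n, (1 : ℝ) ≤ κ ^ n := fun n => one_le_pow₀ (by linarith)
  set L0 : W := default with hL0
  have hstep : ∀ n, |SS F (n + 1) (L0, L0, L0, L0) - 16 * SS F n (L0, L0, L0, L0)| ≤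
      (16 * E + 16 * C) * κ ^ n := by
    intro n
    have h6 : |∑ i ∈ range 4, ∑ j ∈ range 4,
        SS F n (child i j L0, child i j L0, child i j L0, child i j L0) -
        16 * SS F n (L0, L0, L0, L0)| ≤ 16 * (C * κ ^ n) := by
      have e : 16 * SS F n (L0, L0, L0, L0) =
          ∑ i ∈ range 4, ∑ j ∈ range 4, SS F n (L0, L0, L0, L0) := by
        rw [sum_const, sum_const, card_range, nsmul_eq_mul, nsmul_eq_mul]
        push_cast
        ring
      rw [e, ← sum_sub_distrib]
      have h5 : ∀ i ∈ range 4, |∑ j ∈ range 4,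
          SS F n (child i j L0, child i j L0, child i j L0, child i j L0) -
          ∑ j ∈ range 4, SS F n (L0, L0, L0, L0)| ≤ 4 * (C * κ ^ n) := by
        intro i hi
        rw [← sum_sub_distrib]
        refine (abs_sum_le_sum_abs _ _).trans ((sum_le_sum (g := fun _ => C * κ ^ n)
          fun j hj => hosc n _ _).trans
          (le_of_eq (by rw [sum_const, card_range, nsmul_eq_mul]; norm_num)))
      refine (abs_sum_le_sum_abs _ _).trans ((sum_le_sum h5).trans (le_of_eq ?_))
      rw [sum_const, card_range, nsmul_eq_mul]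
      push_cast
      ring
    have h7 := hkey n L0
    have h8 := abs_sub_le (SS F (n + 1) (L0, L0, L0, L0)) (∑ i ∈ range 4, ∑ j ∈ range 4,
      SS F n (child i j L0, child i j L0, child i j L0, child i j L0))
      (16 * SS F n (L0, L0, L0, L0))
    have h9 : E ≤ E * κ ^ n := le_mul_of_one_le_right hE (hκ n)
    nlinarith
  obtain ⟨d, hd⟩ := exists_density (show κ < 16 by linarith)
    (fun n => SS F n (L0, L0, L0, L0)) hstep
  refine ⟨d, (16 * E + 16 * C) / (16 - κ) + C + E, ?_, fun n l => ?_⟩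
  · have : 0 < 16 - κ := by linarith
    positivity
  · have h1 : |SS F n l - SS F n (l.1, l.1, l.1, l.1)| ≤ E := hN F hF n _ _ rfl
    have h2 := hosc n l.1 L0
    have h5 := hd n
    have h6 := abs_sub_le (SS F n l) (SS F n (l.1, l.1, l.1, l.1)) (d * 16 ^ n)
    have h7 := abs_sub_le (SS F n (l.1, l.1, l.1, l.1)) (SS F n (L0, L0, L0, L0)) (d * 16 ^ n)
    have h9 : E ≤ E * κ ^ n := le_mul_of_one_le_right hE (hκ n)
    calc |SS F n l - d * 16 ^ n| ≤ E * κ ^ n + (C * κ ^ n +
          (16 * E + 16 * C) / (16 - κ) * κ ^ n) := by linarith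
      _ = _ := by ring

end Pool.Agent.Helper42.Mk2
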