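import Pool.Agent.Helper42.Mk2.Defs2

set_option autoImplicit false

namespace Pool.Agent.Helper42.Mk2

theorem pi_lt (v : Q) : pi v < 4 := Nat.mod_lt _ (by norm_num)
theorem pj_lt (v : Q) : pj v < 4 := Nat.mod_lt _ (by norm_num)
theorem pa_lt (v : Q) : pa v < 4 := by
  have := v.2
  unfold pa
  omega

theorem pi_mk {i : ℕ} (hi : i < 4) (j a : ℕ) : pi (mkQ i j a) = i := by
  unfold pi mkQ
  simp only
  omega

theorem pj_mk {j : ℕ} (i : ℕ) (hj : j < 4) (a : ℕ) : pj (mkQ i j a) = j := by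
  unfold pj mkQ
  simp only
  omega

theorem pa_mk {a : ℕ} (i j : ℕ) (ha : a < 4) : pa (mkQ i j a) = a := by
  unfold pa mkQ
  simp only
  omega

theorem mkQ_eta (v : Q) : mkQ (pi v) (pj v) (pa v) = v := by
  have := v.2
  apply Fin.ext
  unfold pi pj pa mkQ
  simp only
  omega

theorem eq_mkQ {v : Q} {i j a : ℕ} (hi : pi v = i) (hj : pj v = j) (ha : pa v = a) :
    v = mkQ i j a := by
  rw [← hi, ← hj, ← ha, mkQ_eta]

theorem t1_lt (v : Q) : t1 v < 4 := by
  have := pa_lt v
  unfold t1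
  split_ifs <;> omega

theorem t2_lt (v : Q) : t2 v < 4 := by
  have := pa_lt v
  unfold t2
  split_ifs <;> omega

theorem cls_lt (v : Q) : cls v < 4 := by
  have := pa_lt v
  unfold cls
  split_ifs <;> omega

theorem aa_lt (i j : ℕ) (v : Q) : aa i j v < 4 := by
  have := cls_lt v
  have := t1_lt v
  have := t2_lt v
  unfold aa
  split_ifs <;> omega

theorem Val.shift {t : ℤ → ℤ → W} (ht : Val t) (i j : ℤ) : Val (fun a b => t (a + i) (b + j)) := by
  intro a b
  have := ht (a + i) (b + j)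
  refine ⟨?_, ?_⟩
  · have h := this.1
    rw [show a + i + 1 = a + 1 + i by ring] at h
    exact h
  · have h := this.2
    rw [show b + j + 1 = b + 1 + j by ring] at h
    exact h

section pos

variable {t : ℤ → ℤ → W} (ht : Val t)

include ht

theorem Val.pi_step (x y : ℤ) : (pi (t (x + 1) y).1 : ℤ) = (pi (t x y).1 + 1) % 4 := by
  have h := (ht x y).1.2.1.1
  omega

theorem Val.pj_step (x y : ℤ) : (pj (t x (y + 1)).1 : ℤ) = (pj (t x y).1 + 1) % 4 := by
  have h := (ht x y).2.1.2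
  omega

theorem Val.pi_pos (x y : ℤ) : (pi (t x y).1 : ℤ) = (pi (t 0 0).1 + x) % 4 := by
  have h1 : ∀ x : ℤ, (pi (t x 0).1 : ℤ) = (pi (t 0 0).1 + x) % 4 := by
    intro x
    induction x using Int.induction_on with
    | zero =>
      have := pi_lt (t 0 0).1
      omega
    | succ n ih =>
      have := ht.pi_step n 0
      omega
    | pred n ih =>
      have := ht.pi_step (-n - 1) 0
      rw [sub_add_cancel] at this
      have := pi_lt (t (-n - 1) 0).1
      omega
  have h2 : ∀ y : ℤ, pi (t x y).1 = pi (t x 0).1 := by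
    intro y
    induction y using Int.induction_on with
    | zero => rfl
    | succ n ih => rw [← ih]; exact (ht x n).2.1.1
    | pred n ih =>
      rw [← ih]
      have := (ht x (-n - 1)).2.1.1
      rw [sub_add_cancel] at this
      exact this.symm
  rw [h2 y, h1 x]

theorem Val.pj_pos (x y : ℤ) : (pj (t x y).1 : ℤ) = (pj (t 0 0).1 + y) % 4 := by
  have h1 : ∀ y : ℤ, (pj (t 0 y).1 : ℤ) = (pj (t 0 0).1 + y) % 4 := by
    intro y
    induction y using Int.induction_on with
    | zero =>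
      have := pj_lt (t 0 0).1
      omega
    | succ n ih =>
      have := ht.pj_step 0 n
      omega
    | pred n ih =>
      have := ht.pj_step 0 (-n - 1)
      rw [sub_add_cancel] at this
      have := pj_lt (t 0 (-n - 1)).1
      omega
  have h2 : ∀ x : ℤ, pj (t x y).1 = pj (t 0 y).1 := by
    intro x
    induction x using Int.induction_on with
    | zero => rfl
    | succ n ih => rw [← ih]; exact (ht n y).1.2.1.2.1
    | pred n ih =>
      rw [← ih]
      have := (ht (-n - 1) y).1.2.1.2.1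
      rw [sub_add_cancel] at this
      exact this.symm
  rw [h2 x, h1 y]

end pos

set_option linter.unusedSectionVars false

section blk

variable {t : ℤ → ℤ → W} (ht : Val t) (h0 : pi (t 0 0).1 = 0) (h0' : pj (t 0 0).1 = 0)

include ht h0 h0'

theorem Val.pi_at {i : ℕ} (hi : i < 4) (y : ℤ) : pi (t i y).1 = i := by
  have := ht.pi_pos i y
  omega

theorem Val.pj_at {j : ℕ} (hj : j < 4) (x : ℤ) : pj (t x j).1 = j := by
  have := ht.pj_pos x j
  omega

theorem Val.row {j : ℕ} (hj : j < 4) (hj2 : j ≠ 2) {i : ℕ} (hi : i < 4) :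
    (t i j).2.1 = (t 0 j).2.1 := by
  induction i with
  | zero => rfl
  | succ n ih =>
    rw [← ih (by omega)]
    have h := (ht n j).1.2.2.1
    have e1 := ht.pi_at h0 h0' (show n < 4 by omega) j
    have e2 := ht.pj_at h0 h0' hj n
    have e : t1 (t n j).1 = 0 := by
      unfold t1
      rw [e1, e2, if_neg hj2, if_neg (by omega)]
    push_cast
    exact h e

theorem Val.col {i : ℕ} (hi : i < 4) (hi2 : i ≠ 2) {j : ℕ} (hj : j < 4) :
    (t i j).2.2 = (t i 0).2.2 := by
  induction j with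
  | zero => rfl
  | succ n ih =>
    rw [← ih (by omega)]
    have h := (ht i n).2.2.1
    have e1 := ht.pi_at h0 h0' hi n
    have e2 := ht.pj_at h0 h0' (show n < 4 by omega) i
    have e : t2 (t i n).1 = 0 := by
      unfold t2
      rw [e1, e2, if_neg hi2, if_neg (by omega)]
    push_cast
    exact h e

theorem Val.own {i j : ℕ} (hi : i < 4) (hi2 : i ≠ 2) (hj : j < 4) (hj2 : j ≠ 2) :
    (t i j).2.1 = (t i j).2.2 ∧ okv (t i j).2.1 := by
  have h := (ht i j).1.1.2.2.2.1
  have e1 := ht.pi_at h0 h0' hi j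
  have e2 := ht.pj_at h0 h0' hj i
  apply h
  unfold cls
  rw [e1, e2, if_neg (fun h => hi2 h.1), if_pos ⟨hi2, hj2⟩]

theorem Val.c1_own {i j : ℕ} (hi : i < 4) (hj : j < 4) (hj2 : j ≠ 2) :
    (t i j).2.1 = (t 0 0).2.1 := by
  rw [ht.row h0 h0' hj hj2 hi]
  have h1 := (ht.own h0 h0' (show 0 < 4 by norm_num) (by norm_num) hj hj2).1
  have h2 := ht.col h0 h0' (show 0 < 4 by norm_num) (by norm_num) hj
  have h3 := (ht.own h0 h0' (show 0 < 4 by norm_num) (by norm_num) (show 0 < 4 by norm_num)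
    (by norm_num)).1
  push_cast at h1 h2 h3
  rw [h1, h2, h3]

theorem Val.c2_own {i j : ℕ} (hi : i < 4) (hj : j < 4) (hi2 : i ≠ 2) :
    (t i j).2.2 = (t 0 0).2.1 := by
  rw [ht.col h0 h0' hi hi2 hj]
  have h1 := (ht.own h0 h0' hi hi2 (show 0 < 4 by norm_num) (by norm_num)).1
  have h2 := ht.c1_own h0 h0' hi (show 0 < 4 by norm_num) (by norm_num)
  push_cast at h1 h2
  rw [← h1, h2]

theorem Val.c1_wire {i : ℕ} (hi : i < 4) :
    (t i 2).2.1 = if i = 1 then (t 0 2).2.1 + 1 else (t 0 2).2.1 := by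
  have e2 : ∀ n : ℕ, pj (t n 2).1 = 2 := fun n => ht.pj_at h0 h0' (show 2 < 4 by norm_num) n
  have e1 : ∀ n : ℕ, n < 4 → pi (t n 2).1 = n := fun n hn => ht.pi_at h0 h0' hn 2
  have k0 : (t 1 2).2.1 = (t 0 2).2.1 + 1 := by
    refine (ht 0 2).1.2.2.2.1 ?_
    have a1 := e1 0 (by norm_num)
    have a2 := e2 0
    push_cast at a1 a2
    unfold t1
    rw [a1, a2]
    norm_num
  have k1 : (t 1 2).2.1 = (t 2 2).2.1 + 1 := by
    refine (ht 1 2).1.2.2.2.2.1 ?_
    have a1 := e1 1 (by norm_num)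
    have a2 := e2 1
    push_cast at a1 a2
    unfold t1
    rw [a1, a2]
    norm_num
  have k2 : (t 3 2).2.1 = (t 2 2).2.1 := by
    refine (ht 2 2).1.2.2.1 ?_
    have a1 := e1 2 (by norm_num)
    have a2 := e2 2
    push_cast at a1 a2
    unfold t1
    rw [a1, a2]
    norm_num
  have k3 : (t 2 2).2.1 = (t 0 2).2.1 := by
    rw [k0] at k1
    exact (add_right_cancel k1).symm
  interval_cases i
  · simp
  · simpa using k0
  · simpa using k3
  · rw [← k3]
    simpa using k2

theorem Val.c2_wire {j : ℕ} (hj : j < 4) :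
    (t 2 j).2.2 = if j = 1 then (t 2 0).2.2 + 1 else (t 2 0).2.2 := by
  have e1 : ∀ n : ℕ, pi (t 2 n).1 = 2 := fun n => ht.pi_at h0 h0' (show 2 < 4 by norm_num) n
  have e2 : ∀ n : ℕ, n < 4 → pj (t 2 n).1 = n := fun n hn => ht.pj_at h0 h0' hn 2
  have k0 : (t 2 1).2.2 = (t 2 0).2.2 + 1 := by
    refine (ht 2 0).2.2.2.1 ?_
    have a1 := e1 0
    have a2 := e2 0 (by norm_num)
    push_cast at a1 a2
    unfold t2
    rw [a1, a2]
    norm_num
  have k1 : (t 2 1).2.2 = (t 2 2).2.2 + 1 := by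
    refine (ht 2 1).2.2.2.2.1 ?_
    have a1 := e1 1
    have a2 := e2 1 (by norm_num)
    push_cast at a1 a2
    unfold t2
    rw [a1, a2]
    norm_num
  have k2 : (t 2 3).2.2 = (t 2 2).2.2 := by
    refine (ht 2 2).2.2.1 ?_
    have a1 := e1 2
    have a2 := e2 2 (by norm_num)
    push_cast at a1 a2
    unfold t2
    rw [a1, a2]
    norm_num
  have k3 : (t 2 2).2.2 = (t 2 0).2.2 := by
    rw [k0] at k1
    exact (add_right_cancel k1).symm
  interval_cases j
  · simp
  · simpa using k0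
  · simpa using k3
  · rw [← k3]
    simpa using k2

/-- third components in a block -/
theorem Val.pa_at {i j : ℕ} (hi : i < 4) (hj : j < 4) :
    pa (t i j).1 = aa i j (t 0 0).2.1 := by
  have e1 := ht.pi_at h0 h0' hi j
  have e2 := ht.pj_at h0 h0' hj i
  have g12 : pa (t 1 2).1 = cls (t 0 0).2.1 := by
    have h := (ht 1 2).1.1.2.2.1.1
    have a1 := ht.pi_at h0 h0' (show 1 < 4 by norm_num) 2
    have a2 := ht.pj_at h0 h0' (show 2 < 4 by norm_num) 1
    have a3 := ht.c2_own h0 h0' (show 1 < 4 by norm_num) (show 2 < 4 by norm_num) (by norm_num)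
    push_cast at a1 a2 a3
    rw [a3] at h
    exact h ⟨a1, a2⟩
  by_cases c12 : i = 1 ∧ j = 2
  · obtain ⟨rfl, rfl⟩ := c12
    simpa [aa] using g12
  by_cases c22 : i = 2 ∧ j = 2
  · obtain ⟨rfl, rfl⟩ := c22
    have h := (ht 1 2).1.2.1.2.2
    have a1 := ht.pi_at h0 h0' (show 1 < 4 by norm_num) 2
    have a2 := ht.pj_at h0 h0' (show 2 < 4 by norm_num) 1
    push_cast at a1 a2
    have h2 := h ⟨a1, a2⟩
    rw [g12] at h2
    simpa [aa] using h2
  by_cases c32 : i = 3 ∧ j = 2
  · obtain ⟨rfl, rfl⟩ := c32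
    have h := (ht 3 2).1.1.2.2.1.2
    have a3 := ht.c2_own h0 h0' (show 3 < 4 by norm_num) (show 2 < 4 by norm_num) (by norm_num)
    push_cast at e1 e2 a3
    rw [a3] at h
    have h2 := h ⟨e1, e2⟩
    simpa [aa] using h2
  by_cases c23 : i = 2 ∧ j = 3
  · obtain ⟨rfl, rfl⟩ := c23
    have h := (ht 2 3).1.1.2.1
    have a3 := ht.c1_own h0 h0' (show 2 < 4 by norm_num) (show 3 < 4 by norm_num) (by norm_num)
    push_cast at e1 e2 a3
    rw [a3] at h
    have h2 := h ⟨e1, e2⟩
    simpa [aa] using h2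
  have h := (ht i j).1.1.1
  unfold okv at h
  rw [e1, e2] at h
  have h' : pa (t i j).1 = 0 := by tauto
  rw [h']
  unfold aa
  rw [if_neg (by omega), if_neg c32, if_neg c23]

/-- the parent of the block at the origin -/
def par (t : ℤ → ℤ → W) : W := ((t 0 0).2.1, (t 0 2).2.1, (t 2 0).2.2)

theorem Val.block {i j : ℕ} (hi : i < 4) (hj : j < 4) : t i j = child i j (par t) := by
  have e1 := ht.pi_at h0 h0' hi j
  have e2 := ht.pj_at h0 h0' hj i
  refine Prod.ext (eq_mkQ e1 e2 (ht.pa_at h0 h0' hi hj)) (Prod.ext ?_ ?_)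
  · unfold child par
    simp only
    split_ifs with h h'
    · subst h
      rw [Nat.cast_ofNat, ht.c1_wire h0 h0' hi, if_pos h']
    · subst h
      rw [Nat.cast_ofNat, ht.c1_wire h0 h0' hi, if_neg h']
    · exact ht.c1_own h0 h0' hi hj h
  · unfold child par
    simp only
    split_ifs with h h'
    · subst h
      rw [Nat.cast_ofNat, ht.c2_wire h0 h0' hj, if_pos h']
    · subst h
      rw [Nat.cast_ofNat, ht.c2_wire h0 h0' hj, if_neg h']
    · exact ht.c2_own h0 h0' hi hj h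

theorem Val.par_ok : ok (par t) := by
  refine ⟨?_, ?_, ?_, ?_⟩
  · have h := (ht.own h0 h0' (show 0 < 4 by norm_num) (by norm_num) (show 0 < 4 by norm_num)
      (by norm_num)).2
    exact h
  · have h := (ht 0 2).1.1.2.2.2.2.1
    have e1 := ht.pi_at h0 h0' (show 0 < 4 by norm_num) 2
    have e2 := ht.pj_at h0 h0' (show 2 < 4 by norm_num) 0
    have a3 := ht.c2_own h0 h0' (show 0 < 4 by norm_num) (show 2 < 4 by norm_num) (by norm_num)
    push_cast at e1 e2 a3
    rw [a3] at h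
    apply h
    unfold cls
    rw [e1, e2]
    norm_num
  · have h := (ht 2 0).1.1.2.2.2.2.2
    have e1 := ht.pi_at h0 h0' (show 2 < 4 by norm_num) 0
    have e2 := ht.pj_at h0 h0' (show 0 < 4 by norm_num) 2
    have a3 := ht.c1_own h0 h0' (show 2 < 4 by norm_num) (show 0 < 4 by norm_num) (by norm_num)
    push_cast at e1 e2 a3
    rw [a3] at h
    apply h
    unfold cls
    rw [e1, e2]
    norm_num
  · have h := (ht 2 2).1.1.2.2.2
    have e1 := ht.pi_at h0 h0' (show 2 < 4 by norm_num) 2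
    have e2 := ht.pj_at h0 h0' (show 2 < 4 by norm_num) 2
    have e3 := ht.pa_at h0 h0' (show 2 < 4 by norm_num) (show 2 < 4 by norm_num)
    have a1 := ht.c1_wire h0 h0' (show 2 < 4 by norm_num)
    have a2 := ht.c2_wire h0 h0' (show 2 < 4 by norm_num)
    push_cast at e1 e2 e3 a1 a2
    have e : cls (t 2 2).1 = cls (par t).1 := by
      have : cls (t 2 2).1 = pa (t 2 2).1 := by
        unfold cls
        rw [if_pos ⟨e1, e2⟩]
      rw [this, e3]
      simp [aa, par]
    rw [e, a1, a2] at h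
    exact h

end blk

/-- the horizontal relation of two neighbouring parents -/
theorem Val.par_HH {t : ℤ → ℤ → W} (ht : Val t) (h0 : pi (t 0 0).1 = 0) (h0' : pj (t 0 0).1 = 0) :
    HH (par t) (par (fun x y => t (x + 4) y)) := by
  refine ⟨ht.par_ok h0 h0', ?_, ?_⟩
  · have h := (ht 3 0).1.2.2.2.2.2
    have e1 := ht.pi_at h0 h0' (show 3 < 4 by norm_num) 0
    have e2 := ht.pj_at h0 h0' (show 0 < 4 by norm_num) 3
    have a3 := ht.c1_own h0 h0' (show 3 < 4 by norm_num) (show 0 < 4 by norm_num) (by norm_num)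
    push_cast at e1 e2 a3
    rw [a3] at h
    have h2 := h (by unfold t1; rw [e1, e2]; norm_num)
    norm_num at h2
    unfold par
    simpa using h2
  · have h := (ht 3 2).1.2.2
    have e1 := ht.pi_at h0 h0' (show 3 < 4 by norm_num) 2
    have e2 := ht.pj_at h0 h0' (show 2 < 4 by norm_num) 3
    have e3 := ht.pa_at h0 h0' (show 3 < 4 by norm_num) (show 2 < 4 by norm_num)
    have a1 := ht.c1_wire h0 h0' (show 3 < 4 by norm_num)
    push_cast at e1 e2 e3 a1
    have e : t1 (t 3 2).1 = t1 (par t).1 := by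
      have : t1 (t 3 2).1 = pa (t 3 2).1 := by
        unfold t1
        rw [e1, e2]
        norm_num
      rw [this, e3]
      simp [aa, par]
    rw [e, a1] at h
    norm_num at h
    unfold par at h ⊢
    simpa using h

/-- the vertical relation of two neighbouring parents -/
theorem Val.par_VV {t : ℤ → ℤ → W} (ht : Val t) (h0 : pi (t 0 0).1 = 0) (h0' : pj (t 0 0).1 = 0) :
    VV (par t) (par (fun x y => t x (y + 4))) := by
  refine ⟨?_, ?_⟩
  · have h := (ht 0 3).2.2.2.2.2
    have e1 := ht.pi_at h0 h0' (show 0 < 4 by norm_num) 3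
    have e2 := ht.pj_at h0 h0' (show 3 < 4 by norm_num) 0
    have a3 := ht.c2_own h0 h0' (show 0 < 4 by norm_num) (show 3 < 4 by norm_num) (by norm_num)
    push_cast at e1 e2 a3
    rw [a3] at h
    have h2 := h (by unfold t2; rw [e1, e2]; norm_num)
    norm_num at h2
    have hs := ht.shift 0 4
    have k0 : pi (t (0 + 0) (0 + 4)).1 = 0 := by
      have := ht.pi_pos (0 + 0) (0 + 4)
      omega
    have k0' : pj (t (0 + 0) (0 + 4)).1 = 0 := by
      have := ht.pj_pos (0 + 0) (0 + 4)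
      omega
    have h3 := (hs.own k0 k0' (show 0 < 4 by norm_num) (by norm_num) (show 0 < 4 by norm_num)
      (by norm_num)).1
    norm_num at h3
    rw [← h3] at h2
    unfold par
    simpa using h2
  · have h := (ht 2 3).2.2
    have e1 := ht.pi_at h0 h0' (show 2 < 4 by norm_num) 3
    have e2 := ht.pj_at h0 h0' (show 3 < 4 by norm_num) 2
    have e3 := ht.pa_at h0 h0' (show 2 < 4 by norm_num) (show 3 < 4 by norm_num)
    have a1 := ht.c2_wire h0 h0' (show 3 < 4 by norm_num)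
    push_cast at e1 e2 e3 a1
    have e : t2 (t 2 3).1 = t2 (par t).1 := by
      have : t2 (t 2 3).1 = pa (t 2 3).1 := by
        unfold t2
        rw [e1, e2]
        norm_num
      rw [this, e3]
      simp [aa, par]
    rw [e, a1] at h
    norm_num at h
    unfold par at h ⊢
    simpa using h

/-- PIECE D1. -/
theorem desub {t : ℤ → ℤ → W} (ht : Val t) : ∃ p q : ℤ, (0 ≤ p ∧ p < 4) ∧ (0 ≤ q ∧ q < 4) ∧
    ∃ t' : ℤ → ℤ → W, Val t' ∧ ∀ x y, t x y = up t' (x + p) (y + q) := by
  have hp := pi_lt (t 0 0).1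
  have hq := pj_lt (t 0 0).1
  set p : ℤ := (pi (t 0 0).1 : ℤ) with hpdef
  set q : ℤ := (pj (t 0 0).1 : ℤ) with hqdef
  have hs : ∀ X Y : ℤ, Val (fun a b => t (a + (4 * X - p)) (b + (4 * Y - q))) :=
    fun X Y => ht.shift _ _
  have k0 : ∀ X Y : ℤ, pi ((fun a b => t (a + (4 * X - p)) (b + (4 * Y - q))) 0 0).1 = 0 := by
    intro X Y
    have := ht.pi_pos (0 + (4 * X - p)) (0 + (4 * Y - q))
    simp only
    omega
  have k0' : ∀ X Y : ℤ, pj ((fun a b => t (a + (4 * X - p)) (b + (4 * Y - q))) 0 0).1 = 0 := by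
    intro X Y
    have := ht.pj_pos (0 + (4 * X - p)) (0 + (4 * Y - q))
    simp only
    omega
  refine ⟨p, q, ⟨by omega, by omega⟩, ⟨by omega, by omega⟩,
    fun X Y => par (fun a b => t (a + (4 * X - p)) (b + (4 * Y - q))), ?_, ?_⟩
  · intro X Y
    refine ⟨?_, ?_⟩
    · have h := (hs X Y).par_HH (k0 X Y) (k0' X Y)
      have e : (fun x y : ℤ => t (x + 4 + (4 * X - p)) (y + (4 * Y - q))) =
          (fun a b => t (a + (4 * (X + 1) - p)) (b + (4 * Y - q))) := by
        funext x y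
        congr 1
        ring
      rw [e] at h
      exact h
    · have h := (hs X Y).par_VV (k0 X Y) (k0' X Y)
      have e : (fun x y : ℤ => t (x + (4 * X - p)) (y + 4 + (4 * Y - q))) =
          (fun a b => t (a + (4 * X - p)) (b + (4 * (Y + 1) - q))) := by
        funext x y
        congr 1
        ring
      rw [e] at h
      exact h
  · intro x y
    unfold up
    have h := (hs ((x + p) / 4) ((y + q) / 4)).block (k0 _ _) (k0' _ _)
      (i := ((x + p) % 4).toNat) (j := ((y + q) % 4).toNat) (by omega) (by omega)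
    rw [← h]
    congr 1 <;> omega

theorem par_up (t : ℤ → ℤ → W) (X Y : ℤ) :
    par (fun a b => up t (a + 4 * X) (b + 4 * Y)) = t X Y := by
  have e0 : ∀ Z : ℤ, (0 + 4 * Z) / 4 = Z := by intro Z; omega
  have e1 : ∀ Z : ℤ, ((0 + 4 * Z) % 4).toNat = 0 := by intro Z; omega
  have e2 : ∀ Z : ℤ, (2 + 4 * Z) / 4 = Z := by intro Z; omega
  have e3 : ∀ Z : ℤ, ((2 + 4 * Z) % 4).toNat = 2 := by intro Z; omega
  unfold par up
  simp only [e0, e1, e2, e3]
  unfold child
  simp

theorem Val.aperiodic_aux (n : ℕ) : ∀ {t : ℤ → ℤ → W} (_ : Val t) {p m : ℤ}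
    (_ : ∀ i j, t (i + p) (j + m) = t i j), p.natAbs + m.natAbs ≤ n → p = 0 ∧ m = 0 := by
  induction n with
  | zero =>
    intro t ht p m hper h
    omega
  | succ n ih =>
    intro t ht p m hper hn
    have h1 := ht.pi_pos p m
    have h2 := ht.pj_pos p m
    have h3 := hper 0 0
    rw [zero_add, zero_add] at h3
    rw [h3] at h1 h2
    have h4 := pi_lt (t 0 0).1
    have h5 := pj_lt (t 0 0).1
    obtain ⟨p', rfl⟩ : ∃ p', p = 4 * p' := ⟨p / 4, by omega⟩
    obtain ⟨m', rfl⟩ : ∃ m', m = 4 * m' := ⟨m / 4, by omega⟩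
    obtain ⟨a, b, -, -, t', ht', he⟩ := desub ht
    by_cases hz : p' = 0 ∧ m' = 0
    · omega
    have hper' : ∀ i j, t' (i + p') (j + m') = t' i j := by
      intro i j
      rw [← par_up t' (i + p') (j + m'), ← par_up t' i j]
      congr 1
      funext x y
      have g1 := he (x + 4 * i - a + 4 * p') (y + 4 * j - b + 4 * m')
      have g2 := he (x + 4 * i - a) (y + 4 * j - b)
      rw [hper, g2] at g1
      rw [show x + 4 * (i + p') = x + 4 * i - a + 4 * p' + a by ring,
        show y + 4 * (j + m') = y + 4 * j - b + 4 * m' + b by ring, ← g1]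
      congr 1 <;> ring
    have := ih ht' hper' (by omega)
    omega

theorem Val.aperiodic {t : ℤ → ℤ → W} (ht : Val t) {p m : ℤ}
    (hper : ∀ i j, t (i + p) (j + m) = t i j) : p = 0 ∧ m = 0 :=
  Val.aperiodic_aux _ ht hper le_rfl

theorem up_shift61 (t : ℤ → ℤ → W) (a b : ℤ) :
    up (fun x y => t (x + a) (y + b)) = fun x y => up t (x + 4 * a) (y + 4 * b) := by
  funext x y
  unfold up
  simp only
  congr 1
  · congr 1
    omega
  · congr 1
    omega
  · congr 1 <;> omega

theorem upn_shift (n : ℕ) : ∀ (t : ℤ → ℤ → W) (a b : ℤ),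
    upn n (fun x y => t (x + a) (y + b)) = fun x y => upn n t (x + 4 ^ n * a) (y + 4 ^ n * b) := by
  induction n with
  | zero =>
    intro t a b
    funext x y
    simp [upn]
  | succ n ih =>
    intro t a b
    unfold upn
    rw [up_shift61, ih]
    funext x y
    congr 1 <;> ring

theorem hier {t : ℤ → ℤ → W} (ht : Val t) : ∃ (T : ℕ → ℤ → ℤ → W) (p : ℕ → ℤ × ℤ),
    p 0 = 0 ∧ (∀ n, Val (T n)) ∧
    (∀ n, (4 : ℤ) ^ n ∣ (p (n + 1)).1 - (p n).1 ∧ (4 : ℤ) ^ n ∣ (p (n + 1)).2 - (p n).2) ∧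
    ∀ n x y, t x y = upn n (T n) (x + (p n).1) (y + (p n).2) := by
  have H : ∀ s : {t : ℤ → ℤ → W // Val t}, ∃ (r : ℤ × ℤ) (s' : {t : ℤ → ℤ → W // Val t}),
      ∀ x y, s.1 x y = up s'.1 (x + r.1) (y + r.2) := by
    intro s
    obtain ⟨a, b, -, -, t', ht', he⟩ := desub s.2
    exact ⟨(a, b), ⟨t', ht'⟩, he⟩
  choose r s' h using H
  let S : ℕ → {t : ℤ → ℤ → W // Val t} × (ℤ × ℤ) := fun n =>
    Nat.rec (⟨t, ht⟩, 0) (fun n z => (s' z.1, (z.2.1 + 4 ^ n * (r z.1).1, z.2.2 + 4 ^ n * (r z.1).2))) n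
  have S0 : S 0 = (⟨t, ht⟩, 0) := rfl
  have S1 : ∀ n, S (n + 1) = (s' (S n).1,
      ((S n).2.1 + 4 ^ n * (r (S n).1).1, (S n).2.2 + 4 ^ n * (r (S n).1).2)) := fun n => rfl
  refine ⟨fun n => (S n).1.1, fun n => (S n).2, rfl, fun n => (S n).1.2, ?_, ?_⟩
  · intro n
    beta_reduce
    rw [S1]
    refine ⟨⟨(r (S n).1).1, by simp⟩, ⟨(r (S n).1).2, by simp⟩⟩
  · intro n
    induction n with
    | zero =>
      intro x y
      beta_reduce
      rw [S0]
      simp [upn]
    | succ n ih =>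
      intro x y
      rw [ih x y]
      beta_reduce
      rw [S1]
      have e : (S n).1.1 = fun x y => up (s' (S n).1).1 (x + (r (S n).1).1) (y + (r (S n).1).2) := by
        funext x y
        exact h (S n).1 x y
      conv_lhs => rw [e, upn_shift]
      simp only [upn]
      congr 1 <;> ring

end Pool.Agent.Helper42.Mk2
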