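import Pool.Agent.Helper42.Mk2.Perim2
import Pool.Agent.Helper42.Mk2.Defs3

/-! # Patches with connected complement have no holes -/

set_option autoImplicit false

namespace Pool.Agent.Helper42.Mk2

open Pool.Agent.Helper42.Miek

/-- a real number in `[a, b + 1]` lies in an interval `[c, c + 1]` with `a ≤ c ≤ b` -/
theorem exists_cell {a b : ℤ} (hab : a ≤ b) {t : ℝ} (h1 : (a : ℝ) ≤ t) (h2 : t ≤ b + 1) :
    ∃ c : ℤ, a ≤ c ∧ c ≤ b ∧ (c : ℝ) ≤ t ∧ t ≤ c + 1 := by
  by_cases h : t < b + 1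
  · refine ⟨⌊t⌋, Int.le_floor.2 h1, ?_, Int.floor_le t, (Int.lt_floor_add_one t).le⟩
    have h3 : ⌊t⌋ < b + 1 := Int.floor_lt.2 (by push_cast; exact h)
    omega
  · have h3 : t = b + 1 := le_antisymm h2 (not_lt.1 h)
    exact ⟨b, hab, le_refl _, by rw [h3]; linarith, by rw [h3]⟩

theorem mem_region {P : Set sqs.Tile} {x : Pl} : x ∈ sqs.region P ↔ ∃ q ∈ Pos P, x ∈ Sq q := by
  unfold ProtoSet.region
  rw [Set.mem_iUnion₂]
  constructor
  · rintro ⟨t, ht, hx⟩
    rw [body_eq] at hx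
    exact ⟨t.2, ⟨t.1, ht⟩, hx⟩
  · rintro ⟨q, ⟨l, hl⟩, hx⟩
    exact ⟨(l, q), hl, by rw [body_eq]; exact hx⟩

/-- PIECE J (a finite legal patch whose complement is connected has no holes). -/
theorem noHole_of {s : ℤ} (hs : 0 < s) {P : Set sqs.Tile} (hPf : P.Finite)
    (hN : sqs.NonOverlapping P) (hL : (rule s hs).Legal P)
    (hc : IsPreconnected (sqs.region P)ᶜ) : NoHole io (Pos P) := by
  intro p x0 x1 y0 y1 hring x y hx0 hx1 hy0 hy1
  -- all points of the rectangle are covered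
  have hcov : ∀ z : Pl, p 0 + x0 ≤ z 0 → z 0 ≤ p 0 + x1 + 1 → p 1 + y0 ≤ z 1 →
      z 1 ≤ p 1 + y1 + 1 → z ∈ sqs.region P := by
    -- the ring
    have hann : ∀ z : Pl, p 0 + x0 ≤ z 0 → z 0 ≤ p 0 + x1 + 1 → p 1 + y0 ≤ z 1 →
        z 1 ≤ p 1 + y1 + 1 → (z 0 ≤ p 0 + x0 + 1 ∨ p 0 + x1 ≤ z 0 ∨ z 1 ≤ p 1 + y0 + 1 ∨
          p 1 + y1 ≤ z 1) → z ∈ sqs.region P := by
      intro z h1 h2 h3 h4 h5
      obtain ⟨c, hc1, hc2, hc3, hc4⟩ := exists_cell (a := x0) (b := x1) (by omega)
        (t := z 0 - p 0) (by linarith) (by linarith)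
      obtain ⟨d, hd1, hd2, hd3, hd4⟩ := exists_cell (a := y0) (b := y1) (by omega)
        (t := z 1 - p 1) (by linarith) (by linarith)
      have hgo : ∀ c' d' : ℤ, x0 ≤ c' → c' ≤ x1 → y0 ≤ d' → d' ≤ y1 →
          (c' = x0 ∨ c' = x1 ∨ d' = y0 ∨ d' = y1) → (c' : ℝ) ≤ z 0 - p 0 → z 0 - p 0 ≤ c' + 1 →
          (d' : ℝ) ≤ z 1 - p 1 → z 1 - p 1 ≤ d' + 1 → z ∈ sqs.region P := by
        intro c' d' e1 e2 e3 e4 e5 e6 e7 e8 e9
        refine mem_region.2 ⟨_, hring c' d' e1 e2 e3 e4 e5, ?_⟩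
        refine ⟨⟨?_, ?_⟩, ?_, ?_⟩
        · rw [PiLp.add_apply, io_fst]; linarith
        · rw [PiLp.add_apply, io_fst]; linarith
        · rw [PiLp.add_apply, io_snd]; linarith
        · rw [PiLp.add_apply, io_snd]; linarith
      rcases h5 with h5 | h5 | h5 | h5
      · exact hgo x0 d (by omega) (by omega) hd1 hd2 (Or.inl rfl) (by linarith) (by linarith)
          hd3 hd4
      · exact hgo x1 d (by omega) (by omega) hd1 hd2 (Or.inr (Or.inl rfl)) (by linarith)
          (by linarith) hd3 hd4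
      · exact hgo c y0 hc1 hc2 (by omega) (by omega) (Or.inr (Or.inr (Or.inl rfl))) hc3 hc4
          (by linarith) (by linarith)
      · exact hgo c y1 hc1 hc2 (by omega) (by omega) (Or.inr (Or.inr (Or.inr rfl))) hc3 hc4
          (by linarith) (by linarith)
    intro z h1 h2 h3 h4
    by_contra hz
    set A : Set Pl := {w | (p 0 + x0 + 1 < w 0 ∧ w 0 < p 0 + x1) ∧
      (p 1 + y0 + 1 < w 1 ∧ w 1 < p 1 + y1)} with hA
    set B : Set Pl := {w | (p 0 + x0 ≤ w 0 ∧ w 0 ≤ p 0 + x1 + 1) ∧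
      (p 1 + y0 ≤ w 1 ∧ w 1 ≤ p 1 + y1 + 1)} with hB
    have hAo : IsOpen A := by
      refine IsOpen.inter (IsOpen.inter ?_ ?_) (IsOpen.inter ?_ ?_)
      · exact isOpen_lt continuous_const (cont 0)
      · exact isOpen_lt (cont 0) continuous_const
      · exact isOpen_lt continuous_const (cont 1)
      · exact isOpen_lt (cont 1) continuous_const
    have hBc : IsClosed B := by
      refine IsClosed.inter (IsClosed.inter ?_ ?_) (IsClosed.inter ?_ ?_)
      · exact isClosed_le continuous_const (cont 0)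
      · exact isClosed_le (cont 0) continuous_const
      · exact isClosed_le continuous_const (cont 1)
      · exact isClosed_le (cont 1) continuous_const
    -- a point of the rectangle which is not covered lies in `A`
    have hin : ∀ w : Pl, w ∈ B → w ∉ sqs.region P → w ∈ A := by
      rintro w ⟨⟨a1, a2⟩, a3, a4⟩ hw
      have hno : ¬ (w 0 ≤ p 0 + x0 + 1 ∨ p 0 + x1 ≤ w 0 ∨ w 1 ≤ p 1 + y0 + 1 ∨
          p 1 + y1 ≤ w 1) := fun h => hw (hann w a1 a2 a3 a4 h)
      push Not at hno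
      obtain ⟨b1, b2, b3, b4⟩ := hno
      exact ⟨⟨b1, b2⟩, b3, b4⟩
    have hsub : (sqs.region P)ᶜ ⊆ A ∪ Bᶜ := by
      intro w hw
      by_cases hwB : w ∈ B
      · exact Or.inl (hin w hwB hw)
      · exact Or.inr hwB
    have hne1 : ((sqs.region P)ᶜ ∩ A).Nonempty := ⟨z, hz, hin z ⟨⟨h1, h2⟩, h3, h4⟩ hz⟩
    have hne2 : ((sqs.region P)ᶜ ∩ Bᶜ).Nonempty := by
      have hbdd : Bornology.IsBounded (sqs.region P) := by
        unfold ProtoSet.region
        rw [Bornology.isBounded_biUnion hPf]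
        intro t _
        rw [body_eq]
        exact Sq_bounded _
      rw [Metric.isBounded_iff_subset_closedBall p] at hbdd
      obtain ⟨r, hr⟩ := hbdd
      set T : ℝ := |r| + |(x1 : ℝ)| + 2 with hT
      have hT1 : r < T := by
        have := le_abs_self r
        have := abs_nonneg (x1 : ℝ)
        linarith
      have hT2 : (x1 : ℝ) + 1 < T := by
        have := le_abs_self (x1 : ℝ)
        have := abs_nonneg r
        linarith
      have hT0 : 0 < T := by positivity
      refine ⟨p + pt T 0, fun hmem => ?_, fun hmem => ?_⟩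
      · have h5 := hr hmem
        rw [Metric.mem_closedBall] at h5
        have h6 := dist_coord (p + pt T 0) p 0
        rw [PiLp.add_apply, pt_zero, add_sub_cancel_left, abs_of_pos hT0] at h6
        linarith
      · have h5 := hmem.1.2
        rw [PiLp.add_apply, pt_zero] at h5
        linarith
    obtain ⟨w, -, hwA, hwB⟩ := hc A Bᶜ hAo hBc.isOpen_compl hsub hne1 hne2
    apply hwB
    obtain ⟨⟨a1, a2⟩, a3, a4⟩ := hwA
    exact ⟨⟨by linarith, by linarith⟩, by linarith, by linarith⟩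
  -- walk along the row
  have hwalk : ∀ n : ℕ, x0 + n ≤ x1 → p + io (x0 + n, y) ∈ Pos P := by
    intro n
    induction n with
    | zero =>
      intro _
      exact hring _ _ (by simp) (by simpa using hx0.trans hx1) hy0 hy1 (Or.inl (by simp))
    | succ n ih =>
      intro hn
      push_cast at hn
      have hq := ih (by omega)
      set q : Pl := p + io (x0 + n, y) with hqdef
      have q0 : q 0 = p 0 + (x0 + n) := by
        rw [hqdef, PiLp.add_apply, io_fst]
        push_cast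
        rfl
      have q1 : q 1 = p 1 + y := by rw [hqdef, PiLp.add_apply, io_snd]
      have hnr : (x0 : ℝ) + (n + 1) ≤ x1 := by exact_mod_cast hn
      have hn0 : (0 : ℝ) ≤ n := Nat.cast_nonneg n
      have hyr0 : (y0 : ℝ) ≤ y := by exact_mod_cast hy0
      have hyr1 : (y : ℝ) ≤ y1 := by exact_mod_cast hy1
      have z0 : (q + pt (3 / 2) (1 / 2)) 0 = q 0 + 3 / 2 := by rw [PiLp.add_apply, pt_zero]
      have z1 : (q + pt (3 / 2) (1 / 2)) 1 = q 1 + 1 / 2 := by rw [PiLp.add_apply, pt_one]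
      have hz := hcov (q + pt (3 / 2) (1 / 2)) (by rw [z0, q0]; linarith)
        (by rw [z0, q0]; linarith) (by rw [z1, q1]; linarith) (by rw [z1, q1]; linarith)
      obtain ⟨r, hr, hzr⟩ := mem_region.1 hz
      obtain ⟨u, hu⟩ := near_int hs hL hq hr hzr
        (by rw [z0, add_sub_cancel_left]; norm_num [abs_of_pos])
        (by rw [z1, add_sub_cancel_left]; norm_num [abs_of_pos])
      obtain ⟨⟨a1, a2⟩, a3, a4⟩ := hzr
      have r0 : r 0 = q 0 + u.1 := by rw [hu, PiLp.add_apply, io_fst]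
      have r1 : r 1 = q 1 + u.2 := by rw [hu, PiLp.add_apply, io_snd]
      rw [z0, r0] at a1 a2
      rw [z1, r1] at a3 a4
      have u1a : (u.1 : ℝ) < 2 := by linarith
      have u1b : (0 : ℝ) < u.1 := by linarith
      have u2a : (u.2 : ℝ) < 1 := by linarith
      have u2b : (-1 : ℝ) < u.2 := by linarith
      have u1a' : u.1 < 2 := by exact_mod_cast u1a
      have u1b' : 0 < u.1 := by exact_mod_cast u1b
      have u2a' : u.2 < 1 := by exact_mod_cast u2a
      have u2b' : -1 < u.2 := by exact_mod_cast u2b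
      have hu' : u = (1, 0) := Prod.ext (by simp only; omega) (by simp only; omega)
      rw [hu', hqdef, add_assoc, ← map_add] at hu
      have e : ((x0 + (n : ℤ), y) : ℤ × ℤ) + (1, 0) = (x0 + ((n + 1 : ℕ) : ℤ), y) := by
        refine Prod.ext ?_ ?_
        · simp only [Prod.fst_add]
          push_cast
          ring
        · simp
      rw [e] at hu
      rw [← hu]
      exact hr
  have h := hwalk (x - x0).toNat (by omega)
  have e : x0 + ((x - x0).toNat : ℤ) = x := by omega
  rwa [e] at h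

end Pool.Agent.Helper42.Mk2
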