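import Pool.Agent.Helper42.Mk2.Core3

set_option autoImplicit false

namespace Pool.Agent.Helper42.Mk2

open Finset

open scoped Classical in
/-- perimeter bound for all patterns inside a region of a patch without holes -/
theorem patch_any {V : Type} [AddCommGroup V] (k : ℤ) (hk : 0 < k) (D : Finset (ℤ × ℤ))
    (f : ℤ × ℤ → Lab) :
    ∃ d C : ℝ, 0 ≤ C ∧ ∀ (io : ℤ × ℤ →+ V)
      (_ : Function.Injective io) (ρ : ℤ) (P : Set V) (lab : V → Lab) (_ : Loc io k ρ P lab)
      (_ : 2 * (k * MM) ≤ ρ) (_ : P.Finite) (_ : NoHole io P) (R : Finset V)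
      (_ : ∀ x ∈ R, x ∈ P),
      |((R.filter (fun x => ∀ δ ∈ D, x + io δ ∈ R ∧ lab (x + io δ) = f δ)).card : ℝ) -
        d * R.card| ≤ C * (((Bd R (io (1, 0))).card : ℝ) + (Bd R (io (0, 1))).card) := by
  obtain ⟨N, hN0, hN⟩ : ∃ N : ℤ, 0 ≤ N ∧ ∀ δ ∈ D, |δ.1| ≤ N ∧ |δ.2| ≤ N := by
    refine ⟨∑ δ ∈ D, (|δ.1| + |δ.2|), sum_nonneg (fun δ _ => by positivity), ?_⟩
    intro δ hδ
    have h := single_le_sum (f := fun δ : ℤ × ℤ => |δ.1| + |δ.2|) (s := D)
      (fun δ _ => by positivity) hδ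
    constructor <;> linarith [abs_nonneg δ.1, abs_nonneg δ.2]
  set μ : ℤ × ℤ := (N, N) with hμ
  have hμ1 : μ.1 = N := rfl
  have hμ2 : μ.2 = N := rfl
  obtain ⟨d, C, hC, h1⟩ := patch_core (V := V) k hk (D.image (fun δ => δ + μ))
    (fun δ => f (δ - μ)) (by
    intro δ hδ
    rw [mem_image] at hδ
    obtain ⟨δ', hδ', rfl⟩ := hδ
    obtain ⟨a, b⟩ := hN δ' hδ'
    rw [abs_le] at a b
    rw [hμ]
    exact ⟨by change 0 ≤ δ'.1 + N; linarith, by change 0 ≤ δ'.2 + N; linarith⟩)
  refine ⟨d, C + (2 * ((2 * N : ℤ) : ℝ) + 1) ^ 2 * 2, by positivity, ?_⟩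
  intro io hio ρ P lab hloc hρ hPf hNH R hR
  have h2 := h1 io hio ρ P lab hloc hρ hPf hNH R hR
  set B := R.filter (fun x => ∀ δ ∈ D.image (fun δ => δ + μ), x + io δ ∈ P ∧
    lab (x + io δ) = f (δ - μ)) with hB
  set A := R.filter (fun x => ∀ δ ∈ D, x + io δ ∈ R ∧ lab (x + io δ) = f δ) with hA
  set E := Near io (2 * N) R with hE
  have hAB : A ⊆ B.image (fun y => y + io μ) ∪ E := by
    intro x hx
    rw [hA, mem_filter] at hx
    rw [mem_union]
    by_cases hxR : x - io μ ∈ R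
    · left
      rw [mem_image]
      refine ⟨x - io μ, ?_, sub_add_cancel _ _⟩
      rw [hB, mem_filter]
      refine ⟨hxR, ?_⟩
      intro δ' hδ'
      rw [mem_image] at hδ'
      obtain ⟨δ, hδ, rfl⟩ := hδ'
      have e : x - io μ + io (δ + μ) = x + io δ := by
        rw [map_add]; abel
      rw [e, add_sub_cancel_right]
      exact ⟨hR _ (hx.2 δ hδ).1, (hx.2 δ hδ).2⟩
    · right
      rw [hE, mem_Near]
      refine ⟨hx.1, -N, -N, by rw [abs_neg, abs_of_nonneg hN0]; linarith,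
        by rw [abs_neg, abs_of_nonneg hN0]; linarith, ?_⟩
      have e : io (-N, -N) = -io μ := by
        rw [← map_neg]
        rfl
      rw [e, ← sub_eq_add_neg]
      exact hxR
  have hBA : B ⊆ A.image (fun x => x - io μ) ∪ E := by
    intro y hy
    rw [hB, mem_filter] at hy
    rw [mem_union]
    by_cases hn : y ∈ E
    · exact Or.inr hn
    · left
      rw [hE, mem_Near] at hn
      push Not at hn
      have hn' := hn hy.1
      rw [mem_image]
      refine ⟨y + io μ, ?_, add_sub_cancel_right _ _⟩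
      rw [hA, mem_filter]
      refine ⟨hn' N N (by rw [abs_of_nonneg hN0]; linarith)
        (by rw [abs_of_nonneg hN0]; linarith), ?_⟩
      intro δ hδ
      obtain ⟨a1, a2⟩ := hN δ hδ
      rw [abs_le] at a1 a2
      have e : y + io μ + io δ = y + io (N + δ.1, N + δ.2) := by
        rw [add_assoc, ← map_add]
        rfl
      refine ⟨?_, ?_⟩
      · rw [e]
        exact hn' _ _ (by rw [abs_le]; constructor <;> linarith)
          (by rw [abs_le]; constructor <;> linarith)
      · have h3 := (hy.2 (δ + μ) (mem_image_of_mem _ hδ)).2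
        rw [add_sub_cancel_right] at h3
        rw [← h3, map_add]
        congr 1
        abel
  have c1 : A.card ≤ B.card + E.card :=
    (card_le_card hAB).trans ((card_union_le _ _).trans (Nat.add_le_add_right card_image_le _))
  have c2 : B.card ≤ A.card + E.card :=
    (card_le_card hBA).trans ((card_union_le _ _).trans (Nat.add_le_add_right card_image_le _))
  have c3 := near_bound io (2 * N) (by linarith) R
  have c3' : (E.card : ℝ) ≤ (2 * ((2 * N : ℤ) : ℝ) + 1) ^ 2 *
      (2 * (((Bd R (io (1, 0))).card : ℝ) + (Bd R (io (0, 1))).card)) := by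
    rw [hE]
    exact_mod_cast c3
  have c1' : (A.card : ℝ) ≤ B.card + E.card := by exact_mod_cast c1
  have c2' : (B.card : ℝ) ≤ A.card + E.card := by exact_mod_cast c2
  rw [abs_le] at h2 ⊢
  obtain ⟨g1, g2⟩ := h2
  have e5 : (C + (2 * ((2 * N : ℤ) : ℝ) + 1) ^ 2 * 2) *
      (((Bd R (io (1, 0))).card : ℝ) + (Bd R (io (0, 1))).card) =
      C * (((Bd R (io (1, 0))).card : ℝ) + (Bd R (io (0, 1))).card) +
      (2 * ((2 * N : ℤ) : ℝ) + 1) ^ 2 *
      (2 * (((Bd R (io (1, 0))).card : ℝ) + (Bd R (io (0, 1))).card)) := by ring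
  rw [e5]
  constructor <;> linarith

end Pool.Agent.Helper42.Mk2
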