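import Pool.Agent.Helper42.Mk2.Main2
import Pool.Agent.Helper42.Mk2.PatP2
import Pool.Agent.Helper42.Mk2.Hole

set_option autoImplicit false

open MeasureTheory

namespace Pool.Agent.Helper42.Mk2

open Pool.Agent.Helper42.Miek

variable {s : ℤ} (hs : 0 < s)

/-- a tile of a patch near a full region of another tile is in its lattice -/
theorem lattice_of_full {P : Set sqs.Tile} (hN : sqs.NonOverlapping P) {p p' : Pl}
    (hp' : p' ∈ Pos P) {M : ℤ} (hfull : ∀ u : ℤ × ℤ, |u.1| ≤ M → |u.2| ≤ M → p + io u ∈ Pos P)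
    (h0 : |p' 0 - p 0| + 1 ≤ M) (h1 : |p' 1 - p 1| + 1 ≤ M) : ∃ u : ℤ × ℤ, p' = p + io u := by
  set u : ℤ × ℤ := (⌊p' 0 - p 0⌋, ⌊p' 1 - p 1⌋) with hu
  have f0 := Int.floor_le (p' 0 - p 0)
  have f1 := Int.lt_floor_add_one (p' 0 - p 0)
  have g0 := Int.floor_le (p' 1 - p 1)
  have g1 := Int.lt_floor_add_one (p' 1 - p 1)
  have hu1 : (u.1 : ℝ) = ⌊p' 0 - p 0⌋ := rfl
  have hu2 : (u.2 : ℝ) = ⌊p' 1 - p 1⌋ := rfl
  have a0 := neg_abs_le (p' 0 - p 0)
  have a1 := le_abs_self (p' 0 - p 0)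
  have b0 := neg_abs_le (p' 1 - p 1)
  have b1 := le_abs_self (p' 1 - p 1)
  have hin : p + io u ∈ Pos P := by
    apply hfull
    · have h : |(u.1 : ℝ)| ≤ M := by
        rw [hu1, abs_le]; constructor <;> linarith
      exact_mod_cast h
    · have h : |(u.2 : ℝ)| ≤ M := by
        rw [hu2, abs_le]; constructor <;> linarith
      exact_mod_cast h
  refine ⟨u, ?_⟩
  by_contra hne
  obtain ⟨l, hl⟩ := hp'
  obtain ⟨l', hl'⟩ := hin
  have h2 := hN _ hl _ hl' (fun h => hne (congrArg Prod.snd h))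
  rw [body_eq, body_eq, interior_Sq, interior_Sq] at h2
  have hx : p' + pt ((1 - (p' 0 - p 0 - u.1)) / 2) ((1 - (p' 1 - p 1 - u.2)) / 2) ∈ OSq p' := by
    refine ⟨⟨?_, ?_⟩, ?_, ?_⟩ <;> simp only [PiLp.add_apply, pt_zero, pt_one] <;> linarith
  have hy : p' + pt ((1 - (p' 0 - p 0 - u.1)) / 2) ((1 - (p' 1 - p 1 - u.2)) / 2) ∈
      OSq (p + io u) := by
    refine ⟨⟨?_, ?_⟩, ?_, ?_⟩ <;>
      simp only [PiLp.add_apply, pt_zero, pt_one, io_fst, io_snd] <;> linarith
  exact Set.disjoint_left.1 h2 hx hy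

open scoped Classical in
/-- perimeter bound for all patterns in finite legal patches without holes -/
theorem patch_pattern (q : Set sqs.Tile) (hqf : q.Finite) (hqn : q.Nonempty) :
    ∃ dens c : ℝ, ∀ P : Set sqs.Tile, P.Finite → sqs.NonOverlapping P → (rule s hs).Legal P →
      NoHole io (Pos P) → ∀ S ⊆ P,
      |(({v : Pl | ∀ t ∈ q, ((t.1, t.2 + v) : sqs.Tile) ∈ S}.ncard : ℕ) : ℝ) -
        dens * ProtoSet.vol (sqs.region S)| ≤ c * ProtoSet.perimeter (sqs.region S) := by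
  obtain ⟨t0, ht0⟩ := hqn
  by_cases hdup : ∀ t ∈ q, ∀ t' ∈ q, t.2 = t'.2 → t = t'
  swap
  · -- two labels at one place
    refine ⟨0, 0, ?_⟩
    intro P hPf hN hL hNH S hS
    have hempty : {v : Pl | ∀ t ∈ q, ((t.1, t.2 + v) : sqs.Tile) ∈ S} = ∅ := by
      rw [Set.eq_empty_iff_forall_notMem]
      intro v hv
      apply hdup
      have hv' : ∀ t ∈ q, ((t.1, t.2 + v) : sqs.Tile) ∈ S := hv
      intro t ht t' ht' h
      have h1 := lab_unique hs hL (hS (hv' t ht))
      have h2 := lab_unique hs hL (hS (hv' t' ht'))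
      rw [h] at h1
      exact Prod.ext (h1.symm.trans h2) h
    rw [hempty]
    simp
  by_cases hint : ∀ t ∈ q, ∃ δ : ℤ × ℤ, t.2 = t0.2 + io δ
  swap
  · -- a tile outside the lattice of `t0`
    push Not at hint
    obtain ⟨t1, ht1, hne⟩ := hint
    obtain ⟨M, hM0, hM1, hM2⟩ : ∃ M : ℤ, 0 ≤ M ∧ |t1.2 0 - t0.2 0| + 1 ≤ M ∧
        |t1.2 1 - t0.2 1| + 1 ≤ M := by
      refine ⟨⌈|t1.2 0 - t0.2 0| + |t1.2 1 - t0.2 1| + 1⌉, ?_, ?_, ?_⟩
      · apply Int.ceil_nonneg; positivity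
      · refine le_trans ?_ (Int.le_ceil _)
        linarith [abs_nonneg (t1.2 1 - t0.2 1)]
      · refine le_trans ?_ (Int.le_ceil _)
        linarith [abs_nonneg (t1.2 0 - t0.2 0)]
    refine ⟨0, (2 * (M : ℝ) + 1) ^ 2 * 4, ?_⟩
    intro P hPf hN hL hNH S hS
    have hSf : S.Finite := hPf.subset hS
    set T : Finset sqs.Tile := hSf.toFinset with hT
    have hTmem : ∀ t, t ∈ T ↔ t ∈ S := fun t => by rw [hT, Set.Finite.mem_toFinset]
    set S' : Finset Pl := T.image Prod.snd with hS'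
    have hS'mem : ∀ p, p ∈ S' ↔ p ∈ Prod.snd '' S := by
      intro p
      rw [hS', Finset.mem_image]
      constructor
      · rintro ⟨t, ht, h⟩; exact ⟨t, (hTmem t).1 ht, h⟩
      · rintro ⟨t, ht, h⟩; exact ⟨t, (hTmem t).2 ht, h⟩
    have hsub : {v : Pl | ∀ t ∈ q, ((t.1, t.2 + v) : sqs.Tile) ∈ S} ⊆
        (fun p => p - t0.2) '' ((Near io M S' : Finset Pl) : Set Pl) := by
      intro v hv
      have hv' : ∀ t ∈ q, ((t.1, t.2 + v) : sqs.Tile) ∈ S := hv
      refine ⟨t0.2 + v, ?_, by simp⟩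
      rw [Finset.mem_coe]
      have hp0 : t0.2 + v ∈ S' := (hS'mem _).2 ⟨_, hv' t0 ht0, rfl⟩
      by_contra hcon
      rw [mem_Near] at hcon
      push Not at hcon
      have hcon' := hcon hp0
      obtain ⟨u, hu⟩ := lattice_of_full hN (p := t0.2 + v) (p' := t1.2 + v)
        ⟨t1.1, hS (hv' t1 ht1)⟩ (M := M) (by
          intro u h1 h2
          have h3 := hcon' u.1 u.2 h1 h2
          rw [hS'mem] at h3
          obtain ⟨t, ht, h4⟩ := h3
          exact ⟨t.1, by
            have : ((t.1, t0.2 + v + io u) : sqs.Tile) = t := Prod.ext rfl h4.symm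
            rw [this]
            exact hS ht⟩) (by simpa using hM1) (by simpa using hM2)
      apply hne u
      have e : t1.2 = t1.2 + v - v := by abel
      rw [e, hu]
      abel
    have hcard : ({v : Pl | ∀ t ∈ q, ((t.1, t.2 + v) : sqs.Tile) ∈ S}.ncard : ℕ) ≤
        (Near io M S').card := by
      refine (Set.ncard_le_ncard hsub ((Finset.finite_toSet _).image _)).trans ?_
      refine (Set.ncard_image_le (Finset.finite_toSet _)).trans ?_
      rw [Set.ncard_coe_finset]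
    have h2 := near_bound io M hM0 S'
    have h3 := Bd_perim hs hL hS (i := 0) (j := 1) (by decide) hSf S' hS'mem
    have h4 := Bd_perim hs hL hS (i := 1) (j := 0) (by decide) hSf S' hS'mem
    have u0 : uv 0 = (1, 0) := rfl
    have u1 : uv 1 = (0, 1) := rfl
    rw [u0] at h3
    rw [u1] at h4
    have h2' : ((Near io M S').card : ℝ) ≤ (2 * (M : ℝ) + 1) ^ 2 *
        (2 * (((Bd S' (io (1, 0))).card : ℝ) + (Bd S' (io (0, 1))).card)) := by exact_mod_cast h2
    have hcard' : (({v : Pl | ∀ t ∈ q, ((t.1, t.2 + v) : sqs.Tile) ∈ S}.ncard : ℕ) : ℝ) ≤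
        (Near io M S').card := by exact_mod_cast hcard
    rw [zero_mul, sub_zero, abs_of_nonneg (by positivity)]
    refine hcard'.trans (h2'.trans ?_)
    rw [mul_assoc]
    apply mul_le_mul_of_nonneg_left _ (by positivity)
    linarith
  -- the lattice case
  have hinj : Function.Injective (fun δ : ℤ × ℤ => t0.2 + io δ) := by
    intro δ δ' h
    exact io_inj (add_left_cancel h)
  have hDf : {δ : ℤ × ℤ | ∃ l : Lab, ((l, t0.2 + io δ) : sqs.Tile) ∈ q}.Finite := by
    have h1 : (Prod.snd '' q).Finite := hqf.image _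
    have h2 := h1.preimage hinj.injOn
    apply h2.subset
    rintro δ ⟨l, hl⟩
    exact ⟨_, hl, rfl⟩
  set D : Finset (ℤ × ℤ) := hDf.toFinset with hD
  have hDmem : ∀ δ, δ ∈ D ↔ ∃ l : Lab, ((l, t0.2 + io δ) : sqs.Tile) ∈ q := by
    intro δ
    rw [hD, Set.Finite.mem_toFinset]
    rfl
  set f : ℤ × ℤ → Lab := fun δ => lab q (t0.2 + io δ) with hf
  have hfq : ∀ δ ∈ D, ((f δ, t0.2 + io δ) : sqs.Tile) ∈ q := by
    intro δ hδ
    exact lab_mem ((hDmem δ).1 hδ)
  have h0 : (0 : ℤ × ℤ) ∈ D := by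
    rw [hDmem, map_zero, add_zero]
    exact ⟨t0.1, ht0⟩
  obtain ⟨d, C, hC, hdC⟩ := patch_any (V := Pl) s hs D f
  refine ⟨d, C * 2, ?_⟩
  intro P hPf hN hL hNH S hS
  have hSf : S.Finite := hPf.subset hS
  set T : Finset sqs.Tile := hSf.toFinset with hT
  have hTmem : ∀ t, t ∈ T ↔ t ∈ S := fun t => by rw [hT, Set.Finite.mem_toFinset]
  set S' : Finset Pl := T.image Prod.snd with hS'
  have hS'mem : ∀ p, p ∈ S' ↔ p ∈ Prod.snd '' S := by
    intro p
    rw [hS', Finset.mem_image]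
    constructor
    · rintro ⟨t, ht, h⟩; exact ⟨t, (hTmem t).1 ht, h⟩
    · rintro ⟨t, ht, h⟩; exact ⟨t, (hTmem t).2 ht, h⟩
  have hS'P : ∀ p ∈ S', p ∈ Pos P := by
    intro p hp
    rw [hS'mem] at hp
    obtain ⟨t, ht, rfl⟩ := hp
    exact ⟨t.1, hS ht⟩
  have hlabS : ∀ t ∈ S, lab P t.2 = t.1 := fun t ht => lab_unique hs hL (hS ht)
  have hcard : S'.card = T.card := by
    rw [hS']
    apply Finset.card_image_of_injOn
    intro t ht t' ht' h
    rw [Finset.mem_coe, hTmem] at ht ht'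
    apply Prod.ext
    · rw [← hlabS t ht, ← hlabS t' ht', h]
    · exact h
  have hmemS : ∀ l : Lab, ∀ p : Pl, ((l, p) : sqs.Tile) ∈ S ↔ p ∈ S' ∧ lab P p = l := by
    intro l p
    constructor
    · intro h
      exact ⟨(hS'mem p).2 ⟨_, h, rfl⟩, hlabS _ h⟩
    · rintro ⟨h1, h2⟩
      rw [hS'mem] at h1
      obtain ⟨t, ht, rfl⟩ := h1
      have h3 := hlabS t ht
      have : ((l, t.2) : sqs.Tile) = t := Prod.ext (by rw [← h2, h3]) rfl
      rw [this]
      exact ht
  -- the count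
  have hcount : {v : Pl | ∀ t ∈ q, ((t.1, t.2 + v) : sqs.Tile) ∈ S}.ncard =
      (S'.filter (fun p => ∀ δ ∈ D, p + io δ ∈ S' ∧ lab P (p + io δ) = f δ)).card := by
    have hset : {v : Pl | ∀ t ∈ q, ((t.1, t.2 + v) : sqs.Tile) ∈ S} =
        (fun p => p - t0.2) '' (S'.filter (fun p => ∀ δ ∈ D, p + io δ ∈ S' ∧
          lab P (p + io δ) = f δ) : Finset Pl) := by
      ext v
      constructor
      · intro h
        refine ⟨t0.2 + v, ?_, by simp⟩
        rw [Finset.mem_coe, Finset.mem_filter]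
        refine ⟨((hmemS _ _).1 (h t0 ht0)).1, ?_⟩
        intro δ hδ
        have h1 := h _ (hfq δ hδ)
        have h2 := (hmemS _ _).1 h1
        have e : t0.2 + v + io δ = t0.2 + io δ + v := by abel
        rw [e]
        exact h2
      · rintro ⟨p, hp, rfl⟩ t ht
        rw [Finset.mem_coe, Finset.mem_filter] at hp
        obtain ⟨δ, hδ⟩ := hint t ht
        have hδD : δ ∈ D := by
          rw [hDmem]
          exact ⟨t.1, by rw [← hδ]; exact ht⟩
        have h1 := hp.2 δ hδD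
        have h2 : t = ((f δ, t0.2 + io δ) : sqs.Tile) := hdup t ht _ (hfq δ hδD) hδ
        have h3 : t.1 = f δ := by rw [h2]
        rw [hmemS]
        have e : t.2 + (p - t0.2) = p + io δ := by rw [hδ]; abel
        rw [e, h3]
        exact h1
    rw [hset, Set.ncard_image_of_injective _ (sub_left_injective), Set.ncard_coe_finset]
  have hvol : ProtoSet.vol (sqs.region S) = S'.card := by
    rw [vol_region hN hS T hTmem, hcard]
  have hPosf : (Pos P).Finite := by
    have : Pos P ⊆ Prod.snd '' P := by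
      rintro p ⟨l, hl⟩
      exact ⟨_, hl, rfl⟩
    exact (hPf.image _).subset this
  have h1 : |((S'.filter (fun p => ∀ δ ∈ D, p + io δ ∈ S' ∧
      lab P (p + io δ) = f δ)).card : ℝ) - d * S'.card| ≤
      C * (((Bd S' (io (1, 0))).card : ℝ) + (Bd S' (io (0, 1))).card) := by
    have h1' := hdC io (fun _ _ h => io_inj h) (rho s) (Pos P) (lab P) (loc_of_legal hs hL)
      le_rfl hPosf hNH S' hS'P
    convert h1'
  have h3 := Bd_perim hs hL hS (i := 0) (j := 1) (by decide) hSf S' hS'mem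
  have h4 := Bd_perim hs hL hS (i := 1) (j := 0) (by decide) hSf S' hS'mem
  have u0 : uv 0 = (1, 0) := rfl
  have u1 : uv 1 = (0, 1) := rfl
  rw [u0] at h3
  rw [u1] at h4
  rw [hcount, hvol]
  refine h1.trans ?_
  rw [mul_assoc]
  apply mul_le_mul_of_nonneg_left _ hC
  linarith

end Pool.Agent.Helper42.Mk2
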