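import Pool.Agent.Helper42.Mk2.PatAll
import Pool.Agent.Helper42.Mk2.Count2

set_option autoImplicit false

namespace Pool.Agent.Helper42.Mk2

open Finset

open scoped Classical in
theorem card_bd_image (R : Finset (ℤ × ℤ)) (μ e : ℤ × ℤ) :
    (((R.image (fun x => x - μ)).filter (fun x => x + e ∉ R.image (fun x => x - μ))).card : ℝ) =
      (R.filter (fun x => x + e ∉ R)).card := by
  have h : (R.image (fun x => x - μ)).filter (fun x => x + e ∉ R.image (fun x => x - μ)) =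
      (R.filter (fun x => x + e ∉ R)).image (fun x => x - μ) := by
    ext y
    rw [mem_filter, mem_image, mem_image, mem_image]
    constructor
    · rintro ⟨⟨x, hx, rfl⟩, h2⟩
      refine ⟨x, ?_, rfl⟩
      rw [mem_filter]
      refine ⟨hx, fun h3 => h2 ⟨x + e, h3, by abel⟩⟩
    · rintro ⟨x, hx, rfl⟩
      rw [mem_filter] at hx
      refine ⟨⟨x, hx.1, rfl⟩, ?_⟩
      rintro ⟨z, hz, h3⟩
      apply hx.2
      have : z = x + e := by
        have h4 : z - μ = x - μ + e := h3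
        have h5 : z = x - μ + e + μ := by rw [← h4]; abel
        rw [h5]; abel
      rw [← this]; exact hz
  rw [h, card_image_of_injective _ sub_left_injective]

open scoped Classical in
theorem pattern_any (k : ℤ) (hk : 0 < k) (D : Finset (ℤ × ℤ)) (f : ℤ × ℤ → Lab) :
    ∃ d C : ℝ, 0 ≤ C ∧ ∀ t, Val t → ∀ R : Finset (ℤ × ℤ),
      |((R.filter (fun x => ∀ δ ∈ D, x + δ ∈ R ∧ enc k t (x.1 + δ.1) (x.2 + δ.2) = f δ)).card : ℝ)
        - d * R.card| ≤ C * (((Bd R (1, 0)).card : ℝ) + (Bd R (0, 1)).card) := by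
  obtain ⟨N, hN0, hN⟩ : ∃ N : ℤ, 0 ≤ N ∧ ∀ δ ∈ D, |δ.1| ≤ N ∧ |δ.2| ≤ N := by
    refine ⟨∑ δ ∈ D, (|δ.1| + |δ.2|), sum_nonneg (fun δ _ => by positivity), ?_⟩
    intro δ hδ
    have h := single_le_sum (f := fun δ : ℤ × ℤ => |δ.1| + |δ.2|) (s := D)
      (fun δ _ => by positivity) hδ
    constructor <;> linarith [abs_nonneg δ.1, abs_nonneg δ.2]
  set μ : ℤ × ℤ := (N, N) with hμ
  obtain ⟨d, C, hC, h1⟩ := pattern_core k hk (D.image (fun δ => δ + μ)) (fun δ => f (δ - μ)) (by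
    intro δ hδ
    rw [mem_image] at hδ
    obtain ⟨δ', hδ', rfl⟩ := hδ
    obtain ⟨a, b⟩ := hN δ' hδ'
    rw [abs_le] at a b
    rw [hμ]
    exact ⟨by change 0 ≤ δ'.1 + N; linarith, by change 0 ≤ δ'.2 + N; linarith⟩)
  refine ⟨d, C + (2 * (N : ℝ) + 1) ^ 2 * 2, by positivity, ?_⟩
  intro t ht R
  set R' : Finset (ℤ × ℤ) := R.image (fun x => x - μ) with hR'
  have h2 := h1 t ht R'
  have hcR : R'.card = R.card := by
    rw [hR', card_image_of_injective _ sub_left_injective]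
  have hA : ((R'.filter (fun x => ∀ δ ∈ D.image (fun δ => δ + μ),
      enc k t (x.1 + δ.1) (x.2 + δ.2) = f (δ - μ))).card : ℝ) =
      (R.filter (fun x => ∀ δ ∈ D, enc k t (x.1 + δ.1) (x.2 + δ.2) = f δ)).card := by
    have h : R'.filter (fun x => ∀ δ ∈ D.image (fun δ => δ + μ),
        enc k t (x.1 + δ.1) (x.2 + δ.2) = f (δ - μ)) =
        (R.filter (fun x => ∀ δ ∈ D, enc k t (x.1 + δ.1) (x.2 + δ.2) = f δ)).image
          (fun x => x - μ) := by
      ext y
      rw [mem_filter, hR', mem_image, mem_image]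
      constructor
      · rintro ⟨⟨x, hx, rfl⟩, h3⟩
        refine ⟨x, ?_, rfl⟩
        rw [mem_filter]
        refine ⟨hx, ?_⟩
        intro δ hδ
        have h4 := h3 (δ + μ) (mem_image_of_mem _ hδ)
        have e1 : (x - μ).1 + (δ + μ).1 = x.1 + δ.1 := by
          change x.1 - μ.1 + (δ.1 + μ.1) = _
          ring
        have e2 : (x - μ).2 + (δ + μ).2 = x.2 + δ.2 := by
          change x.2 - μ.2 + (δ.2 + μ.2) = _
          ring
        rw [e1, e2, add_sub_cancel_right] at h4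
        exact h4
      · rintro ⟨x, hx, rfl⟩
        rw [mem_filter] at hx
        refine ⟨⟨x, hx.1, rfl⟩, ?_⟩
        intro δ' hδ'
        rw [mem_image] at hδ'
        obtain ⟨δ, hδ, rfl⟩ := hδ'
        have e1 : (x - μ).1 + (δ + μ).1 = x.1 + δ.1 := by
          change x.1 - μ.1 + (δ.1 + μ.1) = _
          ring
        have e2 : (x - μ).2 + (δ + μ).2 = x.2 + δ.2 := by
          change x.2 - μ.2 + (δ.2 + μ.2) = _
          ring
        rw [e1, e2, add_sub_cancel_right]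
        exact hx.2 δ hδ
    rw [h, card_image_of_injective _ sub_left_injective]
  rw [hA, hcR, hR', card_bd_image, card_bd_image] at h2
  -- the occurrences which leave `R`
  set A := R.filter (fun x => ∀ δ ∈ D, enc k t (x.1 + δ.1) (x.2 + δ.2) = f δ) with hAdef
  set B := R.filter (fun x => ∀ δ ∈ D, x + δ ∈ R ∧ enc k t (x.1 + δ.1) (x.2 + δ.2) = f δ)
    with hBdef
  have hBA : B ⊆ A := by
    intro x hx
    rw [hBdef, mem_filter] at hx
    rw [hAdef, mem_filter]
    exact ⟨hx.1, fun δ hδ => (hx.2 δ hδ).2⟩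
  have hAB : A ⊆ B ∪ Near (AddMonoidHom.id (ℤ × ℤ)) N R := by
    intro x hx
    rw [hAdef, mem_filter] at hx
    rw [mem_union]
    by_cases hall : ∀ δ ∈ D, x + δ ∈ R
    · left
      rw [hBdef, mem_filter]
      exact ⟨hx.1, fun δ hδ => ⟨hall δ hδ, hx.2 δ hδ⟩⟩
    · right
      push Not at hall
      obtain ⟨δ, hδ, hn⟩ := hall
      rw [mem_Near]
      exact ⟨hx.1, δ.1, δ.2, (hN δ hδ).1, (hN δ hδ).2, hn⟩
  have c1 : B.card ≤ A.card := card_le_card hBA
  have c2 : A.card ≤ B.card + (Near (AddMonoidHom.id (ℤ × ℤ)) N R).card :=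
    (card_le_card hAB).trans (card_union_le _ _)
  have c3 := near_bound (AddMonoidHom.id (ℤ × ℤ)) N hN0 R
  have c3' : ((Near (AddMonoidHom.id (ℤ × ℤ)) N R).card : ℝ) ≤ (2 * (N : ℝ) + 1) ^ 2 *
      (2 * (((Bd R (1, 0)).card : ℝ) + (Bd R (0, 1)).card)) := by exact_mod_cast c3
  have c1' : (B.card : ℝ) ≤ A.card := by exact_mod_cast c1
  have c2' : (A.card : ℝ) ≤ B.card + (Near (AddMonoidHom.id (ℤ × ℤ)) N R).card := by
    exact_mod_cast c2
  have hb : ∀ e : ℤ × ℤ, (R.filter (fun x => x + e ∉ R)) = Bd R e := by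
    intro e
    ext x
    rw [mem_filter, mem_Bd]
  rw [hb, hb] at h2
  have h3 : |(A.card : ℝ) - d * R.card| ≤ C * (((Bd R (1, 0)).card : ℝ) + (Bd R (0, 1)).card) :=
    h2
  rw [abs_le] at h3 ⊢
  constructor <;> nlinarith [h3.1, h3.2]

end Pool.Agent.Helper42.Mk2
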