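import Pool.Agent.Helper42.Mk2.Main2
import Pool.Agent.Helper42.Mk2.Decode2
import Pool.Agent.Helper42.Mk2.PatAny

set_option autoImplicit false

open MeasureTheory

namespace Pool.Agent.Helper42.Mk2

open Pool.Agent.Helper42.Miek

variable {s : ℤ} (hs : 0 < s)

open scoped Classical in
/-- in legal tilings every pattern has discrepancy at most a multiple of the perimeter -/
theorem tiling_pattern (q : Set sqs.Tile) (hqf : q.Finite) (hqn : q.Nonempty) :
    ∃ dens c : ℝ, (rule s hs).PatternA q dens c := by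
  obtain ⟨t0, ht0⟩ := hqn
  by_cases hwf : (∀ t ∈ q, ∃ δ : ℤ × ℤ, t.2 = t0.2 + io δ) ∧
      (∀ t ∈ q, ∀ t' ∈ q, t.2 = t'.2 → t = t')
  · obtain ⟨hint, huniq⟩ := hwf
    have hinj : Function.Injective (fun δ : ℤ × ℤ => t0.2 + io δ) := by
      intro δ δ' h
      exact io_inj (add_left_cancel h)
    have hDf : {δ : ℤ × ℤ | ∃ l : Lab, ((l, t0.2 + io δ) : sqs.Tile) ∈ q}.Finite := by
      have h1 : (Prod.snd '' q).Finite := hqf.image _
      have h2 := h1.preimage hinj.injOn
      apply h2.subset
      rintro δ ⟨l, hl⟩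
      exact ⟨_, hl, rfl⟩
    set D : Finset (ℤ × ℤ) := hDf.toFinset with hD
    have hDmem : ∀ δ, δ ∈ D ↔ ∃ l : Lab, ((l, t0.2 + io δ) : sqs.Tile) ∈ q := by
      intro δ
      rw [hD, Set.Finite.mem_toFinset]
      rfl
    set f : ℤ × ℤ → Lab := fun δ => lab q (t0.2 + io δ) with hf
    have hfq : ∀ δ ∈ D, ((f δ, t0.2 + io δ) : sqs.Tile) ∈ q := by
      intro δ hδ
      exact lab_mem ((hDmem δ).1 hδ)
    obtain ⟨d, C, hC, hdC⟩ := pattern_any s hs D f
    refine ⟨d, C * 2, ?_⟩
    intro P hT hL S hS hSf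
    have hN := hT.1
    obtain ⟨p1, t, ht, hall, honly, hlab⟩ := decode hs hT hL
    set T : Finset sqs.Tile := hSf.toFinset with hTdef
    have hTmem : ∀ t, t ∈ T ↔ t ∈ S := fun t => by rw [hTdef, Set.Finite.mem_toFinset]
    set S' : Finset Pl := T.image Prod.snd with hS'
    have hS'mem : ∀ p, p ∈ S' ↔ p ∈ Prod.snd '' S := by
      intro p
      rw [hS', Finset.mem_image]
      constructor
      · rintro ⟨t, ht, h⟩; exact ⟨t, (hTmem t).1 ht, h⟩
      · rintro ⟨t, ht, h⟩; exact ⟨t, (hTmem t).2 ht, h⟩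
    have hS'P : ∀ p ∈ S', p ∈ Pos P := by
      intro p hp
      rw [hS'mem] at hp
      obtain ⟨t, ht, rfl⟩ := hp
      exact ⟨t.1, hS ht⟩
    have hlabS : ∀ t ∈ S, lab P t.2 = t.1 := fun t ht => lab_unique hs hL (hS ht)
    have hcard : S'.card = T.card := by
      rw [hS']
      apply Finset.card_image_of_injOn
      intro t ht t' ht' h
      rw [Finset.mem_coe, hTmem] at ht ht'
      apply Prod.ext
      · rw [← hlabS t ht, ← hlabS t' ht', h]
      · exact h
    have hmemS : ∀ l : Lab, ∀ p : Pl, ((l, p) : sqs.Tile) ∈ S ↔ p ∈ S' ∧ lab P p = l := by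
      intro l p
      constructor
      · intro h
        exact ⟨(hS'mem p).2 ⟨_, h, rfl⟩, hlabS _ h⟩
      · rintro ⟨h1, h2⟩
        rw [hS'mem] at h1
        obtain ⟨t, ht, rfl⟩ := h1
        have h3 := hlabS t ht
        have : ((l, t.2) : sqs.Tile) = t := Prod.ext (by rw [← h2, h3]) rfl
        rw [this]
        exact ht
    have h0 : (0 : ℤ × ℤ) ∈ D := by
      rw [hDmem, map_zero, add_zero]
      exact ⟨t0.1, ht0⟩
    -- the count
    have hcount : sqs.patternCount P (sqs.region S) q =
        (S'.filter (fun p => ∀ δ ∈ D, p + io δ ∈ S' ∧ lab P (p + io δ) = f δ)).card := by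
      rw [patternCount_eq hN hS]
      have hset : {v : Pl | ∀ t ∈ q, ((t.1, t.2 + v) : sqs.Tile) ∈ S} =
          (fun p => p - t0.2) '' (S'.filter (fun p => ∀ δ ∈ D, p + io δ ∈ S' ∧
            lab P (p + io δ) = f δ) : Finset Pl) := by
        ext v
        constructor
        · intro h
          refine ⟨t0.2 + v, ?_, by simp⟩
          rw [Finset.mem_coe, Finset.mem_filter]
          refine ⟨((hmemS _ _).1 (h t0 ht0)).1, ?_⟩
          intro δ hδ
          have h1 := h _ (hfq δ hδ)
          have h2 := (hmemS _ _).1 h1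
          have e : t0.2 + v + io δ = t0.2 + io δ + v := by abel
          rw [e]
          exact h2
        · rintro ⟨p, hp, rfl⟩ t ht
          rw [Finset.mem_coe, Finset.mem_filter] at hp
          obtain ⟨δ, hδ⟩ := hint t ht
          have hδD : δ ∈ D := by
            rw [hDmem]
            exact ⟨t.1, by rw [← hδ]; exact ht⟩
          have h1 := hp.2 δ hδD
          have h2 : t = ((f δ, t0.2 + io δ) : sqs.Tile) := huniq t ht _ (hfq δ hδD) hδ
          have h3 : t.1 = f δ := by rw [h2]
          rw [hmemS]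
          have e : t.2 + (p - t0.2) = p + io δ := by rw [hδ]; abel
          rw [e, h3]
          exact h1
      rw [hset, Set.ncard_image_of_injective _ (sub_left_injective), Set.ncard_coe_finset]
    have hvol : ProtoSet.vol (sqs.region S) = S'.card := by
      rw [vol_region hN hS T hTmem, hcard]
    -- coordinates
    clear_value S'
    have hinj1 : Function.Injective (fun x : ℤ × ℤ => p1 + io x) := by
      intro x y h
      exact io_inj (add_left_cancel h)
    set R : Finset (ℤ × ℤ) := S'.preimage (fun x : ℤ × ℤ => p1 + io x) hinj1.injOn with hR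
    have hRmem : ∀ x, x ∈ R ↔ p1 + io x ∈ S' := by
      intro x
      rw [hR, Finset.mem_preimage]
    have himg : S' = R.image (fun x : ℤ × ℤ => p1 + io x) := by
      ext p
      rw [Finset.mem_image]
      constructor
      · intro hp
        obtain ⟨u, hu⟩ := honly p (hS'P p hp)
        refine ⟨u, ?_, hu.symm⟩
        rw [hRmem, ← hu]
        exact hp
      · rintro ⟨x, hx, rfl⟩
        exact (hRmem x).1 hx
    have hRcard : S'.card = R.card := by
      rw [himg, Finset.card_image_of_injective _ hinj1]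
    have hBd : ∀ e : ℤ × ℤ, (Bd S' (io e)).card = (Bd R e).card := by
      intro e
      have h : Bd S' (io e) = (Bd R e).image (fun x : ℤ × ℤ => p1 + io x) := by
        ext p
        rw [mem_Bd, Finset.mem_image]
        constructor
        · rintro ⟨h1, h2⟩
          obtain ⟨u, hu⟩ := honly p (hS'P p h1)
          refine ⟨u, ?_, hu.symm⟩
          rw [mem_Bd, hRmem, hRmem, map_add, ← add_assoc, ← hu]
          exact ⟨h1, h2⟩
        · rintro ⟨x, hx, rfl⟩
          rw [mem_Bd, hRmem, hRmem, map_add, ← add_assoc] at hx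
          exact hx
      rw [h, Finset.card_image_of_injective _ hinj1]
    have hcount2 : (S'.filter (fun p => ∀ δ ∈ D, p + io δ ∈ S' ∧ lab P (p + io δ) = f δ)).card =
        (R.filter (fun x => ∀ δ ∈ D, x + δ ∈ R ∧
          enc s t (x.1 + δ.1) (x.2 + δ.2) = f δ)).card := by
      have h : S'.filter (fun p => ∀ δ ∈ D, p + io δ ∈ S' ∧ lab P (p + io δ) = f δ) =
          (R.filter (fun x => ∀ δ ∈ D, x + δ ∈ R ∧
          enc s t (x.1 + δ.1) (x.2 + δ.2) = f δ)).image (fun x : ℤ × ℤ => p1 + io x) := by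
        have hl : ∀ x δ : ℤ × ℤ, lab P (p1 + io x + io δ) = enc s t (x.1 + δ.1) (x.2 + δ.2) := by
          intro x δ
          rw [add_assoc, ← map_add]
          exact hlab (x.1 + δ.1) (x.2 + δ.2)
        ext p
        rw [Finset.mem_filter, Finset.mem_image]
        constructor
        · rintro ⟨h1, h2⟩
          obtain ⟨u, hu⟩ := honly p (hS'P p h1)
          refine ⟨u, ?_, hu.symm⟩
          rw [Finset.mem_filter, hRmem, ← hu]
          refine ⟨h1, fun δ hδ => ?_⟩
          have h3 := h2 δ hδ
          rw [hu] at h3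
          rw [hRmem, map_add, ← add_assoc, ← hl]
          exact h3
        · rintro ⟨x, hx, rfl⟩
          rw [Finset.mem_filter, hRmem] at hx
          refine ⟨hx.1, fun δ hδ => ?_⟩
          have h3 := hx.2 δ hδ
          rw [hRmem, map_add, ← add_assoc, ← hl] at h3
          exact h3
      rw [h, Finset.card_image_of_injective _ hinj1]
    have h1 := hdC t ht R
    have h3 := Bd_perim hs hL hS (i := 0) (j := 1) (by decide) hSf S' hS'mem
    have h4 := Bd_perim hs hL hS (i := 1) (j := 0) (by decide) hSf S' hS'mem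
    have u0 : uv 0 = (1, 0) := rfl
    have u1 : uv 1 = (0, 1) := rfl
    rw [u0, hBd] at h3
    rw [u1, hBd] at h4
    rw [hcount, hvol, hcount2, hRcard]
    refine h1.trans ?_
    rw [mul_assoc]
    apply mul_le_mul_of_nonneg_left _ hC
    linarith
  · refine ⟨0, 0, ?_⟩
    intro P hT hL S hS hSf
    have hN := hT.1
    obtain ⟨p1, t, ht, hall, honly, hlab⟩ := decode hs hT hL
    have hempty : {v : Pl | ∀ t ∈ q, ((t.1, t.2 + v) : sqs.Tile) ∈ S} = ∅ := by
      rw [Set.eq_empty_iff_forall_notMem]
      intro v hv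
      apply hwf
      have hv' : ∀ t ∈ q, ((t.1, t.2 + v) : sqs.Tile) ∈ S := hv
      constructor
      · intro t ht
        obtain ⟨u, hu⟩ := honly (t.2 + v) ⟨t.1, hS (hv' t ht)⟩
        obtain ⟨u0, hu0⟩ := honly (t0.2 + v) ⟨t0.1, hS (hv' t0 ht0)⟩
        refine ⟨u - u0, ?_⟩
        have e : t.2 = t.2 + v - v := by abel
        have e0 : p1 = t0.2 + v - io u0 := by rw [hu0]; abel
        rw [e, hu, e0, map_sub]
        abel
      · intro t ht t' ht' h
        have h1 := lab_unique hs hL (hS (hv' t ht))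
        have h2 := lab_unique hs hL (hS (hv' t' ht'))
        rw [h] at h1
        exact Prod.ext (h1.symm.trans h2) h
    rw [patternCount_eq hN hS, hempty]
    simp

end Pool.Agent.Helper42.Mk2
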