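import Pool.Agent.Helper42.Mk2.CoverL

set_option autoImplicit false

namespace Pool.Agent.Helper42.Mk2

variable {V : Type} [AddCommGroup V]

section

variable {io : ℤ × ℤ →+ V} {k : ℤ} (hk : 0 < k)
  {ρ : ℤ} {P : Set V} {lab : V → Lab} (hloc : Loc io k ρ P lab) (hρ : 2 * (k * MM) ≤ ρ)

include hk hloc hρ in
/-- a complete block whose surroundings are in `P` has a complete parent -/
theorem parent_of (n : ℕ) {p : V} (hp : p ∈ LV io k P lab n)
    (hfull : ∀ u : ℤ × ℤ, k * MM * 4 ^ n * (-3) ≤ u.1 → u.1 < k * MM * 4 ^ n * 4 →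
      k * 4 ^ n * (-3) ≤ u.2 → u.2 < k * 4 ^ n * 4 → p + io u ∈ P) :
    ∃ i j : ℕ, i < 4 ∧ j < 4 ∧ ∃ p' ∈ LV io k P lab (n + 1),
      p = p' + io (k * MM * 4 ^ n * i, k * 4 ^ n * j) := by
  have hM := MM_pos
  have hkM0 : 0 < k * MM := by positivity
  have h4 : (0 : ℤ) < 4 ^ n := by positivity
  have hA : 0 < k * MM * 4 ^ n := by positivity
  have hB : 0 < k * 4 ^ n := by positivity
  have hpv := lev_pval (base_pval hk hloc hρ) n
  set A := k * MM * 4 ^ n with hAdef
  set B := k * 4 ^ n with hBdef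
  set i := pi (LL io k P lab n p).1 with hi
  set j := pj (LL io k P lab n p).1 with hj
  have hi4 : i < 4 := pi_lt _
  have hj4 : j < 4 := pj_lt _
  refine ⟨i, j, hi4, hj4, p + io (A * (-(i : ℤ)), B * (-(j : ℤ))), ?_, ?_⟩
  swap
  · rw [add_assoc, ← map_add]
    have e : ((A * (-(i : ℤ)), B * (-(j : ℤ))) : ℤ × ℤ) + (A * i, B * j) = 0 :=
      Prod.ext (by change A * (-(i : ℤ)) + A * i = 0; ring)
        (by change B * (-(j : ℤ)) + B * j = 0; ring)
    rw [e, map_zero, add_zero]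
  set p' := p + io (A * (-(i : ℤ)), B * (-(j : ℤ))) with hp'
  have hmem : ∀ x y : ℕ, x < 4 → y < 4 → p' + io (A * x, B * y) ∈ LV io k P lab n := by
    intro x y hx hy
    have h1 := lev_chain hk hloc hρ n hp (-(i : ℤ)) (3 - i) (-(j : ℤ)) (3 - j) (by omega)
      (by omega) (by omega) (by omega) (by
        intro u a1 a2 a3 a4
        rw [← hAdef] at a1 a2
        rw [← hBdef] at a3 a4
        have hi4' : (i : ℤ) < 4 := by exact_mod_cast hi4
        have hj4' : (j : ℤ) < 4 := by exact_mod_cast hj4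
        have hi0 : (0 : ℤ) ≤ i := by positivity
        have hj0 : (0 : ℤ) ≤ j := by positivity
        apply hfull
        · nlinarith
        · nlinarith
        · nlinarith
        · nlinarith) (x - i) (y - j) (by omega) (by omega) (by omega) (by omega)
    rw [hp', add_assoc, ← map_add]
    have e : ((A * (-(i : ℤ)), B * (-(j : ℤ))) : ℤ × ℤ) + (A * x, B * y) =
        (A * (x - i), B * (y - j)) :=
      Prod.ext (by change A * (-(i : ℤ)) + A * x = _; ring)
        (by change B * (-(j : ℤ)) + B * y = _; ring)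
    rw [e]
    exact h1
  have hp0 : p' ∈ LV io k P lab n := by
    have := hmem 0 0 (by norm_num) (by norm_num)
    have e : ((A * ((0 : ℕ) : ℤ), B * ((0 : ℕ) : ℤ)) : ℤ × ℤ) = 0 := by simp
    rwa [e, map_zero, add_zero] at this
  -- positions
  have hrow : ∀ x : ℕ, x < 4 →
      pi (LL io k P lab n (p' + io (A * x, B * (0 : ℕ)))).1 =
        (pi (LL io k P lab n p').1 + x) % 4 ∧
      pj (LL io k P lab n (p' + io (A * x, B * (0 : ℕ)))).1 = pj (LL io k P lab n p').1 := by
    intro x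
    induction x with
    | zero =>
      intro _
      have e : ((A * ((0 : ℕ) : ℤ), B * ((0 : ℕ) : ℤ)) : ℤ × ℤ) = 0 := by simp
      rw [e, map_zero, add_zero]
      have := pi_lt (LL io k P lab n p').1
      exact ⟨by omega, rfl⟩
    | succ x ih =>
      intro hx
      obtain ⟨h1, h2⟩ := ih (by omega)
      have e : p' + io (A * ((x + 1 : ℕ) : ℤ), B * ((0 : ℕ) : ℤ)) =
          p' + io (A * (x : ℤ), B * ((0 : ℕ) : ℤ)) + io (A, 0) := by
        have e0 : ((A * ((x + 1 : ℕ) : ℤ), B * ((0 : ℕ) : ℤ)) : ℤ × ℤ) =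
            (A * (x : ℤ), B * ((0 : ℕ) : ℤ)) + (A, 0) :=
          Prod.ext (by push_cast; change A * ((x : ℤ) + 1) = A * (x : ℤ) + A; ring)
            (by change B * ((0 : ℕ) : ℤ) = B * ((0 : ℕ) : ℤ) + 0; ring)
        rw [e0, map_add, ← add_assoc]
      have h3 := hpv.hh _ (hmem x 0 (by omega) (by norm_num)) (by
        rw [← e]
        exact hmem (x + 1) 0 hx (by norm_num))
      rw [← e] at h3
      obtain ⟨_, ⟨h5, h6, _⟩, _⟩ := h3
      refine ⟨?_, ?_⟩
      · have h7 : pi (LL io k P lab n (p' + io (A * ((x + 1 : ℕ) : ℤ), B * ((0 : ℕ) : ℤ)))).1 =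
          (pi (LL io k P lab n (p' + io (A * (x : ℤ), B * ((0 : ℕ) : ℤ)))).1 + 1) % 4 := h5
        rw [h7, h1]
        omega
      · have h8 : pj (LL io k P lab n (p' + io (A * ((x + 1 : ℕ) : ℤ), B * ((0 : ℕ) : ℤ)))).1 =
          pj (LL io k P lab n (p' + io (A * (x : ℤ), B * ((0 : ℕ) : ℤ)))).1 := h6
        rw [h8, h2]
  have hcol : ∀ y : ℕ, y < 4 → ∀ x : ℕ, x < 4 →
      pi (LL io k P lab n (p' + io (A * x, B * y))).1 =
        (pi (LL io k P lab n p').1 + x) % 4 ∧
      pj (LL io k P lab n (p' + io (A * x, B * y))).1 =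
        (pj (LL io k P lab n p').1 + y) % 4 := by
    intro y
    induction y with
    | zero =>
      intro _ x hx
      obtain ⟨h1, h2⟩ := hrow x hx
      have := pj_lt (LL io k P lab n p').1
      exact ⟨h1, by rw [h2]; omega⟩
    | succ y ih =>
      intro hy x hx
      obtain ⟨h1, h2⟩ := ih (by omega) x hx
      have e : p' + io (A * (x : ℤ), B * ((y + 1 : ℕ) : ℤ)) =
          p' + io (A * (x : ℤ), B * (y : ℤ)) + io (0, B) := by
        have e0 : ((A * (x : ℤ), B * ((y + 1 : ℕ) : ℤ)) : ℤ × ℤ) =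
            (A * (x : ℤ), B * (y : ℤ)) + (0, B) :=
          Prod.ext (by change A * (x : ℤ) = A * (x : ℤ) + 0; ring)
            (by push_cast; change B * ((y : ℤ) + 1) = B * (y : ℤ) + B; ring)
        rw [e0, map_add, ← add_assoc]
      have h3 := hpv.vv _ (hmem x y hx (by omega)) (by
        rw [← e]
        exact hmem x (y + 1) hx hy)
      rw [← e] at h3
      obtain ⟨⟨h5, h6⟩, _⟩ := h3
      refine ⟨?_, ?_⟩
      · have h7 : pi (LL io k P lab n (p' + io (A * (x : ℤ), B * ((y + 1 : ℕ) : ℤ)))).1 =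
          pi (LL io k P lab n (p' + io (A * (x : ℤ), B * (y : ℤ)))).1 := h5
        rw [h7, h1]
      · have h8 : pj (LL io k P lab n (p' + io (A * (x : ℤ), B * ((y + 1 : ℕ) : ℤ)))).1 =
          (pj (LL io k P lab n (p' + io (A * (x : ℤ), B * (y : ℤ)))).1 + 1) % 4 := h6
        rw [h8, h2]
        omega
  have hpp : p' + io (A * (i : ℤ), B * (j : ℤ)) = p := by
    rw [hp', add_assoc, ← map_add]
    have e : ((A * (-(i : ℤ)), B * (-(j : ℤ))) : ℤ × ℤ) + (A * i, B * j) = 0 :=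
      Prod.ext (by change A * (-(i : ℤ)) + A * i = 0; ring)
        (by change B * (-(j : ℤ)) + B * j = 0; ring)
    rw [e, map_zero, add_zero]
  obtain ⟨h1, h2⟩ := hcol j hj4 i hi4
  rw [hpp, ← hi] at h1
  rw [hpp, ← hj] at h2
  have h3 := pi_lt (LL io k P lab n p').1
  have h5 := pj_lt (LL io k P lab n p').1
  refine ⟨hp0, ?_, ?_, ?_⟩
  · change pi (LL io k P lab n p').1 = 0
    omega
  · change pj (LL io k P lab n p').1 = 0
    omega
  · intro x y hx hy
    exact hmem x y hx hy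

/-- complete blocks with complete right, upper and upper right neighbours -/
def GP (io : ℤ × ℤ →+ V) (k : ℤ) (P : Set V) (lab : V → Lab) (n : ℕ) (p : V) : Prop :=
  ∀ x y : ℕ, x < 2 → y < 2 → p + io (k * MM * 4 ^ n * x, k * 4 ^ n * y) ∈ LV io k P lab n

include hk hloc hρ in
theorem good_self (n : ℕ) {p : V} (hp : p ∈ LV io k P lab n)
    (hfull : ∀ u : ℤ × ℤ, 0 ≤ u.1 → u.1 < k * MM * 4 ^ n * 2 → 0 ≤ u.2 → u.2 < k * 4 ^ n * 2 →
      p + io u ∈ P) : GP io k P lab n p := by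
  intro x y hx hy
  apply lev_chain hk hloc hρ n hp 0 1 0 1 le_rfl (by norm_num) le_rfl (by norm_num) _ x y
    (by positivity) (by omega) (by positivity) (by omega)
  intro u a1 a2 a3 a4
  apply hfull u (by linarith) (by linarith) (by linarith) (by linarith)

include hk hloc hρ in
/-- a complete block whose surroundings are in `P` has a good parent -/
theorem good_parent (n : ℕ) {p : V} (hp : p ∈ LV io k P lab n)
    (hfull : ∀ u : ℤ × ℤ, k * MM * 4 ^ n * (-3) ≤ u.1 → u.1 < k * MM * 4 ^ n * 8 →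
      k * 4 ^ n * (-3) ≤ u.2 → u.2 < k * 4 ^ n * 8 → p + io u ∈ P) :
    ∃ i j : ℕ, i < 4 ∧ j < 4 ∧ ∃ p', GP io k P lab (n + 1) p' ∧
      p = p' + io (k * MM * 4 ^ n * i, k * 4 ^ n * j) := by
  have hM := MM_pos
  have hkM0 : 0 < k * MM := by positivity
  have hA : 0 < k * MM * 4 ^ n := by positivity
  have hB : 0 < k * 4 ^ n := by positivity
  obtain ⟨i, j, hi, hj, p', hp', e⟩ := parent_of hk hloc hρ n hp (by
    intro u a1 a2 a3 a4
    apply hfull u a1 (by nlinarith) a3 (by nlinarith))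
  refine ⟨i, j, hi, hj, p', ?_, e⟩
  apply good_self hk hloc hρ (n + 1) hp'
  intro u a1 a2 a3 a4
  have e2 : p' + io u = p + io (u.1 - k * MM * 4 ^ n * i, u.2 - k * 4 ^ n * j) := by
    rw [e, add_assoc, ← map_add]
    congr 2
    exact Prod.ext (by change u.1 = k * MM * 4 ^ n * i + (u.1 - k * MM * 4 ^ n * i); ring)
      (by change u.2 = k * 4 ^ n * j + (u.2 - k * 4 ^ n * j); ring)
  rw [e2]
  have hi' : (i : ℤ) ≤ 3 := by omega
  have hj' : (j : ℤ) ≤ 3 := by omega
  have hi0 : (0 : ℤ) ≤ i := by positivity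
  have hj0 : (0 : ℤ) ≤ j := by positivity
  rw [pow_succ] at a2 a4
  apply hfull
  · change _ ≤ u.1 - k * MM * 4 ^ n * i
    nlinarith
  · change u.1 - k * MM * 4 ^ n * i < _
    nlinarith
  · change _ ≤ u.2 - k * 4 ^ n * j
    nlinarith
  · change u.2 - k * 4 ^ n * j < _
    nlinarith

include hk hloc hρ in
/-- a cell whose surroundings are in `P` lies in a complete block of level `n` -/
theorem level_cover (n : ℕ) : ∀ {x : V}, (∀ u : ℤ × ℤ, |u.1| ≤ 8 * (k * MM * 4 ^ n) →
    |u.2| ≤ 8 * (k * MM * 4 ^ n) → x + io u ∈ P) →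
    ∃ p ∈ LV io k P lab n, ∃ u : ℤ × ℤ, (0 ≤ u.1 ∧ u.1 < k * MM * 4 ^ n) ∧
      (0 ≤ u.2 ∧ u.2 < k * 4 ^ n) ∧ x = p + io u := by
  have hM := MM_pos
  have hkM0 : 0 < k * MM := by positivity
  have hkM : k ≤ k * MM := k_le hk
  induction n with
  | zero =>
    intro x hfull
    simp only [pow_zero, mul_one] at *
    have hx : x ∈ P := by
      have := hfull 0 (by rw [Prod.fst_zero, abs_zero]; positivity)
        (by rw [Prod.snd_zero, abs_zero]; positivity)
      rwa [map_zero, add_zero] at this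
    exact base_cover hk hloc hρ hx (fun u h1 h2 => hfull u (by linarith) (by linarith))
  | succ n ih =>
    intro x hfull
    have hA : 0 < k * MM * 4 ^ n := by positivity
    have hB : 0 < k * 4 ^ n := by positivity
    have hBA : k * 4 ^ n ≤ k * MM * 4 ^ n := by
      apply mul_le_mul_of_nonneg_right hkM (by positivity)
    have e4 : k * MM * 4 ^ (n + 1) = 4 * (k * MM * 4 ^ n) := by ring
    have e4' : k * 4 ^ (n + 1) = 4 * (k * 4 ^ n) := by ring
    rw [e4] at hfull
    obtain ⟨p, hp, u, ⟨u1, u2⟩, ⟨u3, u4⟩, hx⟩ := ih (x := x)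
      (fun u h1 h2 => hfull u (by linarith) (by linarith))
    obtain ⟨i, j, hi, hj, p', hp', e⟩ := parent_of hk hloc hρ n hp (by
      intro v a1 a2 a3 a4
      have e2 : p + io v = x + io (v.1 - u.1, v.2 - u.2) := by
        rw [hx, add_assoc, ← map_add]
        congr 2
        exact Prod.ext (by change v.1 = u.1 + (v.1 - u.1); ring)
          (by change v.2 = u.2 + (v.2 - u.2); ring)
      rw [e2]
      apply hfull
      · change |v.1 - u.1| ≤ _
        rw [abs_le]; constructor <;> linarith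
      · change |v.2 - u.2| ≤ _
        rw [abs_le]; constructor <;> linarith)
    have hi' : (i : ℤ) ≤ 3 := by omega
    have hj' : (j : ℤ) ≤ 3 := by omega
    have hi0 : (0 : ℤ) ≤ i := by positivity
    have hj0 : (0 : ℤ) ≤ j := by positivity
    refine ⟨p', hp', (k * MM * 4 ^ n * i + u.1, k * 4 ^ n * j + u.2), ⟨?_, ?_⟩, ⟨?_, ?_⟩, ?_⟩
    · change 0 ≤ k * MM * 4 ^ n * i + u.1
      positivity
    · change k * MM * 4 ^ n * i + u.1 < _
      rw [e4]
      nlinarith
    · change 0 ≤ k * 4 ^ n * j + u.2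
      positivity
    · change k * 4 ^ n * j + u.2 < _
      rw [e4']
      nlinarith
    · rw [hx, e, add_assoc, ← map_add]
      rfl

include hk hloc hρ in
/-- the same with good blocks -/
theorem good_cover (n : ℕ) {x : V} (hfull : ∀ u : ℤ × ℤ, |u.1| ≤ 8 * (k * MM * 4 ^ n) →
    |u.2| ≤ 8 * (k * MM * 4 ^ n) → x + io u ∈ P) :
    ∃ p, GP io k P lab n p ∧ ∃ u : ℤ × ℤ, (0 ≤ u.1 ∧ u.1 < k * MM * 4 ^ n) ∧
      (0 ≤ u.2 ∧ u.2 < k * 4 ^ n) ∧ x = p + io u := by
  have hM := MM_pos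
  have hkM0 : 0 < k * MM := by positivity
  have hkM : k ≤ k * MM := k_le hk
  have hA : 0 < k * MM * 4 ^ n := by positivity
  have hB : 0 < k * 4 ^ n := by positivity
  have hBA : k * 4 ^ n ≤ k * MM * 4 ^ n := by
    apply mul_le_mul_of_nonneg_right hkM (by positivity)
  obtain ⟨p, hp, u, ⟨u1, u2⟩, ⟨u3, u4⟩, hx⟩ := level_cover hk hloc hρ n hfull
  refine ⟨p, ?_, u, ⟨u1, u2⟩, ⟨u3, u4⟩, hx⟩
  apply good_self hk hloc hρ n hp
  intro v a1 a2 a3 a4
  have e2 : p + io v = x + io (v.1 - u.1, v.2 - u.2) := by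
    rw [hx, add_assoc, ← map_add]
    congr 2
    exact Prod.ext (by change v.1 = u.1 + (v.1 - u.1); ring)
      (by change v.2 = u.2 + (v.2 - u.2); ring)
  rw [e2]
  apply hfull
  · change |v.1 - u.1| ≤ _
    rw [abs_le]; constructor <;> linarith
  · change |v.2 - u.2| ≤ _
    rw [abs_le]; constructor <;> linarith

end

end Pool.Agent.Helper42.Mk2
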