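import Pool.Agent.Helper42.Miek.Defs

set_option autoImplicit false

open MeasureTheory

namespace Pool.Agent.Helper42.Miek

/-- Condition (B) for the pattern `q`, for legal finite patches without holes: the complement of
the region covered by the patch is connected. -/
def ProtoSet.MatchingRule.PatternBNoHoles {d : ℕ} {F : ProtoSet d} (M : F.MatchingRule)
    (q : Set F.Tile) (dens c : ℝ) : Prop :=
  ∀ P : Set F.Tile, F.IsPatch P → M.Legal P → IsPreconnected (F.region P)ᶜ → ∀ S ⊆ P,
    |(F.patternCount P (F.region S) q : ℝ) - dens * ProtoSet.vol (F.region S)| ≤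
      c * ProtoSet.perimeter (F.region S)

end Pool.Agent.Helper42.Miek
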