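import Pool.Agent.Helper42.Mk2.Decode2
import Pool.Agent.Helper42.Mk2.Defs3

set_option autoImplicit false

open MeasureTheory

namespace Pool.Agent.Helper42.Mk2

open Pool.Agent.Helper42.Miek

/-- a subset of a legal set of tiles is legal -/
theorem legal_subset {s : ℤ} (hs : 0 < s) {P P' : Set sqs.Tile} (h : P' ⊆ P)
    (hL : (rule s hs).Legal P) : (rule s hs).Legal P' := by
  intro x
  obtain ⟨Q, hQ, Q', hQ', v, hv⟩ := hL x
  refine ⟨Q, hQ, {q | q ∈ Q' ∧ ((q.1, q.2 + v) : sqs.Tile) ∈ P'}, fun q hq => hQ' hq.1, v, ?_⟩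
  ext t
  constructor
  · rintro ⟨h1, h2⟩
    have h3 : t ∈ sqs.translate v Q' := by
      rw [← hv]
      exact ⟨h h1, h2⟩
    obtain ⟨q, hq, rfl⟩ := h3
    exact ⟨q, ⟨hq, h1⟩, rfl⟩
  · rintro ⟨q, ⟨hq, hq'⟩, rfl⟩
    have h3 : ((q.1, q.2 + v) : sqs.Tile) ∈ {t | t ∈ P ∧
        (sqs.body t ∩ Metric.closedBall x (rule s hs).r).Nonempty} := by
      rw [hv]
      exact ⟨q, hq, rfl⟩
    exact ⟨hq', h3.2⟩

/-- a finite part of a legal tiling lies in a finite part without holes -/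
theorem box_patch {s : ℤ} (hs : 0 < s) {T : Set sqs.Tile} (hT : sqs.IsTiling T)
    (hL : (rule s hs).Legal T) {S : Set sqs.Tile} (hS : S ⊆ T) (hSf : S.Finite) :
    ∃ P ⊆ T, S ⊆ P ∧ P.Finite ∧ NoHole io (Pos P) := by
  obtain ⟨p1, t, -, hall, honly, -⟩ := decode hs hT hL
  have hu0 : ∀ τ : sqs.Tile, ∃ u : ℤ × ℤ, τ ∈ T → τ.2 = p1 + io u := by
    intro τ
    by_cases hτ : τ ∈ T
    · obtain ⟨u, hu⟩ := honly τ.2 ⟨τ.1, hτ⟩
      exact ⟨u, fun _ => hu⟩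
    · exact ⟨0, fun h => absurd h hτ⟩
  choose u hu using hu0
  obtain ⟨N, hN⟩ : BddAbove ((fun τ => max |(u τ).1| |(u τ).2|) '' S) :=
    (hSf.image _).bddAbove
  have hN' : ∀ τ ∈ S, |(u τ).1| ≤ N ∧ |(u τ).2| ≤ N := by
    intro τ hτ
    have h1 : max |(u τ).1| |(u τ).2| ≤ N := hN ⟨τ, hτ, rfl⟩
    exact ⟨(le_max_left _ _).trans h1, (le_max_right _ _).trans h1⟩
  set P : Set sqs.Tile := {τ | τ ∈ T ∧ ∃ w : ℤ × ℤ, |w.1| ≤ N ∧ |w.2| ≤ N ∧ τ.2 = p1 + io w}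
    with hP
  have hPos : ∀ q, q ∈ Pos P ↔ ∃ w : ℤ × ℤ, |w.1| ≤ N ∧ |w.2| ≤ N ∧ q = p1 + io w := by
    intro q
    constructor
    · rintro ⟨l, -, w, h1, h2, h3⟩
      exact ⟨w, h1, h2, h3⟩
    · rintro ⟨w, h1, h2, rfl⟩
      obtain ⟨l, hl⟩ := hall w
      exact ⟨l, hl, w, h1, h2, rfl⟩
  refine ⟨P, fun τ hτ => hτ.1, ?_, ?_, ?_⟩
  · intro τ hτ
    exact ⟨hS hτ, u τ, (hN' τ hτ).1, (hN' τ hτ).2, hu τ (hS hτ)⟩
  · apply Set.Finite.subset ((Set.finite_Icc ((-N, -N) : ℤ × ℤ) (N, N)).image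
      (fun w => ((lab T (p1 + io w), p1 + io w) : sqs.Tile)))
    rintro τ ⟨hτ, w, h1, h2, h3⟩
    rw [abs_le] at h1 h2
    refine ⟨w, ⟨⟨h1.1, h2.1⟩, h1.2, h2.2⟩, ?_⟩
    have h4 : lab T τ.2 = τ.1 := lab_unique hs hL (l := τ.1) (p := τ.2) hτ
    simp only
    rw [← h3, h4]
  · intro p x0 x1 y0 y1 hring x y hx0 hx1 hy0 hy1
    obtain ⟨w0, a1, a2, a3⟩ := (hPos _).1 (hring x0 y0 le_rfl (by omega) le_rfl (by omega)
      (Or.inl rfl))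
    obtain ⟨w1, b1, b2, b3⟩ := (hPos _).1 (hring x1 y1 (by omega) le_rfl (by omega) le_rfl
      (Or.inr (Or.inl rfl)))
    have e0 : p = p1 + io (w0 - (x0, y0)) := by
      rw [map_sub, ← add_sub_assoc, ← a3]
      abel
    have e1 : w1 = w0 - (x0, y0) + (x1, y1) := by
      apply io_inj
      have h5 : p1 + io w1 = p1 + io (w0 - (x0, y0) + (x1, y1)) := by
        rw [← b3, e0, add_assoc, ← map_add]
      exact add_left_cancel h5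
    rw [hPos]
    refine ⟨w0 - (x0, y0) + (x, y), ?_, ?_, ?_⟩
    · have h6 : w1.1 = w0.1 - x0 + x1 := by rw [e1]; rfl
      have h7 : (w0 - (x0, y0) + (x, y)).1 = w0.1 - x0 + x := rfl
      rw [h7]
      rw [abs_le] at a1 b1 ⊢
      omega
    · have h6 : w1.2 = w0.2 - y0 + y1 := by rw [e1]; rfl
      have h7 : (w0 - (x0, y0) + (x, y)).2 = w0.2 - y0 + y := rfl
      rw [h7]
      rw [abs_le] at a2 b2 ⊢
      omega
    · rw [e0, add_assoc, ← map_add]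

end Pool.Agent.Helper42.Mk2
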