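import Pool.Agent.Helper42.Mk2.Fin3
import Pool.Agent.Helper42.Mk2.SubBox
import Pool.Agent.Helper42.Mk2.NoHoleDef

set_option autoImplicit false

open MeasureTheory

namespace Pool.Agent.Helper42.Mk2

open Pool.Agent.Helper42.Miek

/-- all patterns: bound (A), and bound (B) for patches without holes -/
theorem all_patterns {s : ℤ} (hs : 0 < s) (q : Set sqs.Tile) (hqf : q.Finite)
    (hqn : q.Nonempty) : ∃ dens c : ℝ, (rule s hs).PatternA q dens c ∧
      (rule s hs).PatternBNoHoles q dens c := by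
  obtain ⟨dens, c, h⟩ := patch_pattern hs q hqf hqn
  refine ⟨dens, c, ?_, ?_⟩
  · intro T hT hL S hS hSf
    obtain ⟨P, hPT, hSP, hPf, hNH⟩ := box_patch hs hT hL hS hSf
    have hN : sqs.NonOverlapping P := fun x hx y hy hne => hT.1 x (hPT hx) y (hPT hy) hne
    rw [patternCount_eq hT.1 hS]
    exact h P hPf hN (legal_subset hs hPT hL) hNH S hSP
  · intro P hP hL hc S hS
    rw [patternCount_eq hP.2 hS]
    exact h P hP.1 hP.2 hL (noHole_of hs hP.1 hP.2 hL hc) S hS

theorem main3 (k : ℕ) : ∃ (F : ProtoSet 2) (M : F.MatchingRule),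
    (∃ T : Set F.Tile, F.IsTiling T ∧ M.Legal T) ∧
    (∀ T : Set F.Tile, F.IsTiling T → M.Legal T → ∀ v : Sp 2, v ≠ 0 → F.translate v T ≠ T) ∧
    (∃ dens c : F.ι → ℝ, M.CondA dens c ∧ M.CondB dens c) ∧
    (∀ q : Set F.Tile, q.Finite → q.Nonempty →
      ∃ dens c : ℝ, M.PatternA q dens c ∧ M.PatternBNoHoles q dens c ∧
        ((∀ x ∈ F.region q, ∀ y ∈ F.region q, dist x y ≤ k) → M.PatternB q dens c)) := by
  have hs : (0 : ℤ) < (k : ℤ) + 1 := by positivity
  refine ⟨sqs, rule ((k : ℤ) + 1) hs, ⟨Til _, Til_tiling _, Til_legal hs⟩, ?_, ?_, ?_⟩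
  · intro T hT hL v hv
    exact no_period hT hL v hv
  · have h1 : ∀ i : Lab, ∃ dens c : ℝ, ∀ P : Set sqs.Tile, sqs.NonOverlapping P →
        (rule ((k : ℤ) + 1) hs).Legal P → ∀ S ⊆ P, S.Finite →
        |(sqs.patternCount P (sqs.region S) {((i, 0) : sqs.Tile)} : ℝ) -
        dens * ProtoSet.vol (sqs.region S)| ≤ c * ProtoSet.perimeter (sqs.region S) := by
      intro i
      apply main_pattern hs _ (Set.finite_singleton _) (Set.singleton_nonempty _)
      intro t ht t' ht'
      rw [Set.mem_singleton_iff] at ht ht'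
      rw [ht, ht', dist_self]
      exact_mod_cast hs
    choose dens c h2 using h1
    refine ⟨dens, c, ?_, ?_⟩
    · intro T hT hL S hS hSf i
      rw [count_eq]
      exact h2 i T hT.1 hL S hS hSf
    · intro P hP hL S hS i
      rw [count_eq]
      exact h2 i P hP.2 hL S hS (hP.1.subset hS)
  · intro q hqf hqn
    by_cases hq : ∀ x ∈ sqs.region q, ∀ y ∈ sqs.region q, dist x y ≤ k
    · obtain ⟨dens, c, h⟩ := main_pattern hs q hqf hqn (by
        intro t ht t' ht'
        have h1 : t.2 ∈ sqs.region q := by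
          unfold ProtoSet.region
          rw [Set.mem_iUnion₂]
          refine ⟨t, ht, ?_⟩
          rw [body_eq]
          exact ⟨⟨le_refl _, by linarith⟩, le_refl _, by linarith⟩
        have h2 : t'.2 ∈ sqs.region q := by
          unfold ProtoSet.region
          rw [Set.mem_iUnion₂]
          refine ⟨t', ht', ?_⟩
          rw [body_eq]
          exact ⟨⟨le_refl _, by linarith⟩, le_refl _, by linarith⟩
        have h3 := hq _ h1 _ h2
        push_cast
        linarith)
      refine ⟨dens, c, ?_, ?_, fun _ => ?_⟩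
      · intro T hT hL S hS hSf
        exact h T hT.1 hL S hS hSf
      · intro P hP hL _ S hS
        exact h P hP.2 hL S hS (hP.1.subset hS)
      · intro P hP hL S hS
        exact h P hP.2 hL S hS (hP.1.subset hS)
    · obtain ⟨dens, c, h1, h2⟩ := all_patterns hs q hqf hqn
      exact ⟨dens, c, h1, h2, fun h => absurd h hq⟩

end Pool.Agent.Helper42.Mk2
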