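import Mathlib

/-!
# Telescoping over nested rectangular grids

If the sums of a bounded function over the blocks `a 4 ^ n × b 4 ^ n` of nested grids are at most
`C κ ^ n` with `κ < 4`, the sum over every finite set `R` of cells is at most a constant times
the perimeter of `R`.
-/

set_option autoImplicit false

namespace Pool.Agent.Helper42.Mk2

namespace T66

/-- the four unit vectors -/
def dirs : Finset (ℤ × ℤ) := {(1, 0), (-1, 0), (0, 1), (0, -1)}

/-- the boundary darts of a finite set of cells: a cell of `R` and a direction to a neighbour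
outside `R` -/
def darts (R : Finset (ℤ × ℤ)) : Finset ((ℤ × ℤ) × (ℤ × ℤ)) :=
  (R ×ˢ dirs).filter fun p => p.1 + p.2 ∉ R

/-- the perimeter of a finite set of cells -/
def per (R : Finset (ℤ × ℤ)) : ℕ := (darts R).card

/-- the rectangle of sides `m₁`, `m₂` with lower left corner `a` -/
noncomputable def box (m₁ m₂ : ℕ) (a : ℤ × ℤ) : Finset (ℤ × ℤ) :=
  Finset.Ico a.1 (a.1 + m₁) ×ˢ Finset.Ico a.2 (a.2 + m₂)

theorem mem_box {m₁ m₂ : ℕ} {a x : ℤ × ℤ} :
    x ∈ box m₁ m₂ a ↔ (a.1 ≤ x.1 ∧ x.1 < a.1 + m₁) ∧ (a.2 ≤ x.2 ∧ x.2 < a.2 + m₂) := by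
  simp [box, Finset.mem_product, Finset.mem_Ico]

theorem card_box (m₁ m₂ : ℕ) (a : ℤ × ℤ) : (box m₁ m₂ a).card = m₁ * m₂ := by
  simp [box, Finset.card_product, Int.card_Ico]

theorem mem_darts {R : Finset (ℤ × ℤ)} {p : (ℤ × ℤ) × (ℤ × ℤ)} :
    p ∈ darts R ↔ (p.1 ∈ R ∧ p.2 ∈ dirs) ∧ p.1 + p.2 ∉ R := by
  simp [darts, Finset.mem_filter, Finset.mem_product]

/-- a predicate which changes on an interval changes at a step -/
theorem step_up (P : ℤ → Prop) (n : ℕ) : ∀ x : ℤ, P x → ¬ P (x + n) →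
    ∃ z, x ≤ z ∧ z + 1 ≤ x + n ∧ P z ∧ ¬ P (z + 1) := by
  induction n with
  | zero => intro x h1 h2; simp at h2; exact absurd h1 h2
  | succ n ih =>
    intro x h1 h2
    by_cases h : P (x + 1)
    · obtain ⟨z, hz1, hz2, hz3, hz4⟩ := ih (x + 1) h (by
        have : x + 1 + (n : ℤ) = x + ((n + 1 : ℕ) : ℤ) := by push_cast; ring
        rwa [this])
      exact ⟨z, by omega, by push_cast; omega, hz3, hz4⟩
    · exact ⟨x, le_rfl, by push_cast; omega, h1, h⟩

theorem step_down (P : ℤ → Prop) (n : ℕ) : ∀ x : ℤ, P x → ¬ P (x - n) →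
    ∃ z, x - n ≤ z - 1 ∧ z ≤ x ∧ P z ∧ ¬ P (z - 1) := by
  induction n with
  | zero => intro x h1 h2; simp at h2; exact absurd h1 h2
  | succ n ih =>
    intro x h1 h2
    by_cases h : P (x - 1)
    · obtain ⟨z, hz1, hz2, hz3, hz4⟩ := ih (x - 1) h (by
        have : x - 1 - (n : ℤ) = x - ((n + 1 : ℕ) : ℤ) := by push_cast; ring
        rwa [this])
      exact ⟨z, by push_cast; omega, by omega, hz3, hz4⟩
    · exact ⟨x, by push_cast; omega, le_rfl, h1, h⟩

theorem step_exists (P : ℤ → Prop) {a b x y : ℤ} (hx : a ≤ x ∧ x < b) (hy : a ≤ y ∧ y < b)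
    (h1 : P x) (h2 : ¬ P y) :
    ∃ z, (a ≤ z ∧ z < b) ∧ P z ∧ ((z + 1 < b ∧ ¬ P (z + 1)) ∨ (a ≤ z - 1 ∧ ¬ P (z - 1))) := by
  rcases le_total x y with h | h
  · obtain ⟨n, hn⟩ := Int.le.dest h
    obtain ⟨z, hz1, hz2, hz3, hz4⟩ := step_up P n x h1 (by rwa [hn])
    exact ⟨z, ⟨by omega, by omega⟩, hz3, Or.inl ⟨by omega, hz4⟩⟩
  · obtain ⟨n, hn⟩ := Int.le.dest h
    obtain ⟨z, hz1, hz2, hz3, hz4⟩ := step_down P n x h1 (by
      have : x - (n : ℤ) = y := by omega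
      rwa [this])
    exact ⟨z, ⟨by omega, by omega⟩, hz3, Or.inr ⟨by omega, hz4⟩⟩

/-- the darts inside a square -/
noncomputable def inner (R : Finset (ℤ × ℤ)) (m₁ m₂ : ℕ) (a : ℤ × ℤ) : Finset ((ℤ × ℤ) × (ℤ × ℤ)) :=
  (darts R).filter fun p => p.1 ∈ box m₁ m₂ a ∧ p.1 + p.2 ∈ box m₁ m₂ a

theorem mem_inner {R : Finset (ℤ × ℤ)} {m₁ m₂ : ℕ} {a : ℤ × ℤ} {p : (ℤ × ℤ) × (ℤ × ℤ)} :
    p ∈ inner R m₁ m₂ a ↔ p ∈ darts R ∧ p.1 ∈ box m₁ m₂ a ∧ p.1 + p.2 ∈ box m₁ m₂ a := by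
  simp [inner, Finset.mem_filter]

/-- a mixed row of a square contains a dart -/
theorem row_dart {R : Finset (ℤ × ℤ)} {m₁ m₂ : ℕ} {a : ℤ × ℤ} {x x' y : ℤ}
    (h1 : (x, y) ∈ box m₁ m₂ a) (h2 : (x', y) ∈ box m₁ m₂ a) (h3 : (x, y) ∈ R) (h4 : (x', y) ∉ R) :
    ∃ p ∈ inner R m₁ m₂ a, p.1.2 = y := by
  rw [mem_box] at h1 h2
  obtain ⟨z, hz1, hz2, hz3⟩ := step_exists (fun t => (t, y) ∈ R) (a := a.1) (b := a.1 + m₁)
    h1.1 h2.1 h3 h4
  rcases hz3 with ⟨h5, h6⟩ | ⟨h5, h6⟩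
  · refine ⟨((z, y), (1, 0)), ?_, rfl⟩
    rw [mem_inner, mem_darts, mem_box, mem_box]
    refine ⟨⟨⟨hz2, by simp [dirs]⟩, by simpa using h6⟩, ⟨hz1, h1.2⟩, ⟨?_, ?_⟩⟩
    · constructor
      · show a.1 ≤ z + 1
        omega
      · exact h5
    · simpa using h1.2
  · refine ⟨((z, y), (-1, 0)), ?_, rfl⟩
    rw [mem_inner, mem_darts, mem_box, mem_box]
    refine ⟨⟨⟨hz2, by simp [dirs]⟩, by simpa [← sub_eq_add_neg] using h6⟩, ⟨hz1, h1.2⟩, ⟨?_, ?_⟩⟩
    · constructor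
      · show a.1 ≤ z + -1
        omega
      · show z + -1 < a.1 + m₁
        omega
    · simpa using h1.2

/-- a mixed column of a square contains a dart -/
theorem col_dart {R : Finset (ℤ × ℤ)} {m₁ m₂ : ℕ} {a : ℤ × ℤ} {x y y' : ℤ}
    (h1 : (x, y) ∈ box m₁ m₂ a) (h2 : (x, y') ∈ box m₁ m₂ a) (h3 : (x, y) ∈ R) (h4 : (x, y') ∉ R) :
    ∃ p ∈ inner R m₁ m₂ a, p.1.1 = x := by
  rw [mem_box] at h1 h2
  obtain ⟨z, hz1, hz2, hz3⟩ := step_exists (fun t => (x, t) ∈ R) (a := a.2) (b := a.2 + m₂)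
    h1.2 h2.2 h3 h4
  rcases hz3 with ⟨h5, h6⟩ | ⟨h5, h6⟩
  · refine ⟨((x, z), (0, 1)), ?_, rfl⟩
    rw [mem_inner, mem_darts, mem_box, mem_box]
    refine ⟨⟨⟨hz2, by simp [dirs]⟩, by simpa using h6⟩, ⟨h1.1, hz1⟩, ⟨?_, ?_⟩⟩
    · simpa using h1.1
    · constructor
      · show a.2 ≤ z + 1
        omega
      · exact h5
  · refine ⟨((x, z), (0, -1)), ?_, rfl⟩
    rw [mem_inner, mem_darts, mem_box, mem_box]
    refine ⟨⟨⟨hz2, by simp [dirs]⟩, by simpa [← sub_eq_add_neg] using h6⟩, ⟨h1.1, hz1⟩, ⟨?_, ?_⟩⟩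
    · simpa using h1.1
    · constructor
      · show a.2 ≤ z + -1
        omega
      · show z + -1 < a.2 + m₂
        omega

/-- counting a part of a square by its rows: if every row which meets the part contains a dart -/
theorem card_le_rows {R : Finset (ℤ × ℤ)} {m₁ m₂ : ℕ} {a : ℤ × ℤ} {A : Finset (ℤ × ℤ)}
    (hA : A ⊆ box m₁ m₂ a) (h : ∀ p ∈ A, ∃ q ∈ inner R m₁ m₂ a, q.1.2 = p.2) :
    A.card ≤ m₁ * (inner R m₁ m₂ a).card := by
  have h1 : A.card ≤ m₁ * ((inner R m₁ m₂ a).image fun q => q.1.2).card := by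
    refine Finset.card_le_mul_card_image_of_maps_to (f := fun p : ℤ × ℤ => p.2) ?_ m₁ ?_
    · intro p hp
      obtain ⟨q, hq1, hq2⟩ := h p hp
      exact Finset.mem_image.2 ⟨q, hq1, hq2⟩
    · intro y _
      calc (A.filter fun p => p.2 = y).card
          ≤ (Finset.Ico a.1 (a.1 + m₁)).card := by
            refine Finset.card_le_card_of_injOn (fun p => p.1) ?_ ?_
            · intro p hp
              rw [Finset.mem_coe, Finset.mem_filter] at hp
              have := mem_box.1 (hA hp.1)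
              rw [Finset.mem_coe, Finset.mem_Ico]
              exact this.1
            · intro p hp q hq hpq
              rw [Finset.mem_coe, Finset.mem_filter] at hp hq
              exact Prod.ext hpq (hp.2.trans hq.2.symm)
        _ = m₁ := by simp [Int.card_Ico]
  exact h1.trans (Nat.mul_le_mul_left _ Finset.card_image_le)

/-- the isoperimetric inequality of a rectangle -/
theorem box_iso (R : Finset (ℤ × ℤ)) (m₁ m₂ : ℕ) (a : ℤ × ℤ) :
    ((box m₁ m₂ a).filter (· ∈ R)).card ≤ (m₁ + m₂) * (inner R m₁ m₂ a).card ∨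
      ((box m₁ m₂ a).filter (· ∉ R)).card ≤ (m₁ + m₂) * (inner R m₁ m₂ a).card := by
  by_cases h1 : ∃ y, a.2 ≤ y ∧ y < a.2 + m₂ ∧ ∀ x, (x, y) ∈ box m₁ m₂ a → (x, y) ∈ R
  · by_cases h2 : ∃ y, a.2 ≤ y ∧ y < a.2 + m₂ ∧ ∀ x, (x, y) ∈ box m₁ m₂ a → (x, y) ∉ R
    · left
      obtain ⟨y, hy1, hy2, hy3⟩ := h1
      obtain ⟨y', hy1', hy2', hy3'⟩ := h2
      have h3 : m₁ ≤ (inner R m₁ m₂ a).card := by
        have h4 : Finset.Ico a.1 (a.1 + m₁) ⊆ (inner R m₁ m₂ a).image fun q => q.1.1 := by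
          intro x hx
          rw [Finset.mem_Ico] at hx
          have h5 : (x, y) ∈ box m₁ m₂ a := mem_box.2 ⟨hx, hy1, hy2⟩
          have h6 : (x, y') ∈ box m₁ m₂ a := mem_box.2 ⟨hx, hy1', hy2'⟩
          obtain ⟨q, hq1, hq2⟩ := col_dart h5 h6 (hy3 x h5) (hy3' x h6)
          exact Finset.mem_image.2 ⟨q, hq1, hq2⟩
        have h5 := (Finset.card_le_card h4).trans Finset.card_image_le
        simpa [Int.card_Ico] using h5
      calc ((box m₁ m₂ a).filter (· ∈ R)).card ≤ (box m₁ m₂ a).card := Finset.card_filter_le _ _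
        _ = m₁ * m₂ := card_box m₁ m₂ a
        _ ≤ (m₁ + m₂) * (inner R m₁ m₂ a).card := by
          rw [mul_comm m₁ m₂]
          exact Nat.mul_le_mul (Nat.le_add_left _ _) h3
    · right
      push Not at h2
      refine (card_le_rows (Finset.filter_subset _ _) ?_).trans
        (Nat.mul_le_mul_right _ (Nat.le_add_right _ _))
      intro p hp
      rw [Finset.mem_filter] at hp
      obtain ⟨x, hx1, hx2⟩ := h2 p.2 (mem_box.1 hp.1).2.1 (mem_box.1 hp.1).2.2
      obtain ⟨q, hq1, hq2⟩ := row_dart (x' := p.1) hx1 hp.1 hx2 hp.2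
      exact ⟨q, hq1, hq2⟩
  · left
    push Not at h1
    refine (card_le_rows (Finset.filter_subset _ _) ?_).trans
      (Nat.mul_le_mul_right _ (Nat.le_add_right _ _))
    intro p hp
    rw [Finset.mem_filter] at hp
    obtain ⟨x, hx1, hx2⟩ := h1 p.2 (mem_box.1 hp.1).2.1 (mem_box.1 hp.1).2.2
    obtain ⟨q, hq1, hq2⟩ := row_dart (x := p.1) hp.1 hx1 hp.2 hx2
    exact ⟨q, hq1, hq2⟩

/-- the corner of the block with index `i` of the grid of sides `m₁`, `m₂` with origin `o` -/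
def corner (m₁ m₂ : ℕ) (o i : ℤ × ℤ) : ℤ × ℤ := (o.1 + m₁ * i.1, o.2 + m₂ * i.2)

/-- the index of the block which contains `x` -/
def idx (m₁ m₂ : ℕ) (o x : ℤ × ℤ) : ℤ × ℤ := ((x.1 - o.1) / m₁, (x.2 - o.2) / m₂)

theorem idx_eq_iff {m₁ m₂ : ℕ} (h1 : 0 < m₁) (h2 : 0 < m₂) {o x i : ℤ × ℤ} :
    idx m₁ m₂ o x = i ↔ x ∈ box m₁ m₂ (corner m₁ m₂ o i) := by
  have key : ∀ m : ℕ, 0 < m → ∀ u v : ℤ, u / (m : ℤ) = v ↔ m * v ≤ u ∧ u < m * v + m := by
    intro m hm u v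
    have hm' : (0 : ℤ) < m := by exact_mod_cast hm
    rw [Int.ediv_eq_iff_of_pos hm']
    constructor
    · rintro ⟨h1, h2⟩
      constructor
      · linarith [mul_comm v (m : ℤ)]
      · nlinarith [mul_comm v (m : ℤ)]
    · rintro ⟨h1, h2⟩
      constructor
      · linarith [mul_comm v (m : ℤ)]
      · nlinarith [mul_comm v (m : ℤ)]
  rw [mem_box, Prod.ext_iff]
  simp only [idx, corner]
  rw [key m₁ h1, key m₂ h2]
  constructor
  · rintro ⟨⟨h1, h2⟩, h3, h4⟩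
    exact ⟨⟨by linarith, by linarith⟩, by linarith, by linarith⟩
  · rintro ⟨⟨h1, h2⟩, h3, h4⟩
    exact ⟨⟨by linarith, by linarith⟩, by linarith, by linarith⟩

/-- one level: a bounded function with sum zero on every block -/
theorem level_bound {g : ℤ × ℤ → ℝ} {M : ℝ} (hM : ∀ x, |g x| ≤ M) {m₁ m₂ : ℕ} (hm₁ : 0 < m₁)
    (hm₂ : 0 < m₂) (o : ℤ × ℤ) (h0 : ∀ i, ∑ x ∈ box m₁ m₂ (corner m₁ m₂ o i), g x = 0)
    (R : Finset (ℤ × ℤ)) :
    |∑ x ∈ R, g x| ≤ M * (((m₁ + m₂ : ℕ) : ℝ) * per R) := by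
  have hM0 : 0 ≤ M := (abs_nonneg _).trans (hM 0)
  have e1 : ∑ x ∈ R, g x
      = ∑ i ∈ R.image (idx m₁ m₂ o), ∑ x ∈ R.filter (fun x => idx m₁ m₂ o x = i), g x := by
    rw [Finset.sum_fiberwise_of_maps_to]
    exact fun x hx => Finset.mem_image_of_mem _ hx
  have e2 : ∀ i, |∑ x ∈ R.filter (fun x => idx m₁ m₂ o x = i), g x|
      ≤ M * (((m₁ + m₂ : ℕ) : ℝ) * ((darts R).filter fun p => idx m₁ m₂ o p.1 = i).card) := by
    intro i
    have f1 : R.filter (fun x => idx m₁ m₂ o x = i)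
        = (box m₁ m₂ (corner m₁ m₂ o i)).filter (· ∈ R) := by
      ext x
      rw [Finset.mem_filter, Finset.mem_filter, idx_eq_iff hm₁ hm₂]
      exact and_comm
    have f2 : (inner R m₁ m₂ (corner m₁ m₂ o i)).card
        ≤ ((darts R).filter fun p => idx m₁ m₂ o p.1 = i).card := by
      refine Finset.card_le_card ?_
      intro p hp
      rw [mem_inner] at hp
      rw [Finset.mem_filter]
      exact ⟨hp.1, (idx_eq_iff hm₁ hm₂).2 hp.2.1⟩
    have f3 : ∀ A : Finset (ℤ × ℤ), |∑ x ∈ A, g x| ≤ M * A.card := by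
      intro A
      calc |∑ x ∈ A, g x| ≤ ∑ x ∈ A, |g x| := Finset.abs_sum_le_sum_abs _ _
        _ ≤ ∑ _x ∈ A, M := Finset.sum_le_sum fun x _ => hM x
        _ = M * A.card := by rw [Finset.sum_const, nsmul_eq_mul, mul_comm]
    have f4 : ∑ x ∈ (box m₁ m₂ (corner m₁ m₂ o i)).filter (· ∈ R), g x
        = - ∑ x ∈ (box m₁ m₂ (corner m₁ m₂ o i)).filter (· ∉ R), g x := by
      have := Finset.sum_filter_add_sum_filter_not (box m₁ m₂ (corner m₁ m₂ o i)) (· ∈ R) g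
      rw [h0] at this
      linarith
    have f5 : ∀ A : Finset (ℤ × ℤ),
        A.card ≤ (m₁ + m₂) * (inner R m₁ m₂ (corner m₁ m₂ o i)).card →
        |∑ x ∈ A, g x|
          ≤ M * (((m₁ + m₂ : ℕ) : ℝ) * ((darts R).filter fun p => idx m₁ m₂ o p.1 = i).card) := by
      intro A hA
      refine (f3 A).trans (mul_le_mul_of_nonneg_left ?_ hM0)
      have := hA.trans (Nat.mul_le_mul_left (m₁ + m₂) f2)
      exact_mod_cast this
    rw [f1]
    rcases box_iso R m₁ m₂ (corner m₁ m₂ o i) with h | h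
    · exact f5 _ h
    · rw [f4, abs_neg]
      exact f5 _ h
  have e3 : ∑ i ∈ R.image (idx m₁ m₂ o), ((darts R).filter fun p => idx m₁ m₂ o p.1 = i).card
      = (darts R).card := by
    rw [← Finset.card_eq_sum_card_fiberwise]
    intro p hp
    have hp' := mem_darts.1 hp
    exact Finset.mem_image_of_mem _ hp'.1.1
  calc |∑ x ∈ R, g x|
      ≤ ∑ i ∈ R.image (idx m₁ m₂ o), |∑ x ∈ R.filter (fun x => idx m₁ m₂ o x = i), g x| := by
        rw [e1]
        exact Finset.abs_sum_le_sum_abs _ _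
    _ ≤ ∑ i ∈ R.image (idx m₁ m₂ o),
          M * (((m₁ + m₂ : ℕ) : ℝ) * ((darts R).filter fun p => idx m₁ m₂ o p.1 = i).card) :=
        Finset.sum_le_sum fun i _ => e2 i
    _ = M * (((m₁ + m₂ : ℕ) : ℝ) * per R) := by
        rw [← Finset.mul_sum, ← Finset.mul_sum]
        congr 2
        rw [per, ← e3, Nat.cast_sum]

/-! ### the perimeter by right and upper neighbours -/

theorem card_opp (R : Finset (ℤ × ℤ)) (v : ℤ × ℤ) :
    (R.filter fun x => x + -v ∉ R).card ≤ (R.filter fun x => x + v ∉ R).card := by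
  have h1 := Finset.card_filter_add_card_filter_not (s := R) (fun x => x + v ∈ R)
  have h2 := Finset.card_filter_add_card_filter_not (s := R) (fun x => x + -v ∈ R)
  have h3 : (R.filter fun x => x + v ∈ R).card ≤ (R.filter fun x => x + -v ∈ R).card := by
    refine Finset.card_le_card_of_injOn (fun x => x + v) ?_ ?_
    · intro x hx
      rw [Finset.mem_coe, Finset.mem_filter] at hx ⊢
      exact ⟨hx.2, by simpa using hx.1⟩
    · intro x _ y _ hxy
      exact add_right_cancel hxy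
  omega

theorem per_le (R : Finset (ℤ × ℤ)) :
    (per R : ℝ) ≤ 2 * (((R.filter (fun x => x + (1, 0) ∉ R)).card : ℝ) +
        (R.filter (fun x => x + (0, 1) ∉ R)).card) := by
  have h1 : ∀ v : ℤ × ℤ, ((darts R).filter fun p => p.2 = v).card
      ≤ (R.filter fun x => x + v ∉ R).card := by
    intro v
    refine Finset.card_le_card_of_injOn (fun p => p.1) ?_ ?_
    · intro p hp
      rw [Finset.mem_coe, Finset.mem_filter, mem_darts] at hp
      rw [Finset.mem_coe, Finset.mem_filter]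
      exact ⟨hp.1.1.1, by rw [← hp.2]; exact hp.1.2⟩
    · intro p hp q hq hpq
      rw [Finset.mem_coe, Finset.mem_filter] at hp hq
      exact Prod.ext hpq (hp.2.trans hq.2.symm)
  have h2 : per R = ∑ v ∈ dirs, ((darts R).filter fun p => p.2 = v).card := by
    rw [per, ← Finset.card_eq_sum_card_fiberwise]
    intro p hp
    exact (mem_darts.1 hp).1.2
  have h3 : per R ≤ ∑ v ∈ dirs, (R.filter fun x => x + v ∉ R).card := by
    rw [h2]
    exact Finset.sum_le_sum fun v _ => h1 v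
  have h4 : ∑ v ∈ dirs, (R.filter fun x => x + v ∉ R).card
      = (R.filter fun x => x + (1, 0) ∉ R).card + ((R.filter fun x => x + (-1, 0) ∉ R).card +
        ((R.filter fun x => x + (0, 1) ∉ R).card + (R.filter fun x => x + (0, -1) ∉ R).card)) := by
    rw [dirs, Finset.sum_insert (by decide), Finset.sum_insert (by decide),
      Finset.sum_insert (by decide), Finset.sum_singleton]
  have h5 := card_opp R (1, 0)
  have h6 := card_opp R (0, 1)
  have e5 : (-(1, 0) : ℤ × ℤ) = (-1, 0) := by decide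
  have e6 : (-(0, 1) : ℤ × ℤ) = (0, -1) := by decide
  rw [e5] at h5
  rw [e6] at h6
  have h7 : per R ≤ 2 * ((R.filter fun x => x + (1, 0) ∉ R).card +
      (R.filter fun x => x + (0, 1) ∉ R).card) := by
    rw [h4] at h3
    omega
  exact_mod_cast h7

/-! ### nested grids -/

variable {A B : ℕ}

theorem idx_nested {n : ℕ} (hA : 0 < A) (hB : 0 < B) {o o' : ℤ × ℤ}
    (h1 : (A : ℤ) * 4 ^ n ∣ o'.1 - o.1) (h2 : (B : ℤ) * 4 ^ n ∣ o'.2 - o.2) {x y : ℤ × ℤ}
    (h : idx (A * 4 ^ n) (B * 4 ^ n) o x = idx (A * 4 ^ n) (B * 4 ^ n) o y) :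
    idx (A * 4 ^ (n + 1)) (B * 4 ^ (n + 1)) o' x = idx (A * 4 ^ (n + 1)) (B * 4 ^ (n + 1)) o' y := by
  have key : ∀ (m : ℕ), 0 < m → ∀ u v e : ℤ, v = u + (m : ℤ) * 4 ^ n * e → ∀ t : ℤ,
      (t - v) / ((m * 4 ^ (n + 1) : ℕ) : ℤ) = ((t - u) / ((m * 4 ^ n : ℕ) : ℤ) + -e) / 4 := by
    intro m hm u v e hv t
    have hm' : (0 : ℤ) < m := by exact_mod_cast hm
    have hp : (m : ℤ) * 4 ^ n ≠ 0 := by positivity
    have hp0 : (0 : ℤ) ≤ (m : ℤ) * 4 ^ n := by positivity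
    have e1 : t - v = (t - u) + (m : ℤ) * 4 ^ n * (-e) := by rw [hv]; ring
    have e2 : ((m * 4 ^ (n + 1) : ℕ) : ℤ) = (m : ℤ) * 4 ^ n * 4 := by push_cast; ring
    have e3 : ((m * 4 ^ n : ℕ) : ℤ) = (m : ℤ) * 4 ^ n := by push_cast; ring
    rw [e2, e3, ← Int.ediv_ediv_of_nonneg hp0, e1, Int.add_mul_ediv_left _ _ hp]
  obtain ⟨e, he⟩ := h1
  obtain ⟨e', he'⟩ := h2
  rw [idx, idx, Prod.mk.injEq] at h
  rw [idx, idx, Prod.mk.injEq]
  rw [key A hA o.1 o'.1 e (by linarith) x.1, key A hA o.1 o'.1 e (by linarith) y.1,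
    key B hB o.2 o'.2 e' (by linarith) x.2, key B hB o.2 o'.2 e' (by linarith) y.2, h.1, h.2]
  exact ⟨rfl, rfl⟩

/-- the block of level `n` which contains `x` -/
noncomputable def blk (A B : ℕ) (o : ℕ → ℤ × ℤ) (n : ℕ) (x : ℤ × ℤ) : Finset (ℤ × ℤ) :=
  box (A * 4 ^ n) (B * 4 ^ n)
    (corner (A * 4 ^ n) (B * 4 ^ n) (o n) (idx (A * 4 ^ n) (B * 4 ^ n) (o n) x))

theorem mem_blk (hA : 0 < A) (hB : 0 < B) {o : ℕ → ℤ × ℤ} {n : ℕ} {x y : ℤ × ℤ} :
    y ∈ blk A B o n x ↔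
      idx (A * 4 ^ n) (B * 4 ^ n) (o n) y = idx (A * 4 ^ n) (B * 4 ^ n) (o n) x := by
  rw [blk, ← idx_eq_iff (by positivity) (by positivity)]

theorem card_blk (o : ℕ → ℤ × ℤ) (n : ℕ) (x : ℤ × ℤ) :
    (blk A B o n x).card = A * B * 16 ^ n := by
  rw [blk, card_box]
  have : (16 : ℕ) ^ n = 4 ^ n * 4 ^ n := by
    rw [← mul_pow]
    norm_num
  rw [this]
  ring

/-- the average of `f` over the block of level `n` which contains `x` -/
noncomputable def dev (A B : ℕ) (o : ℕ → ℤ × ℤ) (f : ℤ × ℤ → ℝ) (n : ℕ) (x : ℤ × ℤ) : ℝ :=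
  (∑ y ∈ blk A B o n x, f y) / ((A : ℝ) * B * 16 ^ n)

/-- the sum of the averages of level `n` over a union of blocks of level `n` -/
theorem sum_dev (hA : 0 < A) (hB : 0 < B) {o : ℕ → ℤ × ℤ} (f : ℤ × ℤ → ℝ) (n : ℕ)
    {S : Finset (ℤ × ℤ)} (hS : ∀ x ∈ S, blk A B o n x ⊆ S) :
    ∑ x ∈ S, dev A B o f n x = ∑ x ∈ S, f x := by
  have hA' : (0 : ℝ) < A := by exact_mod_cast hA
  have hB' : (0 : ℝ) < B := by exact_mod_cast hB
  have e1 : ∑ x ∈ S, ∑ y ∈ blk A B o n x, f y = ∑ x ∈ S, f x * ((A : ℝ) * B * 16 ^ n) := by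
    calc ∑ x ∈ S, ∑ y ∈ blk A B o n x, f y
        = ∑ x ∈ S, ∑ y ∈ S, if idx (A * 4 ^ n) (B * 4 ^ n) (o n) y =
            idx (A * 4 ^ n) (B * 4 ^ n) (o n) x then f y else 0 := by
          refine Finset.sum_congr rfl fun x hx => ?_
          rw [← Finset.sum_filter]
          refine Finset.sum_congr ?_ fun _ _ => rfl
          ext y
          rw [Finset.mem_filter, mem_blk hA hB]
          constructor
          · exact fun h => ⟨hS x hx ((mem_blk hA hB).2 h), h⟩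
          · exact fun h => h.2
      _ = ∑ y ∈ S, ∑ x ∈ S, if idx (A * 4 ^ n) (B * 4 ^ n) (o n) y =
            idx (A * 4 ^ n) (B * 4 ^ n) (o n) x then f y else 0 := Finset.sum_comm
      _ = ∑ y ∈ S, f y * ((A : ℝ) * B * 16 ^ n) := by
          refine Finset.sum_congr rfl fun y hy => ?_
          rw [← Finset.sum_filter, Finset.sum_const, nsmul_eq_mul]
          have e2 : S.filter (fun x => idx (A * 4 ^ n) (B * 4 ^ n) (o n) y =
              idx (A * 4 ^ n) (B * 4 ^ n) (o n) x) = blk A B o n y := by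
            ext x
            rw [Finset.mem_filter, mem_blk hA hB]
            constructor
            · exact fun h => h.2.symm
            · exact fun h => ⟨hS y hy ((mem_blk hA hB).2 h), h.symm⟩
          rw [e2, card_blk]
          push_cast
          ring
  have h16 : (A : ℝ) * B * 16 ^ n ≠ 0 := by positivity
  calc ∑ x ∈ S, dev A B o f n x
      = (∑ x ∈ S, ∑ y ∈ blk A B o n x, f y) / ((A : ℝ) * B * 16 ^ n) := by
        simp only [dev]
        rw [Finset.sum_div]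
    _ = ∑ x ∈ S, f x := by
        rw [e1, ← Finset.sum_mul, mul_div_assoc, div_self h16, mul_one]

/-- telescoping, with the perimeter -/
theorem telescope_per (hA : 0 < A) (hB : 0 < B) {o : ℕ → ℤ × ℤ}
    (ho : ∀ n, (A : ℤ) * 4 ^ n ∣ (o (n + 1)).1 - (o n).1 ∧
      (B : ℤ) * 4 ^ n ∣ (o (n + 1)).2 - (o n).2)
    {f : ℤ × ℤ → ℝ} {C κ : ℝ} (hC : 0 ≤ C) (hκ : 0 ≤ κ) (hκ4 : κ < 4) (hf : ∀ x, |f x| ≤ C)
    (h : ∀ (n : ℕ) (i : ℤ × ℤ),
      |∑ x ∈ box (A * 4 ^ n) (B * 4 ^ n) (corner (A * 4 ^ n) (B * 4 ^ n) (o n) i), f x|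
        ≤ C * κ ^ n)
    (R : Finset (ℤ × ℤ)) :
    |∑ x ∈ R, f x| ≤ (2 * C * (A + B) + 20 * C * (A + B) / (4 - κ)) * per R := by
  have hA' : (1 : ℝ) ≤ A := by exact_mod_cast hA
  have hB' : (1 : ℝ) ≤ B := by exact_mod_cast hB
  -- the averages are small
  have hdev : ∀ n x, |dev A B o f n x| ≤ C * (κ / 16) ^ n := by
    intro n x
    have hAB : (1 : ℝ) ≤ A * B := one_le_mul_of_one_le_of_one_le hA' hB'
    have h16 : (0 : ℝ) < 16 ^ n := by positivity
    have h16' : (0 : ℝ) < (A : ℝ) * B * 16 ^ n := by positivity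
    rw [dev, abs_div, abs_of_pos h16', div_le_iff₀ h16']
    refine (h n _).trans ?_
    have e : C * (κ / 16) ^ n * ((A : ℝ) * B * 16 ^ n) = C * κ ^ n * ((A : ℝ) * B) := by
      rw [div_pow]
      field_simp
    rw [e]
    have : (0 : ℝ) ≤ C * κ ^ n := by positivity
    nlinarith
  have hsub' : ∀ n i, ∀ x ∈ box (A * 4 ^ n) (B * 4 ^ n)
      (corner (A * 4 ^ n) (B * 4 ^ n) (o n) i),
      blk A B o n x ⊆ box (A * 4 ^ n) (B * 4 ^ n)
        (corner (A * 4 ^ n) (B * 4 ^ n) (o n) i) := by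
    intro n i x hx y hy
    rw [← idx_eq_iff (by positivity) (by positivity)] at hx ⊢
    rw [← hx]
    exact (mem_blk hA hB).1 hy
  -- the first step
  have hfirst : |∑ x ∈ R, (f x - dev A B o f 0 x)| ≤ 2 * C * (A + B) * per R := by
    have hM : ∀ x, |f x - dev A B o f 0 x| ≤ 2 * C := by
      intro x
      refine (abs_sub _ _).trans ?_
      have h1 := hf x
      have h2 := hdev 0 x
      rw [pow_zero, mul_one] at h2
      linarith
    have h0 : ∀ i, ∑ x ∈ box (A * 4 ^ 0) (B * 4 ^ 0)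
        (corner (A * 4 ^ 0) (B * 4 ^ 0) (o 0) i), (f x - dev A B o f 0 x) = 0 := by
      intro i
      rw [Finset.sum_sub_distrib, sum_dev hA hB f 0 (hsub' 0 i), sub_self]
    have h1 := level_bound hM (m₁ := A * 4 ^ 0) (m₂ := B * 4 ^ 0) (by positivity)
      (by positivity) (o 0) h0 R
    refine h1.trans (le_of_eq ?_)
    push_cast
    ring
  -- one step
  have hstep : ∀ n, |∑ x ∈ R, (dev A B o f n x - dev A B o f (n + 1) x)|
      ≤ 5 * C * (A + B) * per R * (κ / 4) ^ n := by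
    intro n
    have hM : ∀ x, |dev A B o f n x - dev A B o f (n + 1) x| ≤ 5 / 4 * C * (κ / 16) ^ n := by
      intro x
      refine (abs_sub _ _).trans ?_
      have h1 := hdev n x
      have h2 := hdev (n + 1) x
      have h3 : C * (κ / 16) ^ (n + 1) ≤ 1 / 4 * (C * (κ / 16) ^ n) := by
        have h4 : (0 : ℝ) ≤ C * (κ / 16) ^ n := by positivity
        rw [pow_succ]
        nlinarith
      linarith
    have hsub : ∀ i, ∀ x ∈ box (A * 4 ^ (n + 1)) (B * 4 ^ (n + 1))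
        (corner (A * 4 ^ (n + 1)) (B * 4 ^ (n + 1)) (o (n + 1)) i),
        blk A B o n x ⊆ box (A * 4 ^ (n + 1)) (B * 4 ^ (n + 1))
          (corner (A * 4 ^ (n + 1)) (B * 4 ^ (n + 1)) (o (n + 1)) i) := by
      intro i x hx y hy
      rw [← idx_eq_iff (by positivity) (by positivity)] at hx ⊢
      rw [← hx]
      exact idx_nested hA hB (ho n).1 (ho n).2 ((mem_blk hA hB).1 hy)
    have h0 : ∀ i, ∑ x ∈ box (A * 4 ^ (n + 1)) (B * 4 ^ (n + 1))
        (corner (A * 4 ^ (n + 1)) (B * 4 ^ (n + 1)) (o (n + 1)) i),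
        (dev A B o f n x - dev A B o f (n + 1) x) = 0 := by
      intro i
      rw [Finset.sum_sub_distrib, sum_dev hA hB f n (hsub i),
        sum_dev hA hB f (n + 1) (hsub' (n + 1) i), sub_self]
    have h1 := level_bound hM (m₁ := A * 4 ^ (n + 1)) (m₂ := B * 4 ^ (n + 1)) (by positivity)
      (by positivity) (o (n + 1)) h0 R
    refine h1.trans (le_of_eq ?_)
    have e : (κ / 4) ^ n = (κ / 16) ^ n * 4 ^ n := by
      rw [← mul_pow]
      congr 1
      ring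
    rw [e]
    push_cast
    rw [pow_succ]
    ring
  -- the sum of the steps
  have hsum : ∀ N, |∑ x ∈ R, dev A B o f 0 x - ∑ x ∈ R, dev A B o f N x|
      ≤ 20 * C * (A + B) / (4 - κ) * per R := by
    intro N
    have hr0 : 0 ≤ κ / 4 := by positivity
    have hr1 : κ / 4 < 1 := by linarith
    have e : ∑ x ∈ R, dev A B o f 0 x - ∑ x ∈ R, dev A B o f N x
        = ∑ n ∈ Finset.range N, ∑ x ∈ R, (dev A B o f n x - dev A B o f (n + 1) x) := by
      rw [Finset.sum_congr rfl fun n _ =>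
        (Finset.sum_sub_distrib (s := R) (fun x => dev A B o f n x)
          fun x => dev A B o f (n + 1) x)]
      rw [Finset.sum_range_sub' (fun n => ∑ x ∈ R, dev A B o f n x)]
    rw [e]
    calc |∑ n ∈ Finset.range N, ∑ x ∈ R, (dev A B o f n x - dev A B o f (n + 1) x)|
        ≤ ∑ n ∈ Finset.range N, |∑ x ∈ R, (dev A B o f n x - dev A B o f (n + 1) x)| :=
          Finset.abs_sum_le_sum_abs _ _
      _ ≤ ∑ n ∈ Finset.range N, 5 * C * (A + B) * per R * (κ / 4) ^ n :=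
          Finset.sum_le_sum fun n _ => hstep n
      _ = 5 * C * (A + B) * per R * ∑ n ∈ Finset.range N, (κ / 4) ^ n := by
          rw [Finset.mul_sum]
      _ ≤ 5 * C * (A + B) * per R * (1 - κ / 4)⁻¹ := by
          refine mul_le_mul_of_nonneg_left ?_ (by positivity)
          rw [← tsum_geometric_of_lt_one hr0 hr1]
          exact (summable_geometric_of_lt_one hr0 hr1).sum_le_tsum _ fun n _ => by positivity
      _ = 20 * C * (A + B) / (4 - κ) * per R := by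
          have h4 : (4 : ℝ) - κ ≠ 0 := by linarith
          have h5 : (1 : ℝ) - κ / 4 ≠ 0 := by linarith
          field_simp
          ring
  have hfin : ∀ N, |∑ x ∈ R, f x|
      ≤ (2 * C * (A + B) + 20 * C * (A + B) / (4 - κ)) * per R
        + R.card * (C * (κ / 16) ^ N) := by
    intro N
    have e2 : |∑ x ∈ R, dev A B o f N x| ≤ R.card * (C * (κ / 16) ^ N) := by
      calc |∑ x ∈ R, dev A B o f N x| ≤ ∑ x ∈ R, |dev A B o f N x| :=
            Finset.abs_sum_le_sum_abs _ _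
        _ ≤ ∑ _x ∈ R, C * (κ / 16) ^ N := Finset.sum_le_sum fun x _ => hdev N x
        _ = R.card * (C * (κ / 16) ^ N) := by rw [Finset.sum_const, nsmul_eq_mul]
    have e3 := hsum N
    rw [Finset.sum_sub_distrib] at hfirst
    have e4 : ∑ x ∈ R, f x
        = (∑ x ∈ R, f x - ∑ x ∈ R, dev A B o f 0 x)
          + (∑ x ∈ R, dev A B o f 0 x - ∑ x ∈ R, dev A B o f N x)
          + ∑ x ∈ R, dev A B o f N x := by ring
    rw [e4]
    refine (abs_add_three _ _ _).trans ?_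
    rw [add_mul]
    linarith
  have hlim : Filter.Tendsto
      (fun N : ℕ => (2 * C * (A + B) + 20 * C * (A + B) / (4 - κ)) * (per R : ℝ)
        + (R.card : ℝ) * (C * (κ / 16) ^ N))
      Filter.atTop (nhds ((2 * C * (A + B) + 20 * C * (A + B) / (4 - κ)) * (per R : ℝ)
        + (R.card : ℝ) * (C * 0))) := by
    refine Filter.Tendsto.add tendsto_const_nhds ?_
    refine Filter.Tendsto.const_mul _ (Filter.Tendsto.const_mul _ ?_)
    exact tendsto_pow_atTop_nhds_zero_of_lt_one (by positivity) (by linarith)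
  have := ge_of_tendsto' hlim hfin
  simpa using this

end T66

open Finset

/-- PIECE A. Telescoping over nested blocks `a 4^n × b 4^n` (corner `o n`). -/
theorem telescope (a b : ℤ) (ha : 0 < a) (hb : 0 < b) (κ C : ℝ) (h0 : 1 < κ) (h4 : κ < 4)
    (hC : 0 ≤ C) : ∃ K : ℝ, 0 ≤ K ∧ ∀ (G : ℤ × ℤ → ℝ) (o : ℕ → ℤ × ℤ), (∀ x, |G x| ≤ C) →
    (∀ n, a * 4 ^ n ∣ (o (n + 1)).1 - (o n).1 ∧ b * 4 ^ n ∣ (o (n + 1)).2 - (o n).2) →
    (∀ (n : ℕ) (X Y : ℤ), |∑ u ∈ Finset.Ico 0 (a * 4 ^ n) ×ˢ Finset.Ico 0 (b * 4 ^ n),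
      G ((o n).1 + a * 4 ^ n * X + u.1, (o n).2 + b * 4 ^ n * Y + u.2)| ≤ C * κ ^ n) →
    ∀ R : Finset (ℤ × ℤ), |∑ x ∈ R, G x| ≤
      K * (((R.filter (fun x => x + (1, 0) ∉ R)).card : ℝ) +
        (R.filter (fun x => x + (0, 1) ∉ R)).card) := by
  obtain ⟨A, rfl⟩ := Int.eq_ofNat_of_zero_le ha.le
  obtain ⟨B, rfl⟩ := Int.eq_ofNat_of_zero_le hb.le
  have hA : 0 < A := by exact_mod_cast ha
  have hB : 0 < B := by exact_mod_cast hb
  have h4' : 0 < 4 - κ := by linarith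
  have hK : 0 ≤ 2 * C * ((A : ℝ) + B) + 20 * C * (A + B) / (4 - κ) := by positivity
  refine ⟨(2 * C * ((A : ℝ) + B) + 20 * C * (A + B) / (4 - κ)) * 2, by positivity, ?_⟩
  intro G o hG ho hs R
  refine (T66.telescope_per hA hB ho hC (by linarith) h4 hG ?_ R).trans ?_
  · intro n i
    have h1 := hs n i.1 i.2
    have h2 : ∑ x ∈ T66.box (A * 4 ^ n) (B * 4 ^ n)
          (T66.corner (A * 4 ^ n) (B * 4 ^ n) (o n) i), G x
        = ∑ u ∈ Finset.Ico 0 ((A : ℤ) * 4 ^ n) ×ˢ Finset.Ico 0 ((B : ℤ) * 4 ^ n),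
          G ((o n).1 + A * 4 ^ n * i.1 + u.1, (o n).2 + B * 4 ^ n * i.2 + u.2) := by
      symm
      refine Finset.sum_nbij'
        (fun u => ((o n).1 + A * 4 ^ n * i.1 + u.1, (o n).2 + B * 4 ^ n * i.2 + u.2))
        (fun x => (x.1 - ((o n).1 + A * 4 ^ n * i.1), x.2 - ((o n).2 + B * 4 ^ n * i.2)))
        ?_ ?_ ?_ ?_ ?_
      · intro u hu
        rw [Finset.mem_product, Finset.mem_Ico, Finset.mem_Ico] at hu
        rw [T66.mem_box]
        simp only [T66.corner]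
        push_cast
        exact ⟨⟨by linarith [hu.1.1], by linarith [hu.1.2]⟩, by linarith [hu.2.1],
          by linarith [hu.2.2]⟩
      · intro x hx
        rw [T66.mem_box] at hx
        simp only [T66.corner] at hx
        push_cast at hx
        rw [Finset.mem_product, Finset.mem_Ico, Finset.mem_Ico]
        exact ⟨⟨by linarith [hx.1.1], by linarith [hx.1.2]⟩, by linarith [hx.2.1],
          by linarith [hx.2.2]⟩
      · intro u _
        exact Prod.ext (by simp) (by simp)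
      · intro x _
        exact Prod.ext (by simp) (by simp)
      · intro u _
        rfl
    rw [h2]
    exact h1
  · have h5 := mul_le_mul_of_nonneg_left (T66.per_le R) hK
    rw [← mul_assoc] at h5
    exact h5

end Pool.Agent.Helper42.Mk2
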