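import Pool.Agent.Helper42.Mk2.Cnt
import Pool.Agent.Helper42.Mk2.Dens
import Pool.Agent.Helper42.Mk2.Desub
import Pool.Agent.Helper42.Mk2.Tele

set_option autoImplicit false

namespace Pool.Agent.Helper42.Mk2

open Finset

theorem block_sum69 (k : ℤ) (hk : 0 < k) (D : Finset (ℤ × ℤ)) (f : ℤ × ℤ → Lab) (d : ℝ)
    (t : ℤ → ℤ → W) (n : ℕ) (s : ℤ → ℤ → W) (p : ℤ × ℤ)
    (hts : ∀ x y, t x y = upn n s (x + p.1) (y + p.2)) (X Y : ℤ) :
    (open scoped Classical in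
    ∑ u ∈ Finset.Ico 0 (k * MM * 4 ^ n) ×ˢ Finset.Ico 0 (k * 4 ^ n),
      ((if ∀ δ ∈ D, enc k t (-(k * MM * p.1) + k * MM * 4 ^ n * X + u.1 + δ.1)
        (-(k * p.2) + k * 4 ^ n * Y + u.2 + δ.2) = f δ then (1 : ℝ) else 0) - d)) =
    cnt k D f n s X Y - d * ((k * MM * k : ℤ) : ℝ) * 16 ^ n := by
  classical
  have hMM := MM_pos
  have h1 : ∀ x y : ℤ, enc k t x y = enc k (upn n s) (x + k * MM * p.1) (y + k * p.2) := by
    intro x y
    rw [enc_shift hk]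
    have : t = fun a b => upn n s (a + p.1) (b + p.2) := by
      funext a b
      exact hts a b
    rw [this]
  rw [Finset.sum_sub_distrib, Finset.sum_const, Finset.card_product, Int.card_Ico, Int.card_Ico,
    nsmul_eq_mul]
  have h2 : (∑ u ∈ Finset.Ico 0 (k * MM * 4 ^ n) ×ˢ Finset.Ico 0 (k * 4 ^ n),
      (if ∀ δ ∈ D, enc k t (-(k * MM * p.1) + k * MM * 4 ^ n * X + u.1 + δ.1)
        (-(k * p.2) + k * 4 ^ n * Y + u.2 + δ.2) = f δ then (1 : ℝ) else 0)) =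
      cnt k D f n s X Y := by
    unfold cnt
    rw [Finset.card_filter, Nat.cast_sum]
    apply Finset.sum_congr rfl
    intro u _
    have h3 : ∀ δ : ℤ × ℤ, enc k t (-(k * MM * p.1) + k * MM * 4 ^ n * X + u.1 + δ.1)
        (-(k * p.2) + k * 4 ^ n * Y + u.2 + δ.2) =
        enc k (upn n s) (k * MM * 4 ^ n * X + u.1 + δ.1) (k * 4 ^ n * Y + u.2 + δ.2) := by
      intro δ
      rw [h1]
      congr 1 <;> ring
    simp only [h3]
    push_cast
    rfl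
  rw [h2]
  congr 1
  have e1 : (0 : ℤ) ≤ k * MM * 4 ^ n := by positivity
  have e2 : (0 : ℤ) ≤ k * 4 ^ n := by positivity
  have e3 : (((k * MM * 4 ^ n - 0).toNat : ℕ) : ℝ) = ((k * MM * 4 ^ n : ℤ) : ℝ) := by
    rw [sub_zero, ← Int.cast_natCast, Int.toNat_of_nonneg e1]
  have e4 : (((k * 4 ^ n - 0).toNat : ℕ) : ℝ) = ((k * 4 ^ n : ℤ) : ℝ) := by
    rw [sub_zero, ← Int.cast_natCast, Int.toNat_of_nonneg e2]
  rw [Nat.cast_mul, e3, e4]
  push_cast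
  have e5 : (16 : ℝ) ^ n = 4 ^ n * 4 ^ n := by
    rw [← mul_pow]
    norm_num
  rw [e5]
  ring

theorem cnt_le69 (k : ℤ) (hk : 0 < k) (D : Finset (ℤ × ℤ)) (f : ℤ × ℤ → Lab) (n : ℕ)
    (s : ℤ → ℤ → W) (X Y : ℤ) :
    0 ≤ cnt k D f n s X Y ∧ cnt k D f n s X Y ≤ ((k * MM * k : ℤ) : ℝ) * 16 ^ n := by
  classical
  have hMM := MM_pos
  refine ⟨by unfold cnt; positivity, ?_⟩
  unfold cnt
  have h1 := Finset.card_filter_le (Finset.Ico 0 (k * MM * 4 ^ n) ×ˢ Finset.Ico 0 (k * 4 ^ n))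
    (fun u => ∀ δ ∈ D, enc k (upn n s) (k * MM * 4 ^ n * X + u.1 + δ.1)
      (k * 4 ^ n * Y + u.2 + δ.2) = f δ)
  rw [Finset.card_product, Int.card_Ico, Int.card_Ico] at h1
  refine le_trans (Nat.cast_le.2 h1) (le_of_eq ?_)
  have e1 : (0 : ℤ) ≤ k * MM * 4 ^ n := by positivity
  have e2 : (0 : ℤ) ≤ k * 4 ^ n := by positivity
  have e3 : (((k * MM * 4 ^ n - 0).toNat : ℕ) : ℝ) = ((k * MM * 4 ^ n : ℤ) : ℝ) := by
    rw [sub_zero, ← Int.cast_natCast, Int.toNat_of_nonneg e1]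
  have e4 : (((k * 4 ^ n - 0).toNat : ℕ) : ℝ) = ((k * 4 ^ n : ℤ) : ℝ) := by
    rw [sub_zero, ← Int.cast_natCast, Int.toNat_of_nonneg e2]
  rw [Nat.cast_mul, e3, e4]
  push_cast
  have e5 : (16 : ℝ) ^ n = 4 ^ n * 4 ^ n := by
    rw [← mul_pow]
    norm_num
  rw [e5]
  ring

open scoped Classical in
/-- PIECE E2 (from cnt_eq, density, hier, telescope). -/
theorem pattern_core (k : ℤ) (hk : 0 < k) (D : Finset (ℤ × ℤ)) (f : ℤ × ℤ → Lab)
    (hD : ∀ δ ∈ D, 0 ≤ δ.1 ∧ 0 ≤ δ.2) :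
    ∃ d C : ℝ, 0 ≤ C ∧ ∀ t, Val t → ∀ R : Finset (ℤ × ℤ),
      |((R.filter (fun x => ∀ δ ∈ D, enc k t (x.1 + δ.1) (x.2 + δ.2) = f δ)).card : ℝ)
        - d * R.card| ≤ C * (((R.filter (fun x => x + (1, 0) ∉ R)).card : ℝ) +
        (R.filter (fun x => x + (0, 1) ∉ R)).card) := by
  have hMM := MM_pos
  obtain ⟨m, F, hF⟩ := cnt_eq k hk D f hD
  obtain ⟨κ, hκ3, hκ4, hdens⟩ := density
  obtain ⟨d0, C0, hC0, hd⟩ := hdens F
  have hApos : (0 : ℝ) < ((k * MM * k : ℤ) : ℝ) := by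
    have : (0 : ℤ) < k * MM * k := by positivity
    exact_mod_cast this
  obtain ⟨A, hA⟩ : ∃ A : ℝ, A = ((k * MM * k : ℤ) : ℝ) := ⟨_, rfl⟩
  rw [← hA] at hApos
  obtain ⟨d, hdd⟩ : ∃ d : ℝ, d = d0 / (A * 16 ^ m) := ⟨_, rfl⟩
  have hdA : d * A * 16 ^ m = d0 := by
    rw [hdd]
    field_simp
  have habs : 0 ≤ |d| := abs_nonneg d
  have h16 : (1 : ℝ) ≤ 16 ^ m := one_le_pow₀ (by norm_num)
  have hC1 : 0 ≤ C0 + (1 + |d|) * (A * 16 ^ m + 1) := by positivity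
  obtain ⟨K, hK0, hK⟩ := telescope (k * MM) k (by positivity) hk κ
    (C0 + (1 + |d|) * (A * 16 ^ m + 1)) (by linarith) hκ4 hC1
  refine ⟨d, K, hK0, ?_⟩
  intro t ht R
  obtain ⟨T, p, hp0, hT, hdiv, htp⟩ := hier ht
  have hind : ∀ x : ℤ × ℤ, |(if ∀ δ ∈ D, enc k t (x.1 + δ.1) (x.2 + δ.2) = f δ then (1 : ℝ)
      else 0) - d| ≤ 1 + |d| := by
    intro x
    refine le_trans (abs_sub _ _) ?_
    have : |(if ∀ δ ∈ D, enc k t (x.1 + δ.1) (x.2 + δ.2) = f δ then (1 : ℝ) else 0)| ≤ 1 := by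
      split_ifs <;> simp
    linarith
  have key := hK (fun x => (if ∀ δ ∈ D, enc k t (x.1 + δ.1) (x.2 + δ.2) = f δ then (1 : ℝ)
      else 0) - d) (fun n => (-(k * MM * (p n).1), -(k * (p n).2))) ?_ ?_ ?_ R
  · refine le_trans (le_of_eq ?_) key
    congr 1
    rw [Finset.sum_sub_distrib, Finset.sum_const, nsmul_eq_mul, Finset.card_filter, Nat.cast_sum]
    congr 1
    · apply Finset.sum_congr rfl
      intro x _
      push_cast
      rfl
    · ring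
  · intro x
    refine le_trans (hind x) ?_
    have h5 : (1 : ℝ) ≤ A * 16 ^ m + 1 := by
      have : 0 ≤ A * 16 ^ m := by positivity
      linarith
    nlinarith
  · intro n
    obtain ⟨⟨c1, hc1⟩, ⟨c2, hc2⟩⟩ := hdiv n
    refine ⟨⟨-c1, ?_⟩, ⟨-c2, ?_⟩⟩
    · show -(k * MM * (p (n + 1)).1) - -(k * MM * (p n).1) = k * MM * 4 ^ n * -c1
      have : (p (n + 1)).1 = (p n).1 + 4 ^ n * c1 := by linarith
      rw [this]
      ring
    · show -(k * (p (n + 1)).2) - -(k * (p n).2) = k * 4 ^ n * -c2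
      have : (p (n + 1)).2 = (p n).2 + 4 ^ n * c2 := by linarith
      rw [this]
      ring
  · intro n X Y
    have hb := block_sum69 k hk D f d t n (T n) (p n) (htp n) X Y
    rw [← hA] at hb
    show |∑ u ∈ Finset.Ico 0 (k * MM * 4 ^ n) ×ˢ Finset.Ico 0 (k * 4 ^ n),
      ((if ∀ δ ∈ D, enc k t (-(k * MM * (p n).1) + k * MM * 4 ^ n * X + u.1 + δ.1)
        (-(k * (p n).2) + k * 4 ^ n * Y + u.2 + δ.2) = f δ then (1 : ℝ) else 0) - d)| ≤ _
    rw [hb]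
    have hκn : (1 : ℝ) ≤ κ ^ n := one_le_pow₀ (by linarith)
    by_cases hn : m ≤ n
    · obtain ⟨j, rfl⟩ := Nat.exists_eq_add_of_le hn
      rw [hF j (T (m + j)) X Y]
      have e1 : d * A * 16 ^ (m + j) = d0 * 16 ^ j := by
        rw [pow_add, ← mul_assoc, hdA]
      rw [e1]
      refine le_trans (hd j _) ?_
      have e2 : κ ^ j ≤ κ ^ (m + j) := pow_le_pow_right₀ (by linarith) (by omega)
      have e3 : 0 ≤ (1 + |d|) * (A * 16 ^ m + 1) := by positivity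
      have e4 : C0 * κ ^ j ≤ C0 * κ ^ (m + j) := mul_le_mul_of_nonneg_left e2 hC0
      nlinarith
    · obtain ⟨g1, g2⟩ := cnt_le69 k hk D f n (T n) X Y
      rw [← hA] at g2
      have e1 : (16 : ℝ) ^ n ≤ 16 ^ m := pow_le_pow_right₀ (by norm_num) (by omega)
      have e2 : A * 16 ^ n ≤ A * 16 ^ m := mul_le_mul_of_nonneg_left e1 hApos.le
      have e3 : |cnt k D f n (T n) X Y - d * A * 16 ^ n| ≤ A * 16 ^ n + |d| * (A * 16 ^ n) := by
        refine le_trans (abs_sub _ _) ?_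
        have q1 : |cnt k D f n (T n) X Y| ≤ A * 16 ^ n := by
          rw [abs_of_nonneg g1]
          exact g2
        have q2 : |d * A * 16 ^ n| = |d| * (A * 16 ^ n) := by
          rw [mul_assoc, abs_mul, abs_of_nonneg (by positivity : (0 : ℝ) ≤ A * 16 ^ n)]
        rw [q2]
        linarith
      refine le_trans e3 ?_
      have e4 : A * 16 ^ n + |d| * (A * 16 ^ n) ≤ (1 + |d|) * (A * 16 ^ m + 1) := by
        have q3 : 0 ≤ A * 16 ^ n := by positivity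
        nlinarith
      have e5 : (C0 + (1 + |d|) * (A * 16 ^ m + 1)) * 1 ≤
          (C0 + (1 + |d|) * (A * 16 ^ m + 1)) * κ ^ n := mul_le_mul_of_nonneg_left hκn hC1
      linarith

end Pool.Agent.Helper42.Mk2
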