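import Pool.Agent.Helper42.Mk2.Defs3

set_option autoImplicit false

/-! Piece H: the ring lemma. -/

namespace Pool.Agent.Helper42.Mk2

open Finset

/-- a predicate on integers without change on an interval is constant there -/
theorem const_line {f : ℤ → Prop} {a b : ℤ} (h : ∀ x, a ≤ x → x < b → (f x ↔ f (x + 1))) :
    ∀ x, a ≤ x → x ≤ b → (f x ↔ f a) := by
  intro x hx
  induction x, hx using Int.leInduction with
  | base => intro _; exact Iff.rfl
  | succ n hn ih =>
    intro h1
    rw [← h n hn (by omega)]
    exact ih (by omega)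

/-- a predicate without change along the boundary ring of a rectangle is constant on it -/
theorem const_ring {S : ℤ × ℤ → Prop} {m n : ℤ} (hm : 0 ≤ m) (hn : 0 ≤ n)
    (hh : ∀ x y, |x| ≤ m → |x + 1| ≤ m → |y| = n → (S (x, y) ↔ S (x + 1, y)))
    (hv : ∀ x y, |x| = m → |y| ≤ n → |y + 1| ≤ n → (S (x, y) ↔ S (x, y + 1))) :
    ∀ u : ℤ × ℤ, |u.1| ≤ m → |u.2| ≤ n → (|u.1| = m ∨ |u.2| = n) → (S u ↔ S (-m, -n)) := by
  have hb : ∀ y, |y| = n → ∀ x, -m ≤ x → x ≤ m → (S (x, y) ↔ S (-m, y)) := by
    intro y hy
    apply const_line (f := fun x => S (x, y))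
    intro x h1 h2
    exact hh x y (abs_le.2 ⟨h1, h2.le⟩) (abs_le.2 ⟨by omega, by omega⟩) hy
  have hl : ∀ x, |x| = m → ∀ y, -n ≤ y → y ≤ n → (S (x, y) ↔ S (x, -n)) := by
    intro x hx
    apply const_line (f := fun y => S (x, y))
    intro y h1 h2
    exact hv x y hx (abs_le.2 ⟨h1, h2.le⟩) (abs_le.2 ⟨by omega, by omega⟩)
  have hn' : |-n| = n := by rw [abs_neg, abs_of_nonneg hn]
  have hm' : |-m| = m := by rw [abs_neg, abs_of_nonneg hm]
  rintro ⟨x, y⟩ h1 h2 h3
  simp only at h1 h2 h3
  have hx := abs_le.1 h1
  have hy := abs_le.1 h2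
  rcases h3 with h3 | h3
  · rw [hl x h3 y hy.1 hy.2, hb (-n) hn' x hx.1 hx.2]
  · rw [hb y h3 x hx.1 hx.2, hl (-m) hm' y hy.1 hy.2]

variable {V : Type} [AddCommGroup V]

/-- PIECE H (ring lemma). -/
theorem ring_lemma (io : ℤ × ℤ →+ V) (hio : Function.Injective io) {P : Set V}
    (hP : NoHole io P) {R : Finset V} (hR : ∀ x ∈ R, x ∈ P) (p : V) {A B M N : ℤ}
    (hA : 0 < A) (hB : 0 < B) (hAM : A ≤ M) (hBN : B ≤ N) {z : ℤ × ℤ} (hz1 : |z.1| ≤ M)
    (hz2 : |z.2| ≤ N) (hz : p + io z ∉ P) :
    ((Rb io R p A B).card : ℤ) ≤ A * fcn io R p (M + B) (N + B) := by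
  classical
  have hinj : ∀ u v : ℤ × ℤ, p + io u = p + io v → u = v := fun u v h => hio (add_left_cancel h)
  -- the rows of the block meeting `R`
  let rows : Finset ℤ := (Finset.Ico 0 B).filter
    (fun y => ∃ x ∈ Finset.Ico 0 A, p + io (x, y) ∈ R)
  have hcard : ((Rb io R p A B).card : ℤ) ≤ A * rows.card := by
    have h1 : Rb io R p A B ⊆ ((Finset.Ico 0 A) ×ˢ rows).image (fun u : ℤ × ℤ => p + io u) := by
      intro x hx
      unfold Rb at hx
      rw [mem_filter] at hx
      obtain ⟨hxR, u, hu, rfl⟩ := hx
      rw [mem_product] at hu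
      rw [mem_image]
      refine ⟨u, ?_, rfl⟩
      rw [mem_product]
      refine ⟨hu.1, ?_⟩
      rw [mem_filter]
      exact ⟨hu.2, u.1, hu.1, hxR⟩
    have h2 := (card_le_card h1).trans card_image_le
    rw [card_product, Int.card_Ico, sub_zero] at h2
    have h3 : ((Rb io R p A B).card : ℤ) ≤ ((A.toNat * rows.card : ℕ) : ℤ) := by exact_mod_cast h2
    rw [Nat.cast_mul, Int.toNat_of_nonneg hA.le] at h3
    exact h3
  refine hcard.trans (mul_le_mul_of_nonneg_left ?_ hA.le)
  by_cases hcase : ∃ k : ℤ, 0 ≤ k ∧ k < B ∧ ∀ u : ℤ × ℤ, |u.1| = M + k → |u.2| ≤ N + k →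
      p + io u ∉ R
  · -- one ring misses `R`
    obtain ⟨k, hk0, hkB, hk⟩ := hcase
    have hrow : ∀ y ∈ rows, ∃ x : ℤ, |x| ≤ M + B ∧ p + io (x, y) ∈ Fc R (io (1, 0)) := by
      intro y hy
      rw [mem_filter, mem_Ico] at hy
      obtain ⟨⟨hy0, hyB⟩, x, hx, hxR⟩ := hy
      rw [mem_Ico] at hx
      by_contra hcon
      push Not at hcon
      have hend : p + io (M + k, y) ∉ R := by
        apply hk (M + k, y)
        · exact abs_of_nonneg (by omega)
        · exact abs_le.2 ⟨by omega, by omega⟩
      apply hend
      have := const_line (f := fun x => p + io (x, y) ∈ R) (a := x) (b := M + k) (by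
        intro x' h1 h2
        have h3 := hcon x' (abs_le.2 ⟨by omega, by omega⟩)
        rw [mem_Fc, add_assoc, ← map_add] at h3
        have h4 : ((x', y) : ℤ × ℤ) + (1, 0) = (x' + 1, y) := by
          rw [Prod.mk_add_mk, add_zero]
        rw [h4] at h3
        tauto) (M + k) (by omega) le_rfl
      exact this.2 hxR
    choose! f hf using hrow
    have hle : rows.card ≤ ((Fc R (io (1, 0))).filter
        (fun x => ∃ u : ℤ × ℤ, |u.1| ≤ M + B ∧ |u.2| ≤ N + B ∧ x = p + io u)).card := by
      apply card_le_card_of_injOn (fun y => p + io (f y, y))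
      · intro y hy
        have hy' : y ∈ rows := hy
        have h1 := hf y hy'
        simp only [coe_filter, Set.mem_ofPred_eq]
        refine ⟨h1.2, (f y, y), h1.1, ?_, rfl⟩
        rw [mem_filter, mem_Ico] at hy'
        exact abs_le.2 ⟨by omega, by omega⟩
      · intro y _ y' _ h
        exact congrArg Prod.snd (hinj _ _ h)
    unfold fcn
    push_cast
    have : (rows.card : ℤ) ≤ (((Fc R (io (1, 0))).filter
        (fun x => ∃ u : ℤ × ℤ, |u.1| ≤ M + B ∧ |u.2| ≤ N + B ∧ x = p + io u)).card : ℤ) := by
      exact_mod_cast hle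
    have h0 : (0 : ℤ) ≤ (((Fc R (io (0, 1))).filter
        (fun x => ∃ u : ℤ × ℤ, |u.1| ≤ M + B ∧ |u.2| ≤ N + B ∧ x = p + io u)).card : ℤ) := by
      positivity
    linarith
  · -- every ring meets `R`, and has a cell outside `R`
    push Not at hcase
    have hring : ∀ k ∈ Finset.Ico (0 : ℤ) B, ∃ e : (ℤ × ℤ) ⊕ (ℤ × ℤ),
        (∀ u, e = Sum.inl u → max (|u.1| - M) (|u.2| - N) = k ∧
          p + io u ∈ Fc R (io (1, 0))) ∧
        (∀ u, e = Sum.inr u → max (|u.1| - M) (|u.2| - N) = k ∧
          p + io u ∈ Fc R (io (0, 1))) := by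
      intro k hk
      rw [mem_Ico] at hk
      obtain ⟨u, hu1, hu2, huR⟩ := hcase k hk.1 hk.2
      by_contra hcon
      push Not at hcon
      have hc := const_ring (S := fun u => p + io u ∈ R) (m := M + k) (n := N + k) (by omega)
        (by omega) (by
          intro x y h1 h2 h3
          by_contra hne
          obtain ⟨w, hw, hw'⟩ := hcon (Sum.inl (x, y)) (by
            intro u' hu'
            have := Sum.inl.inj hu'
            subst this
            refine ⟨?_, ?_⟩
            · simp only
              rw [h3]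
              have : |x| - M ≤ k := by omega
              rw [max_eq_right (by omega)]
              omega
            · rw [mem_Fc, add_assoc, ← map_add]
              have h4 : ((x, y) : ℤ × ℤ) + (1, 0) = (x + 1, y) := by
                rw [Prod.mk_add_mk, add_zero]
              rw [h4]
              tauto)
          exact absurd hw (by simp)) (by
          intro x y h1 h2 h3
          by_contra hne
          obtain ⟨w, hw, hw'⟩ := hcon (Sum.inr (x, y)) (by
            intro u' hu'
            exact absurd hu' (by simp))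
          have := Sum.inr.inj hw
          subst this
          apply hw'
          · simp only
            rw [h1, max_eq_left (by omega)]
            omega
          · rw [mem_Fc, add_assoc, ← map_add]
            have h4 : ((x, y) : ℤ × ℤ) + (0, 1) = (x, y + 1) := by
              rw [Prod.mk_add_mk, add_zero]
            rw [h4]
            tauto)
      have hall : ∀ v : ℤ × ℤ, |v.1| ≤ M + k → |v.2| ≤ N + k → (|v.1| = M + k ∨ |v.2| = N + k) →
          p + io v ∈ R := by
        intro v h1 h2 h3
        rw [hc v h1 h2 h3, ← hc u (by omega) hu2 (Or.inl hu1)]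
        exact huR
      apply hz
      have := hP p (-(M + k)) (M + k) (-(N + k)) (N + k) (by
        intro x y h1 h2 h3 h4 h5
        apply hR
        apply hall (x, y) (abs_le.2 ⟨h1, h2⟩) (abs_le.2 ⟨h3, h4⟩)
        have hM : 0 ≤ M + k := by omega
        have hN : 0 ≤ N + k := by omega
        rcases h5 with h5 | h5 | h5 | h5
        · left; simp only [h5, abs_neg]; exact abs_of_nonneg hM
        · left; simp only [h5]; exact abs_of_nonneg hM
        · right; simp only [h5, abs_neg]; exact abs_of_nonneg hN
        · right; simp only [h5]; exact abs_of_nonneg hN) z.1 z.2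
        (by have := abs_le.1 hz1; omega) (by have := abs_le.1 hz1; omega)
        (by have := abs_le.1 hz2; omega) (by have := abs_le.1 hz2; omega)
      exact this
    choose! g hg1 hg2 using hring
    let T := ((Fc R (io (1, 0))).filter
        (fun x => ∃ u : ℤ × ℤ, |u.1| ≤ M + B ∧ |u.2| ≤ N + B ∧ x = p + io u)).disjSum
      ((Fc R (io (0, 1))).filter
        (fun x => ∃ u : ℤ × ℤ, |u.1| ≤ M + B ∧ |u.2| ≤ N + B ∧ x = p + io u))
    have hT : (Finset.Ico (0 : ℤ) B).card ≤ T.card := by
      apply card_le_card_of_injOn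
        (fun k => Sum.map (fun u => p + io u) (fun u => p + io u) (g k))
      · intro k hk
        have hk' : k ∈ Finset.Ico (0 : ℤ) B := hk
        have hkk := mem_Ico.1 hk'
        show Sum.map (fun u => p + io u) (fun u => p + io u) (g k) ∈ T
        cases hgk : g k with
        | inl u =>
          obtain ⟨h1, h2⟩ := hg1 k hk' u hgk
          simp only [Sum.map_inl, T, inl_mem_disjSum, mem_filter]
          have h3 := le_max_left (|u.1| - M) (|u.2| - N)
          have h4 := le_max_right (|u.1| - M) (|u.2| - N)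
          exact ⟨h2, u, by omega, by omega, rfl⟩
        | inr u =>
          obtain ⟨h1, h2⟩ := hg2 k hk' u hgk
          simp only [Sum.map_inr, T, inr_mem_disjSum, mem_filter]
          have h3 := le_max_left (|u.1| - M) (|u.2| - N)
          have h4 := le_max_right (|u.1| - M) (|u.2| - N)
          exact ⟨h2, u, by omega, by omega, rfl⟩
      · intro k hk k' hk' h
        have hk1 : k ∈ Finset.Ico (0 : ℤ) B := hk
        have hk1' : k' ∈ Finset.Ico (0 : ℤ) B := hk'
        simp only at h
        cases hgk : g k with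
        | inl u =>
          cases hgk' : g k' with
          | inl u' =>
            rw [hgk, hgk', Sum.map_inl, Sum.map_inl] at h
            have := hinj _ _ (Sum.inl.inj h)
            rw [← (hg1 k hk1 u hgk).1, ← (hg1 k' hk1' u' hgk').1, this]
          | inr u' =>
            rw [hgk, hgk', Sum.map_inl, Sum.map_inr] at h
            exact absurd h (by simp)
        | inr u =>
          cases hgk' : g k' with
          | inl u' =>
            rw [hgk, hgk', Sum.map_inl, Sum.map_inr] at h
            exact absurd h (by simp)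
          | inr u' =>
            rw [hgk, hgk', Sum.map_inr, Sum.map_inr] at h
            have := hinj _ _ (Sum.inr.inj h)
            rw [← (hg2 k hk1 u hgk).1, ← (hg2 k' hk1' u' hgk').1, this]
    have hrows : rows.card ≤ (Finset.Ico (0 : ℤ) B).card := card_le_card (filter_subset _ _)
    have hfin : rows.card ≤ fcn io R p (M + B) (N + B) := by
      refine hrows.trans (hT.trans ?_)
      simp only [T, card_disjSum]
      unfold fcn
      exact le_rfl
    exact_mod_cast hfin

end Pool.Agent.Helper42.Mk2
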