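import Pool.Agent.Helper42.Mk2.Defs3
import Pool.Agent.Helper42.Mk2.Tele

/-!
# Telescoping over the complete blocks of a patch
-/

set_option autoImplicit false

namespace Pool.Agent.Helper42.Mk2

open Finset

namespace G66

/-- the box of sides `m₁`, `m₂` at the origin -/
noncomputable abbrev bx (m₁ m₂ : ℕ) : Finset (ℤ × ℤ) := Finset.Ico 0 (m₁ : ℤ) ×ˢ Finset.Ico 0 (m₂ : ℤ)

theorem mem_bx {m₁ m₂ : ℕ} {u : ℤ × ℤ} :
    u ∈ bx m₁ m₂ ↔ (0 ≤ u.1 ∧ u.1 < m₁) ∧ 0 ≤ u.2 ∧ u.2 < m₂ := by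
  rw [bx, mem_product, mem_Ico, mem_Ico]

theorem card_bx (m₁ m₂ : ℕ) : (bx m₁ m₂).card = m₁ * m₂ := by
  simp [bx, Finset.card_product, Int.card_Ico]

section one

variable {V : Type} [AddCommGroup V] (io : ℤ × ℤ →+ V)

open scoped Classical in
/-- the cells of the block at `p` in `R` -/
noncomputable def bR (R : Finset V) (p : V) (m₁ m₂ : ℕ) : Finset (ℤ × ℤ) :=
  (bx m₁ m₂).filter (fun u => p + io u ∈ R)

open scoped Classical in
/-- the cells of the block at `p` not in `R` -/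
noncomputable def bN (R : Finset V) (p : V) (m₁ m₂ : ℕ) : Finset (ℤ × ℤ) :=
  (bx m₁ m₂).filter (fun u => p + io u ∉ R)

theorem mem_bR {R : Finset V} {p : V} {m₁ m₂ : ℕ} {u : ℤ × ℤ} :
    u ∈ bR io R p m₁ m₂ ↔ u ∈ bx m₁ m₂ ∧ p + io u ∈ R := by
  classical
  unfold bR
  rw [mem_filter]

theorem mem_bN {R : Finset V} {p : V} {m₁ m₂ : ℕ} {u : ℤ × ℤ} :
    u ∈ bN io R p m₁ m₂ ↔ u ∈ bx m₁ m₂ ∧ p + io u ∉ R := by
  classical
  unfold bN
  rw [mem_filter]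

theorem card_bR_add (R : Finset V) (p : V) (m₁ m₂ : ℕ) :
    (bR io R p m₁ m₂).card + (bN io R p m₁ m₂).card = m₁ * m₂ := by
  classical
  unfold bR bN
  rw [← card_bx m₁ m₂]
  exact Finset.card_filter_add_card_filter_not (s := bx m₁ m₂) (fun u => p + io u ∈ R)

open scoped Classical in
/-- boundary darts of `R` -/
noncomputable def dV (R : Finset V) : Finset (V × (ℤ × ℤ)) :=
  (R ×ˢ T66.dirs).filter (fun q => q.1 + io q.2 ∉ R)

open scoped Classical in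
/-- boundary darts of `R` in the block at `p` -/
noncomputable def dn (R : Finset V) (p : V) (m₁ m₂ : ℕ) : Finset (V × (ℤ × ℤ)) :=
  (dV io R).filter (fun q => ∃ u ∈ bx m₁ m₂, q.1 = p + io u)

theorem mem_dV {R : Finset V} {q : V × (ℤ × ℤ)} :
    q ∈ dV io R ↔ (q.1 ∈ R ∧ q.2 ∈ T66.dirs) ∧ q.1 + io q.2 ∉ R := by
  classical
  unfold dV
  rw [mem_filter, mem_product]

theorem mem_dn {R : Finset V} {p : V} {m₁ m₂ : ℕ} {q : V × (ℤ × ℤ)} :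
    q ∈ dn io R p m₁ m₂ ↔ q ∈ dV io R ∧ ∃ u ∈ bx m₁ m₂, q.1 = p + io u := by
  classical
  unfold dn
  rw [mem_filter]

variable {io} (hio : Function.Injective io)

include hio

theorem iso_V (R : Finset V) (p : V) (m₁ m₂ : ℕ) :
    (bR io R p m₁ m₂).card ≤ (m₁ + m₂) * (dn io R p m₁ m₂).card ∨
      (bN io R p m₁ m₂).card ≤ (m₁ + m₂) * (dn io R p m₁ m₂).card := by
  classical
  set R' : Finset (ℤ × ℤ) := R.preimage (fun u => p + io u)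
    (by intro u _ v _ h; exact hio (add_left_cancel h)) with hR'
  have hm : ∀ u, u ∈ R' ↔ p + io u ∈ R := fun u => mem_preimage
  have hb : T66.box m₁ m₂ 0 = bx m₁ m₂ := by
    ext u
    rw [T66.mem_box, mem_bx]
    simp
  have hd : (T66.inner R' m₁ m₂ 0).card ≤ (dn io R p m₁ m₂).card := by
    refine card_le_card_of_injOn (fun q => (p + io q.1, q.2)) ?_ ?_
    · intro q hq
      rw [mem_coe, T66.mem_inner, T66.mem_darts, hm, hm, hb] at hq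
      rw [mem_coe, mem_dn, mem_dV]
      refine ⟨⟨⟨hq.1.1.1, hq.1.1.2⟩, ?_⟩, q.1, hq.2.1, rfl⟩
      have := hq.1.2
      rwa [map_add, ← add_assoc] at this
    · intro q _ q' _ h
      have h1 := congrArg Prod.fst h
      have h2 := congrArg Prod.snd h
      exact Prod.ext (hio (add_left_cancel h1)) h2
  have h1 : (T66.box m₁ m₂ 0).filter (· ∈ R') = bR io R p m₁ m₂ := by
    ext u
    rw [mem_filter, mem_bR, hb, hm]
  have h2 : (T66.box m₁ m₂ 0).filter (· ∉ R') = bN io R p m₁ m₂ := by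
    ext u
    rw [mem_filter, mem_bN, hb, hm]
  have h3 := Nat.mul_le_mul_left (m₁ + m₂) hd
  rcases T66.box_iso R' m₁ m₂ 0 with h | h
  · rw [h1] at h
    exact Or.inl (h.trans h3)
  · rw [h2] at h
    exact Or.inr (h.trans h3)

theorem card_Rb (R : Finset V) (p : V) (m₁ m₂ : ℕ) :
    (Rb io R p m₁ m₂).card = (bR io R p m₁ m₂).card := by
  classical
  symm
  refine card_bij (fun u _ => p + io u) ?_ ?_ ?_
  · intro u hu
    rw [mem_bR] at hu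
    unfold Rb
    rw [mem_filter]
    exact ⟨hu.2, u, hu.1, rfl⟩
  · intro u _ v _ h
    exact hio (add_left_cancel h)
  · intro x hx
    unfold Rb at hx
    rw [mem_filter] at hx
    obtain ⟨h1, u, hu, rfl⟩ := hx
    exact ⟨u, (mem_bR io).2 ⟨hu, h1⟩, rfl⟩

omit hio in
/-- two blocks of a separated family with a common cell are equal -/
theorem sep_eq {S : Finset V} {m₁ m₂ : ℕ}
    (hS : ∀ p ∈ S, ∀ u : ℤ × ℤ, |u.1| < m₁ → |u.2| < m₂ → p + io u ∈ S → u = 0)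
    {p q : V} (hp : p ∈ S) (hq : q ∈ S) {u v : ℤ × ℤ} (hu : u ∈ bx m₁ m₂) (hv : v ∈ bx m₁ m₂)
    (h : p + io u = q + io v) : p = q := by
  rw [mem_bx] at hu hv
  have h1 : q = p + io (u - v) := by
    rw [map_sub, ← add_sub_assoc, h, add_sub_cancel_right]
  have h2 := hS p hp (u - v) (by
      rw [Prod.fst_sub, abs_lt]
      constructor <;> linarith [hu.1.1, hu.1.2, hv.1.1, hv.1.2]) (by
      rw [Prod.snd_sub, abs_lt]
      constructor <;> linarith [hu.2.1, hu.2.2, hv.2.1, hv.2.2]) (by rw [← h1]; exact hq)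
  rw [h1, h2, map_zero, add_zero]

omit hio in
theorem sum_dn (R S : Finset V) (m₁ m₂ : ℕ)
    (hS : ∀ p ∈ S, ∀ u : ℤ × ℤ, |u.1| < m₁ → |u.2| < m₂ → p + io u ∈ S → u = 0) :
    ∑ p ∈ S, (dn io R p m₁ m₂).card ≤ (dV io R).card := by
  classical
  rw [← card_biUnion]
  · refine card_le_card ?_
    intro q hq
    rw [mem_biUnion] at hq
    obtain ⟨p, _, hq⟩ := hq
    exact ((mem_dn io).1 hq).1
  · intro p hp q hq hpq
    show Disjoint _ _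
    rw [Finset.disjoint_left]
    intro x hx hx'
    rw [mem_dn] at hx hx'
    obtain ⟨_, u, hu, h1⟩ := hx
    obtain ⟨_, v, hv, h2⟩ := hx'
    exact hpq (sep_eq hS hp hq hu hv (h1.symm.trans h2))

omit hio in
theorem card_dV (R : Finset V) :
    (dV io R).card ≤ 2 * ((Bd R (io (1, 0))).card + (Bd R (io (0, 1))).card) := by
  classical
  have h1 : ∀ v : ℤ × ℤ, ((dV io R).filter fun p => p.2 = v).card ≤ (Bd R (io v)).card := by
    intro v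
    refine Finset.card_le_card_of_injOn (fun p => p.1) ?_ ?_
    · intro p hp
      rw [Finset.mem_coe, Finset.mem_filter, mem_dV] at hp
      rw [Finset.mem_coe, mem_Bd]
      exact ⟨hp.1.1.1, by rw [← hp.2]; exact hp.1.2⟩
    · intro p hp q hq hpq
      rw [Finset.mem_coe, Finset.mem_filter] at hp hq
      exact Prod.ext hpq (hp.2.trans hq.2.symm)
  have h2 : (dV io R).card = ∑ v ∈ T66.dirs, ((dV io R).filter fun p => p.2 = v).card := by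
    rw [← Finset.card_eq_sum_card_fiberwise]
    intro p hp
    exact ((mem_dV io).1 hp).1.2
  have h3 : (dV io R).card ≤ ∑ v ∈ T66.dirs, (Bd R (io v)).card := by
    rw [h2]
    exact Finset.sum_le_sum fun v _ => h1 v
  have h4 : ∑ v ∈ T66.dirs, (Bd R (io v)).card
      = (Bd R (io (1, 0))).card + ((Bd R (io (-1, 0))).card +
        ((Bd R (io (0, 1))).card + (Bd R (io (0, -1))).card)) := by
    rw [T66.dirs, Finset.sum_insert (by decide), Finset.sum_insert (by decide),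
      Finset.sum_insert (by decide), Finset.sum_singleton]
  have e5 : io (-1, 0) = - io (1, 0) := by
    rw [← map_neg]
    congr 1
  have e6 : io (0, -1) = - io (0, 1) := by
    rw [← map_neg]
    congr 1
  rw [h4, e5, e6, Bd_neg, Bd_neg] at h3
  omega

omit hio in
/-- the number of blocks of a separated family near a point -/
theorem near_blocks (S : Finset V) {m₁ m₂ M : ℕ} (c : ℕ) (hm₁ : 0 < m₁) (hm₂ : 0 < m₂)
    (hc1 : M ≤ c * m₁) (hc2 : M ≤ c * m₂)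
    (hS : ∀ p ∈ S, ∀ u : ℤ × ℤ, |u.1| < m₁ → |u.2| < m₂ → p + io u ∈ S → u = 0) (x : V)
    [DecidablePred fun p : V => ∃ u : ℤ × ℤ, |u.1| ≤ (M : ℤ) ∧ |u.2| ≤ (M : ℤ) ∧ x = p + io u] :
    (S.filter (fun p => ∃ u : ℤ × ℤ, |u.1| ≤ (M : ℤ) ∧ |u.2| ≤ (M : ℤ) ∧ x = p + io u)).card
      ≤ (2 * c + 1) ^ 2 := by
  classical
  have hm₁' : (0 : ℤ) < m₁ := by exact_mod_cast hm₁
  have hm₂' : (0 : ℤ) < m₂ := by exact_mod_cast hm₂
  have hc1' : (M : ℤ) ≤ c * m₁ := by exact_mod_cast hc1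
  have hc2' : (M : ℤ) ≤ c * m₂ := by exact_mod_cast hc2
  set U : V → ℤ × ℤ := fun p => if h : ∃ u : ℤ × ℤ, |u.1| ≤ (M : ℤ) ∧ |u.2| ≤ (M : ℤ) ∧ x = p + io u
    then h.choose else 0 with hU
  have hUs : ∀ p, (∃ u : ℤ × ℤ, |u.1| ≤ (M : ℤ) ∧ |u.2| ≤ (M : ℤ) ∧ x = p + io u) →
      |(U p).1| ≤ (M : ℤ) ∧ |(U p).2| ≤ (M : ℤ) ∧ x = p + io (U p) := by
    intro p h
    simp only [hU, dif_pos h]
    exact h.choose_spec
  have hcard : ((Finset.Icc (-(c : ℤ)) c) ×ˢ (Finset.Icc (-(c : ℤ)) c)).card = (2 * c + 1) ^ 2 := by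
    rw [card_product, Int.card_Icc]
    have : ((c : ℤ) + 1 - -(c : ℤ)).toNat = 2 * c + 1 := by omega
    rw [this, sq]
  rw [← hcard]
  have bd : ∀ (m t : ℤ), 0 < m → (M : ℤ) ≤ c * m → |t| ≤ M → -(c : ℤ) ≤ t / m ∧ t / m ≤ c := by
    intro m t hm hM ht
    rw [abs_le] at ht
    constructor
    · rw [Int.le_ediv_iff_mul_le hm]
      linarith [ht.1]
    · refine Int.ediv_le_of_le_mul hm ?_
      linarith [ht.2]
  have cl : ∀ (m s t : ℤ), 0 < m → s / m = t / m → |s - t| < m := by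
    intro m s t hm h
    have h1 := Int.emod_add_mul_ediv s m
    have h2 := Int.emod_add_mul_ediv t m
    have h3 := Int.emod_nonneg s hm.ne'
    have h4 := Int.emod_nonneg t hm.ne'
    have h5 := Int.emod_lt_of_pos s hm
    have h6 := Int.emod_lt_of_pos t hm
    rw [h] at h1
    rw [abs_lt]
    constructor <;> linarith
  refine card_le_card_of_injOn (fun p => ((U p).1 / m₁, (U p).2 / m₂)) ?_ ?_
  · intro p hp
    rw [mem_coe, mem_filter] at hp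
    have h := hUs p hp.2
    rw [mem_coe, mem_product, mem_Icc, mem_Icc]
    exact ⟨bd _ _ hm₁' hc1' h.1, bd _ _ hm₂' hc2' h.2.1⟩
  · intro p hp q hq hpq
    rw [mem_coe, mem_filter] at hp hq
    have h := hUs p hp.2
    have h' := hUs q hq.2
    have e1 := congrArg Prod.fst hpq
    have e2 := congrArg Prod.snd hpq
    have h1 : q = p + io (U p - U q) := by
      rw [map_sub, ← add_sub_assoc, ← h.2.2, h'.2.2, add_sub_cancel_right]
    have h2 := hS p hp.1 (U p - U q) (cl _ _ _ hm₁' e1) (cl _ _ _ hm₂' e2)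
      (by rw [← h1]; exact hq.1)
    rw [h1, h2, map_zero, add_zero]

omit hio in
theorem sum_fcn (R S : Finset V) {m₁ m₂ M : ℕ} (c : ℕ) (hm₁ : 0 < m₁) (hm₂ : 0 < m₂)
    (hc1 : M ≤ c * m₁) (hc2 : M ≤ c * m₂)
    (hS : ∀ p ∈ S, ∀ u : ℤ × ℤ, |u.1| < m₁ → |u.2| < m₂ → p + io u ∈ S → u = 0) :
    ∑ p ∈ S, fcn io R p M M ≤
      (2 * c + 1) ^ 2 * (2 * ((Bd R (io (1, 0))).card + (Bd R (io (0, 1))).card)) := by
  classical
  have key : ∀ F : Finset V, ∑ p ∈ S, (F.filter (fun x => ∃ u : ℤ × ℤ, |u.1| ≤ (M : ℤ) ∧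
      |u.2| ≤ (M : ℤ) ∧ x = p + io u)).card ≤ (2 * c + 1) ^ 2 * F.card := by
    intro F
    have h1 : ∑ p ∈ S, (F.filter (fun x => ∃ u : ℤ × ℤ, |u.1| ≤ (M : ℤ) ∧
        |u.2| ≤ (M : ℤ) ∧ x = p + io u)).card
        = ∑ x ∈ F, (S.filter (fun p => ∃ u : ℤ × ℤ, |u.1| ≤ (M : ℤ) ∧
        |u.2| ≤ (M : ℤ) ∧ x = p + io u)).card := by
      simp only [card_filter]
      exact sum_comm
    rw [h1]
    calc ∑ x ∈ F, (S.filter (fun p => ∃ u : ℤ × ℤ, |u.1| ≤ (M : ℤ) ∧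
        |u.2| ≤ (M : ℤ) ∧ x = p + io u)).card ≤ ∑ _x ∈ F, (2 * c + 1) ^ 2 :=
          sum_le_sum fun x _ => near_blocks S c hm₁ hm₂ hc1 hc2 hS x
      _ = (2 * c + 1) ^ 2 * F.card := by rw [sum_const, smul_eq_mul, mul_comm]
  have h1 := key (Fc R (io (1, 0)))
  have h2 := key (Fc R (io (0, 1)))
  have h3 : ∑ p ∈ S, fcn io R p M M = ∑ p ∈ S, ((Fc R (io (1, 0))).filter (fun x =>
      ∃ u : ℤ × ℤ, |u.1| ≤ (M : ℤ) ∧ |u.2| ≤ (M : ℤ) ∧ x = p + io u)).card +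
      ∑ p ∈ S, ((Fc R (io (0, 1))).filter (fun x =>
      ∃ u : ℤ × ℤ, |u.1| ≤ (M : ℤ) ∧ |u.2| ≤ (M : ℤ) ∧ x = p + io u)).card := by
    rw [← sum_add_distrib]
    refine sum_congr rfl fun p _ => ?_
    unfold fcn
    congr!
  have h4 := card_Fc R (io (1, 0))
  have h5 := card_Fc R (io (0, 1))
  rw [h3]
  calc _ ≤ (2 * c + 1) ^ 2 * (Fc R (io (1, 0))).card + (2 * c + 1) ^ 2 * (Fc R (io (0, 1))).card :=
        Nat.add_le_add h1 h2
    _ = (2 * c + 1) ^ 2 * ((Fc R (io (1, 0))).card + (Fc R (io (0, 1))).card) := by ring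
    _ ≤ _ := Nat.mul_le_mul_left _ (by omega)

end one

section split

/-- splitting an interval into four equal parts -/
theorem split1 {m : ℕ} (hm : 0 < m) (f : ℤ → ℝ) :
    ∑ x ∈ Finset.Ico (0 : ℤ) ((m * 4 : ℕ) : ℤ), f x
      = ∑ i ∈ range 4, ∑ v ∈ Finset.Ico (0 : ℤ) (m : ℤ), f ((m : ℤ) * (i : ℤ) + v) := by
  have hm' : (0 : ℤ) < m := by exact_mod_cast hm
  have e := Finset.sum_product (range 4) (Finset.Ico (0 : ℤ) (m : ℤ))
    (fun t : ℕ × ℤ => f ((m : ℤ) * (t.1 : ℤ) + t.2))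
  rw [← e]
  symm
  refine Finset.sum_nbij' (fun t => (m : ℤ) * (t.1 : ℤ) + t.2)
    (fun x => ((x / (m : ℤ)).toNat, x % (m : ℤ))) ?_ ?_ ?_ ?_ ?_
  · intro t ht
    rw [mem_product, mem_range, mem_Ico] at ht
    obtain ⟨h1, h2, h3⟩ := ht
    rw [mem_Ico]
    have h4 : (t.1 : ℤ) ≤ 3 := by exact_mod_cast Nat.lt_succ_iff.1 h1
    have h5 := mul_le_mul_of_nonneg_left h4 hm'.le
    have h6 : (0 : ℤ) ≤ (m : ℤ) * (t.1 : ℤ) := by positivity
    push_cast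
    constructor
    · linarith
    · linarith
  · intro x hx
    rw [mem_Ico] at hx
    push_cast at hx
    rw [mem_product, mem_range, mem_Ico]
    have h1 : 0 ≤ x / (m : ℤ) := Int.ediv_nonneg hx.1 hm'.le
    have h2 : x / (m : ℤ) < 4 := Int.ediv_lt_of_lt_mul hm' (by linarith [hx.2])
    refine ⟨?_, Int.emod_nonneg x hm'.ne', Int.emod_lt_of_pos x hm'⟩
    show (x / (m : ℤ)).toNat < 4
    omega
  · intro t ht
    rw [mem_product, mem_range, mem_Ico] at ht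
    obtain ⟨h1, h2, h3⟩ := ht
    have e1 : ((m : ℤ) * (t.1 : ℤ) + t.2) / (m : ℤ) = (t.1 : ℤ) := by
      rw [add_comm, Int.add_mul_ediv_left _ _ hm'.ne', Int.ediv_eq_zero_of_lt h2 h3, zero_add]
    have e2 : ((m : ℤ) * (t.1 : ℤ) + t.2) % (m : ℤ) = t.2 := by
      rw [add_comm, Int.add_mul_emod_self_left, Int.emod_eq_of_lt h2 h3]
    refine Prod.ext ?_ e2
    show (((m : ℤ) * (t.1 : ℤ) + t.2) / (m : ℤ)).toNat = t.1
    rw [e1, Int.toNat_natCast]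
  · intro x hx
    rw [mem_Ico] at hx
    have h1 : 0 ≤ x / (m : ℤ) := Int.ediv_nonneg hx.1 hm'.le
    show (m : ℤ) * (((x / (m : ℤ)).toNat : ℕ) : ℤ) + x % (m : ℤ) = x
    rw [Int.toNat_of_nonneg h1]
    exact Int.mul_ediv_add_emod x m
  · intro t _
    rfl

theorem split2 {m₁ m₂ : ℕ} (h1 : 0 < m₁) (h2 : 0 < m₂) (g : ℤ × ℤ → ℝ) :
    ∑ u ∈ bx (m₁ * 4) (m₂ * 4), g u
      = ∑ i ∈ range 4, ∑ j ∈ range 4, ∑ v ∈ bx m₁ m₂,
        g ((m₁ : ℤ) * (i : ℤ) + v.1, (m₂ : ℤ) * (j : ℤ) + v.2) := by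
  refine (Finset.sum_product _ _ _).trans ?_
  rw [split1 h1]
  refine Finset.sum_congr rfl fun i _ => ?_
  have e : ∀ j : ℕ, ∑ v ∈ bx m₁ m₂, g ((m₁ : ℤ) * (i : ℤ) + v.1, (m₂ : ℤ) * (j : ℤ) + v.2)
      = ∑ v ∈ Finset.Ico (0 : ℤ) (m₁ : ℤ), ∑ w ∈ Finset.Ico (0 : ℤ) (m₂ : ℤ),
        g ((m₁ : ℤ) * (i : ℤ) + v, (m₂ : ℤ) * (j : ℤ) + w) := by
    intro j
    exact Finset.sum_product _ _ _
  rw [Finset.sum_congr rfl fun j _ => e j]
  rw [Finset.sum_comm (s := range 4)]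
  refine Finset.sum_congr rfl fun v _ => ?_
  exact split1 h2 _

end split

section two

variable {V : Type} [AddCommGroup V] {io : ℤ × ℤ →+ V}

theorem sub_mem_bx {m₁ m₂ : ℕ} {i j : ℕ} (hi : i < 4) (hj : j < 4) {v : ℤ × ℤ}
    (hv : v ∈ bx m₁ m₂) : ((m₁ : ℤ) * (i : ℤ) + v.1, (m₂ : ℤ) * (j : ℤ) + v.2)
      ∈ bx (m₁ * 4) (m₂ * 4) := by
  rw [mem_bx] at hv ⊢
  have h4 : (i : ℤ) ≤ 3 := by exact_mod_cast Nat.lt_succ_iff.1 hi
  have h4' : (j : ℤ) ≤ 3 := by exact_mod_cast Nat.lt_succ_iff.1 hj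
  have hm₁ : (0 : ℤ) ≤ m₁ := by positivity
  have hm₂ : (0 : ℤ) ≤ m₂ := by positivity
  have h5 := mul_le_mul_of_nonneg_left h4 hm₁
  have h5' := mul_le_mul_of_nonneg_left h4' hm₂
  have h6 : (0 : ℤ) ≤ (m₁ : ℤ) * (i : ℤ) := by positivity
  have h6' : (0 : ℤ) ≤ (m₂ : ℤ) * (j : ℤ) := by positivity
  push_cast
  refine ⟨⟨?_, ?_⟩, ?_, ?_⟩ <;> linarith [hv.1.1, hv.1.2, hv.2.1, hv.2.2]

theorem io_sub (p : V) (x y : ℤ) (v : ℤ × ℤ) :
    p + io (x, y) + io v = p + io (x + v.1, y + v.2) := by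
  rw [add_assoc, ← map_add]
  rfl

theorem card_bR_sub (R : Finset V) (p : V) {m₁ m₂ : ℕ} {i j : ℕ} (hi : i < 4) (hj : j < 4) :
    (bR io R (p + io ((m₁ : ℤ) * (i : ℤ), (m₂ : ℤ) * (j : ℤ))) m₁ m₂).card
      ≤ (bR io R p (m₁ * 4) (m₂ * 4)).card := by
  refine card_le_card_of_injOn
    (fun v => ((m₁ : ℤ) * (i : ℤ) + v.1, (m₂ : ℤ) * (j : ℤ) + v.2)) ?_ ?_
  · intro v hv
    rw [mem_coe, mem_bR, io_sub] at hv
    rw [mem_coe, mem_bR]
    exact ⟨sub_mem_bx hi hj hv.1, hv.2⟩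
  · intro v _ w _ h
    have h1 := congrArg Prod.fst h
    have h2 := congrArg Prod.snd h
    exact Prod.ext (add_left_cancel h1) (add_left_cancel h2)

theorem card_bN_sub (R : Finset V) (p : V) {m₁ m₂ : ℕ} {i j : ℕ} (hi : i < 4) (hj : j < 4) :
    (bN io R (p + io ((m₁ : ℤ) * (i : ℤ), (m₂ : ℤ) * (j : ℤ))) m₁ m₂).card
      ≤ (bN io R p (m₁ * 4) (m₂ * 4)).card := by
  refine card_le_card_of_injOn
    (fun v => ((m₁ : ℤ) * (i : ℤ) + v.1, (m₂ : ℤ) * (j : ℤ) + v.2)) ?_ ?_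
  · intro v hv
    rw [mem_coe, mem_bN, io_sub] at hv
    rw [mem_coe, mem_bN]
    exact ⟨sub_mem_bx hi hj hv.1, hv.2⟩
  · intro v _ w _ h
    have h1 := congrArg Prod.fst h
    have h2 := congrArg Prod.snd h
    exact Prod.ext (add_left_cancel h1) (add_left_cancel h2)

theorem dens_aux {a b a' b' N D : ℝ} (hN : 0 < N) (ha : 0 ≤ a) (ha' : 0 ≤ a') (hb : 0 ≤ b)
    (hb' : 0 ≤ b') (hab : a ≤ b) (hab' : a' ≤ b') (h1 : a + a' = N) (h2 : b + b' = 16 * N)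
    (hD : b ≤ D ∨ b' ≤ D) : |a / N - b / (16 * N)| ≤ D / N := by
  have e1 : a / N - b / (16 * N) = (16 * a - b) / (16 * N) := by
    field_simp
  have e2 : D / N = (16 * D) / (16 * N) := by
    field_simp
  rw [e1, e2, abs_div, abs_of_pos (by positivity : (0 : ℝ) < 16 * N)]
  refine div_le_div_of_nonneg_right ?_ (by positivity)
  rw [abs_le]
  rcases hD with h | h
  · constructor <;> linarith
  · constructor <;> linarith

/-- the sum of `G` over the block at `p` -/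
noncomputable def sG (io : ℤ × ℤ →+ V) (G : V → ℝ) (p : V) (m₁ m₂ : ℕ) : ℝ :=
  ∑ u ∈ bx m₁ m₂, G (p + io u)

/-- the density of `R` in the block at `p` -/
noncomputable def rd (io : ℤ × ℤ →+ V) (R : Finset V) (p : V) (m₁ m₂ : ℕ) : ℝ :=
  ((bR io R p m₁ m₂).card : ℝ) / ((m₁ : ℝ) * m₂)

theorem base_block (hio : Function.Injective io) {G : V → ℝ} {C : ℝ} (hC : 0 ≤ C)
    (hG : ∀ x, |G x| ≤ C) (R : Finset V) (p : V) {m₁ m₂ : ℕ} (h1 : 0 < m₁) (h2 : 0 < m₂) :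
    |∑ x ∈ Rb io R p m₁ m₂, G x - rd io R p m₁ m₂ * sG io G p m₁ m₂|
      ≤ 2 * C * (((m₁ + m₂ : ℕ) : ℝ) * (dn io R p m₁ m₂).card) := by
  classical
  have e1 : ∑ x ∈ Rb io R p m₁ m₂, G x = ∑ u ∈ bR io R p m₁ m₂, G (p + io u) := by
    symm
    refine sum_nbij (fun u => p + io u) ?_ ?_ ?_ ?_
    · intro u hu
      rw [mem_bR] at hu
      unfold Rb
      rw [mem_filter]
      exact ⟨hu.2, u, hu.1, rfl⟩
    · intro u _ v _ h
      exact hio (add_left_cancel h)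
    · intro x hx
      rw [mem_coe] at hx
      unfold Rb at hx
      rw [mem_filter] at hx
      obtain ⟨h1, u, hu, rfl⟩ := hx
      exact ⟨u, (mem_bR io).2 ⟨hu, h1⟩, rfl⟩
    · intro u _
      rfl
  have e2 : sG io G p m₁ m₂
      = ∑ u ∈ bR io R p m₁ m₂, G (p + io u) + ∑ u ∈ bN io R p m₁ m₂, G (p + io u) := by
    unfold sG bR bN
    exact (sum_filter_add_sum_filter_not (bx m₁ m₂) (fun u => p + io u ∈ R) _).symm
  have hb : ∀ S : Finset (ℤ × ℤ), |∑ u ∈ S, G (p + io u)| ≤ C * S.card := by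
    intro S
    calc |∑ u ∈ S, G (p + io u)| ≤ ∑ u ∈ S, |G (p + io u)| := abs_sum_le_sum_abs _ _
      _ ≤ ∑ _u ∈ S, C := sum_le_sum fun u _ => hG _
      _ = C * S.card := by rw [sum_const, nsmul_eq_mul, mul_comm]
  have hN : (0 : ℝ) < (m₁ : ℝ) * m₂ := by
    have : (0 : ℝ) < m₁ := by exact_mod_cast h1
    have : (0 : ℝ) < m₂ := by exact_mod_cast h2
    positivity
  have hcard : ((bR io R p m₁ m₂).card : ℝ) + (bN io R p m₁ m₂).card = (m₁ : ℝ) * m₂ := by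
    exact_mod_cast card_bR_add io R p m₁ m₂
  have hs : |sG io G p m₁ m₂| ≤ C * ((m₁ : ℝ) * m₂) := by
    have h3 := hb (bx m₁ m₂)
    rw [card_bx] at h3
    push_cast at h3
    exact h3
  have hrd : |rd io R p m₁ m₂ * sG io G p m₁ m₂| ≤ C * (bR io R p m₁ m₂).card := by
    rw [abs_mul, rd, abs_div, abs_of_pos hN, Nat.abs_cast]
    calc ((bR io R p m₁ m₂).card : ℝ) / ((m₁ : ℝ) * m₂) * |sG io G p m₁ m₂|
        ≤ ((bR io R p m₁ m₂).card : ℝ) / ((m₁ : ℝ) * m₂) * (C * ((m₁ : ℝ) * m₂)) :=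
          mul_le_mul_of_nonneg_left hs (by positivity)
      _ = C * (bR io R p m₁ m₂).card := by field_simp
  have hrd' : |(1 - rd io R p m₁ m₂) * sG io G p m₁ m₂| ≤ C * (bN io R p m₁ m₂).card := by
    have h3 : 1 - rd io R p m₁ m₂ = ((bN io R p m₁ m₂).card : ℝ) / ((m₁ : ℝ) * m₂) := by
      rw [rd, eq_div_iff hN.ne', sub_mul, div_mul_cancel₀ _ hN.ne']
      linarith
    rw [abs_mul, h3, abs_div, abs_of_pos hN, Nat.abs_cast]
    calc ((bN io R p m₁ m₂).card : ℝ) / ((m₁ : ℝ) * m₂) * |sG io G p m₁ m₂|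
        ≤ ((bN io R p m₁ m₂).card : ℝ) / ((m₁ : ℝ) * m₂) * (C * ((m₁ : ℝ) * m₂)) :=
          mul_le_mul_of_nonneg_left hs (by positivity)
      _ = C * (bN io R p m₁ m₂).card := by field_simp
  rcases iso_V hio R p m₁ m₂ with h | h
  · have h3 : ((bR io R p m₁ m₂).card : ℝ) ≤ ((m₁ + m₂ : ℕ) : ℝ) * (dn io R p m₁ m₂).card := by
      exact_mod_cast h
    rw [e1]
    calc _ ≤ |∑ u ∈ bR io R p m₁ m₂, G (p + io u)| + |rd io R p m₁ m₂ * sG io G p m₁ m₂| :=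
          abs_sub _ _
      _ ≤ C * (bR io R p m₁ m₂).card + C * (bR io R p m₁ m₂).card := add_le_add (hb _) hrd
      _ = 2 * C * (bR io R p m₁ m₂).card := by ring
      _ ≤ _ := mul_le_mul_of_nonneg_left h3 (by positivity)
  · have h3 : ((bN io R p m₁ m₂).card : ℝ) ≤ ((m₁ + m₂ : ℕ) : ℝ) * (dn io R p m₁ m₂).card := by
      exact_mod_cast h
    have e3 : ∑ x ∈ Rb io R p m₁ m₂, G x - rd io R p m₁ m₂ * sG io G p m₁ m₂
        = (1 - rd io R p m₁ m₂) * sG io G p m₁ m₂ - ∑ u ∈ bN io R p m₁ m₂, G (p + io u) := by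
      rw [e1, sub_mul, one_mul]
      rw [e2]
      ring
    rw [e3]
    calc _ ≤ |(1 - rd io R p m₁ m₂) * sG io G p m₁ m₂| + |∑ u ∈ bN io R p m₁ m₂, G (p + io u)| :=
          abs_sub _ _
      _ ≤ C * (bN io R p m₁ m₂).card + C * (bN io R p m₁ m₂).card := add_le_add hrd' (hb _)
      _ = 2 * C * (bN io R p m₁ m₂).card := by ring
      _ ≤ _ := mul_le_mul_of_nonneg_left h3 (by positivity)

/-- one step: a complete block of level `n + 1` -/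
theorem step_block (hio : Function.Injective io) {G : V → ℝ} {E : ℝ}
    (R : Finset V) (p : V) {m₁ m₂ : ℕ} (h1 : 0 < m₁) (h2 : 0 < m₂)
    (hs : ∀ i j : ℕ, i < 4 → j < 4 →
      |sG io G (p + io ((m₁ : ℤ) * (i : ℤ), (m₂ : ℤ) * (j : ℤ))) m₁ m₂| ≤ E) :
    |(∑ i ∈ range 4, ∑ j ∈ range 4,
        rd io R (p + io ((m₁ : ℤ) * (i : ℤ), (m₂ : ℤ) * (j : ℤ))) m₁ m₂ *
        sG io G (p + io ((m₁ : ℤ) * (i : ℤ), (m₂ : ℤ) * (j : ℤ))) m₁ m₂)
      - rd io R p (m₁ * 4) (m₂ * 4) * sG io G p (m₁ * 4) (m₂ * 4)|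
      ≤ 64 * E * (((m₁ : ℝ) + m₂) / ((m₁ : ℝ) * m₂)) * (dn io R p (m₁ * 4) (m₂ * 4)).card := by
  have hm₁ : (0 : ℝ) < m₁ := by exact_mod_cast h1
  have hm₂ : (0 : ℝ) < m₂ := by exact_mod_cast h2
  have hN : (0 : ℝ) < (m₁ : ℝ) * m₂ := by positivity
  set D : ℝ := (((m₁ * 4 + m₂ * 4 : ℕ) : ℝ)) * (dn io R p (m₁ * 4) (m₂ * 4)).card with hD
  have e1 : sG io G p (m₁ * 4) (m₂ * 4) = ∑ i ∈ range 4, ∑ j ∈ range 4,
      sG io G (p + io ((m₁ : ℤ) * (i : ℤ), (m₂ : ℤ) * (j : ℤ))) m₁ m₂ := by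
    unfold sG
    rw [split2 h1 h2]
    refine sum_congr rfl fun i _ => sum_congr rfl fun j _ => sum_congr rfl fun v _ => ?_
    rw [io_sub]
  have e2 : (∑ i ∈ range 4, ∑ j ∈ range 4,
        rd io R (p + io ((m₁ : ℤ) * (i : ℤ), (m₂ : ℤ) * (j : ℤ))) m₁ m₂ *
        sG io G (p + io ((m₁ : ℤ) * (i : ℤ), (m₂ : ℤ) * (j : ℤ))) m₁ m₂)
      - rd io R p (m₁ * 4) (m₂ * 4) * sG io G p (m₁ * 4) (m₂ * 4)
      = ∑ i ∈ range 4, ∑ j ∈ range 4,
        (rd io R (p + io ((m₁ : ℤ) * (i : ℤ), (m₂ : ℤ) * (j : ℤ))) m₁ m₂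
          - rd io R p (m₁ * 4) (m₂ * 4)) *
        sG io G (p + io ((m₁ : ℤ) * (i : ℤ), (m₂ : ℤ) * (j : ℤ))) m₁ m₂ := by
    rw [e1, mul_sum, ← sum_sub_distrib]
    refine sum_congr rfl fun i _ => ?_
    rw [mul_sum, ← sum_sub_distrib]
    refine sum_congr rfl fun j _ => ?_
    ring
  have e3 : ∀ i j : ℕ, i < 4 → j < 4 →
      |rd io R (p + io ((m₁ : ℤ) * (i : ℤ), (m₂ : ℤ) * (j : ℤ))) m₁ m₂
          - rd io R p (m₁ * 4) (m₂ * 4)| ≤ D / ((m₁ : ℝ) * m₂) := by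
    intro i j hi hj
    have g1 : (((bR io R (p + io ((m₁ : ℤ) * (i : ℤ), (m₂ : ℤ) * (j : ℤ))) m₁ m₂).card : ℝ))
        ≤ (bR io R p (m₁ * 4) (m₂ * 4)).card := by exact_mod_cast card_bR_sub R p hi hj
    have g2 : (((bN io R (p + io ((m₁ : ℤ) * (i : ℤ), (m₂ : ℤ) * (j : ℤ))) m₁ m₂).card : ℝ))
        ≤ (bN io R p (m₁ * 4) (m₂ * 4)).card := by exact_mod_cast card_bN_sub R p hi hj
    have g3 : (((bR io R (p + io ((m₁ : ℤ) * (i : ℤ), (m₂ : ℤ) * (j : ℤ))) m₁ m₂).card : ℝ))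
        + (bN io R (p + io ((m₁ : ℤ) * (i : ℤ), (m₂ : ℤ) * (j : ℤ))) m₁ m₂).card
        = (m₁ : ℝ) * m₂ := by exact_mod_cast card_bR_add io R _ m₁ m₂
    have g4 : ((bR io R p (m₁ * 4) (m₂ * 4)).card : ℝ) + (bN io R p (m₁ * 4) (m₂ * 4)).card
        = 16 * ((m₁ : ℝ) * m₂) := by
      have := card_bR_add io R p (m₁ * 4) (m₂ * 4)
      have h' : ((bR io R p (m₁ * 4) (m₂ * 4)).card : ℝ) + (bN io R p (m₁ * 4) (m₂ * 4)).card
          = ((m₁ : ℝ) * 4) * (m₂ * 4) := by exact_mod_cast this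
      rw [h']
      ring
    have g5 : ((bR io R p (m₁ * 4) (m₂ * 4)).card : ℝ) ≤ D ∨
        ((bN io R p (m₁ * 4) (m₂ * 4)).card : ℝ) ≤ D := by
      rcases iso_V hio R p (m₁ * 4) (m₂ * 4) with h | h
      · left
        rw [hD]
        exact_mod_cast h
      · right
        rw [hD]
        exact_mod_cast h
    have g6 := dens_aux hN (by positivity) (by positivity) (by positivity) (by positivity)
      g1 g2 g3 g4 g5
    have g7 : rd io R p (m₁ * 4) (m₂ * 4)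
        = ((bR io R p (m₁ * 4) (m₂ * 4)).card : ℝ) / (16 * ((m₁ : ℝ) * m₂)) := by
      rw [rd]
      congr 1
      push_cast
      ring
    rw [g7]
    exact g6
  have hD0 : 0 ≤ D := by positivity
  rw [e2]
  calc _ ≤ ∑ i ∈ range 4, |∑ j ∈ range 4,
        (rd io R (p + io ((m₁ : ℤ) * (i : ℤ), (m₂ : ℤ) * (j : ℤ))) m₁ m₂
          - rd io R p (m₁ * 4) (m₂ * 4)) *
        sG io G (p + io ((m₁ : ℤ) * (i : ℤ), (m₂ : ℤ) * (j : ℤ))) m₁ m₂| :=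
        abs_sum_le_sum_abs _ _
    _ ≤ ∑ i ∈ range 4, ∑ j ∈ range 4, D / ((m₁ : ℝ) * m₂) * E := by
        refine sum_le_sum fun i hi => ?_
        refine (abs_sum_le_sum_abs _ _).trans (sum_le_sum fun j hj => ?_)
        rw [abs_mul]
        exact mul_le_mul (e3 i j (mem_range.1 hi) (mem_range.1 hj))
          (hs i j (mem_range.1 hi) (mem_range.1 hj)) (abs_nonneg _) (by positivity)
    _ = 64 * E * (((m₁ : ℝ) + m₂) / ((m₁ : ℝ) * m₂)) * (dn io R p (m₁ * 4) (m₂ * 4)).card := by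
        rw [sum_const, sum_const, card_range, hD]
        simp only [nsmul_eq_mul]
        push_cast
        ring

/-- `p` is the corner of one of the sixteen parts of a block with corner in `S'` -/
def HasPar (io : ℤ × ℤ →+ V) (S' : Finset V) (m₁ m₂ : ℕ) (p : V) : Prop :=
  ∃ p' ∈ S', ∃ i j : ℕ, i < 4 ∧ j < 4 ∧ p = p' + io ((m₁ : ℤ) * (i : ℤ), (m₂ : ℤ) * (j : ℤ))

/-- splitting the blocks of level `n` into terminal blocks and parts of blocks of level `n + 1` -/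
theorem sum_split {S S' : Finset V} {m₁ m₂ : ℕ} (h1 : 0 < m₁) (h2 : 0 < m₂)
    (hch : ∀ p ∈ S', ∀ i j : ℕ, i < 4 → j < 4 →
      p + io ((m₁ : ℤ) * (i : ℤ), (m₂ : ℤ) * (j : ℤ)) ∈ S)
    (hS' : ∀ p ∈ S', ∀ u : ℤ × ℤ, |u.1| < ((m₁ * 4 : ℕ) : ℤ) → |u.2| < ((m₂ * 4 : ℕ) : ℤ) →
      p + io u ∈ S' → u = 0)
    [DecidablePred (HasPar io S' m₁ m₂)] (F : V → ℝ) :
    ∑ p ∈ S, F p = ∑ p ∈ S.filter (fun p => ¬ HasPar io S' m₁ m₂ p), F p
      + ∑ p ∈ S', ∑ i ∈ range 4, ∑ j ∈ range 4,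
        F (p + io ((m₁ : ℤ) * (i : ℤ), (m₂ : ℤ) * (j : ℤ))) := by
  classical
  have hm₁' : (0 : ℤ) < m₁ := by exact_mod_cast h1
  have hm₂' : (0 : ℤ) < m₂ := by exact_mod_cast h2
  rw [← sum_filter_add_sum_filter_not S (HasPar io S' m₁ m₂) F, add_comm]
  congr 1
  have e1 : ∑ p ∈ S', ∑ i ∈ range 4, ∑ j ∈ range 4,
        F (p + io ((m₁ : ℤ) * (i : ℤ), (m₂ : ℤ) * (j : ℤ)))
      = ∑ t ∈ S' ×ˢ (range 4 ×ˢ range 4),
        F (t.1 + io ((m₁ : ℤ) * (t.2.1 : ℤ), (m₂ : ℤ) * (t.2.2 : ℤ))) := by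
    rw [sum_product]
    refine sum_congr rfl fun p _ => ?_
    rw [sum_product]
  rw [e1]
  symm
  refine sum_nbij (fun t => t.1 + io ((m₁ : ℤ) * (t.2.1 : ℤ), (m₂ : ℤ) * (t.2.2 : ℤ))) ?_ ?_ ?_ ?_
  · intro t ht
    rw [mem_product, mem_product, mem_range, mem_range] at ht
    rw [mem_filter]
    exact ⟨hch t.1 ht.1 _ _ ht.2.1 ht.2.2, t.1, ht.1, t.2.1, t.2.2, ht.2.1, ht.2.2, rfl⟩
  · intro t ht t' ht' h
    rw [mem_coe, mem_product, mem_product, mem_range, mem_range] at ht ht'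
    obtain ⟨q, i, j⟩ := t
    obtain ⟨q', i', j'⟩ := t'
    simp only at ht ht' h
    have g1 : q' = q + io ((m₁ : ℤ) * ((i : ℤ) - i'), (m₂ : ℤ) * ((j : ℤ) - j')) := by
      have e3 : ((m₁ : ℤ) * ((i : ℤ) - i'), (m₂ : ℤ) * ((j : ℤ) - j'))
          = ((m₁ : ℤ) * (i : ℤ), (m₂ : ℤ) * (j : ℤ)) - ((m₁ : ℤ) * (i' : ℤ), (m₂ : ℤ) * (j' : ℤ)) := by
        rw [Prod.mk_sub_mk]
        congr 1 <;> ring
      rw [e3, map_sub, ← add_sub_assoc, h, add_sub_cancel_right]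
    have hlt : ∀ (m : ℤ) (x y : ℕ), 0 < m → x < 4 → y < 4 → |m * ((x : ℤ) - y)| < m * 4 := by
      intro m x y hm hx hy
      rw [abs_mul, abs_of_pos hm]
      refine mul_lt_mul_of_pos_left ?_ hm
      rw [abs_lt]
      omega
    have g2 := hS' q ht.1 ((m₁ : ℤ) * ((i : ℤ) - i'), (m₂ : ℤ) * ((j : ℤ) - j'))
      (by push_cast; exact hlt _ _ _ hm₁' ht.2.1 ht'.2.1)
      (by push_cast; exact hlt _ _ _ hm₂' ht.2.2 ht'.2.2) (by rw [← g1]; exact ht'.1)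
    have g3 : (m₁ : ℤ) * ((i : ℤ) - i') = 0 := congrArg Prod.fst g2
    have g4 : (m₂ : ℤ) * ((j : ℤ) - j') = 0 := congrArg Prod.snd g2
    rw [g2, map_zero, add_zero] at g1
    have g5 : (i : ℤ) - i' = 0 := by
      rcases mul_eq_zero.1 g3 with h | h
      · omega
      · exact h
    have g6 : (j : ℤ) - j' = 0 := by
      rcases mul_eq_zero.1 g4 with h | h
      · omega
      · exact h
    have g7 : i = i' := by omega
    have g8 : j = j' := by omega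
    rw [g1, g7, g8]
  · intro p hp
    rw [mem_coe, mem_filter] at hp
    obtain ⟨_, p', hp', i, j, hi, hj, h⟩ := hp
    refine ⟨(p', i, j), ?_, h.symm⟩
    rw [mem_coe, mem_product, mem_product, mem_range, mem_range]
    exact ⟨hp', hi, hj⟩
  · intro t _
    rfl

/-- the weighted sum at level `n` -/
noncomputable def TT (io : ℤ × ℤ →+ V) (G : V → ℝ) (R : Finset V) (Gd : ℕ → Finset V) (A B n : ℕ) :
    ℝ :=
  ∑ p ∈ Gd n, rd io R p (A * 4 ^ n) (B * 4 ^ n) * sG io G p (A * 4 ^ n) (B * 4 ^ n)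

theorem step_level (hio : Function.Injective io) {A B c : ℕ} (hA : 0 < A) (hB : 0 < B) {κ C : ℝ}
    (hκ : 0 ≤ κ) (hC : 0 ≤ C) (G : V → ℝ) (Gd : ℕ → Finset V) (R : Finset V)
    (hsep : ∀ n, ∀ p ∈ Gd n, ∀ u : ℤ × ℤ, |u.1| < ((A * 4 ^ n : ℕ) : ℤ) →
      |u.2| < ((B * 4 ^ n : ℕ) : ℤ) → p + io u ∈ Gd n → u = 0)
    (hch : ∀ n, ∀ p ∈ Gd (n + 1), ∀ i j : ℕ, i < 4 → j < 4 →
      p + io (((A * 4 ^ n : ℕ) : ℤ) * (i : ℤ), ((B * 4 ^ n : ℕ) : ℤ) * (j : ℤ)) ∈ Gd n)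
    (hs : ∀ n, ∀ p ∈ Gd n, |sG io G p (A * 4 ^ n) (B * 4 ^ n)| ≤ C * κ ^ n)
    (ht : ∀ n, ∀ p ∈ Gd n, (¬ ∃ p' ∈ Gd (n + 1), ∃ i j : ℕ, i < 4 ∧ j < 4 ∧
        p = p' + io (((A * 4 ^ n : ℕ) : ℤ) * (i : ℤ), ((B * 4 ^ n : ℕ) : ℤ) * (j : ℤ))) →
      ((Rb io R p ((A * 4 ^ n : ℕ) : ℤ) ((B * 4 ^ n : ℕ) : ℤ)).card : ℝ) ≤
        C * 4 ^ n * fcn io R p ((c * 4 ^ n : ℕ) : ℤ) ((c * 4 ^ n : ℕ) : ℤ)) (n : ℕ) :
    |TT io G R Gd A B n - TT io G R Gd A B (n + 1)| ≤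
      ((2 * (2 * (c : ℝ) + 1) ^ 2 * C ^ 2 + 128 * C * (A + B)) *
        (((Bd R (io (1, 0))).card : ℝ) + (Bd R (io (0, 1))).card)) * (κ / 4) ^ n := by
  classical
  set P : ℝ := ((Bd R (io (1, 0))).card : ℝ) + (Bd R (io (0, 1))).card with hP
  have hA' : (1 : ℝ) ≤ A := by exact_mod_cast hA
  have hB' : (1 : ℝ) ≤ B := by exact_mod_cast hB
  have hm₁ : 0 < A * 4 ^ n := by positivity
  have hm₂ : 0 < B * 4 ^ n := by positivity
  have h4n : (0 : ℝ) < 4 ^ n := by positivity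
  have e4 : A * 4 ^ (n + 1) = A * 4 ^ n * 4 := by rw [pow_succ, mul_assoc]
  have e4' : B * 4 ^ (n + 1) = B * 4 ^ n * 4 := by rw [pow_succ, mul_assoc]
  have hAB : (1 : ℝ) ≤ (A : ℝ) * B := one_le_mul_of_one_le_of_one_le hA' hB'
  have hF : ((∑ p ∈ Gd n, fcn io R p ((c * 4 ^ n : ℕ) : ℤ) ((c * 4 ^ n : ℕ) : ℤ) : ℕ) : ℝ)
      ≤ (2 * (c : ℝ) + 1) ^ 2 * (2 * P) := by
    have := sum_fcn (io := io) R (Gd n) (M := c * 4 ^ n) c hm₁ hm₂
      (Nat.mul_le_mul_left c (Nat.le_mul_of_pos_left _ hA))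
      (Nat.mul_le_mul_left c (Nat.le_mul_of_pos_left _ hB)) (hsep n)
    rw [hP]
    exact_mod_cast this
  have hD : ((∑ p ∈ Gd (n + 1), (dn io R p (A * 4 ^ n * 4) (B * 4 ^ n * 4)).card : ℕ) : ℝ)
      ≤ 2 * P := by
    have h1 := sum_dn (io := io) R (Gd (n + 1)) (A * 4 ^ n * 4) (B * 4 ^ n * 4) (by
      rw [← e4, ← e4']
      exact hsep (n + 1))
    have h2 := h1.trans (card_dV (io := io) R)
    rw [hP]
    exact_mod_cast h2
  have hsp := sum_split (io := io) (S := Gd n) (S' := Gd (n + 1)) hm₁ hm₂ (hch n) (by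
    rw [← e4, ← e4']
    exact hsep (n + 1)) (fun p => rd io R p (A * 4 ^ n) (B * 4 ^ n) *
      sG io G p (A * 4 ^ n) (B * 4 ^ n))
  have hT : TT io G R Gd A B n - TT io G R Gd A B (n + 1)
      = (∑ p ∈ (Gd n).filter (fun p => ¬ HasPar io (Gd (n + 1)) (A * 4 ^ n) (B * 4 ^ n) p),
        rd io R p (A * 4 ^ n) (B * 4 ^ n) * sG io G p (A * 4 ^ n) (B * 4 ^ n))
      + ∑ p ∈ Gd (n + 1), ((∑ i ∈ range 4, ∑ j ∈ range 4,
        rd io R (p + io (((A * 4 ^ n : ℕ) : ℤ) * (i : ℤ), ((B * 4 ^ n : ℕ) : ℤ) * (j : ℤ)))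
          (A * 4 ^ n) (B * 4 ^ n) *
        sG io G (p + io (((A * 4 ^ n : ℕ) : ℤ) * (i : ℤ), ((B * 4 ^ n : ℕ) : ℤ) * (j : ℤ)))
          (A * 4 ^ n) (B * 4 ^ n))
        - rd io R p (A * 4 ^ n * 4) (B * 4 ^ n * 4) * sG io G p (A * 4 ^ n * 4) (B * 4 ^ n * 4)) := by
    unfold TT
    rw [hsp, e4, e4', sum_sub_distrib]
    ring
  have hterm : |∑ p ∈ (Gd n).filter (fun p => ¬ HasPar io (Gd (n + 1)) (A * 4 ^ n) (B * 4 ^ n) p),
        rd io R p (A * 4 ^ n) (B * 4 ^ n) * sG io G p (A * 4 ^ n) (B * 4 ^ n)|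
      ≤ C ^ 2 * (κ / 4) ^ n * ((2 * (c : ℝ) + 1) ^ 2 * (2 * P)) := by
    calc _ ≤ ∑ p ∈ (Gd n).filter (fun p => ¬ HasPar io (Gd (n + 1)) (A * 4 ^ n) (B * 4 ^ n) p),
          |rd io R p (A * 4 ^ n) (B * 4 ^ n) * sG io G p (A * 4 ^ n) (B * 4 ^ n)| :=
          abs_sum_le_sum_abs _ _
      _ ≤ ∑ p ∈ (Gd n).filter (fun p => ¬ HasPar io (Gd (n + 1)) (A * 4 ^ n) (B * 4 ^ n) p),
          C ^ 2 * (κ / 4) ^ n * (fcn io R p ((c * 4 ^ n : ℕ) : ℤ) ((c * 4 ^ n : ℕ) : ℤ) : ℝ) := by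
          refine sum_le_sum fun p hp => ?_
          rw [mem_filter] at hp
          have g1 := ht n p hp.1 hp.2
          rw [card_Rb hio] at g1
          have g2 := hs n p hp.1
          have hN : (0 : ℝ) < ((A * 4 ^ n : ℕ) : ℝ) * ((B * 4 ^ n : ℕ) : ℝ) := by positivity
          have g3 : |rd io R p (A * 4 ^ n) (B * 4 ^ n)|
              ≤ C * (fcn io R p ((c * 4 ^ n : ℕ) : ℤ) ((c * 4 ^ n : ℕ) : ℤ) : ℝ) / 4 ^ n := by
            rw [rd, abs_div, abs_of_pos hN, Nat.abs_cast, div_le_div_iff₀ hN h4n]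
            push_cast
            have g4 : (0 : ℝ) ≤ C * (fcn io R p ((c * 4 ^ n : ℕ) : ℤ) ((c * 4 ^ n : ℕ) : ℤ) : ℝ) := by
              positivity
            push_cast at g1 g4
            calc ((bR io R p (A * 4 ^ n) (B * 4 ^ n)).card : ℝ) * 4 ^ n
                ≤ (C * 4 ^ n * (fcn io R p (c * 4 ^ n) (c * 4 ^ n) : ℝ)) * 4 ^ n :=
                  mul_le_mul_of_nonneg_right g1 h4n.le
              _ = (C * (fcn io R p (c * 4 ^ n) (c * 4 ^ n) : ℝ)) * (4 ^ n * 4 ^ n) * 1 := by ring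
              _ ≤ (C * (fcn io R p (c * 4 ^ n) (c * 4 ^ n) : ℝ)) * (4 ^ n * 4 ^ n) *
                  ((A : ℝ) * B) := mul_le_mul_of_nonneg_left hAB (by positivity)
              _ = _ := by ring
          rw [abs_mul]
          calc _ ≤ (C * (fcn io R p ((c * 4 ^ n : ℕ) : ℤ) ((c * 4 ^ n : ℕ) : ℤ) : ℝ) / 4 ^ n) *
                (C * κ ^ n) := mul_le_mul g3 g2 (abs_nonneg _) (by positivity)
            _ = _ := by
              rw [div_pow]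
              ring
      _ ≤ ∑ p ∈ Gd n,
          C ^ 2 * (κ / 4) ^ n * (fcn io R p ((c * 4 ^ n : ℕ) : ℤ) ((c * 4 ^ n : ℕ) : ℤ) : ℝ) :=
          sum_le_sum_of_subset_of_nonneg (filter_subset _ _) fun p _ _ => by positivity
      _ = C ^ 2 * (κ / 4) ^ n *
          ((∑ p ∈ Gd n, fcn io R p ((c * 4 ^ n : ℕ) : ℤ) ((c * 4 ^ n : ℕ) : ℤ) : ℕ) : ℝ) := by
          rw [← mul_sum, Nat.cast_sum]
      _ ≤ _ := mul_le_mul_of_nonneg_left hF (by positivity)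
  have hstep : |∑ p ∈ Gd (n + 1), ((∑ i ∈ range 4, ∑ j ∈ range 4,
        rd io R (p + io (((A * 4 ^ n : ℕ) : ℤ) * (i : ℤ), ((B * 4 ^ n : ℕ) : ℤ) * (j : ℤ)))
          (A * 4 ^ n) (B * 4 ^ n) *
        sG io G (p + io (((A * 4 ^ n : ℕ) : ℤ) * (i : ℤ), ((B * 4 ^ n : ℕ) : ℤ) * (j : ℤ)))
          (A * 4 ^ n) (B * 4 ^ n))
        - rd io R p (A * 4 ^ n * 4) (B * 4 ^ n * 4) * sG io G p (A * 4 ^ n * 4) (B * 4 ^ n * 4))|
      ≤ 64 * C * ((A : ℝ) + B) * (κ / 4) ^ n * (2 * P) := by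
    calc _ ≤ ∑ p ∈ Gd (n + 1), |(∑ i ∈ range 4, ∑ j ∈ range 4,
        rd io R (p + io (((A * 4 ^ n : ℕ) : ℤ) * (i : ℤ), ((B * 4 ^ n : ℕ) : ℤ) * (j : ℤ)))
          (A * 4 ^ n) (B * 4 ^ n) *
        sG io G (p + io (((A * 4 ^ n : ℕ) : ℤ) * (i : ℤ), ((B * 4 ^ n : ℕ) : ℤ) * (j : ℤ)))
          (A * 4 ^ n) (B * 4 ^ n))
        - rd io R p (A * 4 ^ n * 4) (B * 4 ^ n * 4) * sG io G p (A * 4 ^ n * 4) (B * 4 ^ n * 4)| :=
          abs_sum_le_sum_abs _ _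
      _ ≤ ∑ p ∈ Gd (n + 1), 64 * C * ((A : ℝ) + B) * (κ / 4) ^ n *
          ((dn io R p (A * 4 ^ n * 4) (B * 4 ^ n * 4)).card : ℝ) := by
          refine sum_le_sum fun p hp => ?_
          refine (step_block hio (E := C * κ ^ n) R p hm₁ hm₂ fun i j hi hj =>
            hs n _ (hch n p hp i j hi hj)).trans ?_
          refine mul_le_mul_of_nonneg_right ?_ (by positivity)
          have g1 : (((A * 4 ^ n : ℕ) : ℝ) + ((B * 4 ^ n : ℕ) : ℝ)) /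
              (((A * 4 ^ n : ℕ) : ℝ) * ((B * 4 ^ n : ℕ) : ℝ)) ≤ ((A : ℝ) + B) / 4 ^ n := by
            push_cast
            rw [div_le_div_iff₀ (by positivity) h4n]
            calc ((A : ℝ) * 4 ^ n + B * 4 ^ n) * 4 ^ n
                = ((A : ℝ) + B) * (4 ^ n * 4 ^ n) * 1 := by ring
              _ ≤ ((A : ℝ) + B) * (4 ^ n * 4 ^ n) * ((A : ℝ) * B) :=
                mul_le_mul_of_nonneg_left hAB (by positivity)
              _ = _ := by ring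
          calc 64 * (C * κ ^ n) * ((((A * 4 ^ n : ℕ) : ℝ) + ((B * 4 ^ n : ℕ) : ℝ)) /
              (((A * 4 ^ n : ℕ) : ℝ) * ((B * 4 ^ n : ℕ) : ℝ)))
              ≤ 64 * (C * κ ^ n) * (((A : ℝ) + B) / 4 ^ n) :=
                mul_le_mul_of_nonneg_left g1 (by positivity)
            _ = _ := by
              rw [div_pow]
              ring
      _ = 64 * C * ((A : ℝ) + B) * (κ / 4) ^ n *
          ((∑ p ∈ Gd (n + 1), (dn io R p (A * 4 ^ n * 4) (B * 4 ^ n * 4)).card : ℕ) : ℝ) := by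
          rw [← mul_sum, Nat.cast_sum]
      _ ≤ _ := mul_le_mul_of_nonneg_left hD (by positivity)
  rw [hT]
  refine (abs_add_le _ _).trans ((add_le_add hterm hstep).trans (le_of_eq ?_))
  ring

/-- the telescoping estimate -/
theorem core (hio : Function.Injective io) {A B c : ℕ} (hA : 0 < A) (hB : 0 < B) {κ C : ℝ}
    (hκ : 0 ≤ κ) (h4 : κ < 4) (hC : 0 ≤ C) (G : V → ℝ) (Gd : ℕ → Finset V) (R : Finset V)
    (hG : ∀ x, |G x| ≤ C)
    (hsep : ∀ n, ∀ p ∈ Gd n, ∀ u : ℤ × ℤ, |u.1| < ((A * 4 ^ n : ℕ) : ℤ) →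
      |u.2| < ((B * 4 ^ n : ℕ) : ℤ) → p + io u ∈ Gd n → u = 0)
    (hch : ∀ n, ∀ p ∈ Gd (n + 1), ∀ i j : ℕ, i < 4 → j < 4 →
      p + io (((A * 4 ^ n : ℕ) : ℤ) * (i : ℤ), ((B * 4 ^ n : ℕ) : ℤ) * (j : ℤ)) ∈ Gd n)
    (hs : ∀ n, ∀ p ∈ Gd n, |sG io G p (A * 4 ^ n) (B * 4 ^ n)| ≤ C * κ ^ n)
    (ht : ∀ n, ∀ p ∈ Gd n, (¬ ∃ p' ∈ Gd (n + 1), ∃ i j : ℕ, i < 4 ∧ j < 4 ∧
        p = p' + io (((A * 4 ^ n : ℕ) : ℤ) * (i : ℤ), ((B * 4 ^ n : ℕ) : ℤ) * (j : ℤ))) →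
      ((Rb io R p ((A * 4 ^ n : ℕ) : ℤ) ((B * 4 ^ n : ℕ) : ℤ)).card : ℝ) ≤
        C * 4 ^ n * fcn io R p ((c * 4 ^ n : ℕ) : ℤ) ((c * 4 ^ n : ℕ) : ℤ))
    (hnear : ∀ x ∈ R, (¬ ∃ p ∈ Gd 0, ∃ u ∈ bx A B, x = p + io u) → x ∈ Near io (c : ℤ) R)
    {n0 : ℕ} (hn0 : Gd n0 = ∅) :
    |∑ x ∈ R, G x| ≤ (2 * C * (2 * (c : ℝ) + 1) ^ 2 + 4 * C * (A + B) +
      (2 * (2 * (c : ℝ) + 1) ^ 2 * C ^ 2 + 128 * C * (A + B)) * (1 - κ / 4)⁻¹) *
        (((Bd R (io (1, 0))).card : ℝ) + (Bd R (io (0, 1))).card) := by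
  classical
  set P : ℝ := ((Bd R (io (1, 0))).card : ℝ) + (Bd R (io (0, 1))).card with hP
  have hP0 : 0 ≤ P := by positivity
  set K1 : ℝ := 2 * (2 * (c : ℝ) + 1) ^ 2 * C ^ 2 + 128 * C * (A + B) with hK1
  have hK10 : 0 ≤ K1 := by positivity
  -- base
  have hcov : ∑ x ∈ R, G x = ∑ x ∈ R.filter (fun x => ¬ ∃ p ∈ Gd 0, ∃ u ∈ bx A B, x = p + io u), G x
      + ∑ p ∈ Gd 0, ∑ x ∈ Rb io R p A B, G x := by
    rw [← sum_filter_add_sum_filter_not R (fun x => ∃ p ∈ Gd 0, ∃ u ∈ bx A B, x = p + io u) G,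
      add_comm]
    congr 1
    rw [← sum_biUnion]
    · refine sum_congr ?_ fun _ _ => rfl
      ext x
      rw [mem_filter, mem_biUnion]
      constructor
      · rintro ⟨hx, p, hp, u, hu, h⟩
        refine ⟨p, hp, ?_⟩
        unfold Rb
        rw [mem_filter]
        exact ⟨hx, u, hu, h⟩
      · rintro ⟨p, hp, hx⟩
        unfold Rb at hx
        rw [mem_filter] at hx
        obtain ⟨hx, u, hu, h⟩ := hx
        exact ⟨hx, p, hp, u, hu, h⟩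
    · intro p hp q hq hpq
      show Disjoint _ _
      rw [Finset.disjoint_left]
      intro x hx hx'
      unfold Rb at hx hx'
      rw [mem_filter] at hx hx'
      obtain ⟨_, u, hu, h1⟩ := hx
      obtain ⟨_, v, hv, h2⟩ := hx'
      refine hpq (sep_eq (m₁ := A) (m₂ := B) ?_ hp hq hu hv (h1.symm.trans h2))
      have := hsep 0
      simpa using this
  have hunc : |∑ x ∈ R.filter (fun x => ¬ ∃ p ∈ Gd 0, ∃ u ∈ bx A B, x = p + io u), G x|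
      ≤ 2 * C * (2 * (c : ℝ) + 1) ^ 2 * P := by
    have h1 : (((R.filter (fun x => ¬ ∃ p ∈ Gd 0, ∃ u ∈ bx A B, x = p + io u)).card : ℤ))
        ≤ (2 * (c : ℤ) + 1) ^ 2 * (2 * ((Bd R (io (1, 0))).card + (Bd R (io (0, 1))).card)) := by
      refine le_trans ?_ (near_bound io (c : ℤ) (by positivity) R)
      have : (R.filter (fun x => ¬ ∃ p ∈ Gd 0, ∃ u ∈ bx A B, x = p + io u)).card
          ≤ (Near io (c : ℤ) R).card := by
        refine card_le_card ?_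
        intro x hx
        rw [mem_filter] at hx
        exact hnear x hx.1 hx.2
      exact_mod_cast this
    have h2 : (((R.filter (fun x => ¬ ∃ p ∈ Gd 0, ∃ u ∈ bx A B, x = p + io u)).card : ℝ))
        ≤ (2 * (c : ℝ) + 1) ^ 2 * (2 * P) := by
      rw [hP]
      exact_mod_cast h1
    calc _ ≤ ∑ x ∈ R.filter (fun x => ¬ ∃ p ∈ Gd 0, ∃ u ∈ bx A B, x = p + io u), |G x| :=
          abs_sum_le_sum_abs _ _
      _ ≤ ∑ _x ∈ R.filter (fun x => ¬ ∃ p ∈ Gd 0, ∃ u ∈ bx A B, x = p + io u), C :=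
          sum_le_sum fun x _ => hG x
      _ = C * ((R.filter (fun x => ¬ ∃ p ∈ Gd 0, ∃ u ∈ bx A B, x = p + io u)).card : ℝ) := by
          rw [sum_const, nsmul_eq_mul, mul_comm]
      _ ≤ C * ((2 * (c : ℝ) + 1) ^ 2 * (2 * P)) := mul_le_mul_of_nonneg_left h2 hC
      _ = _ := by ring
  have hbase : |∑ p ∈ Gd 0, ∑ x ∈ Rb io R p A B, G x - TT io G R Gd A B 0|
      ≤ 4 * C * (A + B) * P := by
    have h0 : TT io G R Gd A B 0 = ∑ p ∈ Gd 0, rd io R p A B * sG io G p A B := by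
      unfold TT
      simp only [pow_zero, mul_one]
    rw [h0, ← sum_sub_distrib]
    calc _ ≤ ∑ p ∈ Gd 0, |∑ x ∈ Rb io R p A B, G x - rd io R p A B * sG io G p A B| :=
          abs_sum_le_sum_abs _ _
      _ ≤ ∑ p ∈ Gd 0, 2 * C * (((A + B : ℕ) : ℝ) * (dn io R p A B).card) :=
          sum_le_sum fun p _ => base_block hio hC hG R p hA hB
      _ = 2 * C * ((A + B : ℕ) : ℝ) * ((∑ p ∈ Gd 0, (dn io R p A B).card : ℕ) : ℝ) := by
          rw [Nat.cast_sum, mul_sum]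
          refine sum_congr rfl fun p _ => ?_
          ring
      _ ≤ 2 * C * ((A + B : ℕ) : ℝ) * (2 * P) := by
          refine mul_le_mul_of_nonneg_left ?_ (by positivity)
          have h1 := sum_dn (io := io) R (Gd 0) A B (by
            have := hsep 0
            simpa using this)
          have h2 := h1.trans (card_dV (io := io) R)
          rw [hP]
          exact_mod_cast h2
      _ = _ := by
          push_cast
          ring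
  have hTT : |TT io G R Gd A B 0| ≤ K1 * P * (1 - κ / 4)⁻¹ := by
    have hr0 : 0 ≤ κ / 4 := by positivity
    have hr1 : κ / 4 < 1 := by linarith
    have e0 : TT io G R Gd A B n0 = 0 := by
      unfold TT
      rw [hn0, sum_empty]
    have e : TT io G R Gd A B 0 = ∑ n ∈ range n0,
        (TT io G R Gd A B n - TT io G R Gd A B (n + 1)) := by
      rw [Finset.sum_range_sub' (fun n => TT io G R Gd A B n), e0, sub_zero]
    rw [e]
    calc _ ≤ ∑ n ∈ range n0, |TT io G R Gd A B n - TT io G R Gd A B (n + 1)| :=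
          abs_sum_le_sum_abs _ _
      _ ≤ ∑ n ∈ range n0, K1 * P * (κ / 4) ^ n :=
          sum_le_sum fun n _ => step_level hio hA hB hκ hC G Gd R hsep hch hs ht n
      _ = K1 * P * ∑ n ∈ range n0, (κ / 4) ^ n := by rw [mul_sum]
      _ ≤ K1 * P * (1 - κ / 4)⁻¹ := by
          refine mul_le_mul_of_nonneg_left ?_ (by positivity)
          rw [← tsum_geometric_of_lt_one hr0 hr1]
          exact (summable_geometric_of_lt_one hr0 hr1).sum_le_tsum _ fun n _ => by positivity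
  have efin : ∑ x ∈ R, G x
      = ∑ x ∈ R.filter (fun x => ¬ ∃ p ∈ Gd 0, ∃ u ∈ bx A B, x = p + io u), G x
      + (∑ p ∈ Gd 0, ∑ x ∈ Rb io R p A B, G x - TT io G R Gd A B 0) + TT io G R Gd A B 0 := by
    rw [hcov]
    ring
  rw [efin]
  refine (abs_add_three _ _ _).trans ?_
  calc _ ≤ 2 * C * (2 * (c : ℝ) + 1) ^ 2 * P + 4 * C * (A + B) * P + K1 * P * (1 - κ / 4)⁻¹ :=
        add_le_add (add_le_add hunc hbase) hTT
    _ = _ := by ring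

end two

end G66

/-- PIECE I (general telescoping over complete blocks of a patch). -/
theorem telescope_gen {V : Type} [AddCommGroup V] (a b : ℤ) (ha : 0 < a) (hb : 0 < b)
    (κ C : ℝ) (h0 : 1 < κ) (h4 : κ < 4) (hC : 0 ≤ C) (c : ℤ) (hc : 0 ≤ c) :
    ∃ K : ℝ, 0 ≤ K ∧ ∀ (io : ℤ × ℤ →+ V), Function.Injective io → ∀ (G : V → ℝ)
      (Gd : ℕ → Finset V) (R : Finset V), (∀ x, |G x| ≤ C) →
    (∀ n, ∀ p ∈ Gd n, ∀ u : ℤ × ℤ, |u.1| < a * 4 ^ n → |u.2| < b * 4 ^ n → p + io u ∈ Gd n →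
      u = 0) →
    (∀ n, ∀ p ∈ Gd (n + 1), ∀ i j : ℕ, i < 4 → j < 4 →
      p + io (a * 4 ^ n * i, b * 4 ^ n * j) ∈ Gd n) →
    (∀ n, ∀ p ∈ Gd n, |∑ u ∈ Finset.Ico 0 (a * 4 ^ n) ×ˢ Finset.Ico 0 (b * 4 ^ n),
      G (p + io u)| ≤ C * κ ^ n) →
    (∀ n, ∀ p ∈ Gd n, (¬ ∃ p' ∈ Gd (n + 1), ∃ i j : ℕ, i < 4 ∧ j < 4 ∧
        p = p' + io (a * 4 ^ n * i, b * 4 ^ n * j)) →
      ((Rb io R p (a * 4 ^ n) (b * 4 ^ n)).card : ℝ) ≤
        C * 4 ^ n * fcn io R p (c * 4 ^ n) (c * 4 ^ n)) →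
    (∀ x ∈ R, (¬ ∃ p ∈ Gd 0, ∃ u ∈ Finset.Ico 0 a ×ˢ Finset.Ico 0 b, x = p + io u) →
      x ∈ Near io c R) →
    (∃ n0, ∀ n, n0 ≤ n → Gd n = ∅) →
    |∑ x ∈ R, G x| ≤ K * (((Bd R (io (1, 0))).card : ℝ) + (Bd R (io (0, 1))).card) := by
  obtain ⟨A, rfl⟩ := Int.eq_ofNat_of_zero_le ha.le
  obtain ⟨B, rfl⟩ := Int.eq_ofNat_of_zero_le hb.le
  obtain ⟨c, rfl⟩ := Int.eq_ofNat_of_zero_le hc
  have hA : 0 < A := by exact_mod_cast ha
  have hB : 0 < B := by exact_mod_cast hb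
  have h4' : 0 < 1 - κ / 4 := by linarith
  refine ⟨2 * C * (2 * (c : ℝ) + 1) ^ 2 + 4 * C * (A + B) +
      (2 * (2 * (c : ℝ) + 1) ^ 2 * C ^ 2 + 128 * C * (A + B)) * (1 - κ / 4)⁻¹, by positivity, ?_⟩
  intro io hio G Gd R hG hsep hch hs ht hnear hfin
  obtain ⟨n0, hn0⟩ := hfin
  have e1 : ∀ n, ((A * 4 ^ n : ℕ) : ℤ) = (A : ℤ) * 4 ^ n := fun n => by push_cast; rfl
  have e2 : ∀ n, ((B * 4 ^ n : ℕ) : ℤ) = (B : ℤ) * 4 ^ n := fun n => by push_cast; rfl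
  have e3 : ∀ n, ((c * 4 ^ n : ℕ) : ℤ) = (c : ℤ) * 4 ^ n := fun n => by push_cast; rfl
  refine G66.core hio (n0 := n0) hA hB (by linarith) h4 hC G Gd R hG ?_ ?_ ?_ ?_ ?_ (hn0 n0 le_rfl)
  · intro n
    rw [e1, e2]
    exact hsep n
  · intro n
    rw [e1, e2]
    exact hch n
  · intro n p hp
    unfold G66.sG G66.bx
    rw [e1, e2]
    exact hs n p hp
  · intro n
    rw [e1, e2, e3]
    exact ht n
  · exact hnear

end Pool.Agent.Helper42.Mk2
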