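import Pool.Agent.Helper42.Mk2.Good
import Pool.Agent.Helper42.Mk2.Cnt
import Pool.Agent.Helper42.Mk2.Dens
import Pool.Agent.Helper42.Mk2.TelGen
import Pool.Agent.Helper42.Mk2.Ring

set_option autoImplicit false

namespace Pool.Agent.Helper42.Mk2

open Finset

variable {V : Type} [AddCommGroup V]

theorem fcn_mono (io : ℤ × ℤ →+ V) (R : Finset V) (p : V) {M N M' N' : ℤ} (h1 : M ≤ M')
    (h2 : N ≤ N') : fcn io R p M N ≤ fcn io R p M' N' := by
  classical
  unfold fcn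
  apply Nat.add_le_add
  · apply card_le_card
    intro x hx
    rw [mem_filter] at hx ⊢
    obtain ⟨hx, u, a1, a2, a3⟩ := hx
    exact ⟨hx, u, by omega, by omega, a3⟩
  · apply card_le_card
    intro x hx
    rw [mem_filter] at hx ⊢
    obtain ⟨hx, u, a1, a2, a3⟩ := hx
    exact ⟨hx, u, by omega, by omega, a3⟩

section

variable {io : ℤ × ℤ →+ V} {k : ℤ} (hk : 0 < k)
  {ρ : ℤ} {P : Set V} {lab : V → Lab} (hloc : Loc io k ρ P lab) (hρ : 2 * (k * MM) ≤ ρ)

include hk hloc hρ in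
/-- the labels in a complete block -/
theorem block_label (N : ℕ) {q : V} (hq : q ∈ LV io k P lab N) {x y : ℤ} (hx : 0 ≤ x)
    (hx' : x < k * MM * 4 ^ N) (hy : 0 ≤ y) (hy' : y < k * 4 ^ N) :
    q + io (x, y) ∈ P ∧
      lab (q + io (x, y)) = enc k (upn N (fun _ _ => LL io k P lab N q)) x y := by
  have hM := MM_pos
  have hkM0 : 0 < k * MM := by positivity
  have m1 := Int.emod_nonneg x hkM0.ne'
  have m2 := Int.emod_lt_of_pos x hkM0
  have m3 := Int.emod_nonneg y hk.ne'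
  have m4 := Int.emod_lt_of_pos y hk
  have d1 := Int.emod_add_mul_ediv x (k * MM)
  have d2 := Int.emod_add_mul_ediv y k
  have q1 : 0 ≤ x / (k * MM) := Int.ediv_nonneg hx hkM0.le
  have q2 : x / (k * MM) < 4 ^ N := by
    apply Int.ediv_lt_of_lt_mul hkM0
    rw [mul_comm]
    exact hx'
  have q3 : 0 ≤ y / k := Int.ediv_nonneg hy hk.le
  have q4 : y / k < 4 ^ N := by
    apply Int.ediv_lt_of_lt_mul hk
    rw [mul_comm]
    exact hy'
  obtain ⟨h1, h2⟩ := lev_letters (base_pval hk hloc hρ) N hq q1 q2 q3 q4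
  have e : q + io (x, y) = q + io (k * MM * (x / (k * MM)), k * (y / k)) +
      io (x % (k * MM), y % k) := by
    rw [add_assoc, ← map_add]
    congr 2
    exact Prod.ext (by change x = k * MM * (x / (k * MM)) + x % (k * MM); omega)
      (by change y = k * (y / k) + y % k; omega)
  rw [e]
  refine ⟨h1.2.2 _ m1 m2 m3 m4, ?_⟩
  rw [base_label hk hloc hρ h1 m1 m2 m3 m4, h2]
  conv_rhs => rw [← d1, ← d2]
  rw [enc_shift hk]
  apply enc_zero_block' hk _ m1 m2 m3 m4
  simp only [zero_add]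
  rfl

/-- the letters of four neighbouring blocks -/
noncomputable def l4 (io : ℤ × ℤ →+ V) (k : ℤ) (P : Set V) (lab : V → Lab) (N : ℕ) (p : V) :
    W4 :=
  (LL io k P lab N p, LL io k P lab N (p + io (k * MM * 4 ^ N, 0)),
    LL io k P lab N (p + io (0, k * 4 ^ N)), LL io k P lab N (p + io (k * MM * 4 ^ N, k * 4 ^ N)))

include hk hloc hρ in
/-- the labels in a good block and its right and upper neighbours -/
theorem good_label (N : ℕ) {p : V} (hp : GP io k P lab N p) {x y : ℤ} (hx : 0 ≤ x)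
    (hx' : x < 2 * (k * MM * 4 ^ N)) (hy : 0 ≤ y) (hy' : y < 2 * (k * 4 ^ N)) :
    p + io (x, y) ∈ P ∧
      lab (p + io (x, y)) = enc k (upn N (ext4 (l4 io k P lab N p))) x y := by
  have key : ∀ I J : ℕ, I < 2 → J < 2 → ∀ x' y' : ℤ, 0 ≤ x' → x' < k * MM * 4 ^ N → 0 ≤ y' →
      y' < k * 4 ^ N → x = x' + k * MM * 4 ^ N * I → y = y' + k * 4 ^ N * J →
      LL io k P lab N (p + io (k * MM * 4 ^ N * I, k * 4 ^ N * J)) =
        ext4 (l4 io k P lab N p) I J →
      p + io (x, y) ∈ P ∧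
        lab (p + io (x, y)) = enc k (upn N (ext4 (l4 io k P lab N p))) x y := by
    intro I J hI hJ x' y' a1 a2 a3 a4 ex ey hl
    obtain ⟨h1, h2⟩ := block_label hk hloc hρ N (hp I J hI hJ) a1 a2 a3 a4
    have e : p + io (x, y) = p + io (k * MM * 4 ^ N * I, k * 4 ^ N * J) + io (x', y') := by
      rw [add_assoc, ← map_add]
      congr 2
      exact Prod.ext (by change x = k * MM * 4 ^ N * I + x'; omega)
        (by change y = k * 4 ^ N * J + y'; omega)
    rw [e]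
    refine ⟨h1, ?_⟩
    rw [h2, ex, ey, enc_upn_shift hk]
    apply enc_upn_congr hk N _ a1 a2 a3 a4
    simp only [zero_add]
    exact hl
  rcases lt_or_ge x (k * MM * 4 ^ N) with h1 | h1 <;> rcases lt_or_ge y (k * 4 ^ N) with h2 | h2
  · apply key 0 0 (by norm_num) (by norm_num) x y hx h1 hy h2 (by push_cast; ring)
      (by push_cast; ring)
    have e0 : ((k * MM * 4 ^ N * ((0 : ℕ) : ℤ), k * 4 ^ N * ((0 : ℕ) : ℤ)) : ℤ × ℤ) = 0 := by
      simp
    rw [e0, map_zero, add_zero]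
    simp [ext4, l4]
  · apply key 0 1 (by norm_num) (by norm_num) x (y - k * 4 ^ N) hx h1 (by linarith)
      (by linarith) (by push_cast; ring) (by push_cast; ring)
    simp [ext4, l4]
  · apply key 1 0 (by norm_num) (by norm_num) (x - k * MM * 4 ^ N) y (by linarith)
      (by linarith) hy h2 (by push_cast; ring) (by push_cast; ring)
    simp [ext4, l4]
  · apply key 1 1 (by norm_num) (by norm_num) (x - k * MM * 4 ^ N) (y - k * 4 ^ N) (by linarith)
      (by linarith) (by linarith) (by linarith) (by push_cast; ring) (by push_cast; ring)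
    simp [ext4, l4]

include hk hloc hρ in
theorem GP_self (N : ℕ) {p : V} (hp : GP io k P lab N p) : p ∈ LV io k P lab N := by
  have h := hp 0 0 (by norm_num) (by norm_num)
  have e0 : ((k * MM * 4 ^ N * ((0 : ℕ) : ℤ), k * 4 ^ N * ((0 : ℕ) : ℤ)) : ℤ × ℤ) = 0 := by
    simp
  rwa [e0, map_zero, add_zero] at h

include hk hloc hρ in
/-- the children of a good block are good -/
theorem GP_child (N : ℕ) {p : V} (hp : GP io k P lab (N + 1) p) {i j : ℕ} (hi : i < 4)
    (hj : j < 4) : GP io k P lab N (p + io (k * MM * 4 ^ N * i, k * 4 ^ N * j)) := by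
  intro x y hx hy
  have h1 := hp ((i + x) / 4) ((j + y) / 4) (by omega) (by omega)
  have h2 := (lev_child (base_pval hk hloc hρ) N h1 (i := (i + x) % 4) (j := (j + y) % 4)
    (Nat.mod_lt _ (by norm_num)) (Nat.mod_lt _ (by norm_num))).1
  have ex : ((i + x : ℕ) : ℤ) = 4 * (((i + x) / 4 : ℕ) : ℤ) + (((i + x) % 4 : ℕ) : ℤ) := by
    have := Nat.div_add_mod (i + x) 4
    exact_mod_cast this.symm
  have ey : ((j + y : ℕ) : ℤ) = 4 * (((j + y) / 4 : ℕ) : ℤ) + (((j + y) % 4 : ℕ) : ℤ) := by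
    have := Nat.div_add_mod (j + y) 4
    exact_mod_cast this.symm
  have e : p + io (k * MM * 4 ^ N * i, k * 4 ^ N * j) +
      io (k * MM * 4 ^ N * x, k * 4 ^ N * y) =
      p + io (k * MM * 4 ^ (N + 1) * (((i + x) / 4 : ℕ) : ℤ),
        k * 4 ^ (N + 1) * (((j + y) / 4 : ℕ) : ℤ)) +
      io (k * MM * 4 ^ N * (((i + x) % 4 : ℕ) : ℤ), k * 4 ^ N * (((j + y) % 4 : ℕ) : ℤ)) := by
    rw [add_assoc, add_assoc, ← map_add, ← map_add]
    have e0 : ((k * MM * 4 ^ N * i, k * 4 ^ N * j) : ℤ × ℤ) +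
        (k * MM * 4 ^ N * x, k * 4 ^ N * y) =
        (k * MM * 4 ^ (N + 1) * (((i + x) / 4 : ℕ) : ℤ),
          k * 4 ^ (N + 1) * (((j + y) / 4 : ℕ) : ℤ)) +
        (k * MM * 4 ^ N * (((i + x) % 4 : ℕ) : ℤ), k * 4 ^ N * (((j + y) % 4 : ℕ) : ℤ)) := by
      apply Prod.ext
      · change k * MM * 4 ^ N * (i : ℤ) + k * MM * 4 ^ N * (x : ℤ) =
          k * MM * 4 ^ (N + 1) * (((i + x) / 4 : ℕ) : ℤ) +
            k * MM * 4 ^ N * (((i + x) % 4 : ℕ) : ℤ)
        rw [← mul_add, ← Nat.cast_add, ex, pow_succ]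
        ring
      · change k * 4 ^ N * (j : ℤ) + k * 4 ^ N * (y : ℤ) =
          k * 4 ^ (N + 1) * (((j + y) / 4 : ℕ) : ℤ) + k * 4 ^ N * (((j + y) % 4 : ℕ) : ℤ)
        rw [← mul_add, ← Nat.cast_add, ey, pow_succ]
        ring
    rw [e0]
  rw [e]
  exact h2

open scoped Classical in
include hk hloc hρ in
/-- the number of occurrences of a pattern based in a good block -/
theorem good_count {D : Finset (ℤ × ℤ)} (f : ℤ × ℤ → Lab)
    (N : ℕ) (hD : ∀ δ ∈ D, (0 ≤ δ.1 ∧ δ.1 ≤ 4 ^ N) ∧ (0 ≤ δ.2 ∧ δ.2 ≤ 4 ^ N)) {p : V}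
    (hp : GP io k P lab N p) :
    ((((Finset.Ico 0 (k * MM * 4 ^ N) ×ˢ Finset.Ico 0 (k * 4 ^ N)).filter (fun u =>
      ∀ δ ∈ D, p + io u + io δ ∈ P ∧ lab (p + io u + io δ) = f δ)).card : ℕ) : ℝ) =
      cnt k D f N (ext4 (l4 io k P lab N p)) 0 0 := by
  have hM := one_le_MM
  unfold cnt
  congr 2
  ext u
  rw [mem_filter, mem_filter]
  apply and_congr_right
  intro hu
  rw [mem_product, mem_Ico, mem_Ico] at hu
  apply forall₂_congr
  intro δ hδ
  obtain ⟨⟨a1, a2⟩, a3, a4⟩ := hD δ hδ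
  have hk1 : (4 : ℤ) ^ N ≤ k * 4 ^ N := by
    have : (0 : ℤ) < 4 ^ N := by positivity
    nlinarith
  have hk2 : k * (4 : ℤ) ^ N ≤ k * MM * 4 ^ N := by
    have : (0 : ℤ) < k * 4 ^ N := by positivity
    nlinarith
  have h := good_label hk hloc hρ N hp (x := u.1 + δ.1) (y := u.2 + δ.2) (by linarith [hu.1.1])
    (by linarith [hu.1.2]) (by linarith [hu.2.1]) (by linarith [hu.2.2])
  have e : p + io u + io δ = p + io (u.1 + δ.1, u.2 + δ.2) := by
    rw [add_assoc, ← map_add]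
    rfl
  rw [e, h.2, mul_zero, mul_zero, zero_add, zero_add]
  constructor
  · rintro ⟨_, h2⟩
    exact h2
  · intro h2
    exact ⟨h.1, h2⟩

end

end Pool.Agent.Helper42.Mk2
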