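import Pool.Agent.Helper42.Miek.Square
import Pool.Agent.Helper42.Mk2.Pattern2

set_option autoImplicit false

open MeasureTheory

namespace Pool.Agent.Helper42.Mk2

open Pool.Agent.Helper42.Miek

/-- unit squares carrying labels -/
noncomputable abbrev sqs : ProtoSet 2 where
  ι := Lab
  finite := inferInstance
  shape := fun _ => Sq 0
  nonempty := fun _ => (OSq_nonempty 0).mono (OSq_sub 0)
  compact := fun _ => Sq_compact 0
  regular := fun _ => Sq_regular 0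
  boundary := fun _ => by
    have : ((2 : ℕ) : ℝ) - 1 = 1 := by norm_num
    rw [this]
    exact Sq_boundary 0

theorem body_eq (t : sqs.Tile) : sqs.body t = Sq t.2 := by
  unfold ProtoSet.body
  change (fun x => t.2 + x) '' Sq 0 = _
  ext x
  constructor
  · rintro ⟨y, hy, rfl⟩
    obtain ⟨⟨a, b⟩, c, d⟩ := hy
    simp at a b c d
    refine ⟨⟨?_, ?_⟩, ?_, ?_⟩ <;> simp <;> linarith
  · rintro ⟨⟨a, b⟩, c, d⟩
    refine ⟨x - t.2, ⟨⟨?_, ?_⟩, ?_, ?_⟩, by simp⟩ <;> simp <;> linarith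

section rule

variable (s : ℤ)

/-- integer radius -/
noncomputable def rho : ℤ := 2 * (s * MM)

/-- the window patch of a configuration -/
def Win (s : ℤ) (c : ℤ → ℤ → Lab) : Set sqs.Tile :=
  {t | ∃ u : ℤ × ℤ, (|u.1| ≤ 2 * rho s + 2 ∧ |u.2| ≤ 2 * rho s + 2) ∧ t = (c u.1 u.2, io u)}

/-- the finite set of cells of the window -/
noncomputable def cells (s : ℤ) : Finset (ℤ × ℤ) :=
  Finset.Icc (-(2 * rho s + 2)) (2 * rho s + 2) ×ˢ Finset.Icc (-(2 * rho s + 2)) (2 * rho s + 2)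

theorem mem_cells {s : ℤ} {u : ℤ × ℤ} :
    u ∈ cells s ↔ |u.1| ≤ 2 * rho s + 2 ∧ |u.2| ≤ 2 * rho s + 2 := by
  unfold cells
  rw [Finset.mem_product, Finset.mem_Icc, Finset.mem_Icc, abs_le, abs_le]

theorem Win_eq (c : ℤ → ℤ → Lab) :
    Win s c = Set.range (fun u : cells s => ((c u.1.1 u.1.2, io u.1) : sqs.Tile)) := by
  ext t
  constructor
  · rintro ⟨u, hu, rfl⟩
    exact ⟨⟨u, mem_cells.2 hu⟩, rfl⟩
  · rintro ⟨⟨u, hu⟩, rfl⟩
    exact ⟨u, mem_cells.1 hu, rfl⟩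

theorem nonoverlap_lattice (A : Set sqs.Tile) (c : ℤ × ℤ → Lab) (p : Pl)
    (hA : ∀ t ∈ A, ∃ u : ℤ × ℤ, t = (c u, p + io u)) : sqs.NonOverlapping A := by
  intro x hx y hy hne
  obtain ⟨u, rfl⟩ := hA x hx
  obtain ⟨v, rfl⟩ := hA y hy
  rw [body_eq, body_eq, interior_Sq, interior_Sq, Set.disjoint_left]
  rintro z ⟨⟨a1, a2⟩, a3, a4⟩ ⟨⟨b1, b2⟩, b3, b4⟩
  apply hne
  have h : u = v := by
    simp only [PiLp.add_apply, io_fst, io_snd] at a1 a2 a3 a4 b1 b2 b3 b4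
    have e1 : (u.1 : ℝ) < v.1 + 1 := by linarith
    have e2 : (v.1 : ℝ) < u.1 + 1 := by linarith
    have e3 : (u.2 : ℝ) < v.2 + 1 := by linarith
    have e4 : (v.2 : ℝ) < u.2 + 1 := by linarith
    have e1' : u.1 < v.1 + 1 := by exact_mod_cast e1
    have e2' : v.1 < u.1 + 1 := by exact_mod_cast e2
    have e3' : u.2 < v.2 + 1 := by exact_mod_cast e3
    have e4' : v.2 < u.2 + 1 := by exact_mod_cast e4
    exact Prod.ext (by omega) (by omega)
  rw [h]

variable (hs : 0 < s)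

theorem rho_pos {s : ℤ} (hs : 0 < s) : 0 < rho s := by
  unfold rho
  have := MM_pos
  positivity

/-- the matching rule -/
noncomputable def rule : sqs.MatchingRule where
  r := 2 * (rho s : ℝ)
  r_pos := by
    have := rho_pos hs
    have : (0 : ℝ) < rho s := by exact_mod_cast this
    linarith
  allowed := {Q | ∃ c ∈ GG s, Q = Win s c}
  allowed_finite := by
    apply Set.Finite.subset (Set.finite_range (fun g : cells s → Lab =>
      Set.range (fun u : cells s => ((g u, io u.1) : sqs.Tile))))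
    rintro Q ⟨c, _, rfl⟩
    exact ⟨fun u => c u.1.1 u.1.2, (Win_eq s c).symm⟩
  allowed_patch := by
    rintro Q ⟨c, _, rfl⟩
    refine ⟨?_, ?_⟩
    · rw [Win_eq]
      exact Set.finite_range _
    · apply nonoverlap_lattice _ (fun u => c u.1 u.2) 0
      rintro t ⟨u, _, rfl⟩
      exact ⟨u, by rw [zero_add]⟩

variable {s hs}

/-- unpacked legality -/
theorem legal_loc {P : Set sqs.Tile} (hP : (rule s hs).Legal P) {τ : sqs.Tile}
    (hτ : τ ∈ P) : ∃ c ∈ GG s, c 0 0 = τ.1 ∧ ∀ σ ∈ P,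
      (Sq σ.2 ∩ Metric.closedBall τ.2 (2 * (rho s : ℝ))).Nonempty →
      ∃ u : ℤ × ℤ, σ.2 = τ.2 + io u ∧ σ.1 = c u.1 u.2 := by
  obtain ⟨Q, ⟨c, hc, rfl⟩, Q', hQ', v, hv⟩ := hP τ.2
  have hr : (rule s hs).r = 2 * (rho s : ℝ) := rfl
  rw [hr] at hv
  have key : ∀ σ ∈ P, (Sq σ.2 ∩ Metric.closedBall τ.2 (2 * (rho s : ℝ))).Nonempty →
      ∃ u : ℤ × ℤ, σ.2 = v + io u ∧ σ.1 = c u.1 u.2 := by
    intro σ hσ hne
    have h1 : σ ∈ {t | t ∈ P ∧ (sqs.body t ∩ Metric.closedBall τ.2 (2 * (rho s : ℝ))).Nonempty} :=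
      ⟨hσ, by rw [body_eq]; exact hne⟩
    rw [hv] at h1
    obtain ⟨t, ht, h2⟩ := h1
    obtain ⟨u, _, h3⟩ := hQ' ht
    refine ⟨u, ?_, ?_⟩
    · rw [← h2, h3]
      exact add_comm _ _
    · rw [← h2, h3]
  have hself : (Sq τ.2 ∩ Metric.closedBall τ.2 (2 * (rho s : ℝ))).Nonempty := by
    refine ⟨τ.2, ⟨⟨⟨le_refl _, by linarith⟩, le_refl _, by linarith⟩, ?_⟩⟩
    apply Metric.mem_closedBall_self
    have := rho_pos hs
    have : (0 : ℝ) < rho s := by exact_mod_cast this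
    linarith
  obtain ⟨z, hz1, hz2⟩ := key τ hτ hself
  refine ⟨_, GG_shift hc z.1 z.2, ?_, ?_⟩
  · simp only [zero_add]
    exact hz2.symm
  · intro σ hσ hne
    obtain ⟨u, hu1, hu2⟩ := key σ hσ hne
    refine ⟨u - z, ?_, ?_⟩
    · rw [hu1, hz1, map_sub]
      abel
    · rw [hu2]
      simp

/-- positions -/
def Pos (P : Set sqs.Tile) : Set Pl := {p | ∃ l : Lab, ((l, p) : sqs.Tile) ∈ P}

open scoped Classical in
/-- label at a position -/
noncomputable def lab (P : Set sqs.Tile) (p : Pl) : Lab :=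
  if h : ∃ l : Lab, ((l, p) : sqs.Tile) ∈ P then h.choose else none

theorem lab_mem {P : Set sqs.Tile} {p : Pl} (hp : p ∈ Pos P) :
    ((lab P p, p) : sqs.Tile) ∈ P := by
  have h : ∃ l : Lab, ((l, p) : sqs.Tile) ∈ P := hp
  unfold lab
  rw [dif_pos h]
  exact h.choose_spec

theorem mem_ball_of {p : Pl} {a b : ℤ} (ha : |a| ≤ rho s) (hb : |b| ≤ rho s) :
    (Sq (p + io (a, b)) ∩ Metric.closedBall p (2 * (rho s : ℝ))).Nonempty := by
  refine ⟨p + io (a, b), ⟨⟨⟨le_refl _, by linarith⟩, le_refl _, by linarith⟩, ?_⟩⟩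
  rw [Metric.mem_closedBall]
  refine (dist_le_coords _ _).trans ?_
  simp only [PiLp.add_apply, io_fst, io_snd, add_sub_cancel_left]
  have h1 : |(a : ℝ)| ≤ rho s := by exact_mod_cast ha
  have h2 : |(b : ℝ)| ≤ rho s := by exact_mod_cast hb
  linarith

theorem lab_unique (hs : 0 < s) {P : Set sqs.Tile} (hP : (rule s hs).Legal P) {l : Lab}
    {p : Pl} (h : ((l, p) : sqs.Tile) ∈ P) : lab P p = l := by
  have hp : p ∈ Pos P := ⟨l, h⟩
  obtain ⟨c, hc, h0, h1⟩ := legal_loc hP h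
  have hr := rho_pos hs
  have h3 := mem_ball_of (s := s) (p := p) (a := 0) (b := 0) (by simp; omega) (by simp; omega)
  have e : io (0, 0) = 0 := map_zero io
  rw [e, add_zero] at h3
  obtain ⟨u, hu1, hu2⟩ := h1 _ (lab_mem hp) h3
  have hu : u = 0 := by
    apply io_inj
    rw [map_zero]
    have : p = p + io u := hu1
    exact (left_eq_add.1 this)
  subst hu
  have : lab P p = c 0 0 := hu2
  rw [this]
  exact h0

theorem loc_of_legal (hs : 0 < s) {P : Set sqs.Tile} (hP : (rule s hs).Legal P) :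
    Loc io s (rho s) (Pos P) (lab P) := by
  intro p hp
  obtain ⟨c, hc, h0, h1⟩ := legal_loc hP (lab_mem hp)
  refine ⟨c, hc, h0, ?_⟩
  intro a b ha hb hab
  obtain ⟨u, hu1, hu2⟩ := h1 _ (lab_mem hab) (mem_ball_of ha hb)
  have hu : (a, b) = u := by
    apply io_inj
    exact add_left_cancel hu1
  subst hu
  exact hu2

end rule

end Pool.Agent.Helper42.Mk2
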