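import Pool.Agent.Helper42.Mk2.Base2

set_option autoImplicit false

namespace Pool.Agent.Helper42.Mk2

theorem up_shift42 (t : ℤ → ℤ → W) (I J X Y : ℤ) :
    up (fun i j => t (i + I) (j + J)) X Y = up t (X + 4 * I) (Y + 4 * J) := by
  unfold up
  rw [Int.add_mul_emod_self_left, Int.add_mul_emod_self_left,
    Int.add_mul_ediv_left _ _ (by norm_num), Int.add_mul_ediv_left _ _ (by norm_num)]

theorem upn_shift42 (n : ℕ) : ∀ (t : ℤ → ℤ → W) (I J X Y : ℤ),
    upn n (fun i j => t (i + I) (j + J)) X Y = upn n t (X + 4 ^ n * I) (Y + 4 ^ n * J) := by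
  induction n with
  | zero =>
    intro t I J X Y
    simp [upn]
  | succ n ih =>
    intro t I J X Y
    change upn n (up (fun i j => t (i + I) (j + J))) X Y = upn n (up t) _ _
    have h : up (fun i j => t (i + I) (j + J)) = fun X Y => up t (X + 4 * I) (Y + 4 * J) := by
      funext X Y
      exact up_shift42 t I J X Y
    rw [h, ih (up t) (4 * I) (4 * J) X Y]
    congr 1 <;> ring

theorem upn_congr42 (n : ℕ) : ∀ (t t' : ℤ → ℤ → W) (M N : ℤ),
    (∀ i j, 0 ≤ i → i < M → 0 ≤ j → j < N → t i j = t' i j) →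
    ∀ X Y, 0 ≤ X → X < 4 ^ n * M → 0 ≤ Y → Y < 4 ^ n * N → upn n t X Y = upn n t' X Y := by
  induction n with
  | zero =>
    intro t t' M N h X Y hX hX' hY hY'
    rw [pow_zero, one_mul] at hX' hY'
    exact h X Y hX hX' hY hY'
  | succ n ih =>
    intro t t' M N h X Y hX hX' hY hY'
    change upn n (up t) X Y = upn n (up t') X Y
    apply ih (up t) (up t') (4 * M) (4 * N) _ X Y hX (by rw [pow_succ] at hX'; linarith) hY
      (by rw [pow_succ] at hY'; linarith)
    intro i j hi hi' hj hj'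
    unfold up
    rw [h (i / 4) (j / 4) (by omega) (by omega) (by omega) (by omega)]

/-- shift of an encoded supertile -/
theorem enc_upn_shift {k : ℤ} (hk : 0 < k) (n : ℕ) (t : ℤ → ℤ → W) (I J x y : ℤ) :
    enc k (upn n t) (x + k * MM * 4 ^ n * I) (y + k * 4 ^ n * J) =
      enc k (upn n (fun i j => t (i + I) (j + J))) x y := by
  have e1 : k * MM * 4 ^ n * I = k * MM * (4 ^ n * I) := by ring
  have e2 : k * 4 ^ n * J = k * (4 ^ n * J) := by ring
  rw [e1, e2, enc_shift hk]
  congr 1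
  funext X Y
  rw [upn_shift42]

/-- the labels in an encoded supertile depend only on its letter -/
theorem enc_upn_congr {k : ℤ} (hk : 0 < k) (n : ℕ) {t t' : ℤ → ℤ → W} (h : t 0 0 = t' 0 0)
    {x y : ℤ} (hx : 0 ≤ x) (hx' : x < k * MM * 4 ^ n) (hy : 0 ≤ y) (hy' : y < k * 4 ^ n) :
    enc k (upn n t) x y = enc k (upn n t') x y := by
  have hM := MM_pos
  have hkM0 : 0 < k * MM := by positivity
  have m1 := Int.emod_nonneg x hkM0.ne'
  have m2 := Int.emod_lt_of_pos x hkM0
  have m3 := Int.emod_nonneg y hk.ne'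
  have m4 := Int.emod_lt_of_pos y hk
  have d1 := Int.emod_add_mul_ediv x (k * MM)
  have d2 := Int.emod_add_mul_ediv y k
  have q1 : 0 ≤ x / (k * MM) := Int.ediv_nonneg hx hkM0.le
  have q2 : x / (k * MM) < 4 ^ n := by
    apply Int.ediv_lt_of_lt_mul hkM0
    rw [mul_comm]
    exact hx'
  have q3 : 0 ≤ y / k := Int.ediv_nonneg hy hk.le
  have q4 : y / k < 4 ^ n := by
    apply Int.ediv_lt_of_lt_mul hk
    rw [mul_comm]
    exact hy'
  rw [← d1, ← d2, enc_shift hk, enc_shift hk]
  apply enc_zero_block' hk _ m1 m2 m3 m4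
  simp only [zero_add]
  apply upn_congr42 n t t' 1 1 _ _ _ q1 (by rw [mul_one]; exact q2) q3 (by rw [mul_one]; exact q4)
  intro i j hi hi' hj hj'
  have e1 : i = 0 := by omega
  have e2 : j = 0 := by omega
  rw [e1, e2, h]

/-- a configuration with four given letters on the quadrants -/
def ext4 (l : W4) (X Y : ℤ) : W :=
  if X ≤ 0 then (if Y ≤ 0 then l.1 else l.2.2.1) else (if Y ≤ 0 then l.2.1 else l.2.2.2)

theorem w4_ext4 (l : W4) : w4 (ext4 l) 0 0 = l := by
  unfold w4 ext4
  simp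

end Pool.Agent.Helper42.Mk2
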